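import Pool.Agent.SLR.StL

/-!
# SLR, LA: formal properties of lattices
-/

set_option autoImplicit false
set_option linter.unusedVariables false

noncomputable section

namespace Pool.Agent.SLR

open Pool.Agent.SLZ

theorem la_coeff (k j : ℤ) (p : LaurentPolynomial ℤ) :
    ((LaurentPolynomial.T k : LaurentPolynomial ℤ) * p).coeff j = p.coeff (j - k) := by
  have h := AddMonoidAlgebra.coeff_single_mul_eq_mul_coeff (R := ℤ) (r := (1 : ℤ)) (m := k)
    (x := p) (m₁ := j) (j - k) (by intro a _; constructor <;> intro h <;> omega)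
  rw [one_mul] at h
  exact h

variable {n : ℕ}

theorem la_shc (k : ℤ) (x : E n) (i : Fin n) (j : ℤ) :
    (((LaurentPolynomial.T k : LaurentPolynomial ℤ) • x) i).coeff j = (x i).coeff (j - k) := by
  rw [Pi.smul_apply, smul_eq_mul, la_coeff]

theorem la_mem (k : ℤ) (L : Submodule ℤ (E n)) (x : E n) :
    x ∈ tw k L ↔ (LaurentPolynomial.T (-k) : LaurentPolynomial ℤ) • x ∈ L := Iff.rfl

theorem la_TT (j k : ℤ) (x : E n) : (LaurentPolynomial.T j : LaurentPolynomial ℤ) •
    ((LaurentPolynomial.T k : LaurentPolynomial ℤ) • x) =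
      (LaurentPolynomial.T (j + k) : LaurentPolynomial ℤ) • x := by
  rw [← mul_smul, ← LaurentPolynomial.T_add]

theorem la_tw (L : Submodule ℤ (E n)) (j k : ℤ) : tw j (tw k L) = tw (j + k) L := by
  ext x
  rw [la_mem, la_mem, la_mem, la_TT]
  have : -k + -j = -(j + k) := by ring
  rw [this]

theorem la_tw0 (L : Submodule ℤ (E n)) : tw 0 L = L := by
  ext x
  rw [la_mem, neg_zero, LaurentPolynomial.T_zero, one_smul]

theorem la_mono {L L' : Submodule ℤ (E n)} (k : ℤ) (h : L ≤ L') : tw k L ≤ tw k L' := by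
  intro x hx
  exact h hx

theorem la_mono_iff (L L' : Submodule ℤ (E n)) (k : ℤ) : tw k L ≤ tw k L' ↔ L ≤ L' := by
  constructor
  · intro h
    have h1 := la_mono (-k) h
    rwa [la_tw, la_tw, neg_add_cancel, la_tw0, la_tw0] at h1
  · exact la_mono k

theorem la_inf (L L' : Submodule ℤ (E n)) (k : ℤ) : tw k (L ⊓ L') = tw k L ⊓ tw k L' := rfl

theorem la_sup (L L' : Submodule ℤ (E n)) (k : ℤ) : tw k (L ⊔ L') = tw k L ⊔ tw k L' := by
  apply le_antisymm
  · have h : L ⊔ L' ≤ tw (-k) (tw k L ⊔ tw k L') := by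
      apply sup_le
      · have h1 := la_mono (-k) (le_sup_left : tw k L ≤ tw k L ⊔ tw k L')
        rwa [la_tw, neg_add_cancel, la_tw0] at h1
      · have h1 := la_mono (-k) (le_sup_right : tw k L' ≤ tw k L ⊔ tw k L')
        rwa [la_tw, neg_add_cancel, la_tw0] at h1
    have h2 := la_mono k h
    rwa [la_tw, add_neg_cancel, la_tw0] at h2
  · exact sup_le (la_mono k le_sup_left) (la_mono k le_sup_right)

theorem la_stt (L : Submodule ℤ (E n)) (k : ℤ) : tw k (stt L) = stt (tw k L) := by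
  ext x
  constructor
  · rintro ⟨m, hm, h⟩
    refine ⟨m, hm, ?_⟩
    rw [la_mem, smul_comm]
    exact h
  · rintro ⟨m, hm, h⟩
    refine ⟨m, hm, ?_⟩
    rw [la_mem, smul_comm] at h
    exact h

theorem la_sat (L : Submodule ℤ (E n)) (k : ℤ) (h : Sat L) : Sat (tw k L) := by
  intro a v ha hv
  rw [la_mem, smul_comm] at hv
  exact h a _ ha hv

theorem la_le_stt (X : Submodule ℤ (E n)) : X ≤ stt X := by
  intro x hx
  exact ⟨1, one_ne_zero, by rwa [one_smul]⟩

theorem la_sat_stt (X : Submodule ℤ (E n)) : Sat (stt X) := by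
  rintro a v ha ⟨k, hk, h⟩
  refine ⟨k * a, mul_ne_zero hk ha, ?_⟩
  rwa [mul_smul]

theorem la_stt_le {X Y : Submodule ℤ (E n)} (h : X ≤ Y) (hY : Sat Y) : stt X ≤ Y := by
  rintro x ⟨k, hk, hx⟩
  exact hY k x hk (h hx)

theorem la_stt_mono {X Y : Submodule ℤ (E n)} (h : X ≤ Y) : stt X ≤ stt Y :=
  la_stt_le (h.trans (la_le_stt Y)) (la_sat_stt Y)

theorem la_V (k : ℤ) (x : E n) : x ∈ tw k (V n) ↔ ∀ (i : Fin n) (l : ℤ), l < k →
    (x i).coeff l = 0 := by
  rw [la_mem]
  constructor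
  · intro h i l hl
    have h1 := h i (l - k) (by omega)
    rw [la_shc] at h1
    rwa [show l - k - -k = l by ring] at h1
  · intro h i l hl
    rw [la_shc]
    exact h i _ (by omega)

theorem la_L0 (k : ℤ) (x : E n) : x ∈ tw k (L0 n) ↔ ∀ (i : Fin n) (l : ℤ), k < l →
    (x i).coeff l = 0 := by
  rw [la_mem]
  constructor
  · intro h i l hl
    have h1 := h i (l - k) (by omega)
    rw [la_shc] at h1
    rwa [show l - k - -k = l by ring] at h1
  · intro h i l hl
    rw [la_shc]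
    exact h i _ (by omega)

/-- the part of degree `≥ 0` -/
def la_pos (x : E n) : E n := fun i =>
  AddMonoidAlgebra.ofCoeff ((x i).coeff.filter (fun l => 0 ≤ l))

theorem la_pos_coeff (x : E n) (i : Fin n) (l : ℤ) :
    (la_pos x i).coeff l = if 0 ≤ l then (x i).coeff l else 0 := by
  change ((x i).coeff.filter (fun l => 0 ≤ l)) l = _
  rw [Finsupp.filter_apply]

theorem la_pos_V (x : E n) : la_pos x ∈ V n := by
  intro i l hl
  rw [la_pos_coeff, if_neg (by omega)]

theorem la_sub_coeff (x y : E n) (i : Fin n) (l : ℤ) :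
    ((x - y) i).coeff l = (x i).coeff l - (y i).coeff l := by
  rw [Pi.sub_apply, AddMonoidAlgebra.coeff_sub, Finsupp.sub_apply]

theorem la_smul_coeff (c : ℤ) (x : E n) (i : Fin n) (l : ℤ) :
    ((c • x) i).coeff l = c * (x i).coeff l := by
  rw [Pi.smul_apply, AddMonoidAlgebra.coeff_smul, Finsupp.smul_apply, smul_eq_mul]

theorem la_add_coeff (x y : E n) (i : Fin n) (l : ℤ) :
    ((x + y) i).coeff l = (x i).coeff l + (y i).coeff l := by
  rw [Pi.add_apply, AddMonoidAlgebra.coeff_add, Finsupp.add_apply]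

theorem la_ext {x y : E n} (h : ∀ (i : Fin n) (l : ℤ), (x i).coeff l = (y i).coeff l) : x = y := by
  funext i
  exact LaurentPolynomial.ext (h i)

theorem la_top : V n ⊔ tw (-1) (L0 n) = ⊤ := by
  rw [eq_top_iff]
  intro x _
  have h : x = la_pos x + (x - la_pos x) := by rw [add_sub_cancel]
  rw [h]
  refine Submodule.add_mem_sup (la_pos_V x) ?_
  rw [la_L0]
  intro i l hl
  rw [la_sub_coeff, la_pos_coeff, if_pos (by omega), sub_self]

theorem la_L0_le {j k : ℤ} (h : j ≤ k) : tw j (L0 n) ≤ tw k (L0 n) := by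
  intro x hx
  rw [la_L0] at hx ⊢
  intro i l hl
  exact hx i l (by omega)

theorem la_L0_lat : IsLat (L0 n) := by
  have h0 := la_tw0 (L0 n)
  refine ⟨?_, ⟨0, ?_, ?_⟩, ?_⟩
  · conv_rhs => rw [← h0]
    exact la_L0_le (by omega)
  · simp only [Nat.cast_zero, neg_zero]
    rw [h0]
  · simp only [Nat.cast_zero]
    rw [h0]
  · intro a v ha hv i l hl
    have h := hv i l hl
    rw [la_smul_coeff] at h
    exact (mul_eq_zero.mp h).resolve_left ha

theorem la_sub_nat {L : Submodule ℤ (E n)} (h : IsLat L) (m : ℕ) : tw (-(m : ℤ)) L ≤ L := by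
  induction m with
  | zero => simp only [Nat.cast_zero, neg_zero]; rw [la_tw0]
  | succ m ih =>
    have h1 := la_mono (-(m : ℤ)) h.sub
    rw [la_tw] at h1
    have h2 : (-(m : ℤ)) + -1 = -((m + 1 : ℕ) : ℤ) := by push_cast; ring
    rw [h2] at h1
    exact h1.trans ih

theorem la_le {L : Submodule ℤ (E n)} (h : IsLat L) {j k : ℤ} (hjk : j ≤ k) :
    tw j L ≤ tw k L := by
  have h1 := la_mono k (la_sub_nat h (k - j).toNat)
  rw [la_tw] at h1
  have h2 : k + -((k - j).toNat : ℤ) = j := by omega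
  rwa [h2] at h1

theorem la_twlat {L : Submodule ℤ (E n)} (h : IsLat L) (k : ℤ) : IsLat (tw k L) := by
  obtain ⟨m, h1, h2⟩ := h.bdd
  refine ⟨?_, ⟨m + k.natAbs, ?_, ?_⟩, la_sat L k h.sat⟩
  · rw [la_tw, add_comm, ← la_tw]
    exact la_mono k h.sub
  · have h3 := la_mono k h1
    rw [la_tw] at h3
    exact (la_L0_le (by omega)).trans h3
  · have h3 := la_mono k h2
    rw [la_tw] at h3
    exact h3.trans (la_L0_le (by omega))

theorem la_inflat {L L' : Submodule ℤ (E n)} (h : IsLat L) (h' : IsLat L') :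
    IsLat (L ⊓ L') := by
  obtain ⟨m, h1, h2⟩ := h.bdd
  obtain ⟨m', h1', h2'⟩ := h'.bdd
  refine ⟨?_, ⟨m + m', ?_, ?_⟩, ?_⟩
  · rw [la_inf]
    exact inf_le_inf h.sub h'.sub
  · exact le_inf ((la_L0_le (by push_cast; omega)).trans h1)
      ((la_L0_le (by push_cast; omega)).trans h1')
  · exact (inf_le_left.trans h2).trans (la_L0_le (by push_cast; omega))
  · intro a v ha hv
    exact ⟨h.sat a v ha hv.1, h'.sat a v ha hv.2⟩

theorem la_suplat {L L' : Submodule ℤ (E n)} (h : IsLat L) (h' : IsLat L') :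
    IsLat (stt (L ⊔ L')) := by
  obtain ⟨m, h1, h2⟩ := h.bdd
  obtain ⟨m', h1', h2'⟩ := h'.bdd
  refine ⟨?_, ⟨m + m', ?_, ?_⟩, la_sat_stt _⟩
  · rw [la_stt, la_sup]
    exact la_stt_mono (sup_le_sup h.sub h'.sub)
  · exact ((la_L0_le (by push_cast; omega)).trans h1).trans (le_sup_left.trans (la_le_stt _))
  · refine la_stt_le (sup_le (h2.trans (la_L0_le (by push_cast; omega)))
      (h2'.trans (la_L0_le (by push_cast; omega)))) (la_sat _ _ la_L0_lat.sat)

theorem la_LeA {L : Submodule ℤ (E n)} (h : IsLat L) : ∃ a, LeA a L := by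
  obtain ⟨m, h1, h2⟩ := h.bdd
  refine ⟨m, ?_⟩
  intro p hp x hx y hy z hxyz
  have h3 := la_mono (-((m : ℤ) + 1)) h2
  rw [la_tw] at h3
  have h4 : -((m : ℤ) + 1) + m = -1 := by ring
  rw [h4] at h3
  have hy' := h3 hy
  rw [la_L0] at hy'
  refine ⟨la_pos z, la_ext fun i l => ?_⟩
  rw [la_smul_coeff, la_pos_coeff]
  split_ifs with hl
  · rw [hxyz, la_add_coeff, la_smul_coeff, hy' i l (by omega), zero_add]
  · rw [hx i l (by omega), mul_zero]

theorem la_Pos {L : Submodule ℤ (E n)} (h : IsLat L) :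
    ∃ m : ℕ, ∀ k : ℤ, m ≤ k → Pos (tw k L) := by
  obtain ⟨m, h1, h2⟩ := h.bdd
  refine ⟨m + 1, ?_⟩
  intro k hk
  unfold Pos
  rw [la_tw, eq_top_iff, ← la_top (n := n)]
  refine sup_le_sup le_rfl ?_
  have h3 := la_mono (-1 + k) h1
  rw [la_tw] at h3
  exact (la_L0_le (by push_cast at hk; omega)).trans h3

/-- **LA** -/
theorem thm_LA : St_LA := by
  intro n
  refine ⟨fun L j k => ⟨la_tw L j k, la_tw0 L⟩,
    fun L L' k => ⟨la_mono_iff L L' k, la_inf L L' k, la_sup L L' k, la_stt L k, la_sat L k⟩,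
    fun L h j k hjk => la_le h hjk, ?_, ?_, ?_, fun L h => la_LeA h, ?_, fun L h => la_Pos h, ?_,
    fun X => ⟨la_le_stt X, la_sat_stt X⟩, fun X Y h hY => la_stt_le h hY⟩
  · intro j k hjk x hx
    rw [la_V] at hx ⊢
    intro i l hl
    exact hx i l (by omega)
  · refine ⟨?_, la_L0_lat, ?_, ?_, la_top⟩
    · intro a v ha hv i l hl
      have h := hv i l hl
      rw [la_smul_coeff] at h
      exact (mul_eq_zero.mp h).resolve_left ha
    · rw [eq_top_iff, ← la_top (n := n)]
      exact sup_le_sup le_rfl la_L0_lat.sub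
    · rw [eq_bot_iff]
      rintro x ⟨h1, h2⟩
      have h3 := (la_L0 (-1) x).mp h2
      rw [Submodule.mem_bot]
      refine la_ext fun i l => ?_
      rw [Pi.zero_apply, AddMonoidAlgebra.coeff_zero, Finsupp.zero_apply]
      by_cases hl : l < 0
      · exact h1 i l hl
      · exact h3 i l (by omega)
  · intro L L' h h'
    refine ⟨la_twlat h, la_inflat h h', la_suplat h h',
      le_antisymm (la_stt_le le_rfl h.sat) (la_le_stt L), ?_⟩
    obtain ⟨m, h1, h2⟩ := h.bdd
    obtain ⟨m', h1', h2'⟩ := h'.bdd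
    refine ⟨m + m', ?_, ?_⟩
    · have h3 := la_mono (-((m + m' : ℕ) : ℤ)) h2
      rw [la_tw] at h3
      have h4 : -((m + m' : ℕ) : ℤ) + m = -(m' : ℤ) := by push_cast; ring
      rw [h4] at h3
      exact h3.trans h1'
    · have h3 := la_mono (((m + m' : ℕ) : ℤ)) h1
      rw [la_tw] at h3
      have h4 : ((m + m' : ℕ) : ℤ) + -(m : ℤ) = (m' : ℤ) := by push_cast; ring
      rw [h4] at h3
      exact h2'.trans h3
  · intro L L' a b h' hLL hab hA p hp x hx y hy z hxyz
    have h1 : y ∈ tw (-((b : ℤ) + 1)) L' := la_mono _ hLL hy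
    have h2 : y ∈ tw (-((a : ℤ) + 1)) L' := la_le h' (by omega) h1
    exact hA p hp x hx y h2 z hxyz
  · intro L L' hLL hP
    unfold Pos at hP ⊢
    rw [eq_top_iff, ← hP]
    exact sup_le_sup le_rfl (la_mono _ hLL)

end Pool.Agent.SLR
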