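import Pool.Agent.SLR.StB
import Pool.Agent.SLR.LA

/-!
# SLR, part B: global sections of a good lattice (helper63)
-/

set_option autoImplicit false
set_option linter.unusedVariables false

noncomputable section

namespace Pool.Agent.SLR

open Pool.Agent.SLZ

variable {n : ℕ}

theorem ba_ss (j k : ℤ) (x : E n) : sh n j (sh n k x) = sh n (j + k) x := la_TT j k x

theorem ba_s0 (x : E n) : sh n 0 x = x := by
  show (LaurentPolynomial.T 0 : LaurentPolynomial ℤ) • x = x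
  rw [LaurentPolynomial.T_zero, one_smul]

theorem ba_mem (k : ℤ) (L : Submodule ℤ (E n)) (x : E n) : x ∈ tw k L ↔ sh n (-k) x ∈ L := Iff.rfl

theorem ba_exh {L : Submodule ℤ (E n)} (hL : IsLat L) (x : E n) : ∃ m : ℕ, x ∈ tw m L := by
  classical
  obtain ⟨m, hm, -⟩ := hL.bdd
  -- bound of the degrees of x
  have h1 : ∃ N : ℕ, ∀ (i : Fin n) (l : ℤ), (N : ℤ) < l → (x i).coeff l = 0 := by
    let F : Finset ℤ := Finset.univ.biUnion fun i : Fin n => (x i).coeff.support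
    refine ⟨(F.sup fun l => l.natAbs), fun i l hl => ?_⟩
    by_contra h
    have h2 : l ∈ F := Finset.mem_biUnion.2 ⟨i, Finset.mem_univ _, Finsupp.mem_support_iff.2 h⟩
    have h3 : l.natAbs ≤ F.sup fun l => l.natAbs := Finset.le_sup (f := fun l : ℤ => l.natAbs) h2
    omega
  obtain ⟨N, hN⟩ := h1
  refine ⟨N + m, ?_⟩
  have h2 : x ∈ tw (N : ℤ) (L0 n) := (la_L0 (N : ℤ) x).2 fun i l hl => hN i l hl
  have h3 : tw ((N + m : ℕ) : ℤ) (tw (-(m : ℤ)) (L0 n)) ≤ tw ((N + m : ℕ) : ℤ) L := la_mono _ hm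
  rw [la_tw] at h3
  refine h3 ?_
  have h4 : ((N + m : ℕ) : ℤ) + -(m : ℤ) = N := by push_cast; ring
  rw [h4]
  exact h2

theorem ba_iter {S : Submodule ℤ (E n)} (hS : ∀ x ∈ S, sh n 1 x ∈ S) (m : ℕ) :
    ∀ x ∈ S, sh n m x ∈ S := by
  induction m with
  | zero => intro x hx; rw [Nat.cast_zero, ba_s0]; exact hx
  | succ m ih =>
    intro x hx
    have h := ih _ (hS x hx)
    rw [ba_ss] at h
    have e : ((m + 1 : ℕ) : ℤ) = (m : ℤ) + 1 := by push_cast; ring
    rw [e]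
    exact h

theorem thm_BA (hLA : St_LA) : St_BA := by
  intro n L hG
  obtain ⟨hLat, hPos, hLe⟩ := hG
  obtain ⟨a1, a2, a3, a4, ⟨aV, -⟩, a6, -, -, -, a10, -, -⟩ := hLA n
  have hsub : tw (-1) L ≤ L := hLat.sub
  have hsat : Sat L := hLat.sat
  have hsat1 : Sat (tw (-1) L) := (a2 L L (-1)).2.2.2.2 hsat
  -- (1)
  have c1 : ∀ x : ↥L, ∃ h : ↥L, (h : E n) ∈ V n ∧
      (Submodule.Quotient.mk h : Fq L) = Submodule.Quotient.mk x := by
    intro x
    have hx : (x : E n) ∈ V n ⊔ tw (-1) L := by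
      have h : V n ⊔ tw (-1) L = ⊤ := hPos
      rw [h]; exact Submodule.mem_top
    obtain ⟨v, hv, y, hy, hxy⟩ := Submodule.mem_sup.1 hx
    have hvL : v ∈ L := by
      have e : v = x - y := by rw [← hxy]; abel
      rw [e]
      exact L.sub_mem x.2 (hsub hy)
    refine ⟨⟨v, hvL⟩, hv, ?_⟩
    rw [Submodule.Quotient.eq]
    show ((⟨v, hvL⟩ : ↥L) - x : ↥L).1 ∈ tw (-1) L
    have e : ((⟨v, hvL⟩ : ↥L) - x : ↥L).1 = -y := by
      show v - (x : E n) = -y
      rw [← hxy]; abel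
    rw [e]
    exact (tw (-1) L).neg_mem hy
  -- (2)
  have c2 : ∀ S : Submodule ℤ (E n), V n ⊓ L ≤ S → (∀ x ∈ S, sh n 1 x ∈ S) → V n ≤ S := by
    intro S hVS hS
    have key : ∀ (m : ℕ) (v : E n), v ∈ V n → v ∈ tw (m : ℤ) L → v ∈ S := by
      intro m
      induction m with
      | zero =>
        intro v hv hvL
        rw [Nat.cast_zero, (a1 L 0 0).2] at hvL
        exact hVS ⟨hv, hvL⟩
      | succ m ih =>
        intro v hv hvL
        have e : (-((m + 1 : ℕ) : ℤ)) = -(m : ℤ) + -1 := by push_cast; ring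
        have hw : sh n (-((m + 1 : ℕ) : ℤ)) v ∈ L := hvL
        obtain ⟨h, hh, hq⟩ := c1 ⟨_, hw⟩
        rw [Submodule.Quotient.eq] at hq
        have hy : (h : E n) - sh n (-((m + 1 : ℕ) : ℤ)) v ∈ tw (-1) L := hq
        have hyL : sh n 1 ((h : E n) - sh n (-((m + 1 : ℕ) : ℤ)) v) ∈ L := by
          have := (ba_mem (-1) L _).1 hy
          rwa [neg_neg] at this
        -- v = t^(m+1) h - t^(m+1) y
        have h1 : sh n ((m + 1 : ℕ) : ℤ) (h : E n) ∈ S := ba_iter hS (m + 1) _ (hVS ⟨hh, h.2⟩)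
        have hVt : ∀ x ∈ V n, sh n 1 x ∈ V n := by
          intro x hx
          have h2 : tw 1 (V n) ≤ tw 0 (V n) := a4 0 1 (by norm_num)
          have h3 : sh n 1 x ∈ tw 1 (V n) := by
            rw [ba_mem, ba_ss, neg_add_cancel, ba_s0]; exact hx
          have h4 := h2 h3
          rwa [(a1 (V n) 0 0).2] at h4
        have h1V : sh n ((m + 1 : ℕ) : ℤ) (h : E n) ∈ V n := ba_iter hVt (m + 1) _ hh
        have h2 : sh n ((m + 1 : ℕ) : ℤ) (h : E n) - v ∈ S := by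
          refine ih _ ((V n).sub_mem h1V hv) ?_
          rw [ba_mem, map_sub, ba_ss]
          have e2 : -(m : ℤ) + ((m + 1 : ℕ) : ℤ) = 1 := by push_cast; ring
          rw [e2]
          have e3 : sh n (-(m : ℤ)) v = sh n 1 (sh n (-((m + 1 : ℕ) : ℤ)) v) := by
            rw [ba_ss]
            congr 1
            have : (1 : ℤ) + -((m + 1 : ℕ) : ℤ) = -(m : ℤ) := by push_cast; ring
            rw [this]
          rw [e3, ← map_sub]
          exact hyL
        have h3 := S.sub_mem h1 h2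
        rwa [sub_sub_cancel] at h3
    intro v hv
    obtain ⟨m, hm⟩ := ba_exh hLat v
    exact key m v hv hm
  -- (3)
  have c3 : ∀ u ∈ I1 L, ∃ h ∈ V n, h ∈ tw (-1) L ∧ ∃ h1 : ↥L, (h1 : E n) = sh n 1 h ∧
      (Submodule.Quotient.mk h1 : Fq L) = u := by
    rintro u ⟨w, hw, rfl⟩
    have hw1 : sh n (-1) (w : E n) ∈ V n := hw
    refine ⟨sh n (-1) (w : E n), hw1, ?_, w, ?_, rfl⟩
    · rw [ba_mem, ba_ss]
      have e : -(-1 : ℤ) + -1 = 0 := by norm_num
      rw [e, ba_s0]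
      exact w.2
    · rw [ba_ss]
      have e : (1 : ℤ) + -1 = 0 := by norm_num
      rw [e, ba_s0]
  refine ⟨c1, c2, c3, ?_⟩
  -- (4)
  have prime : ∀ p : ℕ, p.Prime → ∀ z : Fq L, (p : ℤ) • z ∈ I1 L → z ∈ I1 L := by
    intro p hp z hz
    obtain ⟨x0, rfl⟩ := Submodule.Quotient.mk_surjective _ z
    obtain ⟨x, hxV, hxe⟩ := c1 x0
    rw [← hxe] at hz ⊢
    obtain ⟨h, hhV, hhL, h1, hh1, hh2⟩ := c3 _ hz
    have hq : (h1 : E n) - (p : ℤ) • (x : E n) ∈ tw (-1) L := by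
      have h3 : (Submodule.Quotient.mk h1 : Fq L) = Submodule.Quotient.mk ((p : ℤ) • x) := by
        rw [hh2]; rfl
      rw [Submodule.Quotient.eq] at h3
      exact h3
    -- h = - s y + p s x
    have hsy : sh n (-1) ((h1 : E n) - (p : ℤ) • (x : E n)) ∈ tw (-((1 : ℕ) + 1 : ℤ)) L := by
      rw [ba_mem, ba_ss]
      have e : (-(-((1 : ℕ) + 1 : ℤ)) + -1 : ℤ) = -(-1) := by norm_num
      rw [e]
      exact (ba_mem (-1) L _).1 hq
    have hh : h = sh n (-1) ((h1 : E n) - (p : ℤ) • (x : E n)) + (p : ℤ) • sh n (-1) (x : E n) := by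
      rw [map_sub, map_smul, sub_add_cancel, hh1, ba_ss, neg_add_cancel, ba_s0]
    obtain ⟨h', hh'⟩ := hLe p hp h hhV _ hsy _ hh
    have hp0 : (p : ℤ) ≠ 0 := by exact_mod_cast hp.ne_zero
    have hh'V : h' ∈ V n := aV (p : ℤ) h' hp0 (hh' ▸ hhV)
    have hh'L : h' ∈ tw (-1) L := hsat1 (p : ℤ) h' hp0 (hh' ▸ hhL)
    have hh'1 : sh n 1 h' ∈ L := by
      have := (ba_mem (-1) L _).1 hh'L
      rwa [neg_neg] at this
    refine ⟨⟨sh n 1 h', hh'1⟩, ?_, ?_⟩
    · show sh n (-1) (sh n 1 h') ∈ V n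
      rw [ba_ss, neg_add_cancel, ba_s0]
      exact hh'V
    · show (Submodule.Quotient.mk (⟨sh n 1 h', hh'1⟩ : ↥L) : Fq L) = Submodule.Quotient.mk x
      rw [Submodule.Quotient.eq]
      show sh n 1 h' - (x : E n) ∈ tw (-1) L
      refine hsat1 (p : ℤ) _ hp0 ?_
      rw [smul_sub, ← map_smul, ← hh', ← hh1]
      exact hq
  have nat : ∀ k : ℕ, k ≠ 0 → ∀ z : Fq L, (k : ℤ) • z ∈ I1 L → z ∈ I1 L := by
    intro k
    induction k using induction_on_primes with
    | zero => intro h; exact absurd rfl h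
    | one => intro _ z hz; rwa [Nat.cast_one, one_smul] at hz
    | prime_mul p a hp ih =>
      intro h0 z hz
      have ha : a ≠ 0 := by rintro rfl; exact h0 (mul_zero _)
      refine ih ha z (prime p hp _ ?_)
      rw [← mul_smul]
      have e : (p : ℤ) * (a : ℤ) = ((p * a : ℕ) : ℤ) := by push_cast; ring
      rw [e]
      exact hz
  intro k z hk hz
  rcases Int.natAbs_eq k with h | h
  · exact nat k.natAbs (Int.natAbs_ne_zero.2 hk) z (by rw [← h]; exact hz)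
  · refine nat k.natAbs (Int.natAbs_ne_zero.2 hk) z ?_
    have e : ((k.natAbs : ℕ) : ℤ) • z = -(k • z) := by
      conv_rhs => rw [h]
      rw [neg_smul, neg_neg]
    rw [e]
    exact (I1 L).neg_mem hz

end Pool.Agent.SLR
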