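import Pool.Agent.SLR.StK
import Pool.Agent.SLZ.MA
import Pool.Agent.SLZ.MB
import Pool.Agent.SLZ.MC

/-!
# SLR, module KE: duality (helper33)
-/

set_option autoImplicit false
set_option linter.unusedVariables false
set_option linter.unusedSectionVars false

noncomputable section

namespace Pool.Agent.SLR

open Pool.Agent.SLZ

lemma ke_smul {M : Type} [AddCommGroup M] [Module.Free ℤ M] {k : ℤ} {x : M} (hk : k ≠ 0)
    (h : k • x = 0) : x = 0 := by
  rcases smul_eq_zero.1 h with h | h
  · exact absurd h hk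
  · exact h

lemma ke_free_quot {M : Type} [AddCommGroup M] [Module.Finite ℤ M] (P : Submodule ℤ M) (hP : Sat P) :
    Module.Free ℤ (M ⧸ P) := by
  have : Module.IsTorsionFree ℤ (M ⧸ P) := by
    refine Module.IsTorsionFree.of_smul_eq_zero fun r m h => ?_
    obtain ⟨x, rfl⟩ := P.mkQ_surjective m
    by_cases hr : r = 0
    · exact Or.inl hr
    · refine Or.inr ?_
      rw [← map_smul, Submodule.mkQ_apply, Submodule.Quotient.mk_eq_zero] at h
      rw [Submodule.mkQ_apply, Submodule.Quotient.mk_eq_zero]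
      exact hP r x hr h
  exact Module.free_of_finite_type_torsion_free'

lemma ke_left {M N : Type} [AddCommGroup M] [AddCommGroup N] (f : M →ₗ[ℤ] N)
    (hf : Function.Injective f) (hq : Module.Free ℤ (N ⧸ LinearMap.range f)) :
    ∃ r : N →ₗ[ℤ] M, r ∘ₗ f = LinearMap.id := by
  obtain ⟨s, hs⟩ := Module.projective_lifting_property (LinearMap.range f).mkQ LinearMap.id
    (Submodule.mkQ_surjective _)
  let e := LinearEquiv.ofInjective f hf
  have h1 : ∀ x : N, ((LinearMap.id : N →ₗ[ℤ] N) - s ∘ₗ (LinearMap.range f).mkQ) x ∈ LinearMap.range f := by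
    intro x
    rw [← Submodule.Quotient.mk_eq_zero, ← Submodule.mkQ_apply]
    have h2 := LinearMap.congr_fun hs ((LinearMap.range f).mkQ x)
    simp only [LinearMap.comp_apply, LinearMap.id_apply] at h2
    simp only [LinearMap.sub_apply, LinearMap.comp_apply, LinearMap.id_apply, map_sub, h2, sub_self]
  refine ⟨e.symm.toLinearMap ∘ₗ LinearMap.codRestrict (LinearMap.range f) _ h1, ?_⟩
  ext x
  simp only [LinearMap.comp_apply, LinearMap.id_apply, LinearEquiv.coe_coe]
  rw [LinearEquiv.symm_apply_eq]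
  apply Subtype.ext
  simp only [LinearMap.codRestrict_apply, LinearMap.sub_apply, LinearMap.comp_apply,
    LinearMap.id_apply]
  have h3 : (LinearMap.range f).mkQ (f x) = 0 := by
    rw [Submodule.mkQ_apply, Submodule.Quotient.mk_eq_zero]
    exact LinearMap.mem_range_self f x
  rw [h3, map_zero, sub_zero]
  rfl

/-- surjectivity by duality -/
lemma ke_surj {I Q : Type} [AddCommGroup I] [Module.Free ℤ I] [Module.Finite ℤ I]
    [AddCommGroup Q] [Module.Free ℤ Q] [Module.Finite ℤ Q] (j : I →ₗ[ℤ] Q) :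
    Function.Surjective j ↔ Function.Injective j.dualMap ∧ Sat (LinearMap.range j.dualMap) := by
  constructor
  · intro hj
    refine ⟨LinearMap.dualMap_injective_of_surjective hj, ?_⟩
    obtain ⟨s, hs⟩ := Module.projective_lifting_property j LinearMap.id hj
    rintro k ψ hk ⟨φ, hφ⟩
    refine ⟨ψ ∘ₗ s, ?_⟩
    have h1 : k • (j.dualMap (ψ ∘ₗ s) - ψ) = 0 := by
      rw [smul_sub, ← hφ, ← map_smul]
      have h2 : k • (ψ ∘ₗ s) = φ := by
        rw [← LinearMap.smul_comp, ← hφ]
        ext x
        have h3 := LinearMap.congr_fun hs x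
        simp only [LinearMap.comp_apply, LinearMap.id_apply] at h3
        simp only [LinearMap.comp_apply, LinearMap.dualMap_apply, h3]
      rw [h2, sub_self]
    exact sub_eq_zero.1 (ke_smul hk h1)
  · rintro ⟨h1, h2⟩
    have h3 := ke_free_quot _ h2
    obtain ⟨r, hr⟩ := ke_left _ h1 h3
    intro y
    obtain ⟨ξ, hξ⟩ : ∃ ξ, j.dualMap.dualMap ξ = Module.Dual.eval ℤ Q y := by
      refine ⟨r.dualMap (Module.Dual.eval ℤ Q y), ?_⟩
      rw [← LinearMap.comp_apply, LinearMap.dualMap_comp_dualMap, hr, LinearMap.dualMap_id,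
        LinearMap.id_apply]
    obtain ⟨x, rfl⟩ := (Module.bijective_dual_eval ℤ I).2 ξ
    refine ⟨x, ?_⟩
    apply (Module.bijective_dual_eval ℤ Q).1
    rw [← hξ]
    have h5 := LinearMap.congr_fun (Module.Dual.eval_naturality j) x
    simp only [LinearMap.comp_apply] at h5
    exact h5.symm

section

variable {F : Type} [AddCommGroup F] [Module.Free ℤ F] [Module.Finite ℤ F]

lemma ke_sat_ann (W : Submodule ℤ F) : Sat W.dualAnnihilator := by
  intro k φ hk h
  rw [Submodule.mem_dualAnnihilator] at h ⊢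
  intro x hx
  have h1 := h x hx
  rw [LinearMap.smul_apply] at h1
  exact ke_smul hk h1

lemma ke_sat_coann (P : Submodule ℤ (Module.Dual ℤ F)) : Sat P.dualCoannihilator := by
  intro k x hk h
  rw [Submodule.mem_dualCoannihilator] at h ⊢
  intro φ hφ
  have h1 := h φ hφ
  rw [map_smul] at h1
  exact ke_smul hk h1

lemma ke_ann_co {W : Submodule ℤ F} (hW : Sat W) : W.dualAnnihilator.dualCoannihilator = W := by
  apply le_antisymm _ (Submodule.le_dualAnnihilator_dualCoannihilator W)
  intro x hx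
  rw [Submodule.mem_dualCoannihilator] at hx
  have := ke_free_quot W hW
  rw [← Submodule.Quotient.mk_eq_zero, ← Module.forall_dual_apply_eq_zero_iff ℤ]
  intro φ
  have h1 := hx (φ ∘ₗ W.mkQ) (by
    rw [Submodule.mem_dualAnnihilator]
    intro w hw
    rw [LinearMap.comp_apply, Submodule.mkQ_apply, (Submodule.Quotient.mk_eq_zero W).2 hw, map_zero])
  exact h1

lemma ke_co_ann {P : Submodule ℤ (Module.Dual ℤ F)} (hP : Sat P) :
    P.dualCoannihilator.dualAnnihilator = P := by
  apply le_antisymm _ (Submodule.le_dualCoannihilator_dualAnnihilator P)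
  intro φ hφ
  rw [Submodule.mem_dualAnnihilator] at hφ
  rw [← ke_ann_co hP, Submodule.mem_dualCoannihilator]
  intro ξ hξ
  obtain ⟨x, rfl⟩ := (Module.bijective_dual_eval ℤ F).2 ξ
  rw [Submodule.mem_dualAnnihilator] at hξ
  rw [Module.Dual.eval_apply]
  apply hφ
  rw [Submodule.mem_dualCoannihilator]
  intro ψ hψ
  exact hξ ψ hψ

lemma ke_rank {W : Submodule ℤ F} (hW : Sat W) :
    Module.finrank ℤ W.dualAnnihilator + Module.finrank ℤ W = Module.finrank ℤ F := by
  have := ke_free_quot W hW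
  rw [← LinearEquiv.finrank_eq (Submodule.dualQuotEquivDualAnnihilator W),
    Module.finrank_linearMap_self, Submodule.finrank_quotient_add_finrank]

/-- the translation of the condition `W ⊔ I = ⊤` -/
lemma ke_iff {W : Submodule ℤ F} (hW : Sat W) (I : Submodule ℤ F) :
    W ⊔ I = ⊤ ↔ SpI I.subtype.dualMap W.dualAnnihilator := by
  have := ke_free_quot W hW
  let j : I →ₗ[ℤ] (F ⧸ W) := W.mkQ ∘ₗ I.subtype
  have h1 : W ⊔ I = ⊤ ↔ Function.Surjective j := by
    rw [← Submodule.map_mkQ_eq_top, ← LinearMap.range_eq_top]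
    rw [show LinearMap.range j = Submodule.map W.mkQ I by
      rw [LinearMap.range_comp, Submodule.range_subtype]]
  have h2 : j.dualMap = I.subtype.dualMap ∘ₗ W.mkQ.dualMap := by
    rw [LinearMap.dualMap_comp_dualMap]
  have h3 : LinearMap.range j.dualMap = W.dualAnnihilator.map I.subtype.dualMap := by
    rw [h2, LinearMap.range_comp, Submodule.range_dualMap_mkQ_eq]
  have h4 : Function.Injective W.mkQ.dualMap :=
    LinearMap.dualMap_injective_of_surjective W.mkQ_surjective
  rw [h1, ke_surj, h3]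
  unfold SpI
  refine and_congr_left fun _ => ?_
  constructor
  · intro h φ hφ h0
    rw [← Submodule.range_dualMap_mkQ_eq] at hφ
    obtain ⟨ψ, rfl⟩ := hφ
    have h5 : j.dualMap ψ = 0 := by
      rw [h2, LinearMap.comp_apply, h0]
    rw [h (h5.trans (map_zero _).symm), map_zero]
  · intro h
    rw [injective_iff_map_eq_zero]
    intro ψ h0
    apply h4
    rw [map_zero]
    apply h
    · rw [← Submodule.range_dualMap_mkQ_eq]
      exact LinearMap.mem_range_self _ _
    · rw [← LinearMap.comp_apply, ← h2, h0]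

end

lemma ke_spI_sat {M M' : Type} [AddCommGroup M] [Module.Free ℤ M] [AddCommGroup M']
    (f : M →ₗ[ℤ] M') (P : Submodule ℤ M) (h : SpI f P) : Sat P := by
  intro k x hk hx
  have h1 : k • f x ∈ P.map f := by
    rw [← map_smul]
    exact Submodule.mem_map_of_mem hx
  obtain ⟨y, hy, hxy⟩ := h.2 k (f x) hk h1
  have h2 : k • x - k • y = 0 := by
    apply h.1 _ (P.sub_mem hx (P.smul_mem k hy))
    rw [map_sub, map_smul, map_smul, hxy, sub_self]
  rw [← smul_sub] at h2
  rw [sub_eq_zero.1 (ke_smul hk h2)]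
  exact hy

/-- **KE** -/
theorem thm_KE (hKB : St_KB) (hKD : St_KD) : St_KE := by
  intro F _ _ _ I N0 W0 c hW0 hN0 hr
  set g : Module.Dual ℤ F →ₗ[ℤ] Module.Dual ℤ I := I.subtype.dualMap with hg
  -- the rank condition
  have hrank : ∀ p : ℕ, p.Prime → Module.finrank ℤ (⊥ : Submodule ℤ (Module.Dual ℤ F)) + c ≤
      rkp p (g.domRestrict W0.dualAnnihilator) := by
    intro p hp
    obtain ⟨_, _, h3, _⟩ := hKB I F I.subtype p hp
    obtain ⟨h1, _⟩ := hKB (Module.Dual ℤ F) (Module.Dual ℤ I) g p hp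
    have h4 := h1 W0.dualAnnihilator (ke_sat_ann W0)
    have h5 := ke_rank hW0
    have h6 : Module.finrank ℤ (Module.Dual ℤ F) = Module.finrank ℤ F :=
      Module.finrank_linearMap_self ℤ ℤ F
    have h7 := hr p hp
    rw [h3, h6] at h4
    rw [finrank_bot]
    omega
  have hbot : SpI g ⊥ := by
    refine ⟨fun x hx _ => by simpa using hx, ?_⟩
    rw [Submodule.map_bot]
    intro k x hk hx
    rw [Submodule.mem_bot] at hx ⊢
    exact ke_smul hk hx
  have hD := hKD (Module.Dual ℤ F) (Module.Dual ℤ I) g ⊥ W0.dualAnnihilator N0 c bot_le hbot hN0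
    hrank
  have hsymm : ∀ (P : Type) [LE P] (x y : P), cmp x y → cmp y x := fun P _ x y h => h.symm
  have hMC := thm_MC thm_MA thm_MB (Submodule ℤ F) cmp (fun x => Or.inl le_rfl) (hsymm _)
    {W | W ∈ Bs I N0 ∧ W0 ≤ W} ∅ c
  refine (hMC.2.2.2.2.2.1 (Submodule ℤ (Module.Dual ℤ F)) cmp (fun W => W.dualAnnihilator)
    (fun x => Or.inl le_rfl) (hsymm _) ?_ ?_).2 ?_
  · intro W hW W' hW' h
    have h1 : W.dualAnnihilator = W'.dualAnnihilator := h
    rw [← ke_ann_co hW.1.1, h1, ke_ann_co hW'.1.1]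
  · intro W hW W' hW'
    have h1 : ∀ W W' : Submodule ℤ F, Sat W → Sat W' →
        (W ≤ W' ↔ W'.dualAnnihilator ≤ W.dualAnnihilator) := by
      intro W W' hW hW'
      constructor
      · exact Submodule.dualAnnihilator_anti
      · intro h
        rw [← ke_ann_co hW, ← ke_ann_co hW']
        exact Submodule.dualCoannihilator_anti h
    change (W ≤ W' ∨ W' ≤ W) ↔ (W.dualAnnihilator ≤ W'.dualAnnihilator ∨
      W'.dualAnnihilator ≤ W.dualAnnihilator)
    rw [h1 W W' hW.1.1 hW'.1.1, h1 W' W hW'.1.1 hW.1.1, or_comm]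
  · have himg : (fun W : Submodule ℤ F => W.dualAnnihilator) '' {W | W ∈ Bs I N0 ∧ W0 ≤ W} =
        GP g ⊥ W0.dualAnnihilator N0 := by
      ext P
      constructor
      · rintro ⟨W, ⟨⟨hs, ht, hn⟩, h0⟩, rfl⟩
        refine ⟨?_, Submodule.dualAnnihilator_anti h0, hn, (ke_iff hs I).1 ht⟩
        rw [bot_lt_iff_ne_bot]
        intro h
        apply hn
        change W.dualAnnihilator ≤ N0
        have h' : W.dualAnnihilator = ⊥ := h
        rw [h']
        exact bot_le
      · rintro ⟨h1, h2, h3, h4⟩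
        have hs := ke_spI_sat g P h4
        have hP := ke_co_ann hs
        refine ⟨P.dualCoannihilator, ⟨⟨ke_sat_coann P, ?_, ?_⟩, ?_⟩, hP⟩
        · rw [ke_iff (ke_sat_coann P), hP]
          exact h4
        · rw [hP]
          exact h3
        · rw [← ke_ann_co hW0]
          exact Submodule.dualCoannihilator_anti h2
    rw [himg]
    exact hD

end Pool.Agent.SLR
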