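import Pool.Agent.SLR.StB
import Pool.Agent.SLR.KE

/-!
# SLR, module BB: adapted bases (helper29)
-/

set_option autoImplicit false
set_option linter.unusedVariables false

noncomputable section

namespace Pool.Agent.SLR

open Pool.Agent.SLZ

variable {F : Type} [AddCommGroup F] [Module.Free ℤ F] [Module.Finite ℤ F]

/-- `v 0, .., v (a-1)` is a basis of `P` -/
structure BG1 (v : ℕ → F) (a : ℕ) (P : Submodule ℤ F) : Prop where
  li : LinearIndependent ℤ (fun i : Fin a => v i)
  sp : Submodule.span ℤ (v '' {i | i < a}) = P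

lemma bb_img (v : ℕ → F) (a : ℕ) : v '' {i | i < a} = Set.range (fun i : Fin a => v i) := by
  ext x
  constructor
  · rintro ⟨i, hi, rfl⟩
    exact ⟨⟨i, hi⟩, rfl⟩
  · rintro ⟨i, rfl⟩
    exact ⟨i, i.2, rfl⟩

/-- gluing two independent families -/
lemma bb_glue (v q : ℕ → F) (a r : ℕ)
    (h : LinearIndependent ℤ (Sum.elim (fun i : Fin a => v i) (fun i : Fin r => q i))) :
    BG1 (fun i => if i < a then v i else q (i - a)) (a + r)
      (Submodule.span ℤ (v '' {i | i < a}) ⊔ Submodule.span ℤ (q '' {i | i < r})) := by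
  refine ⟨?_, ?_⟩
  · rw [← linearIndependent_equiv (finSumFinEquiv (m := a) (n := r))]
    have h1 : ((fun i : Fin (a + r) => (fun i : ℕ => if i < a then v i else q (i - a)) i) ∘
        (finSumFinEquiv (m := a) (n := r))) = Sum.elim (fun i : Fin a => v i) (fun i : Fin r => q i) := by
      funext i
      rcases i with i | i
      · simp
      · simp
    have h2 := h
    rw [← h1] at h2
    exact h2
  · rw [← Submodule.span_union]
    congr 1
    ext x
    constructor
    · rintro ⟨i, hi, rfl⟩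
      show (if i < a then v i else q (i - a)) ∈ _
      have hi' : i < a + r := hi
      split_ifs with h1
      · exact Or.inl ⟨i, h1, rfl⟩
      · exact Or.inr ⟨i - a, by show i - a < r; omega, rfl⟩
    · rintro (⟨i, hi, rfl⟩ | ⟨i, hi, rfl⟩)
      · have hi' : i < a := hi
        exact ⟨i, by show i < a + r; omega, by show (if i < a then v i else q (i - a)) = v i; rw [if_pos hi']⟩
      · have hi' : i < r := hi
        refine ⟨a + i, by show a + i < a + r; omega, ?_⟩
        show (if a + i < a then v (a + i) else q (a + i - a)) = q i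
        rw [if_neg (by omega), Nat.add_sub_cancel_left]

lemma bb_ext (v : ℕ → F) (a : ℕ) (P Q : Submodule ℤ F) (hv : BG1 v a P) (hPQ : P ≤ Q) (hP : Sat P) :
    ∃ (v' : ℕ → F) (b : ℕ), a ≤ b ∧ (∀ i < a, v' i = v i) ∧ BG1 v' b Q := by
  have := ke_free_quot P hP
  let Q' := Q.map P.mkQ
  let c := Module.finBasis ℤ Q'
  set r := Module.finrank ℤ Q' with hr
  have h1 : ∀ j : Fin r, ∃ q ∈ Q, P.mkQ q = (c j : F ⧸ P) := by
    intro j
    obtain ⟨q, hq, h⟩ := (c j).2
    exact ⟨q, hq, h⟩
  choose q hqQ hq using h1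
  let q' : ℕ → F := fun i => if h : i < r then q ⟨i, h⟩ else 0
  have hq' : ∀ i : Fin r, q' i = q i := by
    intro i
    show (if h : (i : ℕ) < r then q ⟨i, h⟩ else 0) = q i
    rw [dif_pos i.2]
  have hvP : ∀ i : Fin a, v i ∈ P := by
    intro i
    rw [← hv.sp]
    exact Submodule.subset_span ⟨i, i.2, rfl⟩
  have hli : LinearIndependent ℤ (Sum.elim (fun i : Fin a => v i) (fun i : Fin r => q' i)) := by
    have h2 : LinearIndependent ℤ (fun i : Fin a => (⟨v i, hvP i⟩ : P)) := by
      refine LinearIndependent.of_comp P.subtype ?_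
      exact hv.li
    have h3 : LinearIndependent ℤ (Submodule.Quotient.mk (p := P) ∘ (fun i : Fin r => q' i)) := by
      have h4 : (Submodule.Quotient.mk (p := P) ∘ (fun i : Fin r => q' i)) = Q'.subtype ∘ c := by
        ext i
        show Submodule.Quotient.mk (q' i) = (c i : F ⧸ P)
        rw [hq', ← hq i]
        rfl
      rw [h4]
      exact c.linearIndependent.map' Q'.subtype (Submodule.ker_subtype _)
    exact h2.sumElim_of_quotient _ h3
  refine ⟨fun i => if i < a then v i else q' (i - a), a + r, Nat.le_add_right _ _, fun i hi => ?_, ?_⟩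
  · show (if i < a then v i else q' (i - a)) = v i
    rw [if_pos hi]
  · have h5 := bb_glue v q' a r hli
    have h6 : Submodule.span ℤ (v '' {i | i < a}) ⊔ Submodule.span ℤ (q' '' {i | i < r}) = Q := by
      rw [hv.sp]
      apply le_antisymm
      · refine sup_le hPQ (Submodule.span_le.2 ?_)
        rintro _ ⟨i, hi, rfl⟩
        have hi' : i < r := hi
        show q' i ∈ Q
        have : q' i = q ⟨i, hi'⟩ := hq' ⟨i, hi'⟩
        rw [this]
        exact hqQ _
      · intro x hx
        have h7 : P.mkQ x ∈ Q' := ⟨x, hx, rfl⟩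
        have h8 := c.sum_repr ⟨P.mkQ x, h7⟩
        have h9 : x - ∑ i, (c.repr ⟨P.mkQ x, h7⟩ i) • q i ∈ P := by
          rw [← Submodule.Quotient.mk_eq_zero, ← Submodule.mkQ_apply, map_sub, map_sum]
          have h10 : ∑ i, P.mkQ ((c.repr ⟨P.mkQ x, h7⟩ i) • q i) = P.mkQ x := by
            have h11 := congrArg Q'.subtype h8
            rw [map_sum] at h11
            refine Eq.trans ?_ h11
            refine Finset.sum_congr rfl fun i _ => ?_
            rw [map_smul, map_smul, hq]
            rfl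
          rw [h10, sub_self]
        have h12 : x = (x - ∑ i, (c.repr ⟨P.mkQ x, h7⟩ i) • q i) + ∑ i, (c.repr ⟨P.mkQ x, h7⟩ i) • q i := by
          abel
        rw [h12]
        refine Submodule.add_mem _ (Submodule.mem_sup_left h9) (Submodule.mem_sup_right ?_)
        refine Submodule.sum_mem _ fun i _ => Submodule.smul_mem _ _ (Submodule.subset_span ?_)
        exact ⟨i, i.2, hq' i⟩
    rw [h6] at h5
    exact h5

lemma bb_le_of_rank (P Q : Submodule ℤ F) (hP : Sat P) (hPQ : P ≤ Q)
    (h : Module.finrank ℤ Q ≤ Module.finrank ℤ P) : Q ≤ P := by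
  intro x hx
  have h1 := Submodule.finrank_quotient_add_finrank (P.submoduleOf Q)
  rw [(Submodule.submoduleOfEquivOfLe hPQ).finrank_eq] at h1
  have h2 : Module.finrank ℤ (↥Q ⧸ P.submoduleOf Q) = 0 := by omega
  have h3 := Module.finrank_eq_zero_iff.1 h2 (Submodule.Quotient.mk ⟨x, hx⟩)
  obtain ⟨a, ha, h4⟩ := h3
  rw [← Submodule.Quotient.mk_smul, Submodule.Quotient.mk_eq_zero] at h4
  exact hP a x ha h4

lemma bb_chain (s : Finset (Submodule ℤ F)) : (∀ W ∈ s, Sat W) → (∀ W ∈ s, ∀ W' ∈ s, cmp W W') →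
    ∃ (u : ℕ → F) (b : ℕ) (P : Submodule ℤ F), (P = ⊥ ∨ P ∈ s) ∧ (∀ W ∈ s, W ≤ P) ∧ BG1 u b P ∧
      ∀ W ∈ s, ∃ e ≤ b, W = Submodule.span ℤ (u '' {i | i < e}) := by
  classical
  refine Finset.induction_on_max_value (fun W : Submodule ℤ F => Module.finrank ℤ W) s ?_ ?_
  · intro _ _
    refine ⟨fun _ => 0, 0, ⊥, Or.inl rfl, by simp, ⟨linearIndependent_empty_type, ?_⟩, by simp⟩
    simp
  · intro a t hat hmax ih hs hc
    obtain ⟨u, b, P, hP, hWP, hG, he⟩ := ih (fun W hW => hs W (Finset.mem_insert_of_mem hW))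
      (fun W hW W' hW' => hc W (Finset.mem_insert_of_mem hW) W' (Finset.mem_insert_of_mem hW'))
    have h1 : ∀ W ∈ t, W ≤ a := by
      intro W hW
      rcases hc W (Finset.mem_insert_of_mem hW) a (Finset.mem_insert_self _ _) with h | h
      · exact h
      · exact bb_le_of_rank a W (hs a (Finset.mem_insert_self _ _)) h (hmax W hW)
    have h2 : P ≤ a ∧ Sat P := by
      rcases hP with rfl | hP
      · refine ⟨bot_le, fun k x hk hx => ?_⟩
        rw [Submodule.mem_bot] at hx ⊢
        exact ke_smul hk hx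
      · exact ⟨h1 P hP, hs P (Finset.mem_insert_of_mem hP)⟩
    obtain ⟨v, c, hbc, hvu, hG'⟩ := bb_ext u b P a hG h2.1 h2.2
    refine ⟨v, c, a, Or.inr (Finset.mem_insert_self _ _), ?_, hG', ?_⟩
    · intro W hW
      rcases Finset.mem_insert.1 hW with rfl | hW
      · exact le_rfl
      · exact h1 W hW
    · intro W hW
      rcases Finset.mem_insert.1 hW with rfl | hW
      · exact ⟨c, le_rfl, hG'.sp.symm⟩
      · obtain ⟨e, heb, hWe⟩ := he W hW
        refine ⟨e, le_trans heb hbc, ?_⟩
        rw [hWe]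
        congr 1
        refine Set.image_congr fun i hi => ?_
        have hi' : i < e := hi
        exact (hvu i (by omega)).symm

theorem thm_BB : St_BB := by
  classical
  intro F _ _ _ n I l hn hI hl hc
  obtain ⟨v, d, -, -, hv⟩ := bb_ext (fun _ => (0 : F)) 0 ⊥ I
    ⟨linearIndependent_empty_type, by simp⟩ bot_le (fun k x hk hx => by
      rw [Submodule.mem_bot] at hx ⊢
      exact ke_smul hk hx)
  obtain ⟨u, b, P, hP, hWP, hu, he⟩ := bb_chain l.toFinset
    (fun W hW => (hl W (List.mem_toFinset.1 hW)).1)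
    (fun W hW W' hW' => hc W (List.mem_toFinset.1 hW) W' (List.mem_toFinset.1 hW'))
  have hIP : I ⊓ P = ⊥ ∧ Sat (I ⊔ P) := by
    rcases hP with rfl | hP
    · rw [inf_bot_eq, sup_bot_eq]
      exact ⟨rfl, hI⟩
    · exact (hl P (List.mem_toFinset.1 hP)).2
  have hli : LinearIndependent ℤ (Sum.elim (fun i : Fin d => v i) (fun i : Fin b => u i)) := by
    refine LinearIndependent.sum_type hv.li hu.li ?_
    rw [← bb_img, ← bb_img, hv.sp, hu.sp, disjoint_iff]
    exact hIP.1
  have hg := bb_glue v u d b hli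
  rw [hv.sp, hu.sp] at hg
  obtain ⟨w, m, hm, hw, hw'⟩ := bb_ext _ (d + b) (I ⊔ P) ⊤ hg le_top hIP.2
  have hmn : m = n := by
    let B := Module.Basis.mk hw'.li (by rw [← bb_img, hw'.sp])
    rw [← hn, Module.finrank_eq_card_basis B, Fintype.card_fin]
  subst hmn
  let B := Module.Basis.mk hw'.li (by rw [← bb_img, hw'.sp])
  have hB : ∀ i : Fin m, B i = w i := by
    intro i
    show Module.Basis.mk hw'.li _ i = w i
    rw [Module.Basis.mk_apply]
  refine ⟨B, d, by omega, ?_, ?_⟩
  · rw [← hv.sp]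
    congr 1
    ext x
    constructor
    · rintro ⟨i, hi, rfl⟩
      have hi' : i < d := hi
      refine ⟨⟨i, by omega⟩, hi', ?_⟩
      rw [hB, hw i (by omega)]
      show (if i < d then v i else u (i - d)) = v i
      rw [if_pos hi']
    · rintro ⟨i, hi, rfl⟩
      have hi' : (i : ℕ) < d := hi
      refine ⟨i, hi', ?_⟩
      rw [hB, hw i (by omega)]
      show v i = (if (i : ℕ) < d then v i else u (i - d))
      rw [if_pos hi']
  · intro W hW
    obtain ⟨e, heb, hWe⟩ := he W (List.mem_toFinset.2 hW)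
    refine ⟨d + e, by omega, by omega, ?_⟩
    rw [hWe]
    congr 1
    ext x
    constructor
    · rintro ⟨i, hi, rfl⟩
      have hi' : i < e := hi
      refine ⟨⟨d + i, by omega⟩, ⟨by show d ≤ d + i; omega, by show d + i < d + e; omega⟩, ?_⟩
      rw [hB, hw (d + i) (by omega)]
      show (if d + i < d then v (d + i) else u (d + i - d)) = u i
      rw [if_neg (by omega), Nat.add_sub_cancel_left]
    · rintro ⟨i, ⟨hi1, hi2⟩, rfl⟩
      refine ⟨i - d, by show (i : ℕ) - d < e; omega, ?_⟩
      rw [hB, hw i (by omega)]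
      show u (i - d) = (if (i : ℕ) < d then v i else u (i - d))
      rw [if_neg (by omega)]

end Pool.Agent.SLR
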