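import Pool.Agent.SLR.StB

/-!
# SLR, module BC: from a basis at infinity to a basis of `V` (helper1 for helper29)
-/

set_option autoImplicit false
set_option linter.unusedVariables false

noncomputable section

namespace Pool.Agent.SLR

open Pool.Agent.SLZ Polynomial

namespace BCx

theorem coT (k : ℤ) (f : LaurentPolynomial ℤ) (j : ℤ) :
    ((LaurentPolynomial.T k : LaurentPolynomial ℤ) * f).coeff j = f.coeff (j - k) := by
  have h1 := AddMonoidAlgebra.coeff_single_mul_add f (1 : ℤ) k (j - k)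
  rw [add_sub_cancel, one_mul] at h1
  exact h1

variable {n : ℕ}

theorem sh_coeff (k : ℤ) (x : E n) (i : Fin n) (j : ℤ) :
    (sh n k x i).coeff j = (x i).coeff (j - k) := coT k (x i) j

theorem sh_add (j k : ℤ) (x : E n) : sh n j (sh n k x) = sh n (j + k) x := by
  show (LaurentPolynomial.T j : LaurentPolynomial ℤ) •
    ((LaurentPolynomial.T k : LaurentPolynomial ℤ) • x) = (LaurentPolynomial.T (j + k) :
      LaurentPolynomial ℤ) • x
  rw [← mul_smul, ← LaurentPolynomial.T_add]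

theorem sh_zero (x : E n) : sh n 0 x = x := by
  show (LaurentPolynomial.T 0 : LaurentPolynomial ℤ) • x = x
  rw [LaurentPolynomial.T_zero, one_smul]

theorem mem_tw {k : ℤ} {L : Submodule ℤ (E n)} {x : E n} : x ∈ tw k L ↔ sh n (-k) x ∈ L := Iff.rfl

theorem down {N : Submodule ℤ (E n)} (hN : tw (-1) N ≤ N) {z : E n} (hz : z ∈ N) (m : ℕ) :
    sh n (-(m : ℤ)) z ∈ N := by
  induction m with
  | zero =>
    rw [Nat.cast_zero, neg_zero, sh_zero]
    exact hz
  | succ m ih =>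
    apply hN
    rw [mem_tw, sh_add]
    have : -(-1 : ℤ) + -((m + 1 : ℕ) : ℤ) = -(m : ℤ) := by push_cast; ring
    rw [this]
    exact ih

/-- Laurent polynomials of degree at most `w` -/
theorem smul_mem' {N : Submodule ℤ (E n)} (hN : tw (-1) N ≤ N) {y : E n} {w : ℤ}
    (hy : sh n w y ∈ N) {f : LaurentPolynomial ℤ} (hf : ∀ k, w < k → f.coeff k = 0) :
    f • y ∈ N := by
  have h1 : f = f.coeff.sum AddMonoidAlgebra.single := (AddMonoidAlgebra.sum_coeff_single f).symm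
  rw [h1, Finsupp.sum, Finset.sum_smul]
  refine N.sum_mem fun k hk => ?_
  have hkw : k ≤ w := by
    by_contra h
    exact (Finsupp.mem_support_iff.1 hk) (hf k (not_le.1 h))
  have h2 : (AddMonoidAlgebra.single k (f.coeff k) : LaurentPolynomial ℤ) • y =
      (f.coeff k) • (sh n k y) := by
    have h3 : (AddMonoidAlgebra.single k (f.coeff k) : LaurentPolynomial ℤ) =
        (f.coeff k) • (LaurentPolynomial.T k : LaurentPolynomial ℤ) := by
      rw [LaurentPolynomial.T, AddMonoidAlgebra.smul_single, smul_eq_mul, mul_one]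
    rw [h3, smul_assoc]
    rfl
  rw [h2]
  refine N.smul_mem _ ?_
  obtain ⟨m, hm⟩ := Int.eq_ofNat_of_zero_le (sub_nonneg.2 hkw)
  have h3 : sh n k y = sh n (-(m : ℤ)) (sh n w y) := by
    rw [sh_add]
    congr 2
    omega
  rw [h3]
  exact down hN hy m

/-- the columns -/
def col (G : Matrix (Fin n) (Fin n) ℤ[X]) (i : Fin n) : E n := fun j => toLaurent (G j i)

theorem gm_eq (G : Matrix (Fin n) (Fin n) ℤ[X]) (x : E n) : gm G x = ∑ i, x i • col G i := by
  funext j
  show ∑ i, toLaurent (G j i) * x i = (∑ i, x i • col G i) j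
  rw [Finset.sum_apply]
  exact Finset.sum_congr rfl fun i _ => mul_comm _ _

theorem gm_sh (G : Matrix (Fin n) (Fin n) ℤ[X]) (k : ℤ) (x : E n) :
    gm G (sh n k x) = sh n k (gm G x) :=
  Matrix.mulVec_smul (G.map toLaurent) (LaurentPolynomial.T k : LaurentPolynomial ℤ) x

theorem coeff_toL (p : ℤ[X]) (k : ℤ) :
    (toLaurent p).coeff k = if 0 ≤ k then p.coeff k.toNat else 0 := by
  rw [LaurentPolynomial.coeff_toLaurent]
  split_ifs with hk
  · have h1 : Finsupp.mapDomain (Nat.castEmbedding : ℕ ↪ ℤ) p.toFinsupp.coeff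
        ((Nat.castEmbedding : ℕ ↪ ℤ) k.toNat) = p.toFinsupp.coeff k.toNat :=
      Finsupp.mapDomain_apply (Nat.castEmbedding : ℕ ↪ ℤ).injective _ _
    have h2 : (Nat.castEmbedding : ℕ ↪ ℤ) k.toNat = k := Int.toNat_of_nonneg hk
    rw [h2] at h1
    exact h1
  · refine Finsupp.mapDomain_of_notMem_range _ _ ?_
    rintro ⟨m, rfl⟩
    exact hk (Int.natCast_nonneg m)

theorem exists_pol {x : E n} (hx : x ∈ V n) : ∃ p : Fin n → ℤ[X], ∀ i, x i = toLaurent (p i) := by
  refine ⟨fun i => ∑ k ∈ (x i).coeff.support, monomial k.toNat ((x i).coeff k), fun i => ?_⟩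
  have h1 : (x i).coeff.sum AddMonoidAlgebra.single = x i := AddMonoidAlgebra.sum_coeff_single (x i)
  rw [map_sum]
  conv_lhs => rw [← h1, Finsupp.sum]
  refine Finset.sum_congr rfl fun k hk => ?_
  have hk0 : 0 ≤ k := by
    by_contra h
    exact (Finsupp.mem_support_iff.1 hk) (hx i k (not_le.1 h))
  rw [toLaurent_C_mul_T, LaurentPolynomial.single_eq_C_mul_T, Int.toNat_of_nonneg hk0]

theorem pol_mem (p : Fin n → ℤ[X]) : (fun i => toLaurent (p i)) ∈ V n := by
  intro i k hk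
  rw [coeff_toL, if_neg (not_le.2 hk)]

theorem gm_pol (G : Matrix (Fin n) (Fin n) ℤ[X]) (p : Fin n → ℤ[X]) :
    gm G (fun i => toLaurent (p i)) = fun i => toLaurent (G.mulVec p i) := by
  funext i
  exact (RingHom.map_mulVec toLaurent G p i).symm

theorem gm_V (G : Matrix (Fin n) (Fin n) ℤ[X]) {x : E n} (hx : x ∈ V n) : gm G x ∈ V n := by
  obtain ⟨p, hp⟩ := exists_pol hx
  have h1 : x = fun i => toLaurent (p i) := funext hp
  rw [h1, gm_pol]
  exact pol_mem _

theorem V_sh {x : E n} (hx : x ∈ V n) {m : ℤ} (hm : 0 ≤ m) : sh n m x ∈ V n := by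
  intro i k hk
  rw [sh_coeff]
  exact hx i _ (by omega)

/-- `V ∩ s² L = 0` -/
theorem eq_zero {L : Submodule ℤ (E n)} (hL : LeA 1 L) {x : E n} (h1 : x ∈ V n)
    (h2 : x ∈ tw (-2) L) : x = 0 := by
  funext i
  refine LaurentPolynomial.ext fun k => ?_
  obtain ⟨p, hp1, hp⟩ := Nat.exists_infinite_primes ((x i).coeff k).natAbs.succ
  obtain ⟨z, hz⟩ := hL p hp x h1 x (by
    have : -(((1 : ℕ) : ℤ) + 1) = -2 := by norm_num
    rw [this]
    exact h2) 0 (by rw [smul_zero, add_zero])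
  have h3 : (x i).coeff k = (p : ℤ) * (z i).coeff k := by
    conv_lhs => rw [hz]
    rfl
  refine Int.eq_zero_of_abs_lt_dvd (m := (p : ℤ)) ⟨_, h3⟩ ?_
  rw [Int.abs_eq_natAbs]
  exact_mod_cast Nat.lt_of_succ_le hp1

/-- monomials -/
def mono (w : Fin n → ℤ) (c : Fin n → ℤ) : E n :=
  fun i => c i • (LaurentPolynomial.T (w i) : LaurentPolynomial ℤ)

theorem mono_coeff (w c : Fin n → ℤ) (i : Fin n) (k : ℤ) :
    (mono w c i).coeff k = if w i = k then c i else 0 := by
  rw [mono, AddMonoidAlgebra.coeff_smul_apply, LaurentPolynomial.T_apply]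
  split_ifs <;> simp

theorem mono_mem (w c : Fin n → ℤ) : mono w c ∈ Lw w := by
  intro i k hk
  rw [mono_coeff, if_neg hk.ne]

theorem mono_V (w c : Fin n → ℤ) (h : ∀ i, 0 ≤ w i ∨ c i = 0) : mono w c ∈ V n := by
  intro i k hk
  rw [mono_coeff]
  split_ifs with h1
  · rcases h i with h2 | h2
    · omega
    · exact h2
  · rfl

section main

variable {L : Submodule ℤ (E n)} {b : Module.Basis (Fin n) ℤ (Fq L)}
  {G : Matrix (Fin n) (Fin n) ℤ[X]} {w : Fin n → ℤ}

theorem mk_zero {x : ↥L} : (Submodule.Quotient.mk x : Fq L) = 0 ↔ (x : E n) ∈ tw (-1) L :=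
  Submodule.Quotient.mk_eq_zero _

theorem mk_eq {x y : ↥L} : (Submodule.Quotient.mk x : Fq L) = Submodule.Quotient.mk y ↔
    (x : E n) - (y : E n) ∈ tw (-1) L :=
  Submodule.Quotient.eq _

/-- the class formula -/
theorem cf (hsub : tw (-1) L ≤ L) (hD : ∀ i, ∃ u : ↥L, (u : E n) = sh n (w i) (col G i) ∧
    (Submodule.Quotient.mk u : Fq L) = b i) {y : E n} (hy : y ∈ Lw w) :
    ∃ x : ↥L, (x : E n) = gm G y ∧
      (Submodule.Quotient.mk x : Fq L) = ∑ i, (y i).coeff (w i) • b i := by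
  choose u hu1 hu2 using hD
  have hr : ∀ i, (y i - (y i).coeff (w i) • (LaurentPolynomial.T (w i) : LaurentPolynomial ℤ)) •
      col G i ∈ tw (-1) L := by
    intro i
    refine smul_mem' (N := tw (-1) L) (w := w i - 1) ?_ ?_ ?_
    · intro z hz
      exact hsub hz
    · rw [mem_tw, sh_add]
      have : -(-1 : ℤ) + (w i - 1) = w i := by ring
      rw [this, ← hu1]
      exact (u i).2
    · intro k hk
      rw [AddMonoidAlgebra.coeff_sub, Finsupp.sub_apply, AddMonoidAlgebra.coeff_smul_apply,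
        LaurentPolynomial.T_apply]
      by_cases h : w i = k
      · rw [if_pos h, h, smul_eq_mul, mul_one, sub_self]
      · rw [if_neg h, smul_zero, sub_zero]
        exact hy i k (by omega)
  have hR : ∑ i, (y i - (y i).coeff (w i) • (LaurentPolynomial.T (w i) : LaurentPolynomial ℤ)) •
      col G i ∈ tw (-1) L := Submodule.sum_mem _ fun i _ => hr i
  refine ⟨∑ i, (y i).coeff (w i) • u i + ⟨_, hsub hR⟩, ?_, ?_⟩
  · rw [Submodule.coe_add, Submodule.coe_sum, gm_eq]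
    show _ + ∑ i, (y i - (y i).coeff (w i) • (LaurentPolynomial.T (w i) : LaurentPolynomial ℤ)) •
      col G i = _
    rw [← Finset.sum_add_distrib]
    refine Finset.sum_congr rfl fun i _ => ?_
    rw [Submodule.coe_smul, hu1, sub_smul, smul_assoc]
    show _ + (_ - (y i).coeff (w i) • sh n (w i) (col G i)) = _
    abel
  · have h1 : (Submodule.Quotient.mk (⟨_, hsub hR⟩ : ↥L) : Fq L) = 0 := mk_zero.2 hR
    rw [Submodule.Quotient.mk_add, h1, add_zero, ← Submodule.mkQ_apply, map_sum]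
    refine Finset.sum_congr rfl fun i _ => ?_
    rw [map_smul, Submodule.mkQ_apply, hu2]

/-- approximation modulo `s L` -/
theorem approx (hsub : tw (-1) L ≤ L) (hD : ∀ i, ∃ u : ↥L, (u : E n) = sh n (w i) (col G i) ∧
    (Submodule.Quotient.mk u : Fq L) = b i) (x : ↥L) :
    gm G (mono w (b.repr (Submodule.Quotient.mk x))) ∈ L ∧
      (x : E n) - gm G (mono w (b.repr (Submodule.Quotient.mk x))) ∈ tw (-1) L := by
  obtain ⟨z, hz1, hz2⟩ := cf hsub hD (mono_mem w (b.repr (Submodule.Quotient.mk x)))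
  rw [← hz1]
  refine ⟨z.2, mk_eq.1 ?_⟩
  rw [hz2]
  have h1 : ∀ i, (mono w (b.repr (Submodule.Quotient.mk x)) i).coeff (w i) =
      b.repr (Submodule.Quotient.mk x) i := fun i => by rw [mono_coeff, if_pos rfl]
  simp only [h1]
  exact (b.sum_repr _).symm

end main

/-- the matrix -/
theorem exists_G {L : Submodule ℤ (E n)} {b : Module.Basis (Fin n) ℤ (Fq L)} {d : ℕ}
    (h1 : ∀ x : ↥L, ∃ h : ↥L, (h : E n) ∈ V n ∧
      (Submodule.Quotient.mk h : Fq L) = Submodule.Quotient.mk x)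
    (h2 : ∀ u ∈ I1 L, ∃ h ∈ V n, h ∈ tw (-1) L ∧ ∃ h1 : ↥L, (h1 : E n) = sh n 1 h ∧
      (Submodule.Quotient.mk h1 : Fq L) = u)
    (hI : I1 L = Submodule.span ℤ (b '' {i | (i : ℕ) < d})) :
    ∃ G : Matrix (Fin n) (Fin n) ℤ[X], ∀ i, ∃ u : ↥L,
      (u : E n) = sh n (wd n d i) (col G i) ∧ (Submodule.Quotient.mk u : Fq L) = b i := by
  have h3 : ∀ i, ∃ v ∈ V n, ∃ u : ↥L, (u : E n) = sh n (wd n d i) v ∧
      (Submodule.Quotient.mk u : Fq L) = b i := by
    intro i
    by_cases hi : (i : ℕ) < d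
    · obtain ⟨h, hh1, -, u, hu1, hu2⟩ := h2 (b i) (by
        rw [hI]
        exact Submodule.subset_span ⟨i, hi, rfl⟩)
      refine ⟨h, hh1, u, ?_, hu2⟩
      rw [wd, if_pos hi, hu1]
    · obtain ⟨x, hx⟩ := Submodule.Quotient.mk_surjective _ (b i)
      obtain ⟨h, hh1, hh2⟩ := h1 x
      refine ⟨h, hh1, h, ?_, hh2.trans hx⟩
      rw [wd, if_neg hi, sh_zero]
  choose v hv u hu1 hu2 using h3
  choose p hp using fun i => exists_pol (hv i)
  refine ⟨Matrix.of fun j i => p i j, fun i => ⟨u i, ?_, hu2 i⟩⟩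
  rw [hu1]
  congr 1
  funext j
  exact hp i j

/-- surjectivity on `V` -/
theorem surj {L : Submodule ℤ (E n)} {b : Module.Basis (Fin n) ℤ (Fq L)} {d : ℕ}
    {G : Matrix (Fin n) (Fin n) ℤ[X]} (hsub : tw (-1) L ≤ L) (hL : LeA 1 L)
    (h2 : ∀ S : Submodule ℤ (E n), V n ⊓ L ≤ S → (∀ x ∈ S, sh n 1 x ∈ S) → V n ≤ S)
    (hI : I1 L = Submodule.span ℤ (b '' {i | (i : ℕ) < d}))
    (hD : ∀ i, ∃ u : ↥L, (u : E n) = sh n (wd n d i) (col G i) ∧
      (Submodule.Quotient.mk u : Fq L) = b i) : V n ≤ (V n).map (gm G) := by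
  refine h2 _ ?_ ?_
  · rintro x ⟨hxV, hxL⟩
    obtain ⟨a1, a2⟩ := approx hsub hD ⟨x, hxL⟩
    obtain ⟨y, hy⟩ : ∃ y, y = mono (wd n d) (b.repr (Submodule.Quotient.mk ⟨x, hxL⟩)) := ⟨_, rfl⟩
    rw [← hy] at a1 a2
    have hyV : y ∈ V n := by
      rw [hy]
      refine mono_V _ _ fun i => Or.inl ?_
      rw [wd]
      split_ifs <;> norm_num
    obtain ⟨y1, hy1⟩ : ∃ y1, y1 = x - gm G y := ⟨_, rfl⟩
    have hy1V : y1 ∈ V n := by
      rw [hy1]
      exact (V n).sub_mem hxV (gm_V G hyV)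
    have hy1L : sh n 1 y1 ∈ L := by
      rw [hy1]
      exact a2
    have hcl : (Submodule.Quotient.mk (⟨sh n 1 y1, hy1L⟩ : ↥L) : Fq L) ∈ I1 L := by
      refine ⟨⟨sh n 1 y1, hy1L⟩, ?_, rfl⟩
      show sh n (-1) (sh n 1 y1) ∈ V n
      rw [sh_add, neg_add_cancel, sh_zero]
      exact hy1V
    rw [hI, b.mem_span_image] at hcl
    obtain ⟨c1, c2⟩ := approx hsub hD ⟨sh n 1 y1, hy1L⟩
    obtain ⟨c, hc⟩ : ∃ c : Fin n → ℤ, c = b.repr (Submodule.Quotient.mk ⟨sh n 1 y1, hy1L⟩) :=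
      ⟨_, rfl⟩
    have hc0 : ∀ i : Fin n, ¬ (i : ℕ) < d → c i = 0 := by
      intro i hi
      by_contra h
      rw [hc] at h
      exact hi (hcl (Finsupp.mem_support_iff.2 h))
    rw [← hc] at c1 c2
    have e1 : mono (wd n d) c = sh n 1 (mono (fun i => wd n d i - 1) c) := by
      funext i
      refine LaurentPolynomial.ext fun k => ?_
      rw [sh_coeff, mono_coeff, mono_coeff]
      have : (wd n d i = k) ↔ (wd n d i - 1 = k - 1) := by omega
      simp only [this]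
    have hz : mono (fun i => wd n d i - 1) c ∈ V n := by
      refine mono_V _ _ fun i => ?_
      by_cases hi : (i : ℕ) < d
      · left
        rw [wd, if_pos hi]
        norm_num
      · exact Or.inr (hc0 i hi)
    have e2 : y1 - gm G (mono (fun i => wd n d i - 1) c) = 0 := by
      refine eq_zero hL ((V n).sub_mem hy1V (gm_V G hz)) ?_
      rw [mem_tw]
      have e3 : -(-2 : ℤ) = 1 + 1 := by norm_num
      rw [e1, gm_sh] at c2
      have c3 : sh n 1 (sh n 1 y1 - sh n 1 (gm G (mono (fun i => wd n d i - 1) c))) ∈ L := c2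
      rw [← map_sub, sh_add] at c3
      rw [e3]
      exact c3
    refine ⟨y + mono (fun i => wd n d i - 1) c, (V n).add_mem hyV hz, ?_⟩
    rw [map_add, ← sub_eq_zero.1 e2, hy1]
    abel
  · rintro _ ⟨v, hv, rfl⟩
    exact ⟨sh n 1 v, V_sh hv one_pos.le, gm_sh G 1 v⟩

/-- the inverse matrix -/
theorem exists_inv {G : Matrix (Fin n) (Fin n) ℤ[X]} (h : V n ≤ (V n).map (gm G)) :
    ∃ g : GL (Fin n) ℤ[X], (g : Matrix (Fin n) (Fin n) ℤ[X]) = G := by
  have h1 : ∀ j : Fin n, ∃ p : Fin n → ℤ[X], G.mulVec p = Pi.single j 1 := by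
    intro j
    have h2 : (fun i => toLaurent ((Pi.single j 1 : Fin n → ℤ[X]) i)) ∈ V n := pol_mem _
    obtain ⟨v, hv, hv'⟩ := h h2
    obtain ⟨p, hp⟩ := exists_pol hv
    have h3 : v = fun i => toLaurent (p i) := funext hp
    refine ⟨p, funext fun i => toLaurent_injective ?_⟩
    rw [h3, gm_pol] at hv'
    exact congrFun hv' i
  choose p hp using h1
  have h2 : G * Matrix.of (fun i j => p j i) = 1 := by
    refine Matrix.ext fun i j => ?_
    have h3 := congrFun (hp j) i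
    rw [Matrix.mul_apply]
    have h4 : ∑ k, G i k * p j k = (Pi.single j 1 : Fin n → ℤ[X]) i := h3
    rw [Pi.single_apply] at h4
    rw [Matrix.one_apply]
    exact h4
  exact ⟨⟨G, Matrix.of (fun i j => p j i), h2, mul_eq_one_comm.1 h2⟩, rfl⟩

theorem Lw_mono {w w' : Fin n → ℤ} (h : ∀ i, w i ≤ w' i) : Lw w ≤ Lw w' :=
  fun x hx i k hk => hx i k (lt_of_le_of_lt (h i) hk)

theorem Lw_zero : L0 n = Lw (fun _ => 0) := rfl

theorem tw_Lw (w : Fin n → ℤ) (k : ℤ) : tw k (Lw w) = Lw (fun i => w i + k) := by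
  ext x
  constructor
  · intro h i j hj
    have hj' : w i + k < j := hj
    have h1 := h i (j - k) (by omega)
    rw [LinearEquiv.coe_coe, sh_coeff] at h1
    have h2 : j - k - -k = j := by ring
    rwa [h2] at h1
  · intro h i j hj
    rw [LinearEquiv.coe_coe, sh_coeff]
    refine h i _ ?_
    show w i + k < j - -k
    omega

/-- `g L0 ≤ t ^ m L0` -/
theorem exists_bd (G : Matrix (Fin n) (Fin n) ℤ[X]) :
    ∃ m : ℕ, (L0 n).map (gm G) ≤ tw m (L0 n) := by
  refine ⟨∑ i, ∑ j, (G j i).natDegree, ?_⟩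
  rintro _ ⟨x, hx, rfl⟩
  rw [gm_eq]
  refine Submodule.sum_mem _ fun i _ => ?_
  refine smul_mem' (w := 0) ?_ ?_ (fun k hk => hx i k hk)
  · rw [Lw_zero, tw_Lw, tw_Lw]
    exact Lw_mono fun i => by omega
  · rw [sh_zero, Lw_zero, tw_Lw]
    intro j k hk
    show (toLaurent (G j i)).coeff k = 0
    rw [coeff_toL]
    split_ifs with h0
    · refine Polynomial.coeff_eq_zero_of_natDegree_lt ?_
      have h1 : (G j i).natDegree ≤ ∑ i, ∑ j, (G j i).natDegree :=
        (Finset.single_le_sum (f := fun j => (G j i).natDegree) (fun _ _ => Nat.zero_le _)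
          (Finset.mem_univ j)).trans (Finset.single_le_sum
            (f := fun i => ∑ j, (G j i).natDegree) (fun _ _ => Nat.zero_le _) (Finset.mem_univ i))
      have h2 : ((∑ i, ∑ j, (G j i).natDegree : ℕ) : ℤ) < k := by linarith
      omega
    · rfl

theorem tw_mono {L L' : Submodule ℤ (E n)} (k : ℤ) (h : L ≤ L') : tw k L ≤ tw k L' :=
  fun x hx => h hx

theorem tw_tw (L : Submodule ℤ (E n)) (j k : ℤ) : tw j (tw k L) = tw (j + k) L := by
  ext x
  show sh n (-k) (sh n (-j) x) ∈ L ↔ sh n (-(j + k)) x ∈ L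
  rw [sh_add]
  have : -k + -j = -(j + k) := by ring
  rw [this]

theorem tw_zero (L : Submodule ℤ (E n)) : tw 0 L = L := by
  ext x
  show sh n (-0) x ∈ L ↔ x ∈ L
  rw [neg_zero, sh_zero]

end BCx

open BCx in
/-- **BC** -/
theorem thm_BC (hBA : St_BA) (hBE : St_BE) : St_BC := by
  intro n L b d hL hd hI
  obtain ⟨hLat, hPos, hLe⟩ := hL
  obtain ⟨ba1, ba2, ba3, -⟩ := hBA n L ⟨hLat, hPos, hLe⟩
  have hsub := hLat.sub
  obtain ⟨G, hD⟩ := exists_G ba1 ba3 hI
  obtain ⟨g, rfl⟩ := exists_inv (surj hsub hLe ba2 hI hD)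
  obtain ⟨e1, e2, e3, e4, e5⟩ := hBE n g
  obtain ⟨f1, f2, f3, f4, f5⟩ := hBE n g⁻¹
  have hM1 : g • Lw (wd n d) ≤ L := by
    rintro _ ⟨y, hy, rfl⟩
    obtain ⟨x, hx, -⟩ := cf hsub hD hy
    show gm (g : Matrix (Fin n) (Fin n) ℤ[X]) y ∈ L
    rw [← hx]
    exact x.2
  have hstep : L ≤ g • Lw (wd n d) ⊔ tw (-1) L := by
    intro x hx
    obtain ⟨a1, a2⟩ := approx hsub hD ⟨x, hx⟩
    rw [← sub_add_cancel x (gm (g : Matrix (Fin n) (Fin n) ℤ[X]) (mono (wd n d)
      (b.repr (Submodule.Quotient.mk ⟨x, hx⟩)))), add_comm]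
    exact Submodule.add_mem_sup ⟨_, mono_mem _ _, rfl⟩ a2
  have hMk : ∀ k : ℕ, tw (-(k : ℤ)) (g • Lw (wd n d)) ≤ g • Lw (wd n d) := by
    intro k
    rw [← e1, e3, tw_Lw]
    exact Lw_mono fun i => by omega
  have hk : ∀ k : ℕ, L ≤ g • Lw (wd n d) ⊔ tw (-(k : ℤ)) L := by
    intro k
    induction k with
    | zero =>
      rw [Nat.cast_zero, neg_zero, tw_zero]
      exact le_sup_right
    | succ k ih =>
      refine ih.trans (sup_le le_sup_left ?_)
      intro x hx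
      obtain ⟨y, hy, z, hz, hyz⟩ := Submodule.mem_sup.1 (hstep (mem_tw.1 hx))
      have h1 : x = sh n (-(k : ℤ)) y + sh n (-(k : ℤ)) z := by
        rw [← map_add, hyz, sh_add, neg_neg, neg_add_cancel, sh_zero]
      rw [h1]
      refine Submodule.add_mem_sup (hMk k ?_) ?_
      · rw [mem_tw, sh_add, neg_neg, add_neg_cancel, sh_zero]
        exact hy
      · rw [mem_tw, sh_add]
        have h2 : -(-((k + 1 : ℕ) : ℤ)) + -(k : ℤ) = - -1 := by push_cast; ring
        rw [h2]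
        exact hz
  obtain ⟨m, -, hm⟩ := hLat.bdd
  obtain ⟨m', hm'⟩ := exists_bd ((g⁻¹ : GL (Fin n) ℤ[X]) : Matrix (Fin n) (Fin n) ℤ[X])
  have hK : tw (-((m + m' : ℕ) : ℤ)) L ≤ g • Lw (wd n d) := by
    rw [← f3, inv_smul_smul, f1]
    have h1 : g⁻¹ • L ≤ tw (m : ℤ) (tw m' (L0 n)) := by
      refine ((f3 _ _).2 hm).trans ?_
      rw [f1]
      exact tw_mono _ hm'
    refine (tw_mono _ h1).trans ?_
    rw [tw_tw, tw_tw, Lw_zero, tw_Lw]
    refine Lw_mono fun i => ?_
    have h2 : (0 : ℤ) ≤ wd n d i := by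
      rw [wd]
      split_ifs <;> norm_num
    push_cast
    linarith
  have hLM : L = g • Lw (wd n d) :=
    le_antisymm ((hk (m + m')).trans (sup_le le_rfl hK)) hM1
  refine ⟨g, hLM, fun e hde hen => ?_⟩
  have hw : ∀ i : Fin n, wd n e i + -1 ≤ wd n d i := by
    intro i
    rw [wd, wd]
    split_ifs <;> norm_num
  have key : lw L (Submodule.span ℤ (b '' {i | d ≤ (i : ℕ) ∧ (i : ℕ) < e})) =
      g • Lw (fun i => wd n e i + -1) := by
    ext x
    constructor
    · rintro ⟨⟨x, hx⟩, hxW, rfl⟩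
      have hxW' : (Submodule.Quotient.mk ⟨x, hx⟩ : Fq L) ∈
        Submodule.span ℤ (b '' {i | d ≤ (i : ℕ) ∧ (i : ℕ) < e}) := hxW
      have hx2 := hx
      rw [hLM] at hx2
      obtain ⟨y, hy, hyx⟩ := hx2
      refine ⟨y, ?_, hyx⟩
      obtain ⟨z, hz1, hz2⟩ := cf hsub hD hy
      have hzx : z = ⟨x, hx⟩ := Subtype.ext (hz1.trans hyx)
      rw [← hzx, hz2, b.mem_span_image] at hxW'
      have hc : ∀ i : Fin n, ¬ (d ≤ (i : ℕ) ∧ (i : ℕ) < e) → (y i).coeff (wd n d i) = 0 := by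
        intro i hi
        by_contra h
        apply hi
        apply hxW'
        rw [Finset.mem_coe, Finsupp.mem_support_iff, b.repr_sum_self]
        exact h
      intro i k hik
      by_cases h1 : wd n d i < k
      · exact hy i k h1
      · have h2 : k = wd n d i ∧ ¬ (d ≤ (i : ℕ) ∧ (i : ℕ) < e) := by
          have hik' : wd n e i + -1 < k := hik
          simp only [wd] at hik' h1 ⊢
          split_ifs at hik' h1 ⊢ <;> omega
        rw [h2.1]
        exact hc i h2.2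
    · rintro ⟨y, hy, rfl⟩
      obtain ⟨z, hz1, hz2⟩ := cf hsub hD (Lw_mono hw hy)
      refine ⟨z, ?_, hz1⟩
      show (Submodule.Quotient.mk z : Fq L) ∈
        Submodule.span ℤ (b '' {i | d ≤ (i : ℕ) ∧ (i : ℕ) < e})
      rw [hz2, b.mem_span_image]
      intro i hi
      rw [Finset.mem_coe, Finsupp.mem_support_iff, b.repr_sum_self] at hi
      by_contra h
      apply hi
      apply hy
      show wd n e i + -1 < wd n d i
      have h' : ¬ (d ≤ (i : ℕ) ∧ (i : ℕ) < e) := h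
      rw [wd, wd]
      split_ifs <;> omega
  rw [key, ← e1, tw_Lw]
  congr 1
  congr 1
  funext i
  ring

end Pool.Agent.SLR
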