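import Pool.Agent.SLR.StL

/-!
# SLR, module LW: the lattices between `s L` and `L` (helper45)
-/

set_option autoImplicit false
set_option linter.unusedVariables false

noncomputable section

namespace Pool.Agent.SLR

open Pool.Agent.SLZ

theorem lw_mem_iff {n : ℕ} (L : Submodule ℤ (E n)) (W : Submodule ℤ (Fq L)) (x : ↥L) :
    (x : E n) ∈ lw L W ↔ (Submodule.Quotient.mk x : Fq L) ∈ W := by
  unfold lw
  rw [Submodule.mem_map]
  constructor
  · rintro ⟨y, hy, hyx⟩
    have h1 : y = x := Subtype.ext hyx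
    subst h1
    exact hy
  · intro h
    exact ⟨x, h, rfl⟩

theorem lw_le_self {n : ℕ} (L : Submodule ℤ (E n)) (W : Submodule ℤ (Fq L)) : lw L W ≤ L := by
  unfold lw
  rintro x ⟨y, hy, hyx⟩
  rw [← hyx]
  exact y.2

theorem lw_ge {n : ℕ} (L : Submodule ℤ (E n)) (W : Submodule ℤ (Fq L)) (h : tw (-1) L ≤ L) :
    tw (-1) L ≤ lw L W := by
  intro x hx
  have h1 := (lw_mem_iff L W ⟨x, h hx⟩).2 (by
    have h2 : (Submodule.Quotient.mk (⟨x, h hx⟩ : ↥L) : Fq L) = 0 := by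
      rw [Submodule.Quotient.mk_eq_zero]
      exact hx
    rw [h2]
    exact W.zero_mem)
  exact h1

theorem lw_le_iff {n : ℕ} (L : Submodule ℤ (E n)) (W W' : Submodule ℤ (Fq L)) :
    lw L W ≤ lw L W' ↔ W ≤ W' := by
  constructor
  · intro h w hw
    obtain ⟨x, rfl⟩ := Submodule.Quotient.mk_surjective _ w
    exact (lw_mem_iff L W' x).1 (h ((lw_mem_iff L W x).2 hw))
  · intro h x hx
    have hxL : x ∈ L := lw_le_self L W hx
    exact (lw_mem_iff L W' ⟨x, hxL⟩).2 (h ((lw_mem_iff L W ⟨x, hxL⟩).1 hx))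

theorem lw_sat {n : ℕ} (L : Submodule ℤ (E n)) (hL : Sat L) (W : Submodule ℤ (Fq L)) (hW : Sat W) :
    Sat (lw L W) := by
  intro a v ha hav
  have h1 : a • v ∈ L := lw_le_self L W hav
  have h2 : v ∈ L := hL a v ha h1
  have h3 : (Submodule.Quotient.mk (a • (⟨v, h2⟩ : ↥L)) : Fq L) ∈ W :=
    (lw_mem_iff L W (a • (⟨v, h2⟩ : ↥L))).1 hav
  rw [Submodule.Quotient.mk_smul] at h3
  exact (lw_mem_iff L W ⟨v, h2⟩).2 (hW a _ ha h3)

theorem thm_LW (h : St_LA) : St_LW := by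
  intro n L hL
  obtain ⟨-, h2, h3, -, h5, -⟩ := h n
  obtain ⟨hV, hL0, -⟩ := h5
  refine ⟨?_, ?_, lw_le_iff L, ?_, ?_, lw_mem_iff L⟩
  · intro X hX h1X hXL
    have key : ∀ x : ↥L, (Submodule.Quotient.mk x : Fq L) ∈
        (X.submoduleOf L).map (Submodule.mkQ ((tw (-1) L).submoduleOf L)) ↔ (x : E n) ∈ X := by
      intro x
      constructor
      · rintro ⟨y, hy, hyx⟩
        have h4 : (Submodule.Quotient.mk y : Fq L) = Submodule.Quotient.mk x := hyx
        rw [Submodule.Quotient.eq] at h4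
        have h5 : (y : E n) - x ∈ tw (-1) L := h4
        have h6 : (y : E n) ∈ X := hy
        have h7 := X.sub_mem h6 (h1X h5)
        rwa [sub_sub_cancel] at h7
      · intro hx
        exact ⟨x, hx, rfl⟩
    refine ⟨(X.submoduleOf L).map (Submodule.mkQ ((tw (-1) L).submoduleOf L)), ?_, ?_⟩
    · intro a w ha haw
      obtain ⟨x, rfl⟩ := Submodule.Quotient.mk_surjective _ w
      rw [← Submodule.Quotient.mk_smul] at haw
      have h4 := (key (a • x)).1 haw
      exact (key x).2 (hX.sat a x ha h4)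
    · apply le_antisymm
      · intro x hx
        exact (lw_mem_iff L _ ⟨x, hXL hx⟩).2 ((key ⟨x, hXL hx⟩).2 hx)
      · intro x hx
        have hxL : x ∈ L := lw_le_self L _ hx
        exact (key ⟨x, hxL⟩).1 ((lw_mem_iff L _ ⟨x, hxL⟩).1 hx)
  · intro W hW
    refine ⟨?_, lw_ge L W hL.sub, lw_le_self L W⟩
    refine ⟨?_, ?_, lw_sat L hL.sat W hW⟩
    · exact le_trans (((h2 (lw L W) L (-1)).1).2 (lw_le_self L W)) (lw_ge L W hL.sub)
    · obtain ⟨m, hm1, hm2⟩ := hL.bdd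
      refine ⟨m + 1, ?_, ?_⟩
      · refine le_trans ?_ (lw_ge L W hL.sub)
        have h4 := ((h2 (tw (-(m : ℤ)) (L0 n)) L (-1)).1).2 hm1
        rw [((h n).1 (L0 n) (-1) (-(m : ℤ))).1] at h4
        have h5 : (-1 + -(m : ℤ)) = -((m + 1 : ℕ) : ℤ) := by push_cast; ring
        rwa [h5] at h4
      · refine le_trans (lw_le_self L W) (le_trans hm2 (h3 (L0 n) hL0 _ _ ?_))
        push_cast
        linarith
  · apply le_antisymm (lw_le_self L ⊤)
    intro x hx
    exact (lw_mem_iff L ⊤ ⟨x, hx⟩).2 trivial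
  · apply le_antisymm
    · intro x hx
      have hxL : x ∈ L := lw_le_self L _ hx
      have h4 := (lw_mem_iff L ⊥ ⟨x, hxL⟩).1 hx
      rw [Submodule.mem_bot, Submodule.Quotient.mk_eq_zero] at h4
      exact h4
    · exact lw_ge L ⊥ hL.sub

end Pool.Agent.SLR
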