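import Pool.Agent.SLR.StB
import Pool.Agent.SLR.LW

/-!
# SLR, module BD: cliques are diagonal in one basis (helper45)
-/

set_option autoImplicit false
set_option linter.unusedVariables false

noncomputable section

namespace Pool.Agent.SLR

open Pool.Agent.SLZ Polynomial

theorem bd_min {P : Type} [PartialOrder P] : ∀ l : List P, l ≠ [] →
    (∀ x ∈ l, ∀ y ∈ l, x ≤ y ∨ y ≤ x) → ∃ x ∈ l, ∀ y ∈ l, x ≤ y
  | [], h, _ => absurd rfl h
  | [a], _, _ => ⟨a, by simp, by intro y hy; rw [List.mem_singleton] at hy; rw [hy]⟩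
  | a :: b :: l, _, hc => by
    obtain ⟨x, hx, hmin⟩ := bd_min (b :: l) (by simp)
      (fun u hu v hv => hc u (List.mem_cons_of_mem _ hu) v (List.mem_cons_of_mem _ hv))
    rcases hc a (by simp) x (List.mem_cons_of_mem _ hx) with h | h
    · refine ⟨a, by simp, ?_⟩
      intro y hy
      rcases List.mem_cons.1 hy with h1 | h1
      · rw [h1]
      · exact le_trans h (hmin y h1)
    · refine ⟨x, List.mem_cons_of_mem _ hx, ?_⟩
      intro y hy
      rcases List.mem_cons.1 hy with h1 | h1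
      · rw [h1]; exact h
      · exact hmin y h1

theorem bd_adj_cmp {n : ℕ} {L L' : Submodule ℤ (E n)} (h : adj L L') : L ≤ L' ∨ L' ≤ L := by
  rcases h with h | h | h
  · exact Or.inl h.le
  · exact Or.inl h.1
  · exact Or.inr h.1

theorem thm_BD (hLA : St_LA) (hLF : St_LF) (hLW : St_LW) (hBA : St_BA) (hBW : St_BW) (hBB : St_BB)
    (hBC : St_BC) : St_BD := by
  intro n l hl
  by_cases hl0 : l = []
  · subst hl0
    exact ⟨1, fun L hL => absurd hL (by simp)⟩
  obtain ⟨h1, h2, h3, -, -, h6, -⟩ := hLA n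
  obtain ⟨L, hLl, hmin⟩ := bd_min l hl0 (fun x hx y hy => bd_adj_cmp ((hl x hx).2 y hy))
  have hL : L ∈ Good n := (hl L hLl).1
  have hup : ∀ M ∈ l, M ≤ tw 1 L := by
    intro M hM
    have hself : L ≤ tw 1 L := by
      have h7 := h3 L hL.1 0 1 (by norm_num)
      rwa [(h1 L 0 0).2] at h7
    rcases (hl L hLl).2 M hM with h | h | h
    · rw [← h]; exact hself
    · exact h.2
    · have h8 : M = L := le_antisymm h.1 (hmin M hM)
      rw [h8]; exact hself
  have hex : ∀ M ∈ l, ∃ W : Submodule ℤ (Fq L), Sat W ∧ tw (-1) M = lw L W := by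
    intro M hM
    have hMG : M ∈ Good n := (hl M hM).1
    refine (hLW n L hL.1).1 (tw (-1) M) ((h6 M M hMG.1 hMG.1).1 (-1)) ?_ ?_
    · exact ((h2 L M (-1)).1).2 (hmin M hM)
    · have h7 := ((h2 M (tw 1 L) (-1)).1).2 (hup M hM)
      rw [(h1 L (-1) 1).1, show (-1 + 1 : ℤ) = 0 by norm_num, (h1 L 0 0).2] at h7
      exact h7
  choose! Wf hWf using hex
  have hM : ∀ M ∈ l, M = tw 1 (lw L (Wf M)) := by
    intro M hM
    rw [← (hWf M hM).2, (h1 M 1 (-1)).1, show (1 + -1 : ℤ) = 0 by norm_num, (h1 M 0 0).2]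
  obtain ⟨⟨i1, i2, i3⟩, -⟩ := hLF n L hL.1
  have := i1
  have := i2
  obtain ⟨b, d, hd, hI, hW⟩ := hBB (Fq L) n (I1 L) (l.map Wf) i3 (hBA n L hL).2.2.2 (by
      intro W hW
      obtain ⟨M, hMl, rfl⟩ := List.mem_map.1 hW
      have h7 : tw 1 (lw L (Wf M)) ∈ Good n := by
        rw [← hM M hMl]
        exact (hl M hMl).1
      exact ⟨(hWf M hMl).1, hBW n L (Wf M) hL (hWf M hMl).1 h7⟩) (by
      intro W hW W' hW'
      obtain ⟨M, hMl, rfl⟩ := List.mem_map.1 hW
      obtain ⟨M', hMl', rfl⟩ := List.mem_map.1 hW'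
      rcases bd_adj_cmp ((hl M hMl).2 M' hMl') with h | h
      · left
        rw [← lw_le_iff L, ← (hWf M hMl).2, ← (hWf M' hMl').2]
        exact ((h2 M M' (-1)).1).2 h
      · right
        rw [← lw_le_iff L, ← (hWf M hMl).2, ← (hWf M' hMl').2]
        exact ((h2 M' M (-1)).1).2 h)
  obtain ⟨g, hg1, hg2⟩ := hBC n L b d hL hd hI
  refine ⟨g, ?_⟩
  intro M hMl
  obtain ⟨e, he1, he2, he3⟩ := hW (Wf M) (List.mem_map.2 ⟨M, hMl, rfl⟩)
  refine ⟨e, he2, ?_⟩
  rw [← hg2 e he1 he2, ← he3]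
  exact hM M hMl

end Pool.Agent.SLR
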