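import Pool.Agent.SLR.LA
import Pool.Agent.SLR.BC

/-!
# SLR, module BE: the action of `GL_n(ℤ[t])` on lattices (helper18 for helper29)
-/

set_option autoImplicit false
set_option linter.unusedVariables false

noncomputable section

namespace Pool.Agent.SLR

open Pool.Agent.SLZ Polynomial

namespace BEx

variable {n : ℕ}

theorem smul_eq (g : GL (Fin n) ℤ[X]) (L : Submodule ℤ (E n)) :
    g • L = L.map (gm (g : Matrix (Fin n) (Fin n) ℤ[X])) := rfl

theorem gm_inv (g : GL (Fin n) ℤ[X]) (x : E n) :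
    gm ((g⁻¹ : GL (Fin n) ℤ[X]) : Matrix (Fin n) (Fin n) ℤ[X])
      (gm (g : Matrix (Fin n) (Fin n) ℤ[X]) x) = x := by
  have h1 := congrArg (fun f => f x) (gm_mul ((g⁻¹ : GL (Fin n) ℤ[X]) : Matrix (Fin n) (Fin n) ℤ[X])
    (g : Matrix (Fin n) (Fin n) ℤ[X]))
  rw [← Units.val_mul, inv_mul_cancel, Units.val_one, gm_one] at h1
  exact h1.symm

theorem gm_inv' (g : GL (Fin n) ℤ[X]) (x : E n) :
    gm (g : Matrix (Fin n) (Fin n) ℤ[X])
      (gm ((g⁻¹ : GL (Fin n) ℤ[X]) : Matrix (Fin n) (Fin n) ℤ[X]) x) = x := by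
  have h1 := congrArg (fun f => f x) (gm_mul (g : Matrix (Fin n) (Fin n) ℤ[X])
    ((g⁻¹ : GL (Fin n) ℤ[X]) : Matrix (Fin n) (Fin n) ℤ[X]))
  rw [← Units.val_mul, mul_inv_cancel, Units.val_one, gm_one] at h1
  exact h1.symm

theorem mem_smul (g : GL (Fin n) ℤ[X]) (L : Submodule ℤ (E n)) (x : E n) :
    x ∈ g • L ↔ gm ((g⁻¹ : GL (Fin n) ℤ[X]) : Matrix (Fin n) (Fin n) ℤ[X]) x ∈ L := by
  rw [smul_eq, Submodule.mem_map]
  constructor
  · rintro ⟨y, hy, rfl⟩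
    rw [gm_inv]
    exact hy
  · intro h
    exact ⟨_, h, gm_inv' g x⟩

theorem smul_tw (g : GL (Fin n) ℤ[X]) (L : Submodule ℤ (E n)) (k : ℤ) :
    g • tw k L = tw k (g • L) := by
  ext x
  rw [mem_smul, BCx.mem_tw, BCx.mem_tw, mem_smul, BCx.gm_sh]

theorem smul_mono (g : GL (Fin n) ℤ[X]) {L L' : Submodule ℤ (E n)} (h : L ≤ L') :
    g • L ≤ g • L' := Submodule.map_mono h

theorem smul_le (g : GL (Fin n) ℤ[X]) (L L' : Submodule ℤ (E n)) :
    g • L ≤ g • L' ↔ L ≤ L' := by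
  constructor
  · intro h
    have h1 := smul_mono g⁻¹ h
    rwa [inv_smul_smul, inv_smul_smul] at h1
  · exact smul_mono g

theorem smul_V (g : GL (Fin n) ℤ[X]) : g • V n = V n := by
  ext x
  rw [mem_smul]
  constructor
  · intro h
    have h1 := BCx.gm_V (g : Matrix (Fin n) (Fin n) ℤ[X]) h
    rwa [gm_inv'] at h1
  · exact fun h => BCx.gm_V _ h

theorem smul_L0 (G : Matrix (Fin n) (Fin n) ℤ[X]) :
    ∃ m : ℕ, ∀ x ∈ L0 n, gm G x ∈ tw (m : ℤ) (L0 n) := by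
  refine ⟨Finset.univ.sup fun p : Fin n × Fin n => (G p.1 p.2).natDegree, fun x hx => ?_⟩
  rw [BCx.gm_eq]
  refine Submodule.sum_mem _ fun i _ => ?_
  refine BCx.smul_mem' (w := 0) (la_twlat la_L0_lat _).sub ?_ (hx i)
  rw [BCx.sh_zero, la_L0]
  intro j l hl
  show (toLaurent (G j i)).coeff l = 0
  rw [BCx.coeff_toL, if_pos (by omega)]
  refine coeff_eq_zero_of_natDegree_lt ?_
  have h1 := Finset.le_sup (f := fun p : Fin n × Fin n => (G p.1 p.2).natDegree)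
    (Finset.mem_univ (j, i))
  simp only at h1
  omega

theorem lat (g : GL (Fin n) ℤ[X]) {L : Submodule ℤ (E n)} (h : IsLat L) : IsLat (g • L) := by
  refine ⟨?_, ?_, ?_⟩
  · rw [← smul_tw]
    exact smul_mono g h.sub
  · obtain ⟨m, h1, h2⟩ := h.bdd
    obtain ⟨a, ha⟩ := smul_L0 (g : Matrix (Fin n) (Fin n) ℤ[X])
    obtain ⟨b, hb⟩ := smul_L0 ((g⁻¹ : GL (Fin n) ℤ[X]) : Matrix (Fin n) (Fin n) ℤ[X])
    have ha' : g • L0 n ≤ tw (a : ℤ) (L0 n) := by
      rintro x ⟨y, hy, rfl⟩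
      exact ha y hy
    have hb' : tw (-(b : ℤ)) (L0 n) ≤ g • L0 n := by
      have h3 : L0 n ≤ tw (b : ℤ) (g • L0 n) := by
        intro x hx
        rw [← smul_tw, mem_smul]
        exact hb x hx
      have h4 := la_mono (-(b : ℤ)) h3
      rwa [la_tw, neg_add_cancel, la_tw0] at h4
    refine ⟨m + a + b, ?_, ?_⟩
    · have h3 := smul_mono g h1
      rw [smul_tw] at h3
      refine le_trans ?_ h3
      have h4 := la_mono (-(m : ℤ)) hb'
      rw [la_tw] at h4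
      exact (la_L0_le (by push_cast; omega)).trans h4
    · have h3 := smul_mono g h2
      rw [smul_tw] at h3
      refine le_trans h3 ?_
      have h4 := la_mono (m : ℤ) ha'
      rw [la_tw] at h4
      exact h4.trans (la_L0_le (by push_cast; omega))
  · intro a v ha hav
    rw [mem_smul] at hav ⊢
    rw [map_smul] at hav
    exact h.sat a _ ha hav

theorem pos (g : GL (Fin n) ℤ[X]) {L : Submodule ℤ (E n)} (h : Pos L) : Pos (g • L) := by
  unfold Pos at h ⊢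
  have h1 : g • (V n ⊔ tw (-1) L) = V n ⊔ tw (-1) (g • L) := by
    rw [smul_eq, Submodule.map_sup, ← smul_eq, ← smul_eq, smul_V, smul_tw]
  rw [← h1, h]
  refine top_le_iff.1 fun x _ => ?_
  rw [mem_smul]
  trivial

theorem leA (g : GL (Fin n) ℤ[X]) {L : Submodule ℤ (E n)} {a : ℕ} (h : LeA a L) :
    LeA a (g • L) := by
  intro p hp x hx y hy z hz
  rw [← smul_tw, mem_smul] at hy
  obtain ⟨z', hz'⟩ := h p hp (gm ((g⁻¹ : GL (Fin n) ℤ[X]) : Matrix (Fin n) (Fin n) ℤ[X]) x)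
    (BCx.gm_V _ hx) _ hy (gm ((g⁻¹ : GL (Fin n) ℤ[X]) : Matrix (Fin n) (Fin n) ℤ[X]) z) (by
      rw [hz, map_add, map_smul])
  refine ⟨gm (g : Matrix (Fin n) (Fin n) ℤ[X]) z', ?_⟩
  rw [← map_smul, ← hz', gm_inv']

theorem good (g : GL (Fin n) ℤ[X]) {L : Submodule ℤ (E n)} (h : L ∈ Good n) : g • L ∈ Good n :=
  ⟨lat g h.1, pos g h.2.1, leA g h.2.2⟩

theorem adjm (g : GL (Fin n) ℤ[X]) {L L' : Submodule ℤ (E n)} (h : adj L L') :
    adj (g • L) (g • L') := by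
  rcases h with h | ⟨h1, h2⟩ | ⟨h1, h2⟩
  · exact Or.inl (by rw [h])
  · refine Or.inr (Or.inl ⟨smul_mono g h1, ?_⟩)
    rw [← smul_tw]
    exact smul_mono g h2
  · refine Or.inr (Or.inr ⟨smul_mono g h1, ?_⟩)
    rw [← smul_tw]
    exact smul_mono g h2

end BEx

theorem thm_BE : St_BE := by
  intro n g
  refine ⟨fun L k => BEx.smul_tw g L k, BEx.smul_V g, BEx.smul_le g, fun L L' => ⟨fun h => ?_, BEx.adjm g⟩,
    fun L => ⟨fun h => ?_, BEx.good g⟩⟩
  · have h1 := BEx.adjm g⁻¹ h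
    rwa [inv_smul_smul, inv_smul_smul] at h1
  · have h1 := BEx.good g⁻¹ h
    rwa [inv_smul_smul] at h1

end Pool.Agent.SLR
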