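import Pool.Agent.SLR.StB
import Pool.Agent.SLZ.FAll

/-!
# SLR, part B: the general linear group over the polynomial ring in one variable (helper63)
-/

set_option autoImplicit false
set_option linter.unusedVariables false

noncomputable section

namespace Pool.Agent.SLR

open Pool.Agent.SLZ Polynomial

theorem thm_BF (hLZ : St_LZ) (hBD : St_BD) (hBE : St_BE) (hBS : St_BS) : St_BF := by
  classical
  intro n k hnk
  have key : ∀ l ∈ (Fl adj (Good n)).s, ∃ (g : GL (Fin n) ℤ[X]) (d : Fin l.length → Fin (n + 1)),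
      ∀ i : Fin l.length, l.get i = g • Lw (wd n (d i : ℕ)) := by
    intro l hl
    obtain ⟨g, hg⟩ := hBD n l hl
    have h1 : ∀ i : Fin l.length, ∃ d : Fin (n + 1), l.get i = g • Lw (wd n (d : ℕ)) := by
      intro i
      obtain ⟨d, hd, he⟩ := hg (l.get i) (List.get_mem l i)
      exact ⟨⟨d, Nat.lt_succ_of_le hd⟩, he⟩
    choose d hd using h1
    exact ⟨g, d, hd⟩
  refine all_FBL (GL (Fin n) ℤ[X]) (Submodule ℤ (E n)) (Fl adj (Good n)) k ?_ ?_ (hLZ n k hnk) ?_ ?_
  · intro x hx
    exact absurd hx List.not_mem_nil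
  · intro g l hl x hx
    obtain ⟨-, -, -, b4, b5⟩ := hBE n g
    obtain ⟨x', hx', rfl⟩ := List.mem_map.1 hx
    refine ⟨(b5 x').2 (hl x' hx').1, fun y hy => ?_⟩
    obtain ⟨y', hy', rfl⟩ := List.mem_map.1 hy
    exact (b4 x' y').2 ((hl x' hx').2 y' hy')
  · intro j hj
    refine ⟨(Finset.univ : Finset (Fin j → Fin (n + 1))).image
      fun d => List.ofFn fun i => Lw (wd n (d i : ℕ)), ?_⟩
    rintro l hl rfl
    obtain ⟨g, d, hd⟩ := key l hl
    refine ⟨g⁻¹, Finset.mem_image.2 ⟨d, Finset.mem_univ _, ?_⟩⟩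
    refine List.ext_get (by simp) fun i h1 h2 => ?_
    have h3 : i < l.length := by simpa using h1
    have h4 := hd ⟨i, h3⟩
    rw [List.get_eq_getElem] at h4
    simp only [List.get_eq_getElem, List.getElem_ofFn, List.getElem_map]
    rw [h4, inv_smul_smul]
  · intro l hl hne i hi
    obtain ⟨g, d, hd⟩ := key l hl
    have hN : Nonempty (Fin l.length) := ⟨⟨0, List.length_pos_iff.2 hne⟩⟩
    have h1 : {x | x ∈ l} = Set.range fun i : Fin l.length => g • Lw (wd n (d i : ℕ)) := by
      ext x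
      constructor
      · intro hx
        obtain ⟨i, hi⟩ := List.mem_iff_get.1 (show x ∈ l from hx)
        exact ⟨i, by rw [← hi, hd i]⟩
      · rintro ⟨i, rfl⟩
        show g • Lw (wd n (d i : ℕ)) ∈ l
        rw [← hd i]
        exact List.get_mem l i
    rw [h1]
    exact hBS n (Fin l.length) (fun i => wd n (d i : ℕ)) g i

end Pool.Agent.SLR
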