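import Pool.Agent.SLR.StB
import Pool.Agent.SLZ.Asm

/-!
# SLR, module BG (helper38): the special linear groups
-/

set_option autoImplicit false

namespace Pool.Agent.SLR

open Pool.Agent.SLZ Polynomial

theorem thm_BG (hBF : St_BF) : St_BG := by
  intro n k
  constructor
  · intro hn
    refine asm_SL n k ?_
    exact asm_iso k (asmGL n (((MvPolynomial.finSuccEquiv ℤ 0).toRingEquiv.trans
      (Polynomial.mapEquiv (MvPolynomial.isEmptyRingEquiv ℤ (Fin 0)))).symm)) (hBF n k hn)
  · refine asm_SL n k ?_
    exact asm_iso k (asmGL n (MvPolynomial.isEmptyRingEquiv ℤ (Fin 0)).symm) (asm_GLZ n k)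

end Pool.Agent.SLR
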