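import Pool.Agent.SLR.StB
import Pool.Agent.SLZ.FAll

/-!
# SLR, BS: stabilizers of standard lattices are of type `FP_k` (helper41, architect helper29)
-/

set_option autoImplicit false

noncomputable section

namespace Pool.Agent.SLR

open Pool.Agent.SLZ Polynomial

/-- coefficients of the product of a polynomial and a Laurent polynomial -/
theorem bs_coeff_mul (p : ℤ[X]) (y : LaurentPolynomial ℤ) (k : ℤ) :
    (Polynomial.toLaurent p * y).coeff k = ∑ m ∈ p.support, p.coeff m * y.coeff (k - m) := by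
  conv_lhs => rw [Polynomial.as_sum_support p]
  rw [map_sum, Finset.sum_mul]
  rw [AddMonoidAlgebra.coeff_sum, Finsupp.finsetSum_apply]
  refine Finset.sum_congr rfl fun m _ => ?_
  rw [Polynomial.toLaurent_C_mul_T, ← LaurentPolynomial.single_eq_C_mul_T,
    AddMonoidAlgebra.coeff_single_mul_apply]
  rw [show -(m : ℤ) + k = k - m by ring]

/-- matrices which satisfy the degree conditions preserve the standard lattice -/
theorem bs_map_le {n : ℕ} (w : Fin n → ℤ) (m : Matrix (Fin n) (Fin n) ℤ[X])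
    (hm : ∀ (a b : Fin n) (j : ℕ), w a - w b < j → (m a b).coeff j = 0) {x : E n}
    (hx : x ∈ Lw w) : gm m x ∈ Lw w := by
  intro a k hk
  have e1 : gm m x a = ∑ b, Polynomial.toLaurent (m a b) * x b := rfl
  rw [e1, AddMonoidAlgebra.coeff_sum, Finsupp.finsetSum_apply]
  refine Finset.sum_eq_zero fun b _ => ?_
  rw [bs_coeff_mul]
  refine Finset.sum_eq_zero fun j _ => ?_
  by_cases h : w a - w b < j
  · rw [hm a b j h, zero_mul]
  · have h2 : w b < k - j := by linarith
    rw [hx b (k - j) h2, mul_zero]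

/-- the test vectors -/
theorem bs_test {n : ℕ} (w : Fin n → ℤ) (m : Matrix (Fin n) (Fin n) ℤ[X])
    (hm : ∀ x ∈ Lw w, gm m x ∈ Lw w) (a b : Fin n) (j : ℕ) (hj : w a - w b < j) :
    (m a b).coeff j = 0 := by
  have h1 : (Pi.single b (LaurentPolynomial.T (w b)) : E n) ∈ Lw w := by
    intro i k hk
    rcases eq_or_ne i b with rfl | hne
    · rw [Pi.single_eq_same, LaurentPolynomial.T_apply, if_neg (by omega)]
    · rw [Pi.single_eq_of_ne hne]; simp
  have h2 := hm _ h1 a ((j : ℤ) + w b) (by linarith)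
  have e1 : gm m (Pi.single b (LaurentPolynomial.T (w b)) : E n) a =
      Polynomial.toLaurent (m a b) * LaurentPolynomial.T (w b) := by
    show ((m.map Polynomial.toLaurent).mulVec (Pi.single b (LaurentPolynomial.T (w b)))) a = _
    rw [Matrix.mulVec_single]
    simp
  rw [e1, bs_coeff_mul] at h2
  have h3 : ∀ i ∈ (m a b).support, i ≠ j → (m a b).coeff i *
      (LaurentPolynomial.T (w b) : LaurentPolynomial ℤ).coeff ((j : ℤ) + w b - i) = 0 := by
    intro i _ hi
    rw [LaurentPolynomial.T_apply, if_neg, mul_zero]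
    intro h
    exact hi (by omega)
  by_cases hs : j ∈ (m a b).support
  · rw [Finset.sum_eq_single_of_mem j hs h3, LaurentPolynomial.T_apply, if_pos (by ring), mul_one] at h2
    exact h2
  · exact Polynomial.notMem_support_iff.1 hs

theorem bs_smul_le {n : ℕ} (w : Fin n → ℤ) (g : GL (Fin n) ℤ[X]) :
    g • Lw w ≤ Lw w ↔ ∀ (a b : Fin n) (j : ℕ), w a - w b < j →
      ((g : Matrix (Fin n) (Fin n) ℤ[X]) a b).coeff j = 0 := by
  constructor
  · intro h a b j hj
    refine bs_test w _ (fun x hx => ?_) a b j hj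
    exact h (Submodule.mem_map_of_mem hx)
  · intro h x hx
    obtain ⟨y, hy, rfl⟩ := hx
    exact bs_map_le w _ h hy

theorem bs_mono {n : ℕ} (g : GL (Fin n) ℤ[X]) {L L' : Submodule ℤ (E n)} (h : L ≤ L') :
    g • L ≤ g • L' := Submodule.map_mono h

theorem bs_fix {n : ℕ} {J : Type} (w : J → Fin n → ℤ) (g : GL (Fin n) ℤ[X]) :
    g ∈ PS ℤ w ↔ ∀ i : J, g • Lw (w i) = Lw (w i) := by
  constructor
  · rintro ⟨h1, h2⟩ i
    have e1 : g • Lw (w i) ≤ Lw (w i) := (bs_smul_le _ _).2 (h1 i)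
    have e2 : g⁻¹ • Lw (w i) ≤ Lw (w i) := (bs_smul_le _ _).2 (h2 i)
    refine le_antisymm e1 ?_
    have e3 := bs_mono g e2
    rwa [smul_inv_smul] at e3
  · intro h
    refine ⟨fun i => (bs_smul_le _ _).1 (h i).le, fun i => (bs_smul_le _ _).1 ?_⟩
    have e1 : g⁻¹ • Lw (w i) = Lw (w i) := by
      rw [inv_smul_eq_iff]; exact (h i).symm
    exact e1.le

theorem thm_BS : St_BS := by
  intro n J _ _ w g0 k
  refine all_FSub.1 (PS ℤ w) _ k ⟨?_⟩ (all_PSF (Fin n) J w k)
  have key : ∀ g : GL (Fin n) ℤ[X], g ∈ PS ℤ w ↔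
      g0 * g * g0⁻¹ ∈ fixingSubgroup (GL (Fin n) ℤ[X]) (Set.range fun i => g0 • Lw (w i)) := by
    intro g
    rw [bs_fix, mem_fixingSubgroup_iff]
    constructor
    · rintro h _ ⟨i, rfl⟩
      show (g0 * g * g0⁻¹) • (g0 • Lw (w i)) = g0 • Lw (w i)
      rw [mul_smul, mul_smul, inv_smul_smul, h i]
    · intro h i
      have h1 : (g0 * g * g0⁻¹) • (g0 • Lw (w i)) = g0 • Lw (w i) := h _ ⟨i, rfl⟩
      rw [mul_smul, mul_smul, inv_smul_smul] at h1
      exact (MulAction.injective g0) h1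
  exact
    { toFun := fun g => ⟨g0 * g.1 * g0⁻¹, (key g.1).1 g.2⟩
      invFun := fun g => ⟨g0⁻¹ * g.1 * g0, (key _).2 (by
        have e : g0 * (g0⁻¹ * g.1 * g0) * g0⁻¹ = g.1 := by group
        rw [e]; exact g.2)⟩
      left_inv := fun g => Subtype.ext (by
        show g0⁻¹ * (g0 * g.1 * g0⁻¹) * g0 = g.1
        group)
      right_inv := fun g => Subtype.ext (by
        show g0 * (g0⁻¹ * g.1 * g0) * g0⁻¹ = g.1
        group)
      map_mul' := fun g h => Subtype.ext (by
        show g0 * (g.1 * h.1) * g0⁻¹ = g0 * g.1 * g0⁻¹ * (g0 * h.1 * g0⁻¹)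
        group) }

end Pool.Agent.SLR
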