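import Pool.Agent.SLR.StB
import Pool.Agent.SLR.LW

/-!
# SLR, module BW: upper neighbours inside the good complex (helper45)
-/

set_option autoImplicit false
set_option linter.unusedVariables false

noncomputable section

namespace Pool.Agent.SLR

open Pool.Agent.SLZ Polynomial

theorem bw_sh_sh {n : ℕ} (j k : ℤ) (x : E n) : sh n j (sh n k x) = sh n (j + k) x := by
  show (LaurentPolynomial.T j : LaurentPolynomial ℤ) • ((LaurentPolynomial.T k : LaurentPolynomial ℤ) • x) =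
    (LaurentPolynomial.T (j + k) : LaurentPolynomial ℤ) • x
  rw [← mul_smul, ← LaurentPolynomial.T_add]

theorem bw_sh_zero {n : ℕ} (x : E n) : sh n 0 x = x := by
  show (LaurentPolynomial.T 0 : LaurentPolynomial ℤ) • x = x
  rw [LaurentPolynomial.T_zero, one_smul]

theorem bw_mem_tw {n : ℕ} (k : ℤ) (L : Submodule ℤ (E n)) (x : E n) :
    x ∈ tw k L ↔ sh n (-k) x ∈ L := Iff.rfl

theorem bw_int_zero (a : ℤ) (h : ∀ m : ℕ, (2 : ℤ) ^ m ∣ a) : a = 0 := by
  by_contra h0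
  have h1 := h a.natAbs
  have h2 := Int.natAbs_dvd_natAbs.2 h1
  rw [Int.natAbs_pow] at h2
  have h3 : 0 < a.natAbs := Int.natAbs_pos.2 h0
  have h4 := Nat.le_of_dvd h3 h2
  have h5 : a.natAbs < 2 ^ a.natAbs := Nat.lt_two_pow_self
  have h6 : (2 : ℤ).natAbs = 2 := rfl
  rw [h6] at h4
  omega

/-- a subgroup of `E n` which is divisible by two vanishes -/
theorem bw_div {n : ℕ} (X : Submodule ℤ (E n)) (h : ∀ x ∈ X, ∃ z ∈ X, x = (2 : ℤ) • z) : X = ⊥ := by
  rw [eq_bot_iff]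
  intro x hx
  have h1 : ∀ m : ℕ, ∃ z ∈ X, x = ((2 : ℤ) ^ m) • z := by
    intro m
    induction m with
    | zero => exact ⟨x, hx, by rw [pow_zero, one_smul]⟩
    | succ m ih =>
      obtain ⟨z, hz, hxz⟩ := ih
      obtain ⟨z', hz', hzz'⟩ := h z hz
      refine ⟨z', hz', ?_⟩
      rw [hxz, hzz', pow_succ, mul_smul]
  rw [Submodule.mem_bot]
  funext i
  refine LaurentPolynomial.ext fun k => ?_
  rw [Pi.zero_apply]
  have h2 : (x i).coeff k = 0 := by
    refine bw_int_zero _ fun m => ?_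
    obtain ⟨z, hz, hxz⟩ := h1 m
    refine ⟨(z i).coeff k, ?_⟩
    rw [hxz, Pi.smul_apply, AddMonoidAlgebra.coeff_smul, Finsupp.smul_apply, smul_eq_mul]
  rw [h2]
  simp

theorem bw_sat_of_prime {M : Type} [AddCommGroup M] (S : Submodule ℤ M)
    (h : ∀ p : ℕ, p.Prime → ∀ v : M, (p : ℤ) • v ∈ S → v ∈ S) : Sat S := by
  have h1 : ∀ m : ℕ, m ≠ 0 → ∀ v : M, (m : ℤ) • v ∈ S → v ∈ S := by
    intro m
    induction m using Nat.recOnMul with
    | zero => exact fun h0 => absurd rfl h0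
    | one => intro _ v hv; rwa [Nat.cast_one, one_smul] at hv
    | prime p hp => exact fun _ v hv => h p hp v hv
    | mul a b ha hb =>
      intro hab v hv
      have ha0 : a ≠ 0 := fun h0 => hab (by rw [h0, zero_mul])
      have hb0 : b ≠ 0 := fun h0 => hab (by rw [h0, mul_zero])
      rw [Nat.cast_mul, mul_smul] at hv
      exact hb hb0 v (ha ha0 _ hv)
  intro a v ha hav
  refine h1 a.natAbs (Int.natAbs_ne_zero.2 ha) v ?_
  rcases Int.natAbs_eq a with h2 | h2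
  · rw [h2] at hav
    simpa using hav
  · rw [h2, neg_smul] at hav
    have h3 := S.neg_mem hav
    rw [neg_neg] at h3
    simpa using h3

theorem thm_BW (hLA : St_LA) (hBA : St_BA) : St_BW := by
  intro n L W hL hW hL2
  obtain ⟨h1, h2, -, -, h5, -⟩ := hLA n
  have hV : Sat (V n) := h5.1
  have hBA3 := (hBA n L hL).2.2.1
  have htwtw : tw (-(((1 : ℕ) : ℤ) + 1)) (tw 1 (lw L W)) = tw (-1) (lw L W) := by
    rw [(h1 (lw L W) _ _).1]
    norm_num
  have hdiv : ∀ p : ℕ, p.Prime → ∀ x ∈ V n, ∀ y ∈ tw (-1) (lw L W), ∀ z : E n, x = y + (p : ℤ) • z →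
      ∃ z' : E n, x = (p : ℤ) • z' := by
    intro p hp x hx y hy z hxyz
    exact hL2.2.2 p hp x hx y (by rw [htwtw]; exact hy) z hxyz
  have hslw : Sat (tw (-1) (lw L W)) := (h2 (lw L W) (lw L W) (-1)).2.2.2.2 (lw_sat L hL.1.sat W hW)
  have hsL : Sat (tw (-1) L) := (h2 L L (-1)).2.2.2.2 hL.1.sat
  have hbot : V n ⊓ tw (-1) (lw L W) = ⊥ := by
    apply bw_div
    intro x hx
    obtain ⟨z, hz⟩ := hdiv 2 Nat.prime_two x hx.1 x hx.2 0 (by rw [smul_zero, add_zero])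
    have hz2 : x = (2 : ℤ) • z := hz
    have h20 : (2 : ℤ) ≠ 0 := by norm_num
    refine ⟨z, ⟨hV 2 z h20 ?_, hslw 2 z h20 ?_⟩, hz2⟩
    · rw [← hz2]; exact hx.1
    · rw [← hz2]; exact hx.2
  constructor
  · rw [eq_bot_iff]
    rintro u ⟨hu1, hu2⟩
    obtain ⟨h, hhV, hhL, h1', hh1, hcl⟩ := hBA3 u hu1
    have h6 : (h1' : E n) ∈ lw L W := by
      rw [lw_mem_iff, hcl]
      exact hu2
    have h7 : h ∈ V n ⊓ tw (-1) (lw L W) := by
      refine ⟨hhV, ?_⟩
      show sh n (- -1) h ∈ lw L W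
      rw [neg_neg, ← hh1]
      exact h6
    rw [hbot, Submodule.mem_bot] at h7
    rw [Submodule.mem_bot, ← hcl, Submodule.Quotient.mk_eq_zero]
    show (h1' : E n) ∈ tw (-1) L
    rw [hh1, h7, map_zero]
    exact (tw (-1) L).zero_mem
  · apply bw_sat_of_prime
    intro p hp xb hxb
    obtain ⟨x, rfl⟩ := Submodule.Quotient.mk_surjective _ xb
    obtain ⟨u, hu, w, hw, huw⟩ := Submodule.mem_sup.1 hxb
    obtain ⟨h, hhV, hhL, h1', hh1, hcl⟩ := hBA3 u hu
    obtain ⟨w', rfl⟩ := Submodule.Quotient.mk_surjective _ w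
    have hp0 : (p : ℤ) ≠ 0 := by exact_mod_cast hp.ne_zero
    have h6 : (w' : E n) ∈ lw L W := (lw_mem_iff L W w').2 hw
    have h7 : ((p : ℤ) • x - h1' - w' : ↥L) ∈ (tw (-1) L).submoduleOf L := by
      rw [← Submodule.Quotient.mk_eq_zero, Submodule.Quotient.mk_sub, Submodule.Quotient.mk_sub,
        Submodule.Quotient.mk_smul, hcl, ← huw]
      abel
    have h8 : (p : ℤ) • (x : E n) - (h1' : E n) - (w' : E n) ∈ tw (-1) L := h7
    have h9 : (p : ℤ) • (x : E n) - (h1' : E n) ∈ lw L W := by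
      have h10 := (lw L W).add_mem (lw_ge L W hL.1.sub h8) h6
      rwa [sub_add_cancel] at h10
    obtain ⟨h', hh'⟩ := hdiv p hp h hhV (-(sh n (-1) ((p : ℤ) • (x : E n) - (h1' : E n))))
      ((tw (-1) (lw L W)).neg_mem (by
        rw [bw_mem_tw, bw_sh_sh]
        rw [show (- -1 + -1 : ℤ) = 0 by norm_num, bw_sh_zero]
        exact h9)) (sh n (-1) (x : E n)) (by
        rw [map_sub, map_smul, hh1, bw_sh_sh, show (-1 + 1 : ℤ) = 0 by norm_num, bw_sh_zero]
        abel)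
    have h'V : h' ∈ V n := hV p h' hp0 (by rw [← hh']; exact hhV)
    have h'L : h' ∈ tw (-1) L := hsL p h' hp0 (by rw [← hh']; exact hhL)
    have h'L2 : sh n 1 h' ∈ L := by
      have h10 := (bw_mem_tw (-1) L h').1 h'L
      rwa [neg_neg] at h10
    have hu' : (Submodule.Quotient.mk (⟨sh n 1 h', h'L2⟩ : ↥L) : Fq L) ∈ I1 L := by
      refine ⟨⟨sh n 1 h', h'L2⟩, ?_, rfl⟩
      show sh n 1 h' ∈ tw 1 (V n)
      rw [bw_mem_tw, bw_sh_sh, show (-1 + 1 : ℤ) = 0 by norm_num, bw_sh_zero]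
      exact h'V
    have hupu : u = (p : ℤ) • (Submodule.Quotient.mk (⟨sh n 1 h', h'L2⟩ : ↥L) : Fq L) := by
      rw [← hcl, ← Submodule.Quotient.mk_smul]
      congr 1
      apply Subtype.ext
      rw [hh1, hh', map_smul]
      rfl
    have hwx : (Submodule.Quotient.mk x : Fq L) - Submodule.Quotient.mk (⟨sh n 1 h', h'L2⟩ : ↥L) ∈ W := by
      refine hW p _ hp0 ?_
      rw [smul_sub, ← hupu, ← huw, add_sub_cancel_left]
      exact hw
    have h12 := Submodule.add_mem_sup hu' hwx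
    rwa [add_sub_cancel] at h12

end Pool.Agent.SLR
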