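import Pool.Agent.SLR.StK

/-!
# SLR, KA: saturated subgroups and split injectivity
-/

set_option autoImplicit false
set_option linter.unusedVariables false

noncomputable section

namespace Pool.Agent.SLR

open Pool.Agent.SLZ

section

variable {M M' : Type} [AddCommGroup M] [Module.Free ℤ M] [Module.Finite ℤ M]
  [AddCommGroup M'] [Module.Free ℤ M'] [Module.Finite ℤ M'] (f : M →ₗ[ℤ] M')

theorem ka_sat {P : Submodule ℤ M} (hP : SpI f P) : Sat P := by
  intro k x hk hx
  have h1 : f x ∈ P.map f := by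
    refine hP.2 k (f x) hk ?_
    rw [← map_smul]
    exact Submodule.mem_map_of_mem hx
  obtain ⟨y, hy, hxy⟩ := h1
  have h2 : k • (x - y) = 0 := by
    rw [smul_sub]
    apply hP.1 _ (P.sub_mem hx (P.smul_mem k hy))
    rw [map_sub, map_smul, map_smul, hxy, sub_self]
  rcases smul_eq_zero.1 h2 with h3 | h3
  · exact absurd h3 hk
  · rw [sub_eq_zero.1 h3]
    exact hy

theorem ka_sub {P Q : Submodule ℤ M} (hP : SpI f P) (hQP : Q ≤ P) (hQ : Sat Q) : SpI f Q := by
  refine ⟨fun x hx h => hP.1 x (hQP hx) h, ?_⟩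
  intro k z hk hz
  obtain ⟨y, hy, hyz⟩ := hz
  have h1 : z ∈ P.map f := by
    refine hP.2 k z hk ?_
    rw [← hyz]
    exact Submodule.mem_map_of_mem (hQP hy)
  obtain ⟨x, hx, hxz⟩ := h1
  have h2 : k • x - y = 0 := by
    apply hP.1 _ (P.sub_mem (P.smul_mem k hx) (hQP hy))
    rw [map_sub, map_smul, hxz, hyz, sub_self]
  refine ⟨x, hQ k x hk ?_, hxz⟩
  rw [sub_eq_zero.1 h2]
  exact hy

theorem ka_sup {P : Submodule ℤ M} {u : M} (hP : Sat P) (hu : u ∉ P) :
    Module.finrank ℤ ↥(P ⊔ ℤ ∙ u) = Module.finrank ℤ P + 1 := by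
  have hu0 : u ≠ 0 := by
    rintro rfl
    exact hu P.zero_mem
  have hinf : P ⊓ ℤ ∙ u = ⊥ := by
    rw [eq_bot_iff]
    intro x hx
    obtain ⟨hx1, hx2⟩ := hx
    obtain ⟨n, rfl⟩ := Submodule.mem_span_singleton.1 hx2
    by_cases hn : n = 0
    · rw [hn, zero_smul]
      exact Submodule.zero_mem _
    · exact absurd (hP n u hn hx1) hu
  have h1 := Submodule.rank_sup_add_rank_inf_eq P (ℤ ∙ u)
  rw [hinf, rank_bot, add_zero] at h1
  have h2 : Module.finrank ℤ ↥(ℤ ∙ u) = 1 := by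
    rw [← (LinearEquiv.toSpanNonzeroSingleton ℤ M u hu0).finrank_eq]
    exact Module.finrank_self ℤ
  rw [← Module.finrank_eq_rank, ← Module.finrank_eq_rank, ← Module.finrank_eq_rank, h2] at h1
  exact_mod_cast h1

theorem ka_rank {P Q : Submodule ℤ M} (hP : Sat P) (hQ : Sat Q) (hPQ : P ≤ Q) :
    Module.finrank ℤ P ≤ Module.finrank ℤ Q ∧ (Module.finrank ℤ P = Module.finrank ℤ Q → P = Q) := by
  refine ⟨Submodule.finrank_mono hPQ, ?_⟩
  intro h
  have h1 := Submodule.finrank_quotient_add_finrank (P.comap Q.subtype)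
  have h2 := (Submodule.comapSubtypeEquivOfLe hPQ).finrank_eq
  have h3 : Module.finrank ℤ (Q ⧸ P.comap Q.subtype) = 0 := by omega
  rw [Module.finrank_eq_zero_iff] at h3
  apply le_antisymm hPQ
  intro x hx
  obtain ⟨a, ha, hax⟩ := h3 ((P.comap Q.subtype).mkQ ⟨x, hx⟩)
  rw [← map_smul, Submodule.mkQ_apply, Submodule.Quotient.mk_eq_zero] at hax
  exact hP a x ha hax

theorem ka_free {P : Submodule ℤ M} (hP : Sat P) : Module.Free ℤ (M ⧸ P) := by
  have htf : Module.IsTorsionFree ℤ (M ⧸ P) := by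
    refine Module.IsTorsionFree.of_smul_eq_zero ?_
    intro r m h
    by_cases hr : r = 0
    · exact Or.inl hr
    right
    obtain ⟨w, rfl⟩ := P.mkQ_surjective m
    rw [← map_smul, Submodule.mkQ_apply, Submodule.Quotient.mk_eq_zero] at h
    rw [Submodule.mkQ_apply, Submodule.Quotient.mk_eq_zero]
    exact hP r w hr h
  exact Module.free_of_finite_type_torsion_free'

theorem ka_bot : SpI f (⊥ : Submodule ℤ M) := by
  refine ⟨fun x hx _ => (Submodule.mem_bot ℤ).1 hx, ?_⟩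
  intro a v ha hv
  rw [Submodule.map_bot, Submodule.mem_bot] at hv ⊢
  rcases smul_eq_zero.1 hv with h | h
  · exact absurd h ha
  · exact h

end

theorem thm_KA : St_KA := by
  intro M M' _ _ _ _ _ _ f
  refine ⟨fun P hP => ka_sat f hP, fun P Q hP hQP hQ => ka_sub f hP hQP hQ,
    fun P u hP hu => ka_sup hP hu, fun P Q hP hQ hPQ => ka_rank hP hQ hPQ,
    fun P hP => ⟨ka_free hP, P.finrank_quotient_add_finrank⟩, ka_bot f⟩

end Pool.Agent.SLR
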