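import Pool.Agent.SLR.StK

/-!
# SLR [KB]: ranks modulo `p` (helper67)
-/

set_option autoImplicit false
set_option linter.unusedSectionVars false

noncomputable section

namespace Pool.Agent.SLR

open Pool.Agent.SLZ Module

/-- saturated subgroups are direct summands -/
private theorem KB_retr {M : Type} [AddCommGroup M] [Module.Free ℤ M] [Module.Finite ℤ M]
    (P : Submodule ℤ M) (hP : Sat P) : ∃ r : M →ₗ[ℤ] P, ∀ x : P, r x = x := by
  have h1 : Module.IsTorsionFree ℤ (M ⧸ P) := by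
    refine Module.IsTorsionFree.of_smul_eq_zero fun a v h => ?_
    obtain ⟨w, rfl⟩ := P.mkQ_surjective v
    by_cases ha : a = 0
    · exact Or.inl ha
    · right
      rw [← map_smul, Submodule.mkQ_apply, Submodule.Quotient.mk_eq_zero] at h
      rw [Submodule.mkQ_apply, Submodule.Quotient.mk_eq_zero]
      exact hP a w ha h
  obtain ⟨s, hs⟩ := Module.projective_lifting_property P.mkQ (LinearMap.id : (M ⧸ P) →ₗ[ℤ] M ⧸ P)
    P.mkQ_surjective
  have h2 : ∀ x, (LinearMap.id - s ∘ₗ P.mkQ : M →ₗ[ℤ] M) x ∈ P := by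
    intro x
    have h3 := LinearMap.congr_fun hs (P.mkQ x)
    rw [LinearMap.comp_apply, LinearMap.id_apply] at h3
    rw [← Submodule.Quotient.mk_eq_zero, ← Submodule.mkQ_apply, LinearMap.sub_apply,
      LinearMap.id_apply, LinearMap.comp_apply, map_sub, h3, sub_self]
  refine ⟨(LinearMap.id - s ∘ₗ P.mkQ).codRestrict P h2, fun x => ?_⟩
  apply Subtype.ext
  have h4 : P.mkQ (x : M) = 0 := by
    rw [Submodule.mkQ_apply, Submodule.Quotient.mk_eq_zero]
    exact x.2
  show (x : M) - s (P.mkQ (x : M)) = x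
  rw [h4, map_zero, sub_zero]

section rk

variable {M M' M'' : Type} [AddCommGroup M] [Module.Free ℤ M] [Module.Finite ℤ M]
  [AddCommGroup M'] [Module.Free ℤ M'] [Module.Finite ℤ M'] [AddCommGroup M'']
  [Module.Free ℤ M''] [Module.Finite ℤ M''] {p : ℕ} [Fact p.Prime]

private theorem KB_fin : finrank (ZMod p) (TensorProduct ℤ (ZMod p) M) = finrank ℤ M :=
  Module.finrank_baseChange

private theorem KB_inj {f : M →ₗ[ℤ] M'} {r : M' →ₗ[ℤ] M} (h : ∀ x, r (f x) = x) :
    Function.Injective (f.baseChange (ZMod p)) := by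
  have h1 : r.baseChange (ZMod p) ∘ₗ f.baseChange (ZMod p) = LinearMap.id := by
    rw [← LinearMap.baseChange_comp]
    have h2 : r ∘ₗ f = LinearMap.id := LinearMap.ext h
    rw [h2, LinearMap.baseChange_id]
  intro x y hxy
  have h2 := congrArg (r.baseChange (ZMod p)) hxy
  rw [← LinearMap.comp_apply, ← LinearMap.comp_apply, h1] at h2
  exact h2

private theorem KB_comp_left (f : M →ₗ[ℤ] M') (g : M' →ₗ[ℤ] M'') :
    rkp p (g ∘ₗ f) ≤ rkp p g := by
  rw [rkp, rkp, LinearMap.baseChange_comp]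
  exact Submodule.finrank_mono (LinearMap.range_comp_le_range _ _)

private theorem KB_comp_right (f : M →ₗ[ℤ] M') (g : M' →ₗ[ℤ] M'') :
    rkp p (g ∘ₗ f) ≤ rkp p f := by
  rw [rkp, rkp, LinearMap.baseChange_comp, LinearMap.range_comp]
  exact Submodule.finrank_map_le _ _

private theorem KB_le_left (f : M →ₗ[ℤ] M') : rkp p f ≤ finrank ℤ M := by
  rw [rkp, ← KB_fin (p := p)]
  exact LinearMap.finrank_range_le _

private theorem KB_le_right (f : M →ₗ[ℤ] M') : rkp p f ≤ finrank ℤ M' := by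
  rw [rkp, ← KB_fin (p := p)]
  exact Submodule.finrank_le _

private theorem KB_mat {ι ι' : Type} [Fintype ι] [Fintype ι'] [DecidableEq ι] [DecidableEq ι']
    (b : Basis ι ℤ M) (b' : Basis ι' ℤ M') (f : M →ₗ[ℤ] M') :
    rkp p f = ((LinearMap.toMatrix b b' f).map (algebraMap ℤ (ZMod p))).rank := by
  rw [rkp, ← LinearMap.toMatrix_baseChange, Matrix.rank_eq_finrank_range_toLin _
    (Algebra.TensorProduct.basis (ZMod p) b') (Algebra.TensorProduct.basis (ZMod p) b),
    Matrix.toLin_toMatrix]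

private theorem KB_dual (f : M →ₗ[ℤ] M') : rkp p f.dualMap = rkp p f := by
  classical
  have h1 : f.dualMap = Module.Dual.transpose f := rfl
  rw [h1, KB_mat (Free.chooseBasis ℤ M').dualBasis (Free.chooseBasis ℤ M).dualBasis,
    LinearMap.toMatrix_transpose, KB_mat (Free.chooseBasis ℤ M) (Free.chooseBasis ℤ M') f,
    ← Matrix.rank_transpose (((LinearMap.toMatrix (Free.chooseBasis ℤ M)
      (Free.chooseBasis ℤ M')) f).map (algebraMap ℤ (ZMod p)))]
  rfl

private theorem KB_sat (f : M →ₗ[ℤ] M') (g : M'' →ₗ[ℤ] M) (r : M →ₗ[ℤ] M'')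
    (h : ∀ x, r (g x) = x) :
    rkp p f + finrank ℤ M'' ≤ rkp p (f ∘ₗ g) + finrank ℤ M := by
  have h1 := (f.baseChange (ZMod p)).finrank_range_add_finrank_ker
  have h2 := ((f ∘ₗ g).baseChange (ZMod p)).finrank_range_add_finrank_ker
  have h3 : finrank (ZMod p) ((f ∘ₗ g).baseChange (ZMod p)).ker ≤
      finrank (ZMod p) (f.baseChange (ZMod p)).ker := by
    have h4 : ∀ x : ((f ∘ₗ g).baseChange (ZMod p)).ker,
        g.baseChange (ZMod p) x ∈ (f.baseChange (ZMod p)).ker := by
      rintro ⟨x, hx⟩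
      rw [LinearMap.mem_ker, LinearMap.baseChange_comp, LinearMap.comp_apply] at hx
      exact hx
    refine LinearMap.finrank_le_finrank_of_injective (f := LinearMap.codRestrict _
      ((g.baseChange (ZMod p)).domRestrict _) h4) ?_
    intro x y hxy
    apply Subtype.ext
    exact KB_inj h (congrArg Subtype.val hxy)
  rw [KB_fin] at h1 h2
  rw [rkp, rkp]
  omega

private theorem KB_spi (f : M →ₗ[ℤ] M') (P : Submodule ℤ M) (hP : SpI f P) :
    rkp p (f ∘ₗ P.subtype) = finrank ℤ P := by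
  obtain ⟨r, hr⟩ := KB_retr _ hP.2
  have hinj : Function.Injective (f.submoduleMap P) := by
    rw [injective_iff_map_eq_zero]
    intro x hx
    apply Subtype.ext
    exact hP.1 x x.2 (congrArg Subtype.val hx)
  obtain ⟨e, he⟩ : ∃ e : P ≃ₗ[ℤ] P.map f, ∀ x, e x = f.submoduleMap P x :=
    ⟨LinearEquiv.ofBijective _ ⟨hinj, f.submoduleMap_surjective P⟩, fun x => rfl⟩
  rw [rkp, LinearMap.finrank_range_of_inj, KB_fin]
  refine KB_inj (r := (e.symm : P.map f →ₗ[ℤ] P) ∘ₗ r) fun x => ?_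
  have h1 : r (f x) = e x := by
    rw [he]
    exact hr (f.submoduleMap P x)
  show e.symm (r (f x)) = x
  rw [h1, LinearEquiv.symm_apply_apply]

end rk

theorem thm_KB : St_KB := by
  intro M M' _ _ _ _ _ _ f p hp
  have : Fact p.Prime := ⟨hp⟩
  refine ⟨?_, ?_, ?_, ?_, ?_, ?_, ?_⟩
  · intro M1 hM1
    obtain ⟨r, hr⟩ := KB_retr M1 hM1
    have e1 : f.domRestrict M1 = f ∘ₗ M1.subtype := LinearMap.ext fun x => rfl
    rw [e1]
    exact KB_sat f M1.subtype r hr
  · intro P M1 hP hle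
    have e1 : f ∘ₗ P.subtype = (f.domRestrict M1) ∘ₗ Submodule.inclusion hle :=
      LinearMap.ext fun x => rfl
    rw [← KB_spi (p := p) f P hP, e1]
    exact KB_comp_left _ _
  · exact KB_dual f
  · have e1 : f.domRestrict ⊤ = f ∘ₗ (⊤ : Submodule ℤ M).subtype := LinearMap.ext fun x => rfl
    obtain ⟨t, ht⟩ : ∃ t : M →ₗ[ℤ] (⊤ : Submodule ℤ M), ∀ x, ((t x : (⊤ : Submodule ℤ M)) : M) = x :=
      ⟨LinearMap.id.codRestrict ⊤ fun _ => trivial, fun x => rfl⟩
    have e2 : (f.domRestrict ⊤) ∘ₗ t = f := LinearMap.ext fun x => congrArg f (ht x)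
    apply le_antisymm
    · rw [e1]
      exact KB_comp_left _ _
    · have h1 := KB_comp_left (p := p) t (f.domRestrict ⊤)
      rw [e2] at h1
      exact h1
  · intro M'' _ _ _ g
    exact ⟨KB_comp_left f g, KB_comp_right f g⟩
  · exact KB_le_left f
  · exact KB_le_right f

end Pool.Agent.SLR
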