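import Pool.Agent.SLR.StK

/-!
# SLR, KC: a good vector
-/

set_option autoImplicit false
set_option linter.unusedVariables false

noncomputable section

namespace Pool.Agent.SLR

open Pool.Agent.SLZ TensorProduct

theorem kc_free {M : Type} [AddCommGroup M] [Module.Free ℤ M] [Module.Finite ℤ M]
    (P : Submodule ℤ M) (hP : Sat P) : Module.Free ℤ (M ⧸ P) := by
  have htf : Module.IsTorsionFree ℤ (M ⧸ P) := by
    refine Module.IsTorsionFree.of_smul_eq_zero ?_
    intro r m h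
    by_cases hr : r = 0
    · exact Or.inl hr
    right
    obtain ⟨w, rfl⟩ := P.mkQ_surjective m
    rw [← map_smul, Submodule.mkQ_apply, Submodule.Quotient.mk_eq_zero] at h
    rw [Submodule.mkQ_apply, Submodule.Quotient.mk_eq_zero]
    exact hP r w hr h
  exact Module.free_of_finite_type_torsion_free'

/-- if `f M1` is contained in `f P0 + p M'` then the rank modulo `p` is small -/
theorem kc_rank {M M' : Type} [AddCommGroup M] [Module.Free ℤ M] [Module.Finite ℤ M]
    [AddCommGroup M'] [Module.Free ℤ M'] [Module.Finite ℤ M'] (f : M →ₗ[ℤ] M')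
    (P0 M1 : Submodule ℤ M) (p : ℕ) (hp : p.Prime)
    (h : ∀ x ∈ M1, ∃ z ∈ P0, ∃ w : M', f x = f z + (p : ℤ) • w) :
    rkp p (f.domRestrict M1) ≤ Module.finrank ℤ P0 := by
  have : Fact p.Prime := ⟨hp⟩
  have hle : LinearMap.range ((f.domRestrict M1).baseChange (ZMod p)) ≤
      LinearMap.range ((f.domRestrict P0).baseChange (ZMod p)) := by
    rintro _ ⟨y, rfl⟩
    induction y using TensorProduct.induction_on with
    | zero => rw [map_zero]; exact Submodule.zero_mem _
    | add y y' h1 h2 => rw [map_add]; exact Submodule.add_mem _ h1 h2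
    | tmul a x =>
      obtain ⟨z, hz, w, hw⟩ := h x x.2
      refine ⟨a ⊗ₜ ⟨z, hz⟩, ?_⟩
      rw [LinearMap.baseChange_tmul, LinearMap.baseChange_tmul]
      show a ⊗ₜ[ℤ] f z = a ⊗ₜ[ℤ] f x
      rw [hw, TensorProduct.tmul_add]
      have e : a ⊗ₜ[ℤ] ((p : ℤ) • w) = 0 := by
        rw [← TensorProduct.smul_tmul]
        have e2 : (p : ℤ) • a = 0 := by
          rw [zsmul_eq_mul]
          simp
        rw [e2, TensorProduct.zero_tmul]
      rw [e, add_zero]
  calc rkp p (f.domRestrict M1)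
      ≤ Module.finrank (ZMod p) (LinearMap.range ((f.domRestrict P0).baseChange (ZMod p))) :=
        Submodule.finrank_mono hle
    _ ≤ Module.finrank (ZMod p) (ZMod p ⊗[ℤ] P0) := LinearMap.finrank_range_le _
    _ = Module.finrank ℤ P0 := Module.finrank_baseChange

/-- an element on which all functionals are divisible by `p` is divisible by `p` -/
theorem kc_dvd {Q : Type} [AddCommGroup Q] [Module.Free ℤ Q] [Module.Finite ℤ Q] (p : ℤ) (y : Q)
    (h : ∀ l : Q →ₗ[ℤ] ℤ, p ∣ l y) : ∃ w : Q, y = p • w := by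
  let b := Module.Free.chooseBasis ℤ Q
  choose c hc using fun i => h (b.coord i)
  refine ⟨∑ i, c i • b i, ?_⟩
  rw [Finset.smul_sum]
  conv_lhs => rw [← b.sum_repr y]
  refine Finset.sum_congr rfl fun i _ => ?_
  rw [← mul_smul, ← hc i]
  rfl

/-- a family of integers `l (g x)` without common prime divisor contains `1` -/
theorem kc_one {M Q : Type} [AddCommGroup M] [AddCommGroup Q] (g : M →ₗ[ℤ] Q)
    (M1 : Submodule ℤ M)
    (h : ∀ p : ℕ, p.Prime → ∃ x ∈ M1, ∃ l : Q →ₗ[ℤ] ℤ, ¬ (p : ℤ) ∣ l (g x)) :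
    ∃ e ∈ M1, ∃ l : Q →ₗ[ℤ] ℤ, l (g e) = 1 := by
  classical
  have hex : ∃ d : ℕ, 0 < d ∧ ∃ x ∈ M1, ∃ l : Q →ₗ[ℤ] ℤ, l (g x) = d := by
    obtain ⟨x, hx, l, hl⟩ := h 2 Nat.prime_two
    have hne : l (g x) ≠ 0 := fun h0 => hl (by rw [h0]; exact dvd_zero _)
    rcases lt_or_gt_of_ne hne with h1 | h1
    · refine ⟨(l (g x)).natAbs, Int.natAbs_pos.2 hne, x, hx, -l, ?_⟩
      rw [LinearMap.neg_apply]
      omega
    · refine ⟨(l (g x)).natAbs, Int.natAbs_pos.2 hne, x, hx, l, ?_⟩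
      omega
  set d := Nat.find hex with hd
  obtain ⟨hdpos, e, he, l, hle⟩ := Nat.find_spec hex
  rw [← hd] at hdpos hle
  have hmin : ∀ (x : M) (l : Q →ₗ[ℤ] ℤ), x ∈ M1 → 0 < l (g x) → (d : ℤ) ≤ l (g x) := by
    intro x l' hx hpos
    by_contra hcon
    push Not at hcon
    have : (l' (g x)).natAbs < d := by omega
    exact Nat.find_min hex this ⟨by omega, x, hx, l', by omega⟩
  have hd' : (0 : ℤ) < d := by exact_mod_cast hdpos
  -- claim A
  have hA : ∀ (l1 : Q →ₗ[ℤ] ℤ), l1 (g e) = d → ∀ x ∈ M1, (d : ℤ) ∣ l1 (g x) := by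
    intro l1 h1 x hx
    have hmem : x - (l1 (g x) / d) • e ∈ M1 := M1.sub_mem hx (M1.smul_mem _ he)
    have hval : l1 (g (x - (l1 (g x) / d) • e)) = l1 (g x) % d := by
      rw [map_sub, map_sub, map_smul, map_smul, h1, smul_eq_mul]
      have := Int.emod_add_mul_ediv (l1 (g x)) d
      linarith
    rw [Int.dvd_iff_emod_eq_zero]
    by_contra hne
    have hnn := Int.emod_nonneg (l1 (g x)) hd'.ne'
    have hpos : 0 < l1 (g (x - (l1 (g x) / d) • e)) := by
      rw [hval]
      omega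
    have := hmin _ _ hmem hpos
    rw [hval] at this
    have := Int.emod_lt_of_pos (l1 (g x)) hd'
    omega
  -- claim B
  have hB : ∀ (l1 : Q →ₗ[ℤ] ℤ), (d : ℤ) ∣ l1 (g e) := by
    intro l1
    have hval : (l1 - (l1 (g e) / d) • l) (g e) = l1 (g e) % d := by
      rw [LinearMap.sub_apply, LinearMap.smul_apply, hle, smul_eq_mul]
      have := Int.emod_add_mul_ediv (l1 (g e)) d
      linarith
    rw [Int.dvd_iff_emod_eq_zero]
    by_contra hne
    have hnn := Int.emod_nonneg (l1 (g e)) hd'.ne'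
    have hpos : 0 < (l1 - (l1 (g e) / d) • l) (g e) := by
      rw [hval]
      omega
    have := hmin _ _ he hpos
    rw [hval] at this
    have := Int.emod_lt_of_pos (l1 (g e)) hd'
    omega
  -- claim C
  have hC : ∀ (l1 : Q →ₗ[ℤ] ℤ), ∀ x ∈ M1, (d : ℤ) ∣ l1 (g x) := by
    intro l1 x hx
    obtain ⟨k1, hk1⟩ := hB l1
    have h2 : (l + (l1 - k1 • l)) (g e) = d := by
      rw [LinearMap.add_apply, LinearMap.sub_apply, LinearMap.smul_apply, hle, hk1, smul_eq_mul]
      ring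
    have h3 := hA _ h2 x hx
    have h4 := hA l hle x hx
    rw [LinearMap.add_apply, LinearMap.sub_apply, LinearMap.smul_apply, smul_eq_mul] at h3
    have h5 : l1 (g x) = (l (g x) + (l1 (g x) - k1 * l (g x))) - l (g x) + k1 * l (g x) := by ring
    rw [h5]
    exact dvd_add (dvd_sub h3 h4) (Dvd.dvd.mul_left h4 k1)
  have hd1 : d = 1 := by
    by_contra hne
    obtain ⟨p, hp, hpd⟩ := Nat.exists_prime_and_dvd hne
    obtain ⟨x, hx, l1, hl1⟩ := h p hp
    exact hl1 ((Int.natCast_dvd_natCast.2 hpd).trans (hC l1 x hx))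
  refine ⟨e, he, l, ?_⟩
  rw [hle, hd1]
  rfl

theorem kc_main : St_KC := by
  intro M M' _ _ _ _ _ _ f P0 M1 N0 hPM hSp hN hrk
  set q : M' →ₗ[ℤ] M' ⧸ P0.map f := (P0.map f).mkQ with hq
  have hfree : Module.Free ℤ (M' ⧸ P0.map f) := kc_free _ hSp.2
  have hgP : ∀ z ∈ P0, q (f z) = 0 := by
    intro z hz
    rw [hq, Submodule.mkQ_apply, Submodule.Quotient.mk_eq_zero]
    exact Submodule.mem_map_of_mem hz
  have hprime : ∀ p : ℕ, p.Prime → ∃ x ∈ M1, ∃ l : (M' ⧸ P0.map f) →ₗ[ℤ] ℤ,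
      ¬ (p : ℤ) ∣ l ((q ∘ₗ f) x) := by
    intro p hp
    by_contra hcon
    push Not at hcon
    have h1 := hrk p hp
    have h2 := kc_rank f P0 M1 p hp (by
      intro x hx
      obtain ⟨w, hw⟩ := kc_dvd (p : ℤ) ((q ∘ₗ f) x) (hcon x hx)
      obtain ⟨w', rfl⟩ := (P0.map f).mkQ_surjective w
      have h3 : q (f x - (p : ℤ) • w') = 0 := by
        rw [map_sub, map_smul]
        exact sub_eq_zero.2 hw
      rw [hq, Submodule.mkQ_apply, Submodule.Quotient.mk_eq_zero] at h3
      obtain ⟨z, hz, hz'⟩ := h3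
      exact ⟨z, hz, w', by rw [hz']; abel⟩)
    omega
  obtain ⟨e, he, l, hle⟩ := kc_one (q ∘ₗ f) M1 hprime
  have hle' : l (q (f e)) = 1 := hle
  obtain ⟨u, hu, hlu, hnot⟩ : ∃ u ∈ M1, l (q (f u)) = 1 ∧ ¬ P0 ⊔ ℤ ∙ u ≤ N0 := by
    by_cases hc : P0 ⊔ ℤ ∙ e ≤ N0
    · have heN : e ∈ N0 := hc (Submodule.mem_sup_right (Submodule.mem_span_singleton_self e))
      obtain ⟨y, hy, hyN⟩ := SetLike.not_le_iff_exists.1 hN
      refine ⟨e + (y - (l (q (f y))) • e), M1.add_mem he (M1.sub_mem hy (M1.smul_mem _ he)), ?_, ?_⟩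
      · rw [map_add, map_add, map_add, map_sub, map_sub, map_sub, map_smul, map_smul, map_smul,
          hle', smul_eq_mul]
        ring
      · intro hc2
        have h1 : e + (y - (l (q (f y))) • e) ∈ N0 :=
          hc2 (Submodule.mem_sup_right (Submodule.mem_span_singleton_self _))
        have h2 : y - (l (q (f y))) • e ∈ N0 := by
          have := N0.sub_mem h1 heN
          rwa [add_sub_cancel_left] at this
        have h3 : y ∈ N0 := by
          have := N0.add_mem h2 (N0.smul_mem (l (q (f y))) heN)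
          rwa [sub_add_cancel] at this
        exact hyN h3
    · exact ⟨e, he, hle', hc⟩
  have hval : ∀ z ∈ P0, ∀ k : ℤ, l (q (f (z + k • u))) = k := by
    intro z hz k
    rw [map_add, map_add, hgP z hz, zero_add, map_smul, map_smul, map_smul, hlu, smul_eq_mul,
      mul_one]
  refine ⟨u, hu, ?_, ⟨?_, ?_⟩, hnot⟩
  · intro hcon
    have h1 := hgP u hcon
    rw [h1, map_zero] at hlu
    exact zero_ne_one hlu
  · intro x hx hfx
    obtain ⟨z, hz, y, hy, rfl⟩ := Submodule.mem_sup.1 hx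
    obtain ⟨k, rfl⟩ := Submodule.mem_span_singleton.1 hy
    have h1 := hval z hz k
    rw [hfx, map_zero, map_zero] at h1
    rw [← h1, zero_smul, add_zero] at hfx ⊢
    exact hSp.1 z hz hfx
  · intro a w ha hw
    obtain ⟨x, hx, hfx⟩ := hw
    obtain ⟨z, hz, y, hy, rfl⟩ := Submodule.mem_sup.1 hx
    obtain ⟨k, rfl⟩ := Submodule.mem_span_singleton.1 hy
    have h1 := hval z hz k
    rw [hfx, map_smul, map_smul, smul_eq_mul] at h1
    have h2 : a • (w - (l (q w)) • f u) = f z := by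
      rw [smul_sub, ← hfx, map_add, map_smul, ← mul_smul, h1]
      abel
    have h3 : w - (l (q w)) • f u ∈ P0.map f :=
      hSp.2 a _ ha (by rw [h2]; exact Submodule.mem_map_of_mem hz)
    obtain ⟨z', hz', hz''⟩ := h3
    refine ⟨z' + (l (q w)) • u, Submodule.add_mem_sup hz'
      (Submodule.smul_mem _ _ (Submodule.mem_span_singleton_self u)), ?_⟩
    rw [map_add, hz'', map_smul]
    abel

theorem thm_KC (hKA : St_KA) (hKB : St_KB) : St_KC := kc_main

end Pool.Agent.SLR
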