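import Pool.Agent.SLR.StK
import Pool.Agent.SLZ.MC
import Pool.Agent.SLZ.MB
import Pool.Agent.SLZ.MA

/-!
# SLR/KD (helper60 for helper29): the algebra theorem
-/

set_option autoImplicit false
set_option linter.unusedVariables false

noncomputable section

namespace Pool.Agent.SLR

open Pool.Agent.SLZ

section

variable {M : Type} [AddCommGroup M]

theorem KD_inf {P P' : Submodule ℤ M} {u : M} (hP : Sat P) (hu : u ∉ P) (h : P' ≤ P) :
    (P' ⊔ ℤ ∙ u) ⊓ P = P' := by
  refine le_antisymm ?_ (le_inf le_sup_left h)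
  rintro x ⟨hx1, hx2⟩
  obtain ⟨a, ha, z, hz, rfl⟩ := Submodule.mem_sup.1 hx1
  obtain ⟨k, rfl⟩ := Submodule.mem_span_singleton.1 hz
  by_cases hk : k = 0
  · rw [hk, zero_smul, add_zero]
    exact ha
  · exfalso
    apply hu
    refine hP k u hk ?_
    have h1 := P.sub_mem hx2 (h ha)
    rwa [add_sub_cancel_left] at h1

theorem KD_sup {P P' : Submodule ℤ M} {u : M} (h : P' ≤ P ⊔ ℤ ∙ u) (hu : u ∈ P') :
    (P' ⊓ P) ⊔ ℤ ∙ u = P' := by
  have hs : ℤ ∙ u ≤ P' := (Submodule.span_singleton_le_iff_mem _ _).2 hu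
  refine le_antisymm (sup_le inf_le_left hs) ?_
  intro x hx
  obtain ⟨a, ha, z, hz, rfl⟩ := Submodule.mem_sup.1 (h hx)
  refine Submodule.add_mem_sup ⟨?_, ha⟩ hz
  have h1 := P'.sub_mem hx (hs hz)
  rwa [add_sub_cancel_right] at h1

theorem KD_le {P P1 P2 : Submodule ℤ M} {u : M} (hP : Sat P) (hu : u ∉ P) (h1 : P1 ≤ P)
    (h2 : P2 ≤ P) : P1 ≤ P2 ↔ P1 ⊔ ℤ ∙ u ≤ P2 ⊔ ℤ ∙ u := by
  constructor
  · intro h
    exact sup_le_sup_right h _
  · intro h
    rw [← KD_inf hP hu h1, ← KD_inf hP hu h2]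
    exact inf_le_inf_right _ h

theorem KD_sat_inf {P Q : Submodule ℤ M} (hP : Sat P) (hQ : Sat Q) : Sat (P ⊓ Q) :=
  fun k v hk hv => ⟨hP k v hk hv.1, hQ k v hk hv.2⟩

theorem KD_cmp_refl {P : Type} [Preorder P] (x : P) : cmp x x := Or.inl le_rfl

theorem KD_cmp_symm {P : Type} [Preorder P] (x y : P) (h : cmp x y) : cmp y x := h.symm

variable {M' : Type} [AddCommGroup M']

/-- the lower part of the descending link of a bad vertex -/
theorem KD_low (f : M →ₗ[ℤ] M') (hsat : ∀ P, SpI f P → Sat P)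
    (hsub : ∀ P Q : Submodule ℤ M, SpI f P → Q ≤ P → Sat Q → SpI f Q)
    {P0 N0 P : Submodule ℤ M} {u : M} (hP0 : P0 ≤ P) (hP : Sat P) (hu : u ∉ P)
    (hbad : ¬ SpI f (P ⊔ ℤ ∙ u)) :
    (fun Q : Submodule ℤ M => Q ⊔ ℤ ∙ u) ''
      {Q | P0 < Q ∧ Q < P ∧ ¬ Q ≤ N0 ∧ SpI f Q ∧ SpI f (Q ⊔ ℤ ∙ u)} =
      GP f (P0 ⊔ ℤ ∙ u) (P ⊔ ℤ ∙ u) ((N0 ⊓ P) ⊔ ℤ ∙ u) := by
  ext Q'
  constructor
  · rintro ⟨Q, ⟨h1, h2, h3, h4, h5⟩, rfl⟩
    refine ⟨?_, sup_le_sup_right h2.le _, ?_, h5⟩
    · refine lt_of_le_of_ne (sup_le_sup_right h1.le _) fun h => ?_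
      have h6 := KD_inf hP hu hP0
      rw [h, KD_inf hP hu h2.le] at h6
      exact h1.ne' h6
    · intro h
      apply h3
      have h6 : Q ≤ N0 ⊓ P := (KD_le hP hu h2.le inf_le_right).2 h
      exact h6.trans inf_le_left
  · rintro ⟨h1, h2, h3, h4⟩
    have huQ : u ∈ Q' := h1.le (Submodule.mem_sup_right (Submodule.mem_span_singleton_self u))
    have h5 := KD_sup h2 huQ
    have h6 : Sat (Q' ⊓ P) := KD_sat_inf (hsat _ h4) hP
    refine ⟨Q' ⊓ P, ⟨?_, ?_, ?_, ?_, ?_⟩, h5⟩
    · refine lt_of_le_of_ne (le_inf (le_sup_left.trans h1.le) hP0) fun h => ?_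
      rw [← h] at h5
      exact h1.ne h5
    · refine lt_of_le_of_ne inf_le_right fun h => ?_
      rw [h] at h5
      exact hbad (h5 ▸ h4)
    · intro h
      apply h3
      rw [← h5]
      exact sup_le_sup_right (le_inf h inf_le_right) _
    · exact hsub _ _ h4 inf_le_left h6
    · rw [h5]
      exact h4

end

theorem thm_KD (hA : St_KA) (hB : St_KB) (hC : St_KC) : St_KD := by
  classical
  intro M M' _ _ _ _ _ _ f
  obtain ⟨hsat, hsub, hrk1, hrk2, -, -⟩ := hA M M' f
  have MC := fun (S T : Set (Submodule ℤ M)) (c : ℕ) =>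
    thm_MC thm_MA thm_MB (Submodule ℤ M) cmp KD_cmp_refl KD_cmp_symm S T c
  have key : ∀ (d : ℕ) (P0 M1 N0 : Submodule ℤ M) (c : ℕ),
      Module.finrank ℤ M1 - Module.finrank ℤ P0 = d → P0 ≤ M1 → SpI f P0 → ¬ M1 ≤ N0 →
      (∀ p : ℕ, p.Prime → Module.finrank ℤ P0 + c ≤ rkp p (f.domRestrict M1)) →
      SConn cmp (GP f P0 M1 N0) c := by
    intro d
    induction d using Nat.strong_induction_on with
    | _ d ih =>
      intro P0 M1 N0 c hd hP0 hS0 hN0 hr
      rcases Nat.eq_zero_or_pos c with rfl | hcpos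
      · exact (MC _ ∅ 0).2.2.1
      obtain ⟨u, huM, huP, huS, huN⟩ := hC M M' f P0 M1 N0 hP0 hS0 hN0
        (fun p hp => le_trans (by omega) (hr p hp))
      have hsM : ℤ ∙ u ≤ M1 := (Submodule.span_singleton_le_iff_mem _ _).2 huM
      have hmem : ∀ P : Submodule ℤ M, u ∈ P ⊔ ℤ ∙ u := fun P =>
        Submodule.mem_sup_right (Submodule.mem_span_singleton_self u)
      set G : Set (Submodule ℤ M) := GP f P0 M1 N0 with hG
      set T1 : Set (Submodule ℤ M) := {P | P ∈ G ∧ u ∈ P} with hT1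
      set T2 : Set (Submodule ℤ M) := {P | P ∈ G ∧ SpI f (P ⊔ ℤ ∙ u)} with hT2
      have hsup : ∀ P : Submodule ℤ M, u ∈ P → P ⊔ ℤ ∙ u = P := fun P h =>
        sup_eq_left.2 ((Submodule.span_singleton_le_iff_mem _ _).2 h)
      have hT12 : T1 ⊆ T2 := fun P h => ⟨h.1, by rw [hsup P h.2]; exact h.1.2.2.2⟩
      have hT23 : T2 ⊆ G := fun P h => h.1
      have hrk : ∀ A B : Submodule ℤ M, A ∈ G → B ∈ G → A ≠ B → cmp A B →
          Module.finrank ℤ A ≠ Module.finrank ℤ B := by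
        intro A B hA' hB' hne hcmp h
        have sA := hsat _ hA'.2.2.2
        have sB := hsat _ hB'.2.2.2
        rcases hcmp with h1 | h1
        · exact hne ((hrk2 A B sA sB h1).2 h)
        · exact hne ((hrk2 B A sB sA h1).2 h.symm).symm
      have hlt : ∀ A B : Submodule ℤ M, Sat A → Sat B → A < B →
          Module.finrank ℤ A < Module.finrank ℤ B := by
        intro A B sA sB h
        exact lt_of_le_of_ne (hrk2 A B sA sB h.le).1 fun h1 => h.ne ((hrk2 A B sA sB h.le).2 h1)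
      have hle : ∀ A : Submodule ℤ M, Module.finrank ℤ A ≤ Module.finrank ℤ M :=
        fun A => Submodule.finrank_le A
      have hsat0 := hsat _ hS0
      -- stage 1
      have s1 : SConn cmp T1 c := by
        refine (MC T1 ∅ c).2.2.2.1 ⟨P0 ⊔ ℤ ∙ u, ⟨⟨?_, sup_le hP0 hsM, huN, huS⟩, hmem _⟩, ?_⟩
        · refine lt_of_le_of_ne le_sup_left fun h => ?_
          apply huP
          rw [h]
          exact hmem _
        · intro P hP
          exact Or.inl (sup_le hP.1.1.le ((Submodule.span_singleton_le_iff_mem _ _).2 hP.2))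
      -- stage 2
      have s2 : SConn cmp T2 c := by
        refine ((MC T2 T1 c).2.2.2.2.2.2 ℕ (fun A : Submodule ℤ M => Module.finrank ℤ A) hT12
          ?_).1 s1 ?_
        · intro A hA' B hB' _ _ hne hcmp
          exact hrk A B hA'.1 hB'.1 hne hcmp
        · intro A hA2 hA1
          have hvA : u ∉ A := fun h => hA1 ⟨hA2.1, h⟩
          have hAG : A ⊔ ℤ ∙ u ∈ G := by
            refine ⟨hA2.1.1.trans_le le_sup_left, sup_le hA2.1.2.1 hsM, fun h => ?_, hA2.2⟩
            exact hA2.1.2.2.1 (le_sup_left.trans h)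
          have hAT : A ⊔ ℤ ∙ u ∈ T1 := ⟨hAG, hmem _⟩
          refine (MC _ ∅ (c - 1)).2.2.2.1 ⟨A ⊔ ℤ ∙ u, ?_, ?_⟩
          · refine ⟨hT12 hAT, ?_, Or.inl le_sup_left, Or.inl hAT⟩
            intro h
            apply hvA
            rw [← h]
            exact hmem _
          · rintro Q ⟨hu2, hne, hcmp, hor⟩
            rcases hor with hu1 | hl
            · rcases hcmp with h | h
              · left
                refine sup_le h ?_
                rw [Submodule.span_singleton_le_iff_mem]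
                exact hu1.2
              · exact absurd (h hu1.2) hvA
            · rcases hcmp with h | h
              · exact absurd (Submodule.finrank_mono h) (not_le.2 hl)
              · right
                exact h.trans le_sup_left
      -- stage 3
      refine ((MC G T2 c).2.2.2.2.2.2 ℕ
        (fun A : Submodule ℤ M => Module.finrank ℤ M - Module.finrank ℤ A) hT23 ?_).1 s2 ?_
      · intro A hA' B hB' _ _ hne hcmp h
        have h1 := hrk A B hA' hB' hne hcmp
        have h2 := hle A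
        have h3 := hle B
        have h4 : Module.finrank ℤ M - Module.finrank ℤ A =
          Module.finrank ℤ M - Module.finrank ℤ B := h
        omega
      · intro P hP3 hP2
        have hPs : Sat P := hsat _ hP3.2.2.2
        have hbad : ¬ SpI f (P ⊔ ℤ ∙ u) := fun h => hP2 ⟨hP3, h⟩
        have huP' : u ∉ P := fun h => hP2 (hT12 ⟨hP3, h⟩)
        have r1 : Module.finrank ℤ P0 < Module.finrank ℤ P := hlt _ _ hsat0 hPs hP3.1
        have r2 := hrk1 P u hPs huP'
        have r3 := hrk1 P0 u hsat0 huP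
        have r4 : Module.finrank ℤ ↥(P ⊔ ℤ ∙ u) ≤ Module.finrank ℤ M1 :=
          Submodule.finrank_mono (sup_le hP3.2.1 hsM)
        set r : ℕ := Module.finrank ℤ P - Module.finrank ℤ P0 with hrdef
        have hup : SConn cmp (GP f P M1 N0) (c - r) := by
          rcases Nat.le_total c r with hcr | hcr
          · have h0 : c - r = 0 := by omega
            rw [h0]
            exact (MC _ ∅ 0).2.2.1
          · refine ih (Module.finrank ℤ M1 - Module.finrank ℤ P) (by omega) P M1 N0 (c - r) rfl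
              hP3.2.1 hP3.2.2.2 hN0 (fun p hp => ?_)
            have h1 := hr p hp
            omega
        have hdown : SConn cmp {Q | P0 < Q ∧ Q < P ∧ ¬ Q ≤ N0 ∧ SpI f Q ∧ SpI f (Q ⊔ ℤ ∙ u)}
            (r - 1) := by
          rw [(MC {Q | P0 < Q ∧ Q < P ∧ ¬ Q ≤ N0 ∧ SpI f Q ∧ SpI f (Q ⊔ ℤ ∙ u)} ∅
            (r - 1)).2.2.2.2.2.1 (Submodule ℤ M) cmp (fun Q : Submodule ℤ M => Q ⊔ ℤ ∙ u)
            KD_cmp_refl KD_cmp_symm ?_ ?_, KD_low f hsat hsub hP3.1.le hPs huP' hbad]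
          · refine ih (Module.finrank ℤ ↥(P ⊔ ℤ ∙ u) - Module.finrank ℤ ↥(P0 ⊔ ℤ ∙ u)) (by omega)
              (P0 ⊔ ℤ ∙ u) (P ⊔ ℤ ∙ u) ((N0 ⊓ P) ⊔ ℤ ∙ u) (r - 1) rfl
              (sup_le_sup_right hP3.1.le _) huS ?_ (fun p hp => ?_)
            · intro h
              apply hP3.2.2.1
              have h6 : P ≤ N0 ⊓ P := (KD_le hPs huP' le_rfl inf_le_right).2 h
              exact h6.trans inf_le_left
            · have h1 := (hB M M' f p hp).2.1 P (P ⊔ ℤ ∙ u) hP3.2.2.2 le_sup_left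
              omega
          · intro Q1 h1 Q2 h2 h
            have h3 : Q1 ⊔ ℤ ∙ u = Q2 ⊔ ℤ ∙ u := h
            rw [← KD_inf hPs huP' h1.2.1.le, h3, KD_inf hPs huP' h2.2.1.le]
          · intro Q1 h1 Q2 h2
            have h3 := KD_le hPs huP' h1.2.1.le h2.2.1.le
            have h4 := KD_le hPs huP' h2.2.1.le h1.2.1.le
            exact or_congr h3 h4
        have hdis : Disjoint (GP f P M1 N0)
            {Q | P0 < Q ∧ Q < P ∧ ¬ Q ≤ N0 ∧ SpI f Q ∧ SpI f (Q ⊔ ℤ ∙ u)} := by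
          rw [Set.disjoint_left]
          rintro Q h1 h2
          exact lt_irrefl _ (h1.1.trans h2.2.1)
        have hjoin := (MC (GP f P M1 N0)
          {Q | P0 < Q ∧ Q < P ∧ ¬ Q ≤ N0 ∧ SpI f Q ∧ SpI f (Q ⊔ ℤ ∙ u)} (c - r)).2.2.2.2.1
          (r - 1) hdis (fun x hx y hy => Or.inr (hy.2.1.le.trans hx.1.le)) hup hdown
        have hset : dlk cmp (fun A : Submodule ℤ M => Module.finrank ℤ M - Module.finrank ℤ A)
            T2 G P = GP f P M1 N0 ∪
              {Q | P0 < Q ∧ Q < P ∧ ¬ Q ≤ N0 ∧ SpI f Q ∧ SpI f (Q ⊔ ℤ ∙ u)} := by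
          ext Q
          constructor
          · rintro ⟨hQ, hne, hcmp, hor⟩
            rcases hcmp with h | h
            · exact Or.inl ⟨lt_of_le_of_ne h hne.symm, hQ.2.1, hQ.2.2.1, hQ.2.2.2⟩
            · right
              have hQP : Q < P := lt_of_le_of_ne h hne
              rcases hor with h1 | h1
              · exact ⟨hQ.1, hQP, hQ.2.2.1, hQ.2.2.2, h1.2⟩
              · exfalso
                have h2 := hlt _ _ (hsat _ hQ.2.2.2) hPs hQP
                have h3 : Module.finrank ℤ M - Module.finrank ℤ Q <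
                  Module.finrank ℤ M - Module.finrank ℤ P := h1
                omega
          · rintro (h | ⟨h1, h2, h3, h4, h5⟩)
            · have hQG : Q ∈ G := ⟨hP3.1.trans h.1, h.2.1, h.2.2.1, h.2.2.2⟩
              refine ⟨hQG, h.1.ne', Or.inl h.1.le, Or.inr ?_⟩
              have h2 := hlt _ _ hPs (hsat _ h.2.2.2) h.1
              have h3 := hle Q
              show Module.finrank ℤ M - Module.finrank ℤ Q <
                Module.finrank ℤ M - Module.finrank ℤ P
              omega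
            · have hQG : Q ∈ G := ⟨h1, h2.le.trans hP3.2.1, h3, h4⟩
              exact ⟨hQG, h2.ne, Or.inr h2.le, Or.inl ⟨hQG, h5⟩⟩
        rw [hset]
        exact (MC _ ∅ _).2.1 hjoin (c - 1) (by omega)
  intro P0 M1 N0 c hP0 hS0 hN0 hr
  exact key _ P0 M1 N0 c rfl hP0 hS0 hN0 hr

end Pool.Agent.SLR
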