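import Pool.Agent.SLR.StK

/-!
# SLR, KQ: the link
-/

set_option autoImplicit false
set_option linter.unusedVariables false

noncomputable section

namespace Pool.Agent.SLR

open Pool.Agent.SLZ TensorProduct

/-- `F = W + I` modulo `p`: the rank of the inclusion of `I` modulo `p` is at least the corank of `W` -/
theorem kq_corank {F : Type} [AddCommGroup F] [Module.Free ℤ F] [Module.Finite ℤ F]
    (I W : Submodule ℤ F) (p : ℕ) (hp : p.Prime) (h : W ⊔ I = ⊤) :
    Module.finrank ℤ F ≤ Module.finrank ℤ W + rkp p I.subtype := by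
  have : Fact p.Prime := ⟨hp⟩
  set RW := LinearMap.range (W.subtype.baseChange (ZMod p)) with hRW
  set RI := LinearMap.range (I.subtype.baseChange (ZMod p)) with hRI
  have htop : RW ⊔ RI = ⊤ := by
    rw [eq_top_iff]
    intro y _
    induction y using TensorProduct.induction_on with
    | zero => exact Submodule.zero_mem _
    | add y y' h1 h2 => exact Submodule.add_mem _ (h1 trivial) (h2 trivial)
    | tmul a x =>
      have hx : x ∈ W ⊔ I := by rw [h]; trivial
      obtain ⟨w, hw, i, hi, rfl⟩ := Submodule.mem_sup.1 hx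
      rw [TensorProduct.tmul_add]
      exact Submodule.add_mem_sup ⟨a ⊗ₜ ⟨w, hw⟩, rfl⟩ ⟨a ⊗ₜ ⟨i, hi⟩, rfl⟩
  have h1 := Submodule.finrank_add_le_finrank_add_finrank RW RI
  rw [htop, finrank_top, Module.finrank_baseChange] at h1
  have h2 : Module.finrank (ZMod p) RW ≤ Module.finrank ℤ W := by
    rw [← Module.finrank_baseChange (R := ZMod p) (S := ℤ) (M' := W)]
    exact LinearMap.finrank_range_le _
  have h3 : Module.finrank (ZMod p) RI = rkp p I.subtype := rfl
  omega

theorem thm_KQ (hKA : St_KA) (hKB : St_KB) (hKQ1 : St_KQ1) (hKQ2 : St_KQ2) : St_KQ := by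
  classical
  intro F C _ _ _ _ _ _ I N0 f c hN hl hr hc
  -- the smallest rank
  have hex : ∃ α : ℕ, ∃ p : ℕ, p.Prime ∧ rkp p I.subtype = α := ⟨_, 2, Nat.prime_two, rfl⟩
  set α := Nat.find hex with hα
  obtain ⟨p1, hp1, hp1α⟩ := Nat.find_spec hex
  rw [← hα] at hp1α
  have hmin : ∀ p : ℕ, p.Prime → α ≤ rkp p I.subtype := fun p hp => Nat.find_min' hex ⟨p, hp, rfl⟩
  rcases Nat.lt_or_ge α c with h | h
  · refine hKQ2 F C I N0 f α c ?_ ?_
    · intro W hW
      have h1 := kq_corank I W p1 hp1 hW.2.1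
      omega
    · intro p hp
      have h1 := hr p p1 hp hp1
      omega
  · exact hKQ1 F C I N0 f c hN hl (fun p hp => h.trans (hmin p hp))

end Pool.Agent.SLR
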