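import Pool.Agent.SLR.StK
import Pool.Agent.SLZ.MA
import Pool.Agent.SLZ.MB
import Pool.Agent.SLZ.MC

/-!
# SLR, KQ1: regime 1
-/

set_option autoImplicit false
set_option linter.unusedVariables false

noncomputable section

namespace Pool.Agent.SLR

open Pool.Agent.SLZ

/-- a retraction onto a saturated subgroup -/
theorem kq1_retr {C : Type} [AddCommGroup C] [Module.Free ℤ C] [Module.Finite ℤ C]
    (P : Submodule ℤ C) (hP : Sat P) : ∃ r : C →ₗ[ℤ] P, ∀ u : P, r u = u := by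
  have htf : Module.IsTorsionFree ℤ (C ⧸ P) := by
    refine Module.IsTorsionFree.of_smul_eq_zero ?_
    intro r m h
    by_cases hr : r = 0
    · exact Or.inl hr
    right
    obtain ⟨w, rfl⟩ := P.mkQ_surjective m
    rw [← map_smul, Submodule.mkQ_apply, Submodule.Quotient.mk_eq_zero] at h
    rw [Submodule.mkQ_apply, Submodule.Quotient.mk_eq_zero]
    exact hP r w hr h
  have hfree : Module.Free ℤ (C ⧸ P) := Module.free_of_finite_type_torsion_free'
  obtain ⟨σ, hσ⟩ := Module.projective_lifting_property P.mkQ LinearMap.id P.mkQ_surjective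
  have hσ' : ∀ x, P.mkQ (σ x) = x := fun x => LinearMap.congr_fun hσ x
  have hmem : ∀ w, ((LinearMap.id : C →ₗ[ℤ] C) - σ ∘ₗ P.mkQ) w ∈ P := by
    intro w
    rw [← Submodule.Quotient.mk_eq_zero P, ← Submodule.mkQ_apply]
    simp only [LinearMap.sub_apply, LinearMap.id_apply, LinearMap.comp_apply, map_sub, hσ', sub_self]
  refine ⟨LinearMap.codRestrict P ((LinearMap.id : C →ₗ[ℤ] C) - σ ∘ₗ P.mkQ) hmem, ?_⟩
  intro u
  apply Subtype.ext
  show (u : C) - σ (P.mkQ (u : C)) = u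
  have h2 : P.mkQ (u : C) = 0 := by
    rw [Submodule.mkQ_apply]
    exact (Submodule.Quotient.mk_eq_zero P).2 u.2
  rw [h2, map_zero, sub_zero]

theorem kq1_ann {F C : Type} [AddCommGroup F] [Module.Free ℤ F] [Module.Finite ℤ F]
    [AddCommGroup C] [Module.Free ℤ C] [Module.Finite ℤ C]
    (N0 : Submodule ℤ (Module.Dual ℤ F)) (f : F →ₗ[ℤ] C) (hN : N0 ≠ ⊤)
    (hl : ∀ l : Module.Dual ℤ C, l ∘ₗ f ∈ N0) (A : Submodule ℤ F) (hA : SpI f A) :
    ¬ A.dualAnnihilator ≤ N0 := by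
  intro hcon
  apply hN
  rw [eq_top_iff]
  intro φ _
  have hsat : Sat (LinearMap.range (f.domRestrict A)) := by
    rw [LinearMap.range_domRestrict]
    exact hA.2
  obtain ⟨r, hr⟩ := kq1_retr _ hsat
  have hinj : Function.Injective (f.domRestrict A) := by
    rw [injective_iff_map_eq_zero]
    intro a ha
    exact Subtype.ext (hA.1 a a.2 ha)
  let e := LinearEquiv.ofInjective (f.domRestrict A) hinj
  let l : Module.Dual ℤ C := φ ∘ₗ A.subtype ∘ₗ e.symm.toLinearMap ∘ₗ r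
  have hval : ∀ a ∈ A, l (f a) = φ a := by
    intro a ha
    have h1 : r (f a) = e ⟨a, ha⟩ := hr (e ⟨a, ha⟩)
    show φ ((e.symm (r (f a)) : A) : F) = φ a
    rw [h1, LinearEquiv.symm_apply_apply]
  have h2 : φ - l ∘ₗ f ∈ A.dualAnnihilator := by
    rw [Submodule.mem_dualAnnihilator]
    intro a ha
    rw [LinearMap.sub_apply, LinearMap.comp_apply, hval a ha, sub_self]
  have h3 := N0.add_mem (hcon h2) (hl l)
  rwa [sub_add_cancel] at h3

theorem thm_KQ1 (hKA : St_KA) (hKE : St_KE) (hKT : St_KT) (hPX : SLZ.St_PX) : St_KQ1 := by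
  intro F C _ _ _ _ _ _ I N0 f c hN hl hrk
  obtain ⟨kaSat, kaSub, -, kaRank, kaFree, kaBot⟩ := hKA F C f
  have hTA : ∀ A ∈ Us f, A ≠ ⊥ ∧ Sat A := fun A hA => ⟨hA.1, kaSat A hA.2⟩
  have hTB : ∀ B ∈ Bs I N0, B ≠ ⊤ ∧ Sat B := by
    intro B hB
    refine ⟨?_, hB.1⟩
    rintro rfl
    apply hB.2.2
    rw [Submodule.dualAnnihilator_top]
    exact bot_le
  have hzero : ∀ S : Set (Submodule ℤ F), SConn cmp S 0 := by
    intro S
    exact (thm_MC thm_MA thm_MB (Submodule ℤ F) cmp (fun x => Or.inl le_rfl)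
      (fun x y h => h.symm) S ∅ 0).2.2.1
  refine (hPX ℤ F (Us f) (Bs I N0) c hTA hTB).2 ?_ ?_ ?_
  · have h1 := hKE F I N0 ⊥ c (by
      intro a v ha hv
      rw [Submodule.mem_bot] at hv ⊢
      rcases smul_eq_zero.1 hv with h | h
      · exact absurd h ha
      · exact h) (by
      intro hcon
      rw [Submodule.dualAnnihilator_bot] at hcon
      exact hN (top_le_iff.1 hcon)) (by
      intro p hp
      rw [finrank_bot]
      exact hrk p hp)
    have e1 : {W : Submodule ℤ F | W ∈ Bs I N0 ∧ ⊥ ≤ W} = Bs I N0 := by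
      ext B
      exact ⟨fun h => h.1, fun h => ⟨h, bot_le⟩⟩
    rw [e1] at h1
    exact h1
  · intro A hA
    rcases Nat.le_total c (Module.finrank ℤ A) with hc | hc
    · rw [Nat.sub_eq_zero_of_le hc]
      exact hzero _
    · refine hKE F I N0 A (c - Module.finrank ℤ A) (kaSat A hA.2) (kq1_ann N0 f hN hl A hA.2) ?_
      intro p hp
      have := hrk p hp
      omega
  · intro A hA
    have h1 := hKT F A (kaSat A hA.2)
    have e1 : {A' : Submodule ℤ F | A' ∈ Us f ∧ A' < A} =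
        {P : Submodule ℤ F | P ≠ ⊥ ∧ P < A ∧ Sat P} := by
      ext P
      constructor
      · rintro ⟨h2, h3⟩
        exact ⟨h2.1, h3, kaSat P h2.2⟩
      · rintro ⟨h2, h3, h4⟩
        exact ⟨⟨h2, kaSub A P hA.2 h3.le h4⟩, h3⟩
    rw [e1]
    exact h1

end Pool.Agent.SLR
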