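import Pool.Agent.SLR.StK
import Pool.Agent.SLZ.MA
import Pool.Agent.SLZ.MB
import Pool.Agent.SLZ.MC

/-!
# SLR, KQ2: regime 2
-/

set_option autoImplicit false
set_option linter.unusedVariables false

noncomputable section

namespace Pool.Agent.SLR

open Pool.Agent.SLZ

theorem kq2_refl {P : Type} [PartialOrder P] (x : P ⊕ P) : lkr x x := by
  rcases x with a | a
  · exact Or.inl le_rfl
  · exact Or.inl le_rfl

theorem kq2_cmp_symm {P : Type} [PartialOrder P] {x y : P} (h : cmp x y) : cmp y x := by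
  rcases h with h | h
  · exact Or.inr h
  · exact Or.inl h

theorem kq2_symm {P : Type} [PartialOrder P] (x y : P ⊕ P) (h : lkr x y) : lkr y x := by
  rcases x with a | a <;> rcases y with b | b
  · exact kq2_cmp_symm h
  · exact h
  · exact h
  · exact kq2_cmp_symm h

/-- the measure -/
def kq2_fn {F : Type} [AddCommGroup F] : Submodule ℤ F ⊕ Submodule ℤ F → ℕ
  | .inl _ => 0
  | .inr B => Module.finrank ℤ B

theorem thm_KQ2 (hKA : St_KA) (hKB : St_KB) (hKD : St_KD) : St_KQ2 := by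
  intro F C _ _ _ _ _ _ I N0 f a c h1 h2
  obtain ⟨-, -, -, kaRank, kaFree, kaBot⟩ := hKA F C f
  -- ranks of different saturated comparable subgroups
  have hlt : ∀ P Q : Submodule ℤ F, Sat P → Sat Q → P < Q →
      Module.finrank ℤ P < Module.finrank ℤ Q := by
    intro P Q hP hQ hPQ
    obtain ⟨ha, hb⟩ := kaRank P Q hP hQ hPQ.le
    rcases lt_or_eq_of_le ha with h | h
    · exact h
    · exact absurd (hb h) hPQ.ne
  have hsatTop : Sat (⊤ : Submodule ℤ F) := fun _ _ _ _ => trivial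
  have hne_top : ∀ B ∈ Bs I N0, B < ⊤ := by
    intro B hB
    rw [lt_top_iff_ne_top]
    rintro rfl
    apply hB.2.2
    rw [Submodule.dualAnnihilator_top]
    exact bot_le
  -- first part
  have hfirst : ∀ W : Submodule ℤ F, (W = ⊤ ∨ W ∈ Bs I N0) →
      SConn lkr (Sum.inl '' {A : Submodule ℤ F | A ∈ Us f ∧ A ≤ W} :
        Set (Submodule ℤ F ⊕ Submodule ℤ F)) c := by
    intro W hW
    rcases Nat.eq_zero_or_pos c with hc | hc
    · rw [hc]
      exact (thm_MC thm_MA thm_MB (Submodule ℤ F ⊕ Submodule ℤ F) lkr kq2_refl kq2_symm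
        (Sum.inl '' {A : Submodule ℤ F | A ∈ Us f ∧ A ≤ W}) ∅ 0).2.2.1
    have hsat : Sat W := by
      rcases hW with rfl | hW
      · exact hsatTop
      · exact hW.1
    have hrankW : Module.finrank ℤ F ≤ Module.finrank ℤ W + a := by
      rcases hW with rfl | hW
      · rw [finrank_top]
        omega
      · exact h1 W hW
    have hrk : ∀ p : ℕ, p.Prime → c ≤ rkp p (f.domRestrict W) := by
      intro p hp
      have e1 := (hKB F C f p hp).1 W hsat
      have e2 := h2 p hp
      omega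
    have hWbot : ¬ W ≤ ⊥ := by
      intro hb
      have e1 := hrk 2 Nat.prime_two
      have e2 := (hKB W C (f.domRestrict W) 2 Nat.prime_two).2.2.2.2.2.1
      have e3 : W = ⊥ := le_bot_iff.1 hb
      have e4 : Module.finrank ℤ W = 0 := by
        rw [e3]
        exact finrank_bot ℤ F
      omega
    have hD := hKD F C f ⊥ W ⊥ c bot_le kaBot hWbot (by
      intro p hp
      rw [finrank_bot]
      have := hrk p hp
      omega)
    have hset : GP f ⊥ W ⊥ = {A : Submodule ℤ F | A ∈ Us f ∧ A ≤ W} := by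
      ext A
      constructor
      · rintro ⟨hA1, hA2, hA3, hA4⟩
        exact ⟨⟨hA1.ne', hA4⟩, hA2⟩
      · rintro ⟨⟨hA1, hA2⟩, hA3⟩
        exact ⟨bot_lt_iff_ne_bot.2 hA1, hA3, fun h => hA1 (le_bot_iff.1 h), hA2⟩
    rw [hset] at hD
    have hiso := (thm_MC thm_MA thm_MB (Submodule ℤ F) cmp (fun x => Or.inl le_rfl)
      (fun x y h => kq2_cmp_symm h) {A : Submodule ℤ F | A ∈ Us f ∧ A ≤ W} ∅ c).2.2.2.2.2.1
      (Submodule ℤ F ⊕ Submodule ℤ F) lkr Sum.inl kq2_refl kq2_symm
      (Set.injOn_of_injective Sum.inl_injective) (fun x _ y _ => Iff.rfl)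
    exact hiso.1 hD
  -- the claim
  have claim : ∀ k : ℕ, ∀ W : Submodule ℤ F, Module.finrank ℤ W = k → (W = ⊤ ∨ W ∈ Bs I N0) →
      SConn lkr (Sum.inl '' {A : Submodule ℤ F | A ∈ Us f ∧ A ≤ W} ∪
        Sum.inr '' {B : Submodule ℤ F | B ∈ Bs I N0 ∧ B < W}) c := by
    intro k
    induction k using Nat.strong_induction_on with
    | _ k ih =>
      intro W hk hW
      have hsat : Sat W := by
        rcases hW with rfl | hW
        · exact hsatTop
        · exact hW.1
      have hM := (thm_MC thm_MA thm_MB (Submodule ℤ F ⊕ Submodule ℤ F) lkr kq2_refl kq2_symm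
        (Sum.inl '' {A : Submodule ℤ F | A ∈ Us f ∧ A ≤ W} ∪
          Sum.inr '' {B : Submodule ℤ F | B ∈ Bs I N0 ∧ B < W})
        (Sum.inl '' {A : Submodule ℤ F | A ∈ Us f ∧ A ≤ W}) c).2.2.2.2.2.2 ℕ kq2_fn
        Set.subset_union_left (by
          intro u hu v hv huT hvT huv hr
          rcases hu with hu | hu
          · exact absurd hu huT
          rcases hv with hv | hv
          · exact absurd hv hvT
          obtain ⟨B, hB, rfl⟩ := hu
          obtain ⟨B', hB', rfl⟩ := hv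
          show Module.finrank ℤ B ≠ Module.finrank ℤ B'
          have hBB : B ≠ B' := fun h => huv (by rw [h])
          rcases hr with h | h
          · exact (hlt B B' hB.1.1 hB'.1.1 (lt_of_le_of_ne h hBB)).ne
          · exact (hlt B' B hB'.1.1 hB.1.1 (lt_of_le_of_ne h hBB.symm)).ne')
      refine hM.1 (hfirst W hW) ?_
      intro v hv hvT
      rcases hv with hv | hv
      · exact absurd hv hvT
      obtain ⟨B, ⟨hB, hBW⟩, rfl⟩ := hv
      have hrank := hlt B W hB.1 hsat hBW
      have hI := ih (Module.finrank ℤ B) (by omega) B rfl (Or.inr hB)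
      have hset : dlk lkr kq2_fn (Sum.inl '' {A : Submodule ℤ F | A ∈ Us f ∧ A ≤ W})
          (Sum.inl '' {A : Submodule ℤ F | A ∈ Us f ∧ A ≤ W} ∪
            Sum.inr '' {B : Submodule ℤ F | B ∈ Bs I N0 ∧ B < W}) (Sum.inr B) =
          Sum.inl '' {A : Submodule ℤ F | A ∈ Us f ∧ A ≤ B} ∪
            Sum.inr '' {B' : Submodule ℤ F | B' ∈ Bs I N0 ∧ B' < B} := by
        ext u
        constructor
        · rintro ⟨hu1, hu2, hu3, hu4⟩
          rcases hu1 with ⟨A, hA, rfl⟩ | ⟨B', hB', rfl⟩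
          · exact Or.inl ⟨A, ⟨hA.1, hu3⟩, rfl⟩
          · refine Or.inr ⟨B', ⟨hB'.1, ?_⟩, rfl⟩
            have hBB : B' ≠ B := fun h => hu2 (by rw [h])
            have hfn : Module.finrank ℤ B' < Module.finrank ℤ B := by
              rcases hu4 with ⟨A, _, hA⟩ | h
              · exact absurd hA (by simp)
              · exact h
            rcases hu3 with h | h
            · have := (kaRank B B' hB.1 hB'.1.1 h).1
              omega
            · exact lt_of_le_of_ne h hBB
        · rintro (⟨A, hA, rfl⟩ | ⟨B', hB', rfl⟩)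
          · exact ⟨Or.inl ⟨A, ⟨hA.1, hA.2.trans hBW.le⟩, rfl⟩, by simp, hA.2,
              Or.inl ⟨A, ⟨hA.1, hA.2.trans hBW.le⟩, rfl⟩⟩
          · refine ⟨Or.inr ⟨B', ⟨hB'.1, hB'.2.trans hBW⟩, rfl⟩, ?_, Or.inr hB'.2.le, Or.inr ?_⟩
            · intro h
              exact hB'.2.ne (Sum.inr_injective h)
            · exact hlt B' B hB'.1.1 hB.1 hB'.2
      rw [hset]
      exact (thm_MC thm_MA thm_MB (Submodule ℤ F ⊕ Submodule ℤ F) lkr kq2_refl kq2_symm
        _ ∅ c).2.1 hI (c - 1) (Nat.sub_le _ _)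
  have hfin := claim _ ⊤ rfl (Or.inl rfl)
  have e1 : {A : Submodule ℤ F | A ∈ Us f ∧ A ≤ ⊤} = Us f := by
    ext A
    exact ⟨fun h => h.1, fun h => ⟨h, le_top⟩⟩
  have e2 : {B : Submodule ℤ F | B ∈ Bs I N0 ∧ B < ⊤} = Bs I N0 := by
    ext B
    exact ⟨fun h => h.1, fun h => ⟨h, hne_top B h⟩⟩
  rw [e1, e2] at hfin
  exact hfin

end Pool.Agent.SLR
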