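import Pool.Agent.SLZ.StP
import Pool.Agent.SLZ.MA
import Pool.Agent.SLZ.MB
import Pool.Agent.SLZ.MC

/-!
# SLR, module PX: two ways to build up a link (helper33)
-/

set_option autoImplicit false
set_option linter.unusedVariables false
set_option linter.unusedSectionVars false

noncomputable section

namespace Pool.Agent.SLR

open Pool.Agent.SLZ

section

variable {R V : Type} [CommRing R] [IsDomain R] [IsPrincipalIdealRing R]
  [AddCommGroup V] [Module R V] [Module.Free R V] [Module.Finite R V]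

lemma px_mono {A B : Submodule R V} (h : A ≤ B) : Module.finrank R A ≤ Module.finrank R B :=
  Submodule.finrank_mono h

/-- if `A ≤ B` have the same rank then `B` is in the saturation of `A` -/
lemma px_tors {A B : Submodule R V} (h : A ≤ B) (hr : Module.finrank R A = Module.finrank R B)
    (x : V) (hx : x ∈ B) : ∃ a : R, a ≠ 0 ∧ a • x ∈ A := by
  have h1 : Module.finrank R (A.comap B.subtype) = Module.finrank R A :=
    LinearEquiv.finrank_eq (Submodule.comapSubtypeEquivOfLe h)
  have h2 := Submodule.finrank_quotient_add_finrank (A.comap B.subtype)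
  have h3 : Module.finrank R (B ⧸ A.comap B.subtype) = 0 := by omega
  rw [Module.finrank_eq_zero_iff] at h3
  obtain ⟨a, ha, hax⟩ := h3 (Submodule.Quotient.mk ⟨x, hx⟩)
  refine ⟨a, ha, ?_⟩
  rw [← Submodule.Quotient.mk_smul, Submodule.Quotient.mk_eq_zero] at hax
  exact hax

lemma px_eq {A B : Submodule R V} (hA : Sat A) (h : A ≤ B)
    (hr : Module.finrank R A = Module.finrank R B) : A = B := by
  apply le_antisymm h
  intro x hx
  obtain ⟨a, ha, hax⟩ := px_tors h hr x hx
  exact hA a x ha hax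

lemma px_lt {A B : Submodule R V} (hA : Sat A) (h : A < B) :
    Module.finrank R A < Module.finrank R B :=
  lt_of_le_of_ne (px_mono h.le) fun hr => h.ne (px_eq hA h.le hr)

lemma px_le_top (A : Submodule R V) : Module.finrank R A ≤ Module.finrank R V :=
  Submodule.finrank_le A

lemma px_lt_top {A : Submodule R V} (hA : Sat A) (h : A ≠ ⊤) :
    Module.finrank R A < Module.finrank R V := by
  have h1 := px_lt hA (lt_top_iff_ne_top.2 h)
  rwa [finrank_top] at h1

lemma px_pos {A : Submodule R V} (h : A ≠ ⊥) : 0 < Module.finrank R A := by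
  have h1 := px_lt (A := ⊥) (B := A) (fun a v ha hv => by
    rw [Submodule.mem_bot] at hv ⊢
    rcases smul_eq_zero.1 hv with h2 | h2
    · exact absurd h2 ha
    · exact h2) (bot_lt_iff_ne_bot.2 h)
  rwa [finrank_bot] at h1

end

lemma px_cmp_refl {P : Type} [Preorder P] (x : P) : cmp x x := Or.inl le_rfl

lemma px_cmp_symm {P : Type} [LE P] (x y : P) (h : cmp x y) : cmp y x := h.symm

lemma px_lkr_refl {P : Type} [Preorder P] (x : P ⊕ P) : lkr x x := by
  rcases x with x | x
  · exact px_cmp_refl x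
  · exact px_cmp_refl x

lemma px_lkr_symm {P : Type} [LE P] (x y : P ⊕ P) (h : lkr x y) : lkr y x := by
  rcases x with x | x <;> rcases y with y | y
  · exact px_cmp_symm x y h
  · exact h
  · exact h
  · exact px_cmp_symm x y h

lemma px_inl {P : Type} [PartialOrder P] (T : Set P) (c : ℕ) (h : SConn cmp T c) :
    SConn lkr (Sum.inl '' T : Set (P ⊕ P)) c := by
  have hMC := thm_MC thm_MA thm_MB P cmp px_cmp_refl px_cmp_symm T ∅ c
  exact (hMC.2.2.2.2.2.1 (P ⊕ P) lkr Sum.inl px_lkr_refl px_lkr_symm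
    (fun x _ y _ h => Sum.inl_injective h) (fun x _ y _ => Iff.rfl)).1 h

lemma px_inr {P : Type} [PartialOrder P] (T : Set P) (c : ℕ) (h : SConn cmp T c) :
    SConn lkr (Sum.inr '' T : Set (P ⊕ P)) c := by
  have hMC := thm_MC thm_MA thm_MB P cmp px_cmp_refl px_cmp_symm T ∅ c
  exact (hMC.2.2.2.2.2.1 (P ⊕ P) lkr Sum.inr px_lkr_refl px_lkr_symm
    (fun x _ y _ h => Sum.inr_injective h) (fun x _ y _ => Iff.rfl)).1 h

lemma px_join {P : Type} [PartialOrder P] (T T' : Set P) (c c' m : ℕ) (h : SConn cmp T c)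
    (h' : SConn cmp T' c') (hle : ∀ a ∈ T, ∀ b ∈ T', a ≤ b) (hm : m ≤ c + c') :
    SConn lkr (Sum.inl '' T ∪ Sum.inr '' T' : Set (P ⊕ P)) m := by
  have hMC := thm_MC thm_MA thm_MB (P ⊕ P) lkr px_lkr_refl px_lkr_symm (Sum.inl '' T)
    (Sum.inr '' T') c
  have h1 := hMC.2.2.2.2.1 c' (by
    rw [Set.disjoint_left]
    rintro _ ⟨a, _, rfl⟩ ⟨b, _, hb⟩
    exact Sum.inr_ne_inl hb) (by
    rintro _ ⟨a, ha, rfl⟩ _ ⟨b, hb, rfl⟩
    exact hle a ha b hb) (px_inl T c h) (px_inr T' c' h')
  have hMC' := thm_MC thm_MA thm_MB (P ⊕ P) lkr px_lkr_refl px_lkr_symm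
    (Sum.inl '' T ∪ Sum.inr '' T') ∅ (c + c')
  exact hMC'.2.1 h1 m hm

/-- **PX** -/
theorem thm_PX : Pool.Agent.SLZ.St_PX := by
  intro R V _ _ _ _ _ _ _ TA TB c hTA hTB
  constructor
  · intro h1 h2 h3
    have hMC := thm_MC thm_MA thm_MB (Submodule R V ⊕ Submodule R V) lkr px_lkr_refl px_lkr_symm
      (Sum.inl '' TA ∪ Sum.inr '' TB) (Sum.inl '' TA) c
    refine (hMC.2.2.2.2.2.2 ℕ (Sum.elim (fun _ => 0)
      (fun B => Module.finrank R V - Module.finrank R B)) Set.subset_union_left ?_).1
      (px_inl TA c h1) ?_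
    · rintro u hu v hv hu' hv' huv hr
      rcases hu with hu | ⟨B, hB, rfl⟩
      · exact absurd hu hu'
      rcases hv with hv | ⟨B', hB', rfl⟩
      · exact absurd hv hv'
      have hne : B ≠ B' := fun h => huv (by rw [h])
      have l1 := px_le_top B
      have l2 := px_le_top B'
      simp only [Sum.elim_inr]
      rcases hr with hr | hr
      · have := px_lt (hTB B hB).2 (lt_of_le_of_ne hr hne)
        omega
      · have := px_lt (hTB B' hB').2 (lt_of_le_of_ne hr hne.symm)
        omega
    · intro v hv hv'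
      rcases hv with hv | ⟨B, hB, rfl⟩
      · exact absurd hv hv'
      have l1 := px_lt_top (hTB B hB).2 (hTB B hB).1
      have hd : dlk lkr (Sum.elim (fun _ => 0)
          (fun B => Module.finrank R V - Module.finrank R B)) (Sum.inl '' TA)
          (Sum.inl '' TA ∪ Sum.inr '' TB) (Sum.inr B) =
          Sum.inl '' {A | A ∈ TA ∧ A ≤ B} ∪ Sum.inr '' {B' | B' ∈ TB ∧ B < B'} := by
        ext u
        constructor
        · rintro ⟨hu, hne, hr, hf⟩
          rcases hu with ⟨A, hA, rfl⟩ | ⟨B', hB', rfl⟩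
          · exact Or.inl ⟨A, ⟨hA, hr⟩, rfl⟩
          · refine Or.inr ⟨B', ⟨hB', ?_⟩, rfl⟩
            rcases hf with ⟨A, _, hA⟩ | hf
            · exact absurd hA Sum.inl_ne_inr
            · simp only [Sum.elim_inr] at hf
              have hne' : B ≠ B' := fun h => hne (by rw [h])
              rcases hr with hr | hr
              · exact lt_of_le_of_ne hr hne'
              · have := px_mono hr
                omega
        · rintro (⟨A, ⟨hA, hAB⟩, rfl⟩ | ⟨B', ⟨hB', hBB⟩, rfl⟩)
          · exact ⟨Or.inl ⟨A, hA, rfl⟩, Sum.inl_ne_inr, hAB, Or.inl ⟨A, hA, rfl⟩⟩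
          · refine ⟨Or.inr ⟨B', hB', rfl⟩, fun h => hBB.ne (Sum.inr_injective h).symm,
              Or.inl hBB.le, Or.inr ?_⟩
            simp only [Sum.elim_inr]
            have := px_lt (hTB B hB).2 hBB
            omega
      rw [hd]
      exact px_join _ _ _ _ (c - 1) (h2 B hB) (h3 B hB) (fun a ha b hb => ha.2.trans hb.2.le)
        (by omega)
  · intro h1 h2 h3
    have hMC := thm_MC thm_MA thm_MB (Submodule R V ⊕ Submodule R V) lkr px_lkr_refl px_lkr_symm
      (Sum.inl '' TA ∪ Sum.inr '' TB) (Sum.inr '' TB) c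
    refine (hMC.2.2.2.2.2.2 ℕ (Sum.elim (fun A => Module.finrank R A) (fun _ => 0))
      Set.subset_union_right ?_).1 (px_inr TB c h1) ?_
    · rintro u hu v hv hu' hv' huv hr
      rcases hu with ⟨B, hB, rfl⟩ | hu
      · rcases hv with ⟨B', hB', rfl⟩ | hv
        · have hne : B ≠ B' := fun h => huv (by rw [h])
          simp only [Sum.elim_inl]
          rcases hr with hr | hr
          · exact (px_lt (hTA B hB).2 (lt_of_le_of_ne hr hne)).ne
          · exact (px_lt (hTA B' hB').2 (lt_of_le_of_ne hr hne.symm)).ne'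
        · exact absurd hv hv'
      · exact absurd hu hu'
    · intro v hv hv'
      rcases hv with ⟨A, hA, rfl⟩ | hv
      · have l1 := px_pos (hTA A hA).1
        have hd : dlk lkr (Sum.elim (fun A => Module.finrank R A) (fun _ => 0)) (Sum.inr '' TB)
            (Sum.inl '' TA ∪ Sum.inr '' TB) (Sum.inl A) =
            Sum.inl '' {A' | A' ∈ TA ∧ A' < A} ∪ Sum.inr '' {B | B ∈ TB ∧ A ≤ B} := by
          ext u
          constructor
          · rintro ⟨hu, hne, hr, hf⟩
            rcases hu with ⟨A', hA', rfl⟩ | ⟨B', hB', rfl⟩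
            · refine Or.inl ⟨A', ⟨hA', ?_⟩, rfl⟩
              rcases hf with ⟨B, _, hB⟩ | hf
              · exact absurd hB Sum.inr_ne_inl
              · simp only [Sum.elim_inl] at hf
                have hne' : A' ≠ A := fun h => hne (by rw [h])
                rcases hr with hr | hr
                · have := px_mono hr
                  omega
                · exact lt_of_le_of_ne hr hne'
            · exact Or.inr ⟨B', ⟨hB', hr⟩, rfl⟩
          · rintro (⟨A', ⟨hA', hAA⟩, rfl⟩ | ⟨B', ⟨hB', hAB⟩, rfl⟩)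
            · refine ⟨Or.inl ⟨A', hA', rfl⟩, fun h => hAA.ne (Sum.inl_injective h),
                Or.inr hAA.le, Or.inr ?_⟩
              simp only [Sum.elim_inl]
              exact px_lt (hTA A' hA').2 hAA
            · exact ⟨Or.inr ⟨B', hB', rfl⟩, Sum.inr_ne_inl, hAB, Or.inl ⟨B', hB', rfl⟩⟩
        rw [hd]
        exact px_join _ _ _ _ (c - 1) (h3 A hA) (h2 A hA) (fun a ha b hb => ha.2.le.trans hb.2)
          (by omega)
      · exact absurd hv hv'

end Pool.Agent.SLR
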