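import Pool.Agent.SLR.StK
import Pool.Agent.SLR.PX

/-!
# SLR, module KT: proper nonzero saturated subgroups (helper33)
-/

set_option autoImplicit false
set_option linter.unusedVariables false
set_option linter.unusedSectionVars false

noncomputable section

namespace Pool.Agent.SLR

open Pool.Agent.SLZ

section

variable {M : Type} [AddCommGroup M] [Module.Free ℤ M] [Module.Finite ℤ M]

/-- the saturation -/
def kt_sat (P : Submodule ℤ M) : Submodule ℤ M where
  carrier := {x | ∃ k : ℤ, k ≠ 0 ∧ k • x ∈ P}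
  zero_mem' := ⟨1, one_ne_zero, by simp⟩
  add_mem' := by
    rintro x y ⟨k, hk, hx⟩ ⟨l, hl, hy⟩
    refine ⟨k * l, mul_ne_zero hk hl, ?_⟩
    rw [smul_add]
    apply P.add_mem
    · rw [mul_comm, mul_smul]
      exact P.smul_mem l hx
    · rw [mul_smul]
      exact P.smul_mem k hy
  smul_mem' := by
    rintro c x ⟨k, hk, hx⟩
    exact ⟨k, hk, by rw [smul_comm]; exact P.smul_mem c hx⟩

lemma kt_le (P : Submodule ℤ M) : P ≤ kt_sat P := fun x hx => ⟨1, one_ne_zero, by simpa using hx⟩

lemma kt_isSat (P : Submodule ℤ M) : Sat (kt_sat P) := by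
  rintro a v ha ⟨k, hk, h⟩
  exact ⟨k * a, mul_ne_zero hk ha, by rw [mul_smul]; exact h⟩

lemma kt_min {P Q : Submodule ℤ M} (h : P ≤ Q) (hQ : Sat Q) : kt_sat P ≤ Q := by
  rintro x ⟨k, hk, hx⟩
  exact hQ k x hk (h hx)

lemma kt_rank (P : Submodule ℤ M) : Module.finrank ℤ (kt_sat P) = Module.finrank ℤ P := by
  have h1 : Module.finrank ℤ (P.comap (kt_sat P).subtype) = Module.finrank ℤ P :=
    LinearEquiv.finrank_eq (Submodule.comapSubtypeEquivOfLe (kt_le P))
  have h2 := Submodule.finrank_quotient_add_finrank (P.comap (kt_sat P).subtype)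
  have h3 : Module.finrank ℤ (kt_sat P ⧸ P.comap (kt_sat P).subtype) = 0 := by
    rw [Module.finrank_eq_zero_iff]
    intro x
    obtain ⟨⟨y, hy⟩, rfl⟩ := Submodule.mkQ_surjective _ x
    obtain ⟨k, hk, hky⟩ := hy
    refine ⟨k, hk, ?_⟩
    rw [← map_smul, Submodule.mkQ_apply, Submodule.Quotient.mk_eq_zero]
    exact hky
  omega

lemma kt_sup (P U : Submodule ℤ M) :
    Module.finrank ℤ ↥(P ⊔ U) ≤ Module.finrank ℤ P + Module.finrank ℤ U := by
  have h := Submodule.rank_sup_add_rank_inf_eq P U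
  rw [← Module.finrank_eq_rank, ← Module.finrank_eq_rank, ← Module.finrank_eq_rank,
    ← Module.finrank_eq_rank] at h
  have h2 : Module.finrank ℤ ↥(P ⊔ U) + Module.finrank ℤ ↥(P ⊓ U) =
      Module.finrank ℤ P + Module.finrank ℤ U := by exact_mod_cast h
  omega

lemma kt_one (x : M) (hx : x ≠ 0) : Module.finrank ℤ (kt_sat (Submodule.span ℤ {x})) = 1 := by
  rw [kt_rank, ← LinearEquiv.finrank_eq (LinearEquiv.toSpanNonzeroSingleton ℤ M x hx),
    Module.finrank_self]

end

/-- **KT** -/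
theorem thm_KT : St_KT := by
  intro M _ _ _
  suffices H : ∀ (n : ℕ) (W : Submodule ℤ M), Module.finrank ℤ W = n → Sat W →
      SConn cmp {P : Submodule ℤ M | P ≠ ⊥ ∧ P < W ∧ Sat P} (n - 1) by
    intro W hW
    exact H _ W rfl hW
  intro n
  induction n using Nat.strong_induction_on with
  | _ n ih =>
  intro W hn hW
  have hMC := fun (S T : Set (Submodule ℤ M)) (c : ℕ) => thm_MC thm_MA thm_MB (Submodule ℤ M) cmp
    px_cmp_refl px_cmp_symm S T c
  by_cases hn1 : n ≤ 1
  · rw [show n - 1 = 0 by omega]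
    exact (hMC _ ∅ 0).2.2.1
  have hW0 : W ≠ ⊥ := by
    rintro rfl
    rw [finrank_bot] at hn
    omega
  obtain ⟨x, hx, hx0⟩ := W.exists_mem_ne_zero_of_ne_bot hW0
  set U := kt_sat (Submodule.span ℤ {x}) with hU
  have hUs : Sat U := kt_isSat _
  have hUr : Module.finrank ℤ U = 1 := kt_one x hx0
  have hUW : U ≤ W := kt_min ((Submodule.span_singleton_le_iff_mem x W).2 hx) hW
  have hUW' : U < W := lt_of_le_of_ne hUW (fun h => by rw [h] at hUr; omega)
  have hU0 : U ≠ ⊥ := by
    intro h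
    rw [h, finrank_bot] at hUr
    omega
  set S : Set (Submodule ℤ M) := {P : Submodule ℤ M | P ≠ ⊥ ∧ P < W ∧ Sat P} with hS
  set T : Set (Submodule ℤ M) := {P | P ∈ S ∧ U ≤ P} with hT
  refine ((hMC S T (n - 1)).2.2.2.2.2.2 ℕ (fun P => Module.finrank ℤ P) (fun P hP => hP.1) ?_).1
    ?_ ?_
  · intro P hP P' hP' _ _ hne hc
    rcases hc with hc | hc
    · exact (px_lt hP.2.2 (lt_of_le_of_ne hc hne)).ne
    · exact (px_lt hP'.2.2 (lt_of_le_of_ne hc hne.symm)).ne'
  · exact (hMC T ∅ (n - 1)).2.2.2.1 ⟨U, ⟨⟨hU0, hUW', hUs⟩, le_rfl⟩, fun P hP => Or.inl hP.2⟩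
  · intro P hP hPT
    have hUP : ¬ U ≤ P := fun h => hPT ⟨hP, h⟩
    set Q := kt_sat (P ⊔ U) with hQ
    have hPQ : P ≤ Q := le_sup_left.trans (kt_le _)
    have hUQ : U ≤ Q := le_sup_right.trans (kt_le _)
    have hQW : Q ≤ W := kt_min (sup_le hP.2.1.le hUW) hW
    by_cases hQ' : Q = W
    · have hr1 : Module.finrank ℤ W ≤ Module.finrank ℤ P + 1 := by
        rw [← hQ', hQ, kt_rank]
        have := kt_sup P U
        omega
      have hr2 := px_lt hP.2.2 hP.2.1
      have hr3 : Module.finrank ℤ P = n - 1 := by omega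
      have hd : dlk cmp (fun P : Submodule ℤ M => Module.finrank ℤ P) T S P =
          {P' : Submodule ℤ M | P' ≠ ⊥ ∧ P' < P ∧ Sat P'} := by
        ext P'
        constructor
        · rintro ⟨hP', hne, hc, hf⟩
          refine ⟨hP'.1, ?_, hP'.2.2⟩
          rcases hc with hc | hc
          · exfalso
            rcases hf with hf | hf
            · have : Q ≤ P' := kt_min (sup_le hc hf.2) hP'.2.2
              rw [hQ'] at this
              exact absurd hP'.2.1 (not_lt_of_ge this)
            · have := px_mono hc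
              exact absurd hf (not_lt_of_ge this)
          · exact lt_of_le_of_ne hc hne
        · rintro ⟨h1, h2, h3⟩
          exact ⟨⟨h1, h2.trans hP.2.1, h3⟩, h2.ne, Or.inr h2.le, Or.inr (px_lt h3 h2)⟩
      rw [hd]
      have := ih (Module.finrank ℤ P) (by omega) P rfl hP.2.2
      rw [show n - 1 - 1 = Module.finrank ℤ P - 1 by omega]
      exact this
    · have hQW' : Q < W := lt_of_le_of_ne hQW hQ'
      have hQ0 : Q ≠ ⊥ := fun h => hU0 (le_bot_iff.1 (h ▸ hUQ))
      refine (hMC _ ∅ (n - 1 - 1)).2.2.2.1 ⟨Q, ?_, ?_⟩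
      · refine ⟨⟨hQ0, hQW', kt_isSat _⟩, ?_, Or.inl hPQ, Or.inl ⟨⟨hQ0, hQW', kt_isSat _⟩, hUQ⟩⟩
        intro h
        exact hUP (h ▸ hUQ)
      · rintro P' ⟨hP', hne, hc, hf⟩
        rcases hf with hf | hf
        · left
          apply kt_min (sup_le _ hf.2) hP'.2.2
          rcases hc with hc | hc
          · exact hc
          · exact absurd (hf.2.trans hc) hUP
        · right
          rcases hc with hc | hc
          · have := px_mono hc
            exact absurd hf (not_lt_of_ge this)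
          · exact hc.trans hPQ

end Pool.Agent.SLR
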