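import Pool.Agent.SLR.StL
import Pool.Agent.SLZ.MA
import Pool.Agent.SLZ.MB

/-!
# SLR, module LB: the big complex is acyclic
-/

set_option autoImplicit false
set_option linter.unusedVariables false

noncomputable section

namespace Pool.Agent.SLR

open Pool.Agent.SLZ

/-- the smallest `i` with `s ^ i P ≤ M` -/
def LB_i {n : ℕ} (P M : Submodule ℤ (E n)) : ℕ := sInf {i : ℕ | tw (-(i : ℤ)) P ≤ M}

theorem LB_cone {V : Type} (r : V → V → Prop) (S : Set V) (v : V) (hv : v ∈ S) (hr : r v v)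
    (h : ∀ u ∈ S, r v u ∧ r u v) (c : ℕ) : Conn (Fl r S) c := by
  intro j _
  refine (thm_MA V).2.2.2.2.2.1 (Fl r S) v ?_ j
  have h2 : ∀ l ∈ (Fl r S).s, ∀ x ∈ v :: l, x ∈ S ∧ r v x ∧ r x v := by
    intro l hl x hx
    rcases List.mem_cons.1 hx with h1 | h1
    · rw [h1]
      exact ⟨hv, hr, hr⟩
    · exact ⟨(hl x h1).1, h x (hl x h1).1⟩
  intro l hl x hx
  refine ⟨(h2 l hl x hx).1, fun y hy => ?_⟩
  rcases List.mem_cons.1 hx with h1 | h1
  · rw [h1]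
    exact (h2 l hl y hy).2.1
  · rcases List.mem_cons.1 hy with h3 | h3
    · rw [h3]
      exact (h2 l hl x hx).2.2
    · exact (hl x h1).2 y h3

theorem LB_adj_symm {n : ℕ} (L L' : Submodule ℤ (E n)) (h : adj L L') : adj L' L := by
  rcases h with h | h | h
  · exact Or.inl h.symm
  · exact Or.inr (Or.inr h)
  · exact Or.inr (Or.inl h)

theorem LB_claim (hLA : St_LA) (hLC : St_LC) (n : ℕ) (P : Submodule ℤ (E n)) (hP : P ∈ Lam n)
    (c : ℕ) : Conn (Fl adj {M | M ∈ Lam n ∧ M ≤ P}) c := by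
  obtain ⟨a1, a2, a3, a4, a5, a6, a7, a8, a9, a10, a11, a12⟩ := hLA n
  -- properties of the index
  have hex : ∀ M, IsLat M → tw (-(LB_i P M : ℤ)) P ≤ M := by
    intro M hM
    obtain ⟨m, hm, -⟩ := (a6 P M hP.1 hM).2.2.2.2
    exact Nat.sInf_mem (s := {i : ℕ | tw (-(i : ℤ)) P ≤ M}) ⟨m, hm⟩
  have hle : ∀ (M : Submodule ℤ (E n)) (i : ℕ), tw (-(i : ℤ)) P ≤ M → LB_i P M ≤ i :=
    fun M i hi => Nat.sInf_le hi
  have hup : ∀ M : Submodule ℤ (E n), IsLat M → ∀ j : ℕ, LB_i P M ≤ j → tw (-(j : ℤ)) P ≤ M := by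
    intro M hM j hj
    refine (a3 P hP.1 _ _ ?_).trans (hex M hM)
    have : (LB_i P M : ℤ) ≤ j := by exact_mod_cast hj
    linarith
  have htw : ∀ M : Submodule ℤ (E n), IsLat M → M ≤ tw 1 M := by
    intro M hM
    have h := a3 M hM 0 1 (by norm_num)
    rwa [(a1 M 0 0).2] at h
  have hsat : ∀ M : Submodule ℤ (E n), IsLat M → Sat (tw 1 M) := fun M hM =>
    (a2 M M 1).2.2.2.2 hM.sat
  obtain ⟨f, hf⟩ : ∃ f : Submodule ℤ (E n) → ℕ ×ₗ ℕ, ∀ M, f M = toLex (LB_i P M, dg M) :=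
    ⟨_, fun M => rfl⟩
  have hlt : ∀ M M' : Submodule ℤ (E n), f M < f M' ↔
      LB_i P M < LB_i P M' ∨ (LB_i P M = LB_i P M' ∧ dg M < dg M') := by
    intro M M'
    rw [hf, hf]
    exact Prod.Lex.toLex_lt_toLex
  refine ((thm_MB thm_MA (Submodule ℤ (E n)) (ℕ ×ₗ ℕ) adj f {P} {M | M ∈ Lam n ∧ M ≤ P}
    (fun x => Or.inl rfl) LB_adj_symm ?_ ?_ c).1) ?_ ?_
  · rintro x rfl
    exact ⟨hP, le_rfl⟩
  · -- adjacent different vertices have different values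
    rintro u ⟨hu, huP⟩ v ⟨hv, hvP⟩ - - huv had he
    rw [hf, hf] at he
    have h2 : dg u = dg v := congrArg (fun x : ℕ ×ₗ ℕ => (ofLex x).2) he
    rcases had with h | ⟨h, -⟩ | ⟨h, -⟩
    · exact huv h
    · have := (hLC n u v hu.1 hv.1 hu.2 h).2 huv
      omega
    · have := (hLC n v u hv.1 hu.1 hv.2 h).2 (Ne.symm huv)
      omega
  · -- one vertex
    refine LB_cone adj {P} P rfl (Or.inl rfl) ?_ c
    rintro u rfl
    exact ⟨Or.inl rfl, Or.inl rfl⟩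
  · -- the descending links are cones
    rintro M ⟨hM, hMP⟩ hMne
    have hMne' : M ≠ P := hMne
    obtain ⟨i, hi⟩ : ∃ i, i = LB_i P M := ⟨_, rfl⟩
    have hi1 : 1 ≤ i := by
      by_contra hcon
      have h0 : LB_i P M = 0 := by omega
      have h1 := hex M hM.1
      rw [h0] at h1
      have h2 : P ≤ M := by
        have e : (-((0 : ℕ) : ℤ)) = 0 := by norm_num
        rw [e, (a1 P 0 0).2] at h1
        exact h1
      exact hMne' (le_antisymm hMP h2)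
    obtain ⟨Q, hQ⟩ : ∃ Q, Q = tw (-((i - 1 : ℕ) : ℤ)) P := ⟨_, rfl⟩
    have hQP : Q ≤ P := by
      have h := a3 P hP.1 (-((i - 1 : ℕ) : ℤ)) 0 (by
        have : (0 : ℤ) ≤ ((i - 1 : ℕ) : ℤ) := Int.natCast_nonneg _
        linarith)
      rw [(a1 P 0 0).2] at h
      rw [hQ]
      exact h
    have hQlat : IsLat Q := hQ ▸ (a6 P P hP.1 hP.1).1 _
    have hQ1 : Q = tw 1 (tw (-(i : ℤ)) P) := by
      rw [hQ, (a1 P 1 (-(i : ℤ))).1]
      congr 1
      have : ((i - 1 : ℕ) : ℤ) = (i : ℤ) - 1 := by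
        push_cast [Nat.cast_sub hi1]
        ring
      rw [this]
      ring
    have hQM : ∀ M' : Submodule ℤ (E n), tw (-(i : ℤ)) P ≤ M' → Q ≤ tw 1 M' := by
      intro M' h
      rw [hQ1]
      exact ((a2 (tw (-(i : ℤ)) P) M' 1).1).2 h
    obtain ⟨ρ, hρ⟩ : ∃ ρ, ρ = stt (M ⊔ Q) := ⟨_, rfl⟩
    have hρlat : IsLat ρ := hρ ▸ (a6 M Q hM.1 hQlat).2.2.1
    have hle1 : M ⊔ Q ≤ ρ := hρ ▸ (a11 _).1
    have hMρ : M ≤ ρ := le_sup_left.trans hle1
    have hQρ : Q ≤ ρ := le_sup_right.trans hle1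
    have hρle : ∀ Y : Submodule ℤ (E n), M ≤ Y → Q ≤ Y → Sat Y → ρ ≤ Y := by
      intro Y h3 h4 h5
      rw [hρ]
      exact a12 _ _ (sup_le h3 h4) h5
    have hρP : ρ ≤ P := hρle P hMP hQP hP.1.sat
    have hρpos : Pos ρ := a10 M ρ hMρ hM.2
    have hρi : LB_i P ρ < i := by
      have h := hle ρ (i - 1) (hQ ▸ hQρ)
      omega
    have hρM : ρ ≠ M := by
      rintro rfl
      omega
    have hρt : ρ ≤ tw 1 M := by
      refine hρle _ (htw M hM.1) (hQM M ?_) (hsat M hM.1)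
      rw [hi]
      exact hex M hM.1
    have hmem : ρ ∈ dlk adj f {P} {M | M ∈ Lam n ∧ M ≤ P} M := by
      refine ⟨⟨⟨hρlat, hρpos⟩, hρP⟩, hρM, Or.inr (Or.inl ⟨hMρ, hρt⟩), Or.inr ?_⟩
      rw [hlt]
      left
      rw [← hi]
      exact hρi
    refine LB_cone adj _ ρ hmem (Or.inl rfl) ?_ _
    rintro u ⟨⟨hu, huP⟩, huM, had, hu2⟩
    suffices h : adj ρ u from ⟨h, LB_adj_symm _ _ h⟩
    have hu3 : LB_i P u < i ∨ (LB_i P u = i ∧ dg u < dg M) := by
      rcases hu2 with h | h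
      · left
        have h1 : u = P := h
        have h2 := hle u 0 (by
          have e : (-((0 : ℕ) : ℤ)) = 0 := by norm_num
          rw [e, (a1 P 0 0).2, h1])
        omega
      · rw [hlt, ← hi] at h
        exact h
    rcases hu3 with h3 | ⟨h3, h4⟩
    · have hnle : ¬ u ≤ M := by
        intro h
        have h5 := hle M (LB_i P u) ((hex u hu.1).trans h)
        omega
      have h6 : M ≤ u ∧ u ≤ tw 1 M := by
        rcases had with h | h | h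
        · exact absurd h.symm huM
        · exact h
        · exact absurd h.1 hnle
      have h7 : Q ≤ u := by
        rw [hQ]
        exact hup u hu.1 (i - 1) (by omega)
      refine Or.inr (Or.inl ⟨hρle u h6.1 h7 hu.1.sat, h6.2.trans ?_⟩)
      exact ((a2 M ρ 1).1).2 hMρ
    · have h6 : u ≤ M ∧ M ≤ tw 1 u := by
        rcases had with h | h | h
        · exact absurd h.symm huM
        · have h5 := (hLC n M u hM.1 hu.1 hM.2 h.1).2 (Ne.symm huM)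
          omega
        · exact h
      refine Or.inr (Or.inr ⟨h6.1.trans hMρ, hρle _ h6.2 (hQM u ?_) (hsat u hu.1)⟩)
      rw [← h3]
      exact hex u hu.1

theorem thm_LB (hLA : St_LA) (hLC : St_LC) : St_LB := by
  intro n c j hj z hz hbd
  obtain ⟨a1, a2, a3, a4, a5, a6, a7, a8, a9, a10, a11, a12⟩ := hLA n
  have hfin := MB_vs_finite z
  have hlat : ∀ M ∈ MB_vs z, IsLat M := by
    rintro M ⟨l, hl, hx⟩
    exact (MB_verts adj hz l hl M hx).1
  -- a common upper bound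
  have hb : ∀ M : Submodule ℤ (E n), ∃ m : ℕ, IsLat M → M ≤ tw m (L0 n) := by
    intro M
    by_cases h : IsLat M
    · obtain ⟨m, -, hm⟩ := h.bdd
      exact ⟨m, fun _ => hm⟩
    · exact ⟨0, fun h' => absurd h' h⟩
  choose b hb using hb
  obtain ⟨m₀, hm₀⟩ := a9 (L0 n) a5.2.1
  obtain ⟨m₁, hm₁⟩ : ∃ m₁ : ℕ, ∀ M ∈ MB_vs z, b M ≤ m₁ := by
    obtain ⟨m₁, hm₁⟩ := (hfin.image b).bddAbove
    exact ⟨m₁, fun M hM => hm₁ ⟨M, hM, rfl⟩⟩
  obtain ⟨m, hm⟩ : ∃ m : ℕ, m = max m₀ m₁ := ⟨_, rfl⟩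
  have hP : tw (m : ℤ) (L0 n) ∈ Lam n := by
    refine ⟨(a6 _ _ a5.2.1 a5.2.1).1 _, hm₀ _ ?_⟩
    rw [hm]
    exact_mod_cast le_max_left _ _
  have hz' : z ∈ Ch (Fl adj {M | M ∈ Lam n ∧ M ≤ tw (m : ℤ) (L0 n)}).s j := by
    refine MB_restrict adj hz fun l hl M hx => ⟨MB_verts adj hz l hl M hx, ?_⟩
    have hMz : M ∈ MB_vs z := ⟨l, hl, hx⟩
    refine (hb M (hlat M hMz)).trans (a3 _ a5.2.1 _ _ ?_)
    have h1 := hm₁ M hMz
    have h2 : b M ≤ m := by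
      rw [hm]
      exact h1.trans (le_max_right _ _)
    exact_mod_cast h2
  obtain ⟨y, hy, hy2⟩ := LB_claim hLA hLC n _ hP c j hj z hz' hbd
  exact ⟨y, MB_Ch_mono (MB_Fl_mono adj fun M hM => hM.1) _ hy, hy2⟩

end Pool.Agent.SLR
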