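import Pool.Agent.SLR.StL

/-!
# SLR, module LC: degrees (helper29)
-/

set_option autoImplicit false
set_option linter.unusedVariables false

noncomputable section

namespace Pool.Agent.SLR

open Pool.Agent.SLZ

variable {n : ℕ}

lemma lc_mem (L : Submodule ℤ (E n)) (x : E n) : x ∈ tw (-1) L ↔ sh n 1 x ∈ L := by
  show sh n (- -1) x ∈ L ↔ sh n 1 x ∈ L
  rw [neg_neg]

/-- `x ↦ class of t x` -/
def lcMap (L L' : Submodule ℤ (E n)) :
    ↥(V n ⊓ tw (-1) L') →ₗ[ℤ] (↥L' ⧸ L.submoduleOf L') :=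
  (Submodule.mkQ (L.submoduleOf L')) ∘ₗ
    (LinearMap.codRestrict L' ((sh n 1).toLinearMap ∘ₗ (V n ⊓ tw (-1) L').subtype)
      (fun x => (lc_mem L' x.1).1 x.2.2))

lemma lcMap_apply (L L' : Submodule ℤ (E n)) (x : ↥(V n ⊓ tw (-1) L')) :
    lcMap L L' x = Submodule.Quotient.mk ⟨sh n 1 x.1, (lc_mem L' x.1).1 x.2.2⟩ := rfl

theorem thm_LC (hA : St_LA) (hF : St_LF) : St_LC := by
  intro n L L' hL hL' hp hle
  have hf := (hF n L' hL').2.2.1 (-1)
  have := hf.1
  have h1 : LinearMap.ker (lcMap L L') = (V n ⊓ tw (-1) L).submoduleOf (V n ⊓ tw (-1) L') := by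
    ext x
    rw [LinearMap.mem_ker, lcMap_apply, Submodule.Quotient.mk_eq_zero]
    show sh n 1 x.1 ∈ L ↔ x.1 ∈ V n ⊓ tw (-1) L
    rw [Submodule.mem_inf, lc_mem]
    exact ⟨fun h => ⟨x.2.1, h⟩, fun h => h.2⟩
  have h2 : LinearMap.range (lcMap L L') = ⊤ := by
    rw [eq_top_iff]
    rintro y -
    obtain ⟨y, rfl⟩ := Submodule.Quotient.mk_surjective _ y
    obtain ⟨v, hv, w, hw, hvw⟩ : ∃ v ∈ V n, ∃ w ∈ tw (-1) L, v + w = sh n (-1) y.1 := by
      have h3 : sh n (-1) y.1 ∈ V n ⊔ tw (-1) L := by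
        rw [show V n ⊔ tw (-1) L = ⊤ from hp]
        exact Submodule.mem_top
      obtain ⟨v, hv, w, hw, h⟩ := Submodule.mem_sup.1 h3
      exact ⟨v, hv, w, hw, h⟩
    have hs : sh n 1 (sh n (-1) y.1) = y.1 := (sh n (-1)).symm_apply_apply y.1 |> fun h => by
      have : (sh n (-1)).symm = sh n 1 := by
        refine LinearEquiv.ext fun x => ?_
        show (LaurentPolynomial.T (- -1) : LaurentPolynomial ℤ) • x =
          (LaurentPolynomial.T 1 : LaurentPolynomial ℤ) • x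
        rw [neg_neg]
      rwa [this] at h
    have hvL : sh n 1 v ∈ L' := by
      have h4 : sh n 1 v = y.1 - sh n 1 w := by
        rw [← hs, ← hvw, map_add, add_sub_cancel_right]
      rw [h4]
      exact L'.sub_mem y.2 (hle ((lc_mem L w).1 hw))
    refine ⟨⟨v, hv, (lc_mem L' v).2 hvL⟩, ?_⟩
    rw [lcMap_apply, Submodule.Quotient.eq]
    show sh n 1 v - y.1 ∈ L
    have h5 : sh n 1 v - y.1 = - sh n 1 w := by
      rw [← hs, ← hvw, map_add]
      abel
    rw [h5]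
    exact L.neg_mem ((lc_mem L w).1 hw)
  have h3 : dg L' = dg L + Module.finrank ℤ (↥L' ⧸ L.submoduleOf L') := by
    have h4 := Submodule.finrank_quotient_add_finrank (LinearMap.ker (lcMap L L'))
    rw [((lcMap L L').quotKerEquivOfSurjective (LinearMap.range_eq_top.1 h2)).finrank_eq, h1,
      (Submodule.submoduleOfEquivOfLe (inf_le_inf_left _
      (((hA n).2.1 L L' (-1)).1.2 hle))).finrank_eq] at h4
    show Module.finrank ℤ ↥(V n ⊓ tw (-1) L') = Module.finrank ℤ ↥(V n ⊓ tw (-1) L) + _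
    omega
  refine ⟨h3, fun hne => ?_⟩
  have h4 := ((hF n L hL).2.2.2 L' hL' hle).2.2
  have h5 : Module.finrank ℤ (↥L' ⧸ L.submoduleOf L') ≠ 0 := fun h => hne (h4 h)
  omega

end Pool.Agent.SLR
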