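import Pool.Agent.SLR.StL

/-!
# SLR, module LD: which lower neighbours are globally generated
-/

set_option autoImplicit false
set_option linter.unusedVariables false

noncomputable section

namespace Pool.Agent.SLR

open Pool.Agent.SLZ

private theorem ld_top {n : ℕ} (k : ℤ) : tw k (⊤ : Submodule ℤ (E n)) = ⊤ := Submodule.comap_top _

theorem thm_LD (h : St_LA) (h2 : St_LW) : St_LD := by
  intro n L W hL hP hW
  obtain ⟨htw, hmon, -⟩ := h n
  obtain ⟨-, hlat, -, -, -, hmem⟩ := h2 n L hL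
  obtain ⟨-, -, hXL⟩ := hlat W hW
  have hi : ∀ M : Submodule ℤ (E n), tw 1 (tw (-1) M) = M := fun M => by
    rw [(htw M 1 (-1)).1, show (1 : ℤ) + -1 = 0 by norm_num, (htw M 0 0).2]
  have hi' : ∀ M : Submodule ℤ (E n), tw (-1) (tw 1 M) = M := fun M => by
    rw [(htw M (-1) 1).1, show (-1 : ℤ) + 1 = 0 by norm_num, (htw M 0 0).2]
  constructor
  · intro hX
    have h3 : tw 1 (V n) ⊔ lw L W = ⊤ := by
      have h4 : tw 1 (V n ⊔ tw (-1) (lw L W)) = ⊤ := by
        rw [show V n ⊔ tw (-1) (lw L W) = ⊤ from hX, ld_top]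
      rwa [(hmon (V n) (tw (-1) (lw L W)) 1).2.2.1, hi] at h4
    rw [eq_top_iff]
    rintro q -
    obtain ⟨x, rfl⟩ := Submodule.Quotient.mk_surjective _ q
    have h5 : (x : E n) ∈ tw 1 (V n) ⊔ lw L W := by rw [h3]; exact Submodule.mem_top
    obtain ⟨v, hv, w, hw, hvw⟩ := Submodule.mem_sup.1 h5
    have hwL : w ∈ L := hXL hw
    have hvL : v ∈ L := by
      have : v = (x : E n) - w := by rw [← hvw, add_sub_cancel_right]
      rw [this]
      exact L.sub_mem x.2 hwL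
    have h6 : x = (⟨w, hwL⟩ : ↥L) + ⟨v, hvL⟩ := by
      apply Subtype.ext
      show (x : E n) = w + v
      rw [← hvw, add_comm]
    rw [h6, Submodule.Quotient.mk_add]
    refine Submodule.add_mem_sup ((hmem W ⟨w, hwL⟩).1 hw) ?_
    exact ⟨⟨v, hvL⟩, hv, rfl⟩
  · intro hX
    have h3 : L ≤ tw 1 (V n) ⊔ lw L W := by
      intro x hx
      have h4 : (Submodule.Quotient.mk (⟨x, hx⟩ : ↥L) : Fq L) ∈ W ⊔ I1 L := by
        rw [hX]; exact Submodule.mem_top
      obtain ⟨a, ha, b, ⟨y, hy, hyb⟩, hab⟩ := Submodule.mem_sup.1 h4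
      have h5 : (Submodule.Quotient.mk ((⟨x, hx⟩ : ↥L) - y) : Fq L) ∈ W := by
        have h6 : (Submodule.Quotient.mk ((⟨x, hx⟩ : ↥L) - y) : Fq L) = a := by
          rw [Submodule.Quotient.mk_sub, ← hab]
          have h7 : (Submodule.Quotient.mk y : Fq L) = b := hyb
          rw [h7, add_sub_cancel_right]
        rw [h6]; exact ha
      have h8 := (hmem W ((⟨x, hx⟩ : ↥L) - y)).2 h5
      have h9 : x = (y : E n) + (((⟨x, hx⟩ : ↥L) - y : ↥L) : E n) := by
        show x = (y : E n) + (x - y)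
        rw [add_sub_cancel]
      rw [h9]
      exact Submodule.add_mem_sup hy h8
    have h4 : tw (-1) L ≤ V n ⊔ tw (-1) (lw L W) := by
      have h5 := (hmon L (tw 1 (V n) ⊔ lw L W) (-1)).1.2 h3
      rwa [(hmon (tw 1 (V n)) (lw L W) (-1)).2.2.1, hi'] at h5
    show V n ⊔ tw (-1) (lw L W) = ⊤
    rw [eq_top_iff]
    have h6 : V n ⊔ tw (-1) L = ⊤ := hP
    rw [← h6]
    exact sup_le le_sup_left h4

end Pool.Agent.SLR
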