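import Pool.Agent.SLR.StL

/-!
# SLR, module LF: finiteness of the quotients of lattices
-/

set_option autoImplicit false
set_option linter.unusedVariables false

noncomputable section

namespace Pool.Agent.SLR

open Pool.Agent.SLZ

namespace LFx

variable {n : ℕ}

theorem LF_coeff_T (k j : ℤ) (f : LaurentPolynomial ℤ) :
    ((LaurentPolynomial.T k : LaurentPolynomial ℤ) * f).coeff j = f.coeff (j - k) := by
  rw [LaurentPolynomial.T, AddMonoidAlgebra.coeff_single_mul_eq_mul_coeff (j - k), one_mul]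
  intro m _
  constructor <;> intro h <;> omega

theorem LF_sh_coeff (k : ℤ) (x : E n) (i : Fin n) (j : ℤ) :
    (sh n k x i).coeff j = (x i).coeff (j - k) := by
  show (((LaurentPolynomial.T k : LaurentPolynomial ℤ) • x) i).coeff j = _
  rw [Pi.smul_apply, smul_eq_mul, LF_coeff_T]

theorem LF_mem_tw_L0 (k : ℤ) (x : E n) :
    x ∈ tw k (L0 n) ↔ ∀ (i : Fin n) (j : ℤ), k < j → (x i).coeff j = 0 := by
  show (∀ (i : Fin n) (j : ℤ), 0 < j → (sh n (-k) x i).coeff j = 0) ↔ _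
  simp only [LF_sh_coeff]
  constructor
  · intro h i j hj
    have := h i (j - k) (by omega)
    rwa [show j - k - -k = j by ring] at this
  · intro h i j hj
    exact h i _ (by omega)

theorem LF_mem_V (x : E n) : x ∈ V n ↔ ∀ (i : Fin n) (j : ℤ), j < 0 → (x i).coeff j = 0 := Iff.rfl

theorem LF_sh_sh (j k : ℤ) (x : E n) : sh n j (sh n k x) = sh n (j + k) x := by
  funext i
  refine AddMonoidAlgebra.ext ?_
  ext l
  rw [LF_sh_coeff, LF_sh_coeff, LF_sh_coeff]
  congr 1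
  ring

/-- the coefficients in the degrees of `S` -/
def cf (n : ℕ) (S : Finset ℤ) : E n →ₗ[ℤ] (Fin n → S → ℤ) where
  toFun x i k := (x i).coeff k
  map_add' x y := by
    funext i k
    simp
  map_smul' c x := by
    funext i k
    rw [Pi.smul_apply, AddMonoidAlgebra.coeff_smul, Finsupp.smul_apply]
    rfl

theorem LF_ker_cf (S : Finset ℤ) (x : E n) (hx : cf n S x = 0) (i : Fin n) (k : ℤ) (hk : k ∈ S) :
    (x i).coeff k = 0 := congrFun (congrFun hx i) ⟨k, hk⟩

theorem LF_fin_of_ker {M N : Type} [AddCommGroup M] [AddCommGroup N] [Module.Finite ℤ N]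
    (f : M →ₗ[ℤ] N) (K : Submodule ℤ M) (h : LinearMap.ker f ≤ K) : Module.Finite ℤ (M ⧸ K) := by
  have : Module.Finite ℤ (M ⧸ LinearMap.ker f) := Module.Finite.equiv f.quotKerEquivRange.symm
  exact Module.Finite.of_surjective (Submodule.factor h) (Submodule.factor_surjective h)

theorem LF_fin_q (X Y : Submodule ℤ (E n)) (a b : ℤ) (hX : X ≤ tw a (L0 n))
    (hY : tw b (L0 n) ≤ Y) : Module.Finite ℤ (↥X ⧸ Y.submoduleOf X) := by
  refine LF_fin_of_ker ((cf n (Finset.Ioc b a)) ∘ₗ X.subtype) _ ?_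
  intro x hx
  have hx0 : cf n (Finset.Ioc b a) (x : E n) = 0 := hx
  show (x : E n) ∈ Y
  refine hY ((LF_mem_tw_L0 b _).2 fun i j hj => ?_)
  by_cases h : j ≤ a
  · exact LF_ker_cf _ _ hx0 i j (Finset.mem_Ioc.2 ⟨hj, h⟩)
  · exact (LF_mem_tw_L0 a _).1 (hX x.2) i j (by omega)

theorem LF_tf_q (X Y : Submodule ℤ (E n)) (hY : Sat Y) :
    Module.IsTorsionFree ℤ (↥X ⧸ Y.submoduleOf X) := by
  rw [Module.isTorsionFree_iff_smul_eq_zero]
  intro c m hcm
  obtain ⟨x, rfl⟩ := Submodule.Quotient.mk_surjective _ m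
  by_cases hc : c = 0
  · exact Or.inl hc
  · right
    rw [← Submodule.Quotient.mk_smul, Submodule.Quotient.mk_eq_zero] at hcm
    rw [Submodule.Quotient.mk_eq_zero]
    exact hY c (x : E n) hc hcm

theorem LF_free_q (X Y : Submodule ℤ (E n)) (hY : Sat Y)
    (hf : Module.Finite ℤ (↥X ⧸ Y.submoduleOf X)) : Module.Free ℤ (↥X ⧸ Y.submoduleOf X) := by
  have := LF_tf_q X Y hY
  exact Module.free_of_finite_type_torsion_free'

theorem LF_rk_add (X Y Z : Submodule ℤ (E n)) (hZY : Z ≤ Y) (hYX : Y ≤ X)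
    (hf : Module.Finite ℤ (↥X ⧸ Z.submoduleOf X)) :
    Module.finrank ℤ (↥X ⧸ Z.submoduleOf X) = Module.finrank ℤ (↥X ⧸ Y.submoduleOf X) +
      Module.finrank ℤ (↥Y ⧸ Z.submoduleOf Y) := by
  have hle : Z.submoduleOf X ≤ Y.submoduleOf X := fun x hx => hZY hx
  let f : (↥X ⧸ Z.submoduleOf X) →ₗ[ℤ] (↥X ⧸ Y.submoduleOf X) := Submodule.factor hle
  have hfs : Function.Surjective f := Submodule.factor_surjective hle
  have hle2 : Z.submoduleOf Y ≤ (Z.submoduleOf X).comap (Submodule.inclusion hYX) :=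
    fun x hx => hx
  let g : (↥Y ⧸ Z.submoduleOf Y) →ₗ[ℤ] (↥X ⧸ Z.submoduleOf X) :=
    Submodule.mapQ _ _ (Submodule.inclusion hYX) hle2
  have hgi : Function.Injective g := by
    rw [← LinearMap.ker_eq_bot, LinearMap.ker_eq_bot']
    intro m hm
    obtain ⟨x, rfl⟩ := Submodule.Quotient.mk_surjective _ m
    have hm' : (Submodule.Quotient.mk (Submodule.inclusion hYX x) : ↥X ⧸ Z.submoduleOf X) = 0 := hm
    rw [Submodule.Quotient.mk_eq_zero] at hm'
    rw [Submodule.Quotient.mk_eq_zero]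
    exact hm'
  have hrange : LinearMap.range g = LinearMap.ker f := by
    ext m
    obtain ⟨x, rfl⟩ := Submodule.Quotient.mk_surjective _ m
    constructor
    · rintro ⟨y, hy⟩
      obtain ⟨y, rfl⟩ := Submodule.Quotient.mk_surjective _ y
      rw [LinearMap.mem_ker, ← hy]
      show (Submodule.Quotient.mk (Submodule.inclusion hYX y) : ↥X ⧸ Y.submoduleOf X) = 0
      rw [Submodule.Quotient.mk_eq_zero]
      exact y.2
    · intro hx
      have hx' : (Submodule.Quotient.mk x : ↥X ⧸ Y.submoduleOf X) = 0 := hx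
      rw [Submodule.Quotient.mk_eq_zero] at hx'
      exact ⟨Submodule.Quotient.mk ⟨(x : E n), hx'⟩, rfl⟩
  have h1 := Submodule.finrank_quotient_add_finrank (LinearMap.ker f)
  rw [← h1, LinearEquiv.finrank_eq (f.quotKerEquivOfSurjective hfs), ← hrange,
    LinearMap.finrank_range_of_inj hgi]

/-- multiplication by a power of `t` on quotients -/
def LF_shq (k : ℤ) (X Y : Submodule ℤ (E n)) :
    (↥(tw k X) ⧸ (tw k Y).submoduleOf (tw k X)) ≃ₗ[ℤ] (↥X ⧸ Y.submoduleOf X) := by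
  let e0 : ↥(tw k X) →ₗ[ℤ] ↥X := (sh n (-k)).toLinearMap.restrict (p := tw k X) (q := X)
    (fun x hx => hx)
  have hb : Function.Bijective e0 := by
    constructor
    · intro x y hxy
      have : sh n (-k) (x : E n) = sh n (-k) (y : E n) := congrArg Subtype.val hxy
      exact Subtype.ext ((sh n (-k)).injective this)
    · intro y
      have hz : sh n (-k) (sh n k (y : E n)) = y := by
        rw [LF_sh_sh, neg_add_cancel]
        funext i
        refine AddMonoidAlgebra.ext ?_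
        ext l
        rw [LF_sh_coeff, sub_zero]
      refine ⟨⟨sh n k (y : E n), ?_⟩, Subtype.ext hz⟩
      show sh n (-k) (sh n k (y : E n)) ∈ X
      rw [hz]
      exact y.2
  refine Submodule.Quotient.equiv _ _ (LinearEquiv.ofBijective e0 hb) ?_
  ext y
  constructor
  · rintro ⟨x, hx, rfl⟩
    exact hx
  · intro hy
    obtain ⟨x, rfl⟩ := hb.2 y
    exact ⟨x, hy, rfl⟩

theorem LF_rk_top (m : ℤ) : Module.finrank ℤ
    (↥(tw m (L0 n)) ⧸ (tw (m - 1) (L0 n)).submoduleOf (tw m (L0 n))) = n := by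
  let f : ↥(tw m (L0 n)) →ₗ[ℤ] (Fin n → ℤ) :=
    { toFun := fun x i => ((x : E n) i).coeff m
      map_add' := fun x y => by
        funext i
        simp
      map_smul' := fun c x => by
        funext i
        rw [Submodule.coe_smul, Pi.smul_apply, AddMonoidAlgebra.coeff_smul, Finsupp.smul_apply]
        rfl }
  have hs : Function.Surjective f := by
    intro c
    refine ⟨⟨fun i => AddMonoidAlgebra.single m (c i), ?_⟩, ?_⟩
    · rw [LF_mem_tw_L0]
      intro i j hj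
      show (AddMonoidAlgebra.single m (c i) : LaurentPolynomial ℤ).coeff j = 0
      rw [AddMonoidAlgebra.coeff_single, Finsupp.single_apply, if_neg (by omega)]
    · funext i
      show (AddMonoidAlgebra.single m (c i) : LaurentPolynomial ℤ).coeff m = c i
      rw [AddMonoidAlgebra.coeff_single, Finsupp.single_apply, if_pos rfl]
  have hk : LinearMap.ker f = (tw (m - 1) (L0 n)).submoduleOf (tw m (L0 n)) := by
    ext x
    have h1 : x ∈ (tw (m - 1) (L0 n)).submoduleOf (tw m (L0 n)) ↔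
        (x : E n) ∈ tw (m - 1) (L0 n) := Iff.rfl
    rw [h1, LF_mem_tw_L0, LinearMap.mem_ker]
    constructor
    · intro h i j hj
      by_cases hjm : j = m
      · rw [hjm]
        exact congrFun h i
      · exact (LF_mem_tw_L0 m _).1 x.2 i j (by omega)
    · intro h
      funext i
      exact h i m (by omega)
  rw [← hk, LinearEquiv.finrank_eq (f.quotKerEquivOfSurjective hs), Module.finrank_fin_fun]

theorem LF_tw_tw (j k : ℤ) (L : Submodule ℤ (E n)) : tw j (tw k L) = tw (j + k) L := by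
  ext x
  show sh n (-k) (sh n (-j) x) ∈ L ↔ sh n (-(j + k)) x ∈ L
  rw [LF_sh_sh, show -k + -j = -(j + k) by ring]

theorem LF_tw_mono (k : ℤ) {L L' : Submodule ℤ (E n)} (h : L ≤ L') : tw k L ≤ tw k L' :=
  fun _ hx => h hx

theorem LF_sat_tw (k : ℤ) {L : Submodule ℤ (E n)} (h : Sat L) : Sat (tw k L) := by
  intro a v ha hv
  have : sh n (-k) (a • v) ∈ L := hv
  rw [map_smul] at this
  exact h a _ ha this

theorem LF_part1 (L : Submodule ℤ (E n)) (hL : IsLat L) :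
    Module.Finite ℤ (Fq L) ∧ Module.Free ℤ (Fq L) ∧ Module.finrank ℤ (Fq L) = n := by
  obtain ⟨m, hm1, hm2⟩ := hL.bdd
  have hs : Sat (tw (-1) L) := LF_sat_tw _ hL.sat
  have hb : tw (-1 + -(m : ℤ)) (L0 n) ≤ tw (-1) L := by
    rw [← LF_tw_tw]
    exact LF_tw_mono _ hm1
  have hf : Module.Finite ℤ (Fq L) := LF_fin_q L (tw (-1) L) m (-1 + -(m : ℤ)) hm2 hb
  refine ⟨hf, LF_free_q _ _ hs hf, ?_⟩
  have hPf : Module.Finite ℤ (↥(tw (m : ℤ) (L0 n)) ⧸ (tw (-1) L).submoduleOf (tw (m : ℤ) (L0 n))) :=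
    LF_fin_q _ _ m (-1 + -(m : ℤ)) le_rfl hb
  have hsP : tw (-1) (tw (m : ℤ) (L0 n)) ≤ tw (m : ℤ) (L0 n) := by
    rw [LF_tw_tw]
    intro x hx
    rw [LF_mem_tw_L0] at hx ⊢
    intro i j hj
    exact hx i j (by omega)
  have h1 := LF_rk_add (tw (m : ℤ) (L0 n)) L (tw (-1) L) hL.sub hm2 hPf
  have h2 := LF_rk_add (tw (m : ℤ) (L0 n)) (tw (-1) (tw (m : ℤ) (L0 n))) (tw (-1) L)
    (LF_tw_mono _ hm2) hsP hPf
  have h3 := LinearEquiv.finrank_eq (LF_shq (-1) (tw (m : ℤ) (L0 n)) L)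
  have h4 := LF_rk_top (n := n) (m : ℤ)
  have h5 : tw (-1) (tw (m : ℤ) (L0 n)) = tw ((m : ℤ) - 1) (L0 n) := by
    rw [LF_tw_tw, neg_add_eq_sub]
  rw [← h5] at h4
  show Module.finrank ℤ (↥L ⧸ (tw (-1) L).submoduleOf L) = n
  omega

theorem LF_fin_C (Y : Submodule ℤ (E n)) (b : ℕ) (hY : tw (-(b : ℤ)) (L0 n) ≤ Y) :
    Module.Finite ℤ (E n ⧸ (V n ⊔ Y)) := by
  refine LF_fin_of_ker (cf n (Finset.Ioo (-(b : ℤ)) 0)) _ ?_
  intro x hx
  have hx0 : cf n (Finset.Ioo (-(b : ℤ)) 0) (x : E n) = 0 := hx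
  let v : E n := fun i => AddMonoidAlgebra.ofCoeff ((x i).coeff.filter (fun k => 0 ≤ k))
  let y : E n := fun i => AddMonoidAlgebra.ofCoeff ((x i).coeff.filter (fun k => ¬ 0 ≤ k))
  have hvy : x = v + y := by
    funext i
    refine AddMonoidAlgebra.ext ?_
    show (x i).coeff = (x i).coeff.filter (fun k => 0 ≤ k) + (x i).coeff.filter (fun k => ¬ 0 ≤ k)
    rw [Finsupp.filter_add_filter_not]
  rw [hvy]
  refine Submodule.add_mem_sup ?_ (hY ?_)
  · rw [LF_mem_V]
    intro i j hj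
    show ((x i).coeff.filter (fun k => 0 ≤ k)) j = 0
    rw [Finsupp.filter_apply, if_neg (by omega)]
  · rw [LF_mem_tw_L0]
    intro i j hj
    show ((x i).coeff.filter (fun k => ¬ 0 ≤ k)) j = 0
    rw [Finsupp.filter_apply]
    by_cases h : 0 ≤ j
    · rw [if_neg (not_not.2 h)]
    · rw [if_pos h]
      exact LF_ker_cf _ _ hx0 i j (Finset.mem_Ioo.2 ⟨hj, by omega⟩)

theorem LF_part2 (L : Submodule ℤ (E n)) (hL : IsLat L) (j : ℕ) :
    Module.Finite ℤ (Cq j L) ∧ Module.Finite ℤ (Ct j L) ∧ Module.Free ℤ (Ct j L) ∧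
    Finite (Submodule.torsion ℤ (Cq j L)) := by
  obtain ⟨m, hm1, hm2⟩ := hL.bdd
  have hb : tw (-((j + m : ℕ) : ℤ)) (L0 n) ≤ tw (-(j : ℤ)) L := by
    have : (-((j + m : ℕ) : ℤ)) = -(j : ℤ) + -(m : ℤ) := by push_cast; ring
    rw [this, ← LF_tw_tw]
    exact LF_tw_mono _ hm1
  have hf : Module.Finite ℤ (Cq j L) := LF_fin_C _ _ hb
  have hf2 : Module.Finite ℤ (Ct j L) := inferInstance
  refine ⟨hf, hf2, Module.free_of_finite_type_torsion_free', ?_⟩
  exact Module.finite_of_fg_torsion _ (Submodule.torsion_isTorsion)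

theorem LF_part3 (L : Submodule ℤ (E n)) (hL : IsLat L) (k : ℤ) :
    Module.Finite ℤ ↥(V n ⊓ tw k L) ∧ Module.Free ℤ ↥(V n ⊓ tw k L) := by
  obtain ⟨m, hm1, hm2⟩ := hL.bdd
  let f : ↥(V n ⊓ tw k L) →ₗ[ℤ] (Fin n → (Finset.Icc (0 : ℤ) (k + m)) → ℤ) :=
    (cf n (Finset.Icc (0 : ℤ) (k + m))) ∘ₗ (V n ⊓ tw k L).subtype
  have hf : Function.Injective f := by
    rw [← LinearMap.ker_eq_bot, LinearMap.ker_eq_bot']
    intro x hx
    have hx0 : cf n (Finset.Icc (0 : ℤ) (k + m)) (x : E n) = 0 := hx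
    have h1 := (LF_mem_V _).1 x.2.1
    have h2 : (x : E n) ∈ tw (k + m) (L0 n) := by
      rw [← LF_tw_tw]
      exact LF_tw_mono _ hm2 x.2.2
    rw [LF_mem_tw_L0] at h2
    refine Subtype.ext ?_
    funext i
    refine AddMonoidAlgebra.ext ?_
    ext j
    show ((x : E n) i).coeff j = 0
    by_cases hj : j < 0
    · exact h1 i j hj
    · by_cases hj2 : k + m < j
      · exact h2 i j hj2
      · exact LF_ker_cf _ _ hx0 i j (Finset.mem_Icc.2 ⟨by omega, by omega⟩)
  let e := LinearEquiv.ofInjective f hf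
  exact ⟨Module.Finite.equiv e.symm, Module.Free.of_equiv e.symm⟩

theorem LF_part4 (L L' : Submodule ℤ (E n)) (hL : IsLat L) (hL' : IsLat L') (h : L ≤ L') :
    Module.Finite ℤ (↥L' ⧸ L.submoduleOf L') ∧ Module.Free ℤ (↥L' ⧸ L.submoduleOf L') ∧
    (Module.finrank ℤ (↥L' ⧸ L.submoduleOf L') = 0 → L = L') := by
  obtain ⟨m, hm1, hm2⟩ := hL.bdd
  obtain ⟨m', hm1', hm2'⟩ := hL'.bdd
  have hf : Module.Finite ℤ (↥L' ⧸ L.submoduleOf L') := LF_fin_q _ _ _ _ hm2' hm1
  refine ⟨hf, LF_free_q _ _ hL.sat hf, fun h0 => le_antisymm h fun x hx => ?_⟩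
  have htf := LF_tf_q L' L hL.sat
  have hsub : Subsingleton (↥L' ⧸ L.submoduleOf L') := Module.finrank_zero_iff.1 h0
  have : (Submodule.Quotient.mk ⟨x, hx⟩ : ↥L' ⧸ L.submoduleOf L') = 0 := Subsingleton.elim _ _
  rw [Submodule.Quotient.mk_eq_zero] at this
  exact this

end LFx

open LFx in
theorem thm_LF (h : St_LA) : St_LF := fun n L hL =>
  ⟨LF_part1 L hL, LF_part2 L hL, LF_part3 L hL, fun L' hL' hLL' => LF_part4 L L' hL hL' hLL'⟩

end Pool.Agent.SLR
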