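import Pool.Agent.SLR.DefsK

/-!
# SLR, part K: the algebra theorem (statements)

Module `X` proves `theorem thm_X (h.. : St_..) : St_X` in `Pool/Agent/SLR/X.lean`, namespace `Pool.Agent.SLR`.
-/

set_option autoImplicit false
set_option linter.unusedVariables false

noncomputable section

namespace Pool.Agent.SLR

open Pool.Agent.SLZ

/-- **KA** (1 h). Saturated subgroups and split injectivity.

Proof. (1) `k • x ∈ P` gives `k • f x ∈ f P`, so `f x = f y`, `y ∈ P`, `f (k x - k y) = 0` with `k x - k y ∈ P`, so `k (x - y) = 0`. (2)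
`Q ≤ P` saturated: `Q.map f` saturated: `k • z ∈ f Q`, so `z = f x`, `x ∈ P`, `f (k x) = f y`, `y ∈ Q`, `k x = y` by injectivity on `P`. (3) if
`n • u ∈ P`, `n ≠ 0` then `u ∈ P`: so the sum is direct, ranks add. (4) for saturated subgroups the quotients are free, `M ≅ P × M / P`; a
saturated subgroup of a saturated one with the same rank is equal to it. -/
def St_KA : Prop := ∀ (M M' : Type) [AddCommGroup M] [Module.Free ℤ M] [Module.Finite ℤ M]
  [AddCommGroup M'] [Module.Free ℤ M'] [Module.Finite ℤ M'] (f : M →ₗ[ℤ] M'),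
  (∀ P, SpI f P → Sat P) ∧
  (∀ P Q : Submodule ℤ M, SpI f P → Q ≤ P → Sat Q → SpI f Q) ∧
  (∀ (P : Submodule ℤ M) (u : M), Sat P → u ∉ P →
    Module.finrank ℤ ↥(P ⊔ ℤ ∙ u) = Module.finrank ℤ P + 1) ∧
  (∀ P Q : Submodule ℤ M, Sat P → Sat Q → P ≤ Q →
    Module.finrank ℤ P ≤ Module.finrank ℤ Q ∧ (Module.finrank ℤ P = Module.finrank ℤ Q → P = Q)) ∧
  (∀ P : Submodule ℤ M, Sat P → Module.Free ℤ (M ⧸ P) ∧
    Module.finrank ℤ (M ⧸ P) + Module.finrank ℤ P = Module.finrank ℤ M) ∧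
  (SpI f (⊥ : Submodule ℤ M))

/-- **KB** (1.5 h). Ranks modulo `p`.

Proof. `M_p = ZMod p ⊗ M`, dimension `finrank M`. (1) `M₁` saturated: `M₁_p → M_p` is injective (`M / M₁` is free, the inclusion has a
retraction), of codimension `finrank M - finrank M₁`, and `f_p (M_p) / f_p (M₁_p)` is a quotient of `M_p / M₁_p`. (2) `P ≤ M₁`, `f|P` split
injective: `P_p → M'_p` is injective (composition of `P ≅ f P` and `f P → M'` with a retraction), it factors through `(M₁)_p`. (3) the matrix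
of `f.dualMap` is the transpose of the matrix of `f` (or: `(ZMod p ⊗ M)^* ≅ ZMod p ⊗ M^*`), `Matrix.rank_transpose`. (4) `⊤ ≃ M`. (5) range of
`g ∘ f` inside the range of `g`. (6) the rank is at most both dimensions. -/
def St_KB : Prop := ∀ (M M' : Type) [AddCommGroup M] [Module.Free ℤ M] [Module.Finite ℤ M]
  [AddCommGroup M'] [Module.Free ℤ M'] [Module.Finite ℤ M'] (f : M →ₗ[ℤ] M') (p : ℕ), p.Prime →
  (∀ M1 : Submodule ℤ M, Sat M1 →
    rkp p f + Module.finrank ℤ M1 ≤ rkp p (f.domRestrict M1) + Module.finrank ℤ M) ∧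
  (∀ P M1 : Submodule ℤ M, SpI f P → P ≤ M1 → Module.finrank ℤ P ≤ rkp p (f.domRestrict M1)) ∧
  rkp p f.dualMap = rkp p f ∧
  rkp p (f.domRestrict ⊤) = rkp p f ∧
  (∀ (M'' : Type) [AddCommGroup M''] [Module.Free ℤ M''] [Module.Finite ℤ M''] (g : M' →ₗ[ℤ] M''),
    rkp p (g ∘ₗ f) ≤ rkp p g ∧ rkp p (g ∘ₗ f) ≤ rkp p f) ∧
  rkp p f ≤ Module.finrank ℤ M ∧ rkp p f ≤ Module.finrank ℤ M'

/-- **KC** (1.5 h). A good vector.

Proof. `Q = M' / f P0` is free (`f P0` is saturated), `g : M1 → Q` the composition. For every prime `p` the rank of `g` modulo `p` is at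
least `1` (the rank of `f|M1` modulo `p` is at least `finrank P0 + 1` and the kernel of `M'_p → Q_p` has dimension `≤ finrank P0`),
so no prime divides all the integers `l (g x)`, `x ∈ M1`, `l : Q → ℤ`. Let `d > 0` be the smallest positive value of `l (g x)`, at `(l, x)`. Then `d`
divides `l (g x')` for all `x'` (Euclid: replace `x` by `x' - k x`), and `l' (g x)` for all `l'`, and all `l' (g x')`: subtract multiples so that
`l (g x') = 0 = l' (g x)`; `(l + l') (g x) = d`, `(l + l') (g x') = l' (g x')`, Euclid for `l + l'`. So `d = 1`: `l (g e) = 1`. Let `u = e` if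
`P0 ⊔ ⟨e⟩` is not inside `N0`. Otherwise take `y ∈ M1`, `y ∉ N0`, `y' = y - l (g y) e ∉ N0` (as `e ∈ N0`), `u = e + y' ∉ N0`, `l (g u) = 1`. With
`l (g u) = 1`: `P0 ⊔ ⟨u⟩` is split: `f (z + k u) = 0`, `z ∈ P0`: apply `l`: `k = 0`. Saturated image: `m w = f (z + k u)`: `m l(w) = k` so
`m (w - l(w) f u) = f z`, so `w - l(w) f u ∈ f P0`. `u ∉ P0` because `l (g z) = 0` for `z ∈ P0`. -/
def St_KC : Prop := ∀ (M M' : Type) [AddCommGroup M] [Module.Free ℤ M] [Module.Finite ℤ M]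
  [AddCommGroup M'] [Module.Free ℤ M'] [Module.Finite ℤ M'] (f : M →ₗ[ℤ] M')
  (P0 M1 N0 : Submodule ℤ M), P0 ≤ M1 → SpI f P0 → ¬ M1 ≤ N0 →
  (∀ p : ℕ, p.Prime → Module.finrank ℤ P0 + 1 ≤ rkp p (f.domRestrict M1)) →
  ∃ u ∈ M1, u ∉ P0 ∧ SpI f (P0 ⊔ ℤ ∙ u) ∧ ¬ P0 ⊔ ℤ ∙ u ≤ N0

/-- **KD** (2 h). The algebra theorem.

Proof. Induction on `finrank M1 - finrank P0` (all data). `c = 0`: `St_MC` (3). `c ≥ 1`: `u` from `St_KC`. Write `G` for the poset, `P ∈ G` is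
GOOD if `P ⊔ ⟨u⟩` is split (`SpI`). Build up with `St_MC` (7), (4): STAGE 1: `{P ∈ G | u ∈ P}`: a cone with apex `P0 ⊔ ⟨u⟩`. STAGE 2: add
the good `P` with `u ∉ P` by increasing rank (`f P = finrank P`; different comparable saturated subgroups have different ranks): the descending
link is a cone with apex `P ⊔ ⟨u⟩` (it consists of `P' ∋ u`, `P' > P`, so `P' ≥ P ⊔ ⟨u⟩`, and of smaller good `P' < P`; `P' ∋ u`, `P' < P` is impossible).
STAGE 3: add the other `P` by decreasing rank (`f P = finrank M - finrank P`): `u ∉ P` (`P ⊔ ⟨u⟩ = P` otherwise). The descending link is the union of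
UPPER `{P' ∈ G | P < P'}` (all: bad ones have bigger rank) `= GP f P M1 N0'`, `N0' = ⊥` or `N0` (`P' ≥ P ⊄ N0`), by induction `SConn (c - r)`, `r = finrank P -
finrank P0` (rank condition: `c - r + finrank P ≤ ..`; if `c ≤ r` trivial), and LOWER `{P' ∈ G good | P' < P}`. Via `P' ↦ P' ⊔ ⟨u⟩` (injective:
`(P' ⊔ ⟨u⟩) ⊓ P = P'`, because `u ∉ P` and `P` is saturated; monotone in both directions) LOWER is isomorphic to `GP f (P0 ⊔ ⟨u⟩) (P ⊔ ⟨u⟩) ((N0 ⊓ P) ⊔ ⟨u⟩)`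
(surjective: for `P''` take `P'' ⊓ P`; it is saturated, `P'' = (P'' ⊓ P) ⊔ ⟨u⟩`, `P'' ≠ P ⊔ ⟨u⟩` since `P` is bad; `(P'' ⊓ P)` is split by `St_KA` (2)), by induction
`SConn (r - 1)`: rank condition `r - 1 + finrank P0 + 1 ≤ finrank P ≤ rkp p (f.domRestrict (P ⊔ ⟨u⟩))` (`St_KB` (2)); the measure is
`finrank P + 1 - (finrank P0 + 1) < finrank M1 - finrank P0` (`M1` may be not saturated: let `S` be its saturation; if `finrank P = finrank M1` then
`P = S ∋ u`). Join `St_MC` (5): `(c - r) + (r - 1) ≥ c - 1`. -/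
def St_KD : Prop := ∀ (M M' : Type) [AddCommGroup M] [Module.Free ℤ M] [Module.Finite ℤ M]
  [AddCommGroup M'] [Module.Free ℤ M'] [Module.Finite ℤ M'] (f : M →ₗ[ℤ] M')
  (P0 M1 N0 : Submodule ℤ M) (c : ℕ), P0 ≤ M1 → SpI f P0 → ¬ M1 ≤ N0 →
  (∀ p : ℕ, p.Prime → Module.finrank ℤ P0 + c ≤ rkp p (f.domRestrict M1)) →
  SConn cmp (GP f P0 M1 N0) c

/-- **KT** (1 h). Proper nonzero saturated subgroups of a saturated subgroup `W`.

Proof. Induction on `finrank W`. `finrank W ≤ 1`: `SConn _ 0`. Otherwise choose `u ∈ W` with `ℤ u` saturated (a basis vector of `W`). Start with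
`{P | u ∈ P}`: a cone with apex `ℤ ∙ u` (`≠ W`). Add the `P` with `u ∉ P` by increasing rank: if the saturation of `P ⊔ ⟨u⟩` is not `W` it is the apex of a
cone; otherwise `finrank P = finrank W - 1` and there is no `P' > P`; the descending link is `{P' < P}`, by induction `SConn (finrank P - 1)`.
(Or deduce from `SLZ.St_P4` with `N = ⊥` for the module `W`.) -/
def St_KT : Prop := ∀ (M : Type) [AddCommGroup M] [Module.Free ℤ M] [Module.Finite ℤ M]
  (W : Submodule ℤ M), Sat W →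
  SConn cmp {P : Submodule ℤ M | P ≠ ⊥ ∧ P < W ∧ Sat P} (Module.finrank ℤ W - 1)

/-- **KE** (1.5 h). Duality: the lower vertices.

Proof. `g = I.subtype.dualMap : F^* → I^*`. For saturated `W`: `W ⊔ I = ⊤` iff `I → F / W` is onto iff `(F / W)^* → I^*` is injective with saturated
image (`F / W`, `I` free; `(F / W)^* = W.dualAnnihilator`) iff `SpI g W.dualAnnihilator`. `W ↦ W.dualAnnihilator` is an order reversing
bijection from saturated subgroups of `F` to saturated subgroups of `F^*`, `finrank` adds up to `n`. So `{W ∈ Bs I N0 | W0 ≤ W}` is isomorphic to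
`GP g ⊥ W0.dualAnnihilator N0` (`cmp` is symmetric; `P ≠ ⊥` because `¬ P ≤ N0`), `St_MC` (6). `St_KD` with `P0 = ⊥`: rank condition:
`c ≤ rkp p g - finrank W0` by `St_KB` (1), (3). -/
def St_KE : Prop := ∀ (F : Type) [AddCommGroup F] [Module.Free ℤ F] [Module.Finite ℤ F]
  (I : Submodule ℤ F) (N0 : Submodule ℤ (Module.Dual ℤ F)) (W0 : Submodule ℤ F) (c : ℕ),
  Sat W0 → ¬ W0.dualAnnihilator ≤ N0 →
  (∀ p : ℕ, p.Prime → c + Module.finrank ℤ W0 ≤ rkp p I.subtype) →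
  SConn cmp {W | W ∈ Bs I N0 ∧ W0 ≤ W} c

/-- **KQ1** (1 h). Regime 1.

Proof. `SLZ.St_PX` (2) (`R = ℤ`), `TA = Us f`, `TB = Bs I N0`. `SConn cmp TB c`: `St_KE` with `W0 = ⊥` (`N0 ≠ ⊤`). For `A ∈ Us f`:
`{B ∈ TB | A ≤ B}`: `St_KE` with `W0 = A`, `c - finrank A`; `¬ A.dualAnnihilator ≤ N0`: every functional on `A` extends to a functional `l ∘ f`
(`f A ≅ A` is a direct summand of `C`), `l ∘ f ∈ N0`; if `A.dualAnnihilator ≤ N0` then every `φ ∈ F^*` is `l ∘ f` plus an element which vanishes on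
`A`, so `N0 = ⊤`. If `c ≤ finrank A` use `St_MC` (3). `{A' ∈ Us f | A' < A}` = all proper nonzero saturated subgroups of `A` (`St_KA` (2)): `St_KT`. -/
def St_KQ1 : Prop := ∀ (F C : Type) [AddCommGroup F] [Module.Free ℤ F] [Module.Finite ℤ F]
  [AddCommGroup C] [Module.Free ℤ C] [Module.Finite ℤ C]
  (I : Submodule ℤ F) (N0 : Submodule ℤ (Module.Dual ℤ F)) (f : F →ₗ[ℤ] C) (c : ℕ),
  N0 ≠ ⊤ → (∀ l : Module.Dual ℤ C, l ∘ₗ f ∈ N0) →
  (∀ p : ℕ, p.Prime → c ≤ rkp p I.subtype) →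
  SConn lkr (Sum.inl '' Us f ∪ Sum.inr '' Bs I N0) c

/-- **KQ2** (1.5 h). Regime 2.

Proof. CLAIM: for `W = ⊤` or `W ∈ Bs I N0` the set `Sum.inl '' {A ∈ Us f | A ≤ W} ∪ Sum.inr '' {B ∈ Bs I N0 | B < W}` is `SConn c`. Induction on
`finrank W`. Start with `{A ∈ Us f | A ≤ W} = GP f ⊥ W ⊥` (`St_KD`, `P0 = ⊥`, `W ≠ ⊥` unless `c = 0`; rank condition: `rkp p (f.domRestrict W) ≥ rkp p f - (n -
finrank W) ≥ c`, as `n - finrank W ≤ a`), add the `Sum.inr B`, `B < W`, by increasing rank (`St_MC` (7), (6)): the descending link of `B` is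
`Sum.inl '' {A ≤ B} ∪ Sum.inr '' {B' < B}`, by induction `SConn c`. For `W = ⊤`: `B < ⊤` for all `B ∈ Bs I N0`. -/
def St_KQ2 : Prop := ∀ (F C : Type) [AddCommGroup F] [Module.Free ℤ F] [Module.Finite ℤ F]
  [AddCommGroup C] [Module.Free ℤ C] [Module.Finite ℤ C]
  (I : Submodule ℤ F) (N0 : Submodule ℤ (Module.Dual ℤ F)) (f : F →ₗ[ℤ] C) (a c : ℕ),
  (∀ W ∈ Bs I N0, Module.finrank ℤ F ≤ Module.finrank ℤ W + a) →
  (∀ p : ℕ, p.Prime → a + c ≤ rkp p f) →
  SConn lkr (Sum.inl '' Us f ∪ Sum.inr '' Bs I N0) c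

/-- **KQ** (0.6 h). The link.

Proof. Let `α` be the smallest value of `rkp p I.subtype` over the primes, attained at `p₁`. If `α ≥ c`: `St_KQ1`. Otherwise `α ≤ c - 1`; for
`W ∈ Bs I N0`: `F = W + I`, modulo `p₁`: `F_p = W_p + image of I_p`, so `n - finrank W ≤ α`; `rkp p f ≥ n - 2 α`, and `α + c ≤ n - 2 α` because
`n + 3 ≥ 4 c`: `3 α + c ≤ 4 c - 3 ≤ n`. `St_KQ2` with `a = α`. -/
def St_KQ : Prop := ∀ (F C : Type) [AddCommGroup F] [Module.Free ℤ F] [Module.Finite ℤ F]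
  [AddCommGroup C] [Module.Free ℤ C] [Module.Finite ℤ C]
  (I : Submodule ℤ F) (N0 : Submodule ℤ (Module.Dual ℤ F)) (f : F →ₗ[ℤ] C) (c : ℕ),
  N0 ≠ ⊤ → (∀ l : Module.Dual ℤ C, l ∘ₗ f ∈ N0) →
  (∀ p q : ℕ, p.Prime → q.Prime → Module.finrank ℤ F ≤ rkp p f + 2 * rkp q I.subtype) →
  4 * c ≤ Module.finrank ℤ F + 3 →
  SConn lkr (Sum.inl '' Us f ∪ Sum.inr '' Bs I N0) c

end Pool.Agent.SLR
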