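import Pool.Agent.SLR.StL
import Pool.Agent.SLR.StK

/-!
# SLR LG: upper neighbours (MP_24791f_al, helper64)
-/

set_option autoImplicit false
set_option linter.unusedVariables false

noncomputable section

namespace Pool.Agent.SLR

open Pool.Agent.SLZ

/-! ### general facts on abelian groups -/

section

variable {M : Type} [AddCommGroup M]

theorem LG_tor (N : Submodule ℤ M) (z : M) :
    (Submodule.Quotient.mk z : M ⧸ N) ∈ Submodule.torsion ℤ (M ⧸ N) ↔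
      ∃ k : ℤ, k ≠ 0 ∧ k • z ∈ N := by
  rw [Submodule.mem_torsion_iff]
  constructor
  · rintro ⟨k, hk⟩
    refine ⟨k.1, nonZeroDivisors.ne_zero k.2, ?_⟩
    rw [← Submodule.Quotient.mk_eq_zero, Submodule.Quotient.mk_smul]
    exact hk
  · rintro ⟨k, hk, hz⟩
    refine ⟨⟨k, mem_nonZeroDivisors_of_ne_zero hk⟩, ?_⟩
    show k • (Submodule.Quotient.mk z : M ⧸ N) = 0
    rw [← Submodule.Quotient.mk_smul, Submodule.Quotient.mk_eq_zero]
    exact hz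

theorem LG_card (N N' : Submodule ℤ M) (h : N ≤ N')
    (hinj : ∀ z ∈ N', ∀ k : ℤ, k ≠ 0 → k • z ∈ N → z ∈ N)
    (hfin : Finite (Submodule.torsion ℤ (M ⧸ N'))) :
    Nat.card (Submodule.torsion ℤ (M ⧸ N)) ≤ Nat.card (Submodule.torsion ℤ (M ⧸ N')) ∧
    (Nat.card (Submodule.torsion ℤ (M ⧸ N)) = Nat.card (Submodule.torsion ℤ (M ⧸ N')) ↔
      ∀ z : M, (∃ k : ℤ, k ≠ 0 ∧ k • z ∈ N') →
        ∃ z' : M, (∃ k : ℤ, k ≠ 0 ∧ k • z' ∈ N) ∧ z - z' ∈ N') := by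
  let f : Submodule.torsion ℤ (M ⧸ N) → Submodule.torsion ℤ (M ⧸ N') := fun c =>
    ⟨Submodule.factor h c.1, by
      obtain ⟨c, hc⟩ := c
      obtain ⟨z, rfl⟩ := Submodule.Quotient.mk_surjective N c
      obtain ⟨k, hk, hz⟩ := (LG_tor N z).1 hc
      exact (LG_tor N' z).2 ⟨k, hk, h hz⟩⟩
  have hf : Function.Injective f := by
    rintro ⟨c, hc⟩ ⟨d, hd⟩ hcd
    have hcd' : Submodule.factor h c = Submodule.factor h d := congrArg Subtype.val hcd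
    have h0 : Submodule.factor h (c - d) = 0 := by rw [map_sub, hcd', sub_self]
    have ht : c - d ∈ Submodule.torsion ℤ (M ⧸ N) := Submodule.sub_mem _ hc hd
    obtain ⟨z, hz⟩ := Submodule.Quotient.mk_surjective N (c - d)
    rw [← hz] at h0 ht
    obtain ⟨k, hk, hkz⟩ := (LG_tor N z).1 ht
    have h1 : z ∈ N' := (Submodule.Quotient.mk_eq_zero N').1 h0
    have h2 := (Submodule.Quotient.mk_eq_zero N).2 (hinj z h1 k hk hkz)
    rw [hz] at h2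
    exact Subtype.ext (sub_eq_zero.1 h2)
  refine ⟨Nat.card_le_card_of_injective f hf, ?_⟩
  have hb := Nat.bijective_iff_injective_and_card f
  constructor
  · intro he z hz
    obtain ⟨⟨c, hc⟩, hcz⟩ := (hb.2 ⟨hf, he⟩).2 ⟨Submodule.Quotient.mk z, (LG_tor N' z).2 hz⟩
    obtain ⟨z', rfl⟩ := Submodule.Quotient.mk_surjective N c
    refine ⟨z', (LG_tor N z').1 hc, ?_⟩
    have h3 : (Submodule.Quotient.mk z' : M ⧸ N') = Submodule.Quotient.mk z :=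
      congrArg Subtype.val hcz
    exact (Submodule.Quotient.eq N').1 h3.symm
  · intro hz
    refine (hb.1 ⟨hf, ?_⟩).2
    rintro ⟨c, hc⟩
    obtain ⟨z, rfl⟩ := Submodule.Quotient.mk_surjective N' c
    obtain ⟨z', hz', hzz⟩ := hz z ((LG_tor N' z).1 hc)
    exact ⟨⟨Submodule.Quotient.mk z', (LG_tor N z').2 hz'⟩,
      Subtype.ext ((Submodule.Quotient.eq N').2 hzz).symm⟩

/-- the torsion of `M / (V + S)` embeds into `M / (V + S')` -/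
theorem LG_inj (V S S' : Submodule ℤ M) (hS : Sat S) (hSS : S ≤ S') (hV : V ⊓ S' ≤ S) :
    ∀ z ∈ V ⊔ S', ∀ k : ℤ, k ≠ 0 → k • z ∈ V ⊔ S → z ∈ V ⊔ S := by
  intro z hz k hk hkz
  obtain ⟨v, hv, y, hy, rfl⟩ := Submodule.mem_sup.1 hz
  obtain ⟨v', hv', y', hy', he⟩ := Submodule.mem_sup.1 hkz
  have h1 : y' - k • y = k • v - v' := by
    rw [smul_add] at he
    rw [sub_eq_sub_iff_add_eq_add, add_comm, he]
  have h2 : y' - k • y ∈ S := hV ⟨h1 ▸ V.sub_mem (V.smul_mem k hv) hv',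
    S'.sub_mem (hSS hy') (S'.smul_mem k hy)⟩
  have h3 : k • y ∈ S := by
    have := S.sub_mem hy' h2
    rwa [sub_sub_cancel] at this
  exact Submodule.add_mem_sup hv (hS k y hk h3)

/-- equal ranks -/
theorem LG_rank (X X' : Submodule ℤ M) (h : X ≤ X') [Module.Finite ℤ X'] :
    Module.finrank ℤ X ≤ Module.finrank ℤ X' ∧
    (Module.finrank ℤ X = Module.finrank ℤ X' → ∀ x ∈ X', ∃ k : ℤ, k ≠ 0 ∧ k • x ∈ X) := by
  have h1 := Submodule.finrank_quotient_add_finrank (X.submoduleOf X')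
  rw [(Submodule.submoduleOfEquivOfLe h).finrank_eq] at h1
  refine ⟨by omega, fun he x hx => ?_⟩
  have h2 : Module.finrank ℤ (↥X' ⧸ X.submoduleOf X') = 0 := by omega
  obtain ⟨k, hk, hkx⟩ := Module.finrank_eq_zero_iff.1 h2 (Submodule.Quotient.mk ⟨x, hx⟩)
  rw [← Submodule.Quotient.mk_smul, Submodule.Quotient.mk_eq_zero] at hkx
  exact ⟨k, hk, hkx⟩

end

/-! ### shifts -/

section

variable {n : ℕ}

theorem LG_sh (k l : ℤ) (x : E n) : sh n k (sh n l x) = sh n (k + l) x := by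
  show (LaurentPolynomial.T k : LaurentPolynomial ℤ) •
    ((LaurentPolynomial.T l : LaurentPolynomial ℤ) • x) =
    (LaurentPolynomial.T (k + l) : LaurentPolynomial ℤ) • x
  rw [← mul_smul, ← LaurentPolynomial.T_add]

theorem LG_sh0 (x : E n) : sh n 0 x = x := by
  show (LaurentPolynomial.T 0 : LaurentPolynomial ℤ) • x = x
  rw [LaurentPolynomial.T_zero, one_smul]

theorem LG_mem (k l m : ℤ) (L : Submodule ℤ (E n)) (x : E n) (h : m + k = l) :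
    sh n k x ∈ tw l L ↔ x ∈ tw m L := by
  show sh n (-l) (sh n k x) ∈ L ↔ sh n (-m) x ∈ L
  rw [LG_sh]
  have : -l + k = -m := by omega
  rw [this]

theorem LG_mem0 (L : Submodule ℤ (E n)) (x : E n) : x ∈ tw 0 L ↔ x ∈ L := by
  show sh n (-0) x ∈ L ↔ x ∈ L
  rw [neg_zero, LG_sh0]

theorem LG_fq (L : Submodule ℤ (E n)) (x : ↥L) :
    (Submodule.Quotient.mk x : Fq L) = 0 ↔ (x : E n) ∈ tw (-1) L :=
  Submodule.Quotient.mk_eq_zero _

theorem LG_psi (j : ℕ) (L : Submodule ℤ (E n)) (x : ↥L) :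
    psi j L (Submodule.Quotient.mk x) = Submodule.Quotient.mk (sh n (-(j : ℤ)) (x : E n)) := rfl

theorem LG_rho (j : ℕ) (L : Submodule ℤ (E n)) (x : ↥L) :
    rhoU j L (Submodule.Quotient.mk x) =
      Submodule.Quotient.mk (Submodule.Quotient.mk (sh n (-(j : ℤ)) (x : E n))) := rfl

/-- the class of `z` in `C_(j+1)` modulo torsion -/
def LG_cl (j : ℕ) (L : Submodule ℤ (E n)) : E n →ₗ[ℤ] Ct (j + 1) L :=
  (Submodule.mkQ _) ∘ₗ (Submodule.mkQ _)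

theorem LG_cl_surj (j : ℕ) (L : Submodule ℤ (E n)) : Function.Surjective (LG_cl j L) :=
  (Submodule.mkQ_surjective _).comp (Submodule.mkQ_surjective _)

theorem LG_cl_zero (j : ℕ) (L : Submodule ℤ (E n)) (z : E n) : LG_cl j L z = 0 ↔
    ∃ k : ℤ, k ≠ 0 ∧ k • z ∈ V n ⊔ tw (-((j + 1 : ℕ) : ℤ)) L := by
  rw [← LG_tor]
  exact Submodule.Quotient.mk_eq_zero _

theorem LG_cl_zero' (j : ℕ) (L : Submodule ℤ (E n)) (z : E n)
    (h : z ∈ V n ⊔ tw (-((j + 1 : ℕ) : ℤ)) L) : LG_cl j L z = 0 :=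
  (LG_cl_zero j L z).2 ⟨1, one_ne_zero, by rwa [one_smul]⟩

end

theorem LG_one (hA : St_LA) (hF : St_LF) (n : ℕ) (L : Submodule ℤ (E n)) (hL : IsLat L) (a : ℕ)
    (L' : Submodule ℤ (E n)) (hL' : IsLat L') (h : L ≤ L') :
    T0 a L ≤ T0 a L' ∧ (T0 a L = T0 a L' → V n ⊓ tw (-(a : ℤ)) L' ≤ tw (-(a : ℤ)) L) := by
  have hSS : tw (-(a : ℤ)) L ≤ tw (-(a : ℤ)) L' := fun x hx => h hx
  have := ((hF n L' hL').2.2.1 (-(a : ℤ))).1
  obtain ⟨h1, h2⟩ := LG_rank (V n ⊓ tw (-(a : ℤ)) L) (V n ⊓ tw (-(a : ℤ)) L')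
    (inf_le_inf_left _ hSS)
  refine ⟨h1, fun he x hx => ?_⟩
  obtain ⟨k, hk, hkx⟩ := h2 he x hx
  exact ((hA n).2.1 L L (-(a : ℤ))).2.2.2.2 hL.sat k x hk hkx.2

theorem LG_three (hA : St_LA) (hW : St_LW) (n : ℕ) (L : Submodule ℤ (E n)) (hL : IsLat L)
    (j : ℕ) (W : Submodule ℤ (Fq L)) (hWs : Sat W) (hSp : SpI (rhoU j L) W)
    (hLe : LeA (j + 1) L) : LeA (j + 1) (tw 1 (lw L W)) := by
  obtain ⟨-, w2, -, -, -, w5⟩ := hW n L hL
  obtain ⟨hX, hsX, hXL⟩ := w2 W hWs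
  obtain ⟨a1, -, -, a4, -⟩ := hA n
  intro p hp x hx y hy z hxyz
  have hp0 : (p : ℤ) ≠ 0 := by exact_mod_cast hp.ne_zero
  have e2 : tw (-(((j + 1 : ℕ) : ℤ) + 1)) (tw 1 (lw L W)) = tw (-((j + 1 : ℕ) : ℤ)) (lw L W) := by
    rw [(a1 (lw L W) _ _).1]
    have : -(((j + 1 : ℕ) : ℤ) + 1) + 1 = -((j + 1 : ℕ) : ℤ) := by ring
    rw [this]
  rw [e2] at hy
  have hy0 : sh n ((j + 1 : ℕ) : ℤ) y ∈ lw L W := by
    have : sh n (-(-((j + 1 : ℕ) : ℤ))) y ∈ lw L W := hy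
    rwa [neg_neg] at this
  have hw := (w5 W ⟨_, hXL hy0⟩).1 hy0
  have e3 : sh n (-(j : ℤ)) (sh n ((j + 1 : ℕ) : ℤ) y) = sh n 1 x - (p : ℤ) • sh n 1 z := by
    rw [LG_sh, hxyz, map_add, map_smul, add_sub_cancel_right]
    have : -(j : ℤ) + ((j + 1 : ℕ) : ℤ) = 1 := by push_cast; ring
    rw [this]
  have htx : sh n 1 x ∈ V n := by
    have h1 : sh n 1 x ∈ tw 1 (V n) := (LG_mem 1 1 0 (V n) x (by ring)).2
      ((LG_mem0 (V n) x).2 hx)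
    have h2 := a4 0 1 (by norm_num) h1
    exact (LG_mem0 (V n) _).1 h2
  have hrw : rhoU j L (Submodule.Quotient.mk ⟨_, hXL hy0⟩) = (p : ℤ) • LG_cl j L (-sh n 1 z) := by
    have h1 : rhoU j L (Submodule.Quotient.mk ⟨_, hXL hy0⟩) =
      LG_cl j L (sh n (-(j : ℤ)) (sh n ((j + 1 : ℕ) : ℤ) y)) := rfl
    rw [h1, e3, map_sub, LG_cl_zero' j L _ (Submodule.mem_sup_left htx), zero_sub, map_smul,
      ← smul_neg, ← map_neg]
  obtain ⟨w', hw', hwz⟩ := hSp.2 (p : ℤ) _ hp0 ⟨_, hw, hrw⟩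
  obtain ⟨⟨x', hxL'⟩, rfl⟩ := Submodule.Quotient.mk_surjective _ w'
  have hww : (Submodule.Quotient.mk (⟨_, hXL hy0⟩ - (p : ℤ) • ⟨x', hxL'⟩ : ↥L) : Fq L) = 0 := by
    refine hSp.1 _ ?_ ?_
    · rw [Submodule.Quotient.mk_sub, Submodule.Quotient.mk_smul]
      exact W.sub_mem hw (W.smul_mem _ hw')
    · rw [Submodule.Quotient.mk_sub, Submodule.Quotient.mk_smul, map_sub, map_smul, hrw, hwz,
        sub_self]
  have h6 : sh n ((j + 1 : ℕ) : ℤ) y - (p : ℤ) • x' ∈ tw (-1) L := by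
    have h5 := (LG_fq L _).1 hww
    rwa [Submodule.coe_sub, Submodule.coe_smul] at h5
  have h7 : y - (p : ℤ) • sh n (-((j + 1 : ℕ) : ℤ)) x' ∈ tw (-(((j + 1 : ℕ) : ℤ) + 1)) L := by
    have h8 := (LG_mem (-((j + 1 : ℕ) : ℤ)) (-(((j + 1 : ℕ) : ℤ) + 1)) (-1) L _ (by ring)).2 h6
    rwa [map_sub, map_smul, LG_sh, neg_add_cancel, LG_sh0] at h8
  refine hLe p hp x hx _ h7 (z + sh n (-((j + 1 : ℕ) : ℤ)) x') ?_
  rw [hxyz, smul_add]
  abel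

theorem thm_LG (hA : St_LA) (hF : St_LF) (hW : St_LW) : St_LG := by
  intro n L hL
  refine ⟨fun a L' hL' h => ?_, fun j W hWs => ?_⟩
  · obtain ⟨h1, h2⟩ := LG_one hA hF n L hL a L' hL' h
    refine ⟨h1, fun he => ?_⟩
    exact (LG_card _ _ (sup_le_sup_left (fun x hx => h hx) _)
      (LG_inj (V n) (tw (-(a : ℤ)) L) (tw (-(a : ℤ)) L')
        (((hA n).2.1 L L (-(a : ℤ))).2.2.2.2 hL.sat) (fun x hx => h hx) (h2 he))
      ((hF n L' hL').2.1 a).2.2.2).1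
  obtain ⟨-, w2, -, -, -, w5⟩ := hW n L hL
  obtain ⟨hX, hsX, hXL⟩ := w2 W hWs
  set X := lw L W with hXdef
  have hLa := (hA n)
  obtain ⟨a1, a2, a3, a4, a5, a6, -⟩ := hLa
  have hL'' : IsLat (tw 1 X) := (a6 X X hX hX).1 1
  have hLL'' : L ≤ tw 1 X := by
    intro x hx
    refine hsX ?_
    show sh n (- -1) (sh n (-1) x) ∈ L
    rw [LG_sh, neg_neg, add_neg_cancel, LG_sh0]
    exact hx
  have e1 : tw (-((j + 1 : ℕ) : ℤ)) (tw 1 X) = tw (-(j : ℤ)) X := by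
    rw [(a1 X _ _).1]
    congr 1
    push_cast
    ring
  have hSat : Sat (tw (-((j + 1 : ℕ) : ℤ)) L) := (a2 L L _).2.2.2.2 hL.sat
  -- `s ^ (j+1) L ≤ s ^ j X`
  have hSS : tw (-((j + 1 : ℕ) : ℤ)) L ≤ tw (-(j : ℤ)) X := by
    rw [← e1]
    exact fun x hx => hLL'' hx
  -- classes of elements of `X`
  have hcl : ∀ x : E n, x ∈ X → ∃ w ∈ W, rhoU j L w = LG_cl j L (sh n (-(j : ℤ)) x) ∧
      psi j L w = Submodule.Quotient.mk (sh n (-(j : ℤ)) x) ∧ (w = 0 → x ∈ tw (-1) L) := by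
    intro x hx
    refine ⟨Submodule.Quotient.mk ⟨x, hXL hx⟩, (w5 W ⟨x, hXL hx⟩).1 hx, rfl, rfl, fun h0 => ?_⟩
    exact (LG_fq L ⟨x, hXL hx⟩).1 h0
  have hcl' : ∀ w ∈ W, ∃ x : E n, x ∈ X ∧ ∃ hx : x ∈ L, w = Submodule.Quotient.mk ⟨x, hx⟩ := by
    intro w hw
    obtain ⟨x, rfl⟩ := Submodule.Quotient.mk_surjective _ w
    exact ⟨x.1, (w5 W x).2 hw, x.2, rfl⟩
  have hshX : ∀ x : E n, x ∈ X ↔ sh n (-(j : ℤ)) x ∈ tw (-(j : ℤ)) X := fun x => by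
    rw [LG_mem (-(j : ℤ)) (-(j : ℤ)) 0 X x (by ring), LG_mem0]
  have hshL : ∀ x : E n, x ∈ tw (-1) L ↔ sh n (-(j : ℤ)) x ∈ tw (-((j + 1 : ℕ) : ℤ)) L :=
    fun x => (LG_mem (-(j : ℤ)) (-((j + 1 : ℕ) : ℤ)) (-1) L x (by push_cast; ring)).symm
  have hpre : ∀ y ∈ tw (-(j : ℤ)) X, ∃ x ∈ X, y = sh n (-(j : ℤ)) x := by
    intro y hy
    refine ⟨sh n (j : ℤ) y, ?_, ?_⟩
    · have : sh n (-(-(j : ℤ))) y ∈ X := hy
      rwa [neg_neg] at this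
    · rw [LG_sh, neg_add_cancel, LG_sh0]
  -- equal ranks from an inclusion
  have hT : V n ⊓ tw (-(j : ℤ)) X ≤ tw (-((j + 1 : ℕ) : ℤ)) L →
      T0 (j + 1) (tw 1 X) = T0 (j + 1) L := by
    intro h
    unfold T0
    rw [e1, le_antisymm (le_inf inf_le_left h) (inf_le_inf_left (V n) hSS)]
  have hT' : T0 (j + 1) (tw 1 X) = T0 (j + 1) L →
      V n ⊓ tw (-(j : ℤ)) X ≤ tw (-((j + 1 : ℕ) : ℤ)) L := by
    intro h
    rw [← e1]
    exact (LG_one hA hF n L hL (j + 1) (tw 1 X) hL'' hLL'').2 h.symm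
  have hN : V n ⊔ tw (-((j + 1 : ℕ) : ℤ)) (tw 1 X) = V n ⊔ tw (-(j : ℤ)) X := by rw [e1]
  have hcard : V n ⊓ tw (-(j : ℤ)) X ≤ tw (-((j + 1 : ℕ) : ℤ)) L →
      (ta (j + 1) (tw 1 X) = ta (j + 1) L ↔
        ∀ z : E n, (∃ k : ℤ, k ≠ 0 ∧ k • z ∈ V n ⊔ tw (-(j : ℤ)) X) →
        ∃ z' : E n, (∃ k : ℤ, k ≠ 0 ∧ k • z' ∈ V n ⊔ tw (-((j + 1 : ℕ) : ℤ)) L) ∧
          z - z' ∈ V n ⊔ tw (-(j : ℤ)) X) := by
    intro h
    have hfin := ((hF n (tw 1 X) hL'').2.1 (j + 1)).2.2.2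
    have hc := (LG_card (V n ⊔ tw (-((j + 1 : ℕ) : ℤ)) L) (V n ⊔ tw (-((j + 1 : ℕ) : ℤ)) (tw 1 X))
      (hN ▸ sup_le_sup_left hSS _) (by
        rw [hN]
        exact LG_inj (V n) _ _ hSat hSS h) hfin).2
    rw [hN] at hc
    unfold ta Cq
    rw [hN]
    exact eq_comm.trans hc
  have hinjW : SpI (rhoU j L) W → V n ⊓ tw (-(j : ℤ)) X ≤ tw (-((j + 1 : ℕ) : ℤ)) L := by
    rintro ⟨hi, -⟩ v ⟨hv, hvX⟩
    obtain ⟨x, hx, rfl⟩ := hpre v hvX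
    obtain ⟨w, hw, hrw, -, hw0⟩ := hcl x hx
    rw [LG_cl_zero' j L _ (Submodule.mem_sup_left hv)] at hrw
    exact (hshL x).1 (hw0 (hi w hw hrw))
  refine ⟨⟨fun ⟨hT0, hta⟩ => ?_, fun hSp => ?_⟩, fun hSp hLe => ?_⟩
  · have h := hT' hT0
    have hs := (hcard h).1 hta
    refine ⟨fun w hw hw0 => ?_, fun k c hk hc => ?_⟩
    · obtain ⟨x, hx, hxL, rfl⟩ := hcl' w hw
      obtain ⟨k, hk, hkx⟩ := (LG_cl_zero j L (sh n (-(j : ℤ)) x)).1 hw0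
      have h1 := LG_inj (V n) _ _ hSat hSS h (sh n (-(j : ℤ)) x)
        (Submodule.mem_sup_right ((hshX x).1 hx)) k hk hkx
      obtain ⟨v, hv, y, hy, he⟩ := Submodule.mem_sup.1 h1
      have h2 : v ∈ tw (-(j : ℤ)) X := by
        have : v = sh n (-(j : ℤ)) x - y := by rw [← he, add_sub_cancel_right]
        rw [this]
        exact Submodule.sub_mem _ ((hshX x).1 hx) (hSS hy)
      have h3 : sh n (-(j : ℤ)) x ∈ tw (-((j + 1 : ℕ) : ℤ)) L := by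
        rw [← he]
        exact Submodule.add_mem _ (h ⟨hv, h2⟩) hy
      exact (Submodule.Quotient.mk_eq_zero _).2 ((hshL x).2 h3)
    · obtain ⟨w, hw, hwc⟩ := hc
      obtain ⟨x, hx, hxL, rfl⟩ := hcl' w hw
      obtain ⟨z, rfl⟩ := LG_cl_surj j L c
      have h1 : LG_cl j L (k • z - sh n (-(j : ℤ)) x) = 0 := by
        rw [map_sub, map_smul, ← hwc]
        exact sub_self _
      obtain ⟨k', hk', h2⟩ := (LG_cl_zero j L _).1 h1
      have h3 : (k' * k) • z ∈ V n ⊔ tw (-(j : ℤ)) X := by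
        have h4 := Submodule.add_mem _ (sup_le_sup_left hSS (V n) h2)
          (Submodule.mem_sup_right (S := V n)
            ((tw (-(j : ℤ)) X).smul_mem k' ((hshX x).1 hx)))
        rwa [smul_sub, sub_add_cancel, smul_smul] at h4
      obtain ⟨z', hz', hzz⟩ := hs z ⟨k' * k, mul_ne_zero hk' hk, h3⟩
      obtain ⟨v, hv, y, hy, he⟩ := Submodule.mem_sup.1 hzz
      obtain ⟨x', hx', rfl⟩ := hpre y hy
      obtain ⟨w', hw', hrw', -⟩ := hcl x' hx'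
      refine ⟨w', hw', ?_⟩
      rw [hrw', eq_comm, ← sub_eq_zero, ← map_sub]
      have h5 : z - sh n (-(j : ℤ)) x' = z' + v := by
        rw [sub_eq_iff_eq_add, add_assoc, he, add_sub_cancel]
      rw [h5, map_add, LG_cl_zero' j L v (Submodule.mem_sup_left hv), add_zero]
      exact (LG_cl_zero j L z').2 hz'
  · have h := hinjW hSp
    refine ⟨hT h, (hcard h).2 ?_⟩
    rintro z ⟨k, hk, hkz⟩
    obtain ⟨v, hv, y, hy, he⟩ := Submodule.mem_sup.1 hkz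
    obtain ⟨x, hx, rfl⟩ := hpre y hy
    obtain ⟨w, hw, hrw, -⟩ := hcl x hx
    have h1 : k • LG_cl j L z ∈ W.map (rhoU j L) := by
      refine ⟨w, hw, ?_⟩
      rw [hrw, ← map_smul, ← he, map_add, LG_cl_zero' j L v (Submodule.mem_sup_left hv), zero_add]
    obtain ⟨w', hw', hwz⟩ := hSp.2 k _ hk h1
    obtain ⟨x', hx', hxL', rfl⟩ := hcl' w' hw'
    refine ⟨z - sh n (-(j : ℤ)) x', (LG_cl_zero j L _).1 ?_, ?_⟩
    · rw [map_sub, ← hwz]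
      exact sub_self _
    · rw [sub_sub_cancel]
      exact Submodule.mem_sup_right ((hshX x').1 hx')
  · exact LG_three hA hW n L hL j W hWs hSp hLe

end Pool.Agent.SLR
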