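import Pool.Agent.SLR.StL

/-!
# SLR, LH: lower neighbours
-/

set_option autoImplicit false
set_option linter.unusedVariables false

noncomputable section

namespace Pool.Agent.SLR

open Pool.Agent.SLZ

/-! ### free quotients, general module structures -/

theorem lh_free {C : Type} [AddCommGroup C] [Module.Finite ℤ C]
    (P : Submodule ℤ C) (hP : Sat P) : Module.Free ℤ (C ⧸ P) := by
  have htf : Module.IsTorsionFree ℤ (C ⧸ P) := by
    refine Module.IsTorsionFree.of_smul_eq_zero ?_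
    intro r m h
    by_cases hr : r = 0
    · exact Or.inl hr
    right
    obtain ⟨w, rfl⟩ := P.mkQ_surjective m
    rw [← map_smul, Submodule.mkQ_apply, Submodule.Quotient.mk_eq_zero] at h
    rw [Submodule.mkQ_apply, Submodule.Quotient.mk_eq_zero]
    exact hP r w hr h
  exact Module.free_of_finite_type_torsion_free'

theorem lh_retr {C : Type} [AddCommGroup C] [Module.Finite ℤ C]
    (P : Submodule ℤ C) (hP : Sat P) : ∃ r : C →ₗ[ℤ] P, ∀ u : P, r u = u := by
  have hfree : Module.Free ℤ (C ⧸ P) := lh_free P hP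
  obtain ⟨σ, hσ⟩ := Module.projective_lifting_property P.mkQ LinearMap.id P.mkQ_surjective
  have hσ' : ∀ x, P.mkQ (σ x) = x := fun x => LinearMap.congr_fun hσ x
  have hmem : ∀ w, ((LinearMap.id : C →ₗ[ℤ] C) - σ ∘ₗ P.mkQ) w ∈ P := by
    intro w
    rw [← Submodule.Quotient.mk_eq_zero P, ← Submodule.mkQ_apply]
    simp only [LinearMap.sub_apply, LinearMap.id_apply, LinearMap.comp_apply, map_sub, hσ', sub_self]
  refine ⟨LinearMap.codRestrict P ((LinearMap.id : C →ₗ[ℤ] C) - σ ∘ₗ P.mkQ) hmem, ?_⟩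
  intro u
  apply Subtype.ext
  show (u : C) - σ (P.mkQ (u : C)) = u
  have h2 : P.mkQ (u : C) = 0 := by
    rw [Submodule.mkQ_apply]
    exact (Submodule.Quotient.mk_eq_zero P).2 u.2
  rw [h2, map_zero, sub_zero]

theorem lh_dvd {Q : Type} [AddCommGroup Q] [Module.Free ℤ Q] [Module.Finite ℤ Q]
    (p : ℤ) (y : Q) (h : ∀ l : Q →ₗ[ℤ] ℤ, p ∣ l y) : ∃ w : Q, y = p • w := by
  let b := Module.Free.chooseBasis ℤ Q
  choose c hc using fun i => h (b.coord i)
  refine ⟨∑ i, c i • b i, ?_⟩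
  rw [Finset.smul_sum]
  conv_lhs => rw [← b.sum_repr y]
  refine Finset.sum_congr rfl fun i _ => ?_
  rw [← mul_smul, ← hc i]
  rfl

theorem lh_rank {M : Type} [AddCommGroup M] [Module.Finite ℤ M]
    {P Q : Submodule ℤ M} (hP : Sat P) (hPQ : P ≤ Q)
    (h : Module.finrank ℤ P = Module.finrank ℤ Q) : P = Q := by
  have h1 := Submodule.finrank_quotient_add_finrank (P.comap Q.subtype)
  have h2 := (Submodule.comapSubtypeEquivOfLe hPQ).finrank_eq
  have h3 : Module.finrank ℤ (Q ⧸ P.comap Q.subtype) = 0 := by omega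
  rw [Module.finrank_eq_zero_iff] at h3
  apply le_antisymm hPQ
  intro x hx
  obtain ⟨a, ha, hax⟩ := h3 ((P.comap Q.subtype).mkQ ⟨x, hx⟩)
  rw [← map_smul, Submodule.mkQ_apply, Submodule.Quotient.mk_eq_zero] at hax
  exact hP a x ha hax

theorem lh_tors {A : Type} [AddCommGroup A] (x : A) :
    x ∈ Submodule.torsion ℤ A ↔ ∃ k : ℤ, k ≠ 0 ∧ k • x = 0 := by
  rw [Submodule.mem_torsion_iff]
  constructor
  · rintro ⟨a, ha⟩
    exact ⟨a, nonZeroDivisors.coe_ne_zero a, ha⟩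
  · rintro ⟨k, hk, hkx⟩
    exact ⟨⟨k, mem_nonZeroDivisors_of_ne_zero hk⟩, hkx⟩

/-! ### the algebraic lemma -/

section alg

variable {F C A B : Type} [AddCommGroup F] [Module.Free ℤ F] [Module.Finite ℤ F]
  [AddCommGroup C] [Module.Free ℤ C] [Module.Finite ℤ C]
  [AddCommGroup A] [AddCommGroup B]
  (ψ : F →ₗ[ℤ] C) (W : Submodule ℤ F)

/-- the saturation of the image of `W` -/
def lh_SW : Submodule ℤ C where
  carrier := {c | ∃ k : ℤ, k ≠ 0 ∧ k • c ∈ W.map ψ}
  zero_mem' := ⟨1, one_ne_zero, by rw [smul_zero]; exact Submodule.zero_mem _⟩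
  add_mem' := by
    rintro v w ⟨a, ha, h1⟩ ⟨b, hb, h2⟩
    refine ⟨b * a, mul_ne_zero hb ha, ?_⟩
    rw [smul_add, mul_smul, mul_comm, mul_smul]
    exact Submodule.add_mem _ (Submodule.smul_mem _ _ h1) (Submodule.smul_mem _ _ h2)
  smul_mem' := by
    rintro c w ⟨a, ha, h1⟩
    refine ⟨a, ha, ?_⟩
    rw [smul_comm]
    exact Submodule.smul_mem _ _ h1

theorem lh_SW_sat : Sat (lh_SW ψ W) := by
  rintro a v ha ⟨k, hk, h⟩
  refine ⟨k * a, mul_ne_zero hk ha, ?_⟩
  rw [mul_smul]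
  exact h

theorem lh_ker {W : Submodule ℤ F} (hW : Sat W) (hJ : LinearMap.ker ψ ≤ W) {x : F}
    (hx : ψ x ∈ lh_SW ψ W) : x ∈ W := by
  obtain ⟨k, hk, w, hw, h⟩ := hx
  have h1 : k • x - w ∈ LinearMap.ker ψ := by
    rw [LinearMap.mem_ker, map_sub, map_smul, h, sub_self]
  have h2 := W.add_mem (hJ h1) hw
  rw [sub_add_cancel] at h2
  exact hW k x hk h2

theorem lh_cond {W : Submodule ℤ F} (hW : Sat W) (hJ : LinearMap.ker ψ ≤ W) :
    (∀ (c : C) (k : ℤ), k ≠ 0 → k • c ∈ LinearMap.range ψ →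
      ∃ x : F, ∃ k' : ℤ, k' ≠ 0 ∧ k' • (c - ψ x) ∈ W.map ψ) ↔
    W.dualAnnihilator ≤ LinearMap.range ψ.dualMap := by
  constructor
  · intro hc φ hφ
    rw [Submodule.mem_dualAnnihilator] at hφ
    set S := lh_SW ψ W with hS
    have hfree : Module.Free ℤ (C ⧸ S) := lh_free S (lh_SW_sat ψ W)
    have hle : W ≤ LinearMap.ker (S.mkQ ∘ₗ ψ) := by
      intro w hw
      rw [LinearMap.mem_ker, LinearMap.comp_apply, Submodule.mkQ_apply,
        Submodule.Quotient.mk_eq_zero]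
      exact ⟨1, one_ne_zero, by rw [one_smul]; exact Submodule.mem_map_of_mem hw⟩
    let ψ' : (F ⧸ W) →ₗ[ℤ] (C ⧸ S) := W.liftQ (S.mkQ ∘ₗ ψ) hle
    have hψ' : ∀ x : F, ψ' (W.mkQ x) = S.mkQ (ψ x) := fun x => rfl
    have hinj : Function.Injective ψ' := by
      rw [injective_iff_map_eq_zero]
      intro y hy
      obtain ⟨x, rfl⟩ := W.mkQ_surjective y
      rw [hψ', Submodule.mkQ_apply, Submodule.Quotient.mk_eq_zero] at hy
      rw [Submodule.mkQ_apply, Submodule.Quotient.mk_eq_zero]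
      exact lh_ker ψ hW hJ hy
    have hsat : Sat (LinearMap.range ψ') := by
      rintro a d ha ⟨y, hy⟩
      obtain ⟨x, rfl⟩ := W.mkQ_surjective y
      obtain ⟨c, rfl⟩ := S.mkQ_surjective d
      rw [hψ'] at hy
      have h1 : a • c - ψ x ∈ S := by
        rw [← Submodule.Quotient.mk_eq_zero, ← Submodule.mkQ_apply, map_sub, map_smul, hy, sub_self]
      obtain ⟨k, hk, w, hw, hkw⟩ := h1
      have h2 : (k * a) • c ∈ LinearMap.range ψ := by
        refine ⟨k • x + w, ?_⟩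
        rw [map_add, map_smul, hkw, smul_sub, mul_smul]
        abel
      obtain ⟨x', k', hk', h3⟩ := hc c (k * a) (mul_ne_zero hk ha) h2
      refine ⟨W.mkQ x', ?_⟩
      rw [hψ']
      have h4 : c - ψ x' ∈ S := ⟨k', hk', h3⟩
      have h5 : S.mkQ (c - ψ x') = 0 := by
        rw [Submodule.mkQ_apply]
        exact (Submodule.Quotient.mk_eq_zero S).2 h4
      rw [map_sub] at h5
      exact (sub_eq_zero.1 h5).symm
    obtain ⟨r, hr⟩ := lh_retr _ hsat
    let e := LinearEquiv.ofInjective ψ' hinj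
    have hφW : W ≤ LinearMap.ker φ := fun w hw => hφ w hw
    refine ⟨(W.liftQ φ hφW) ∘ₗ e.symm.toLinearMap ∘ₗ r ∘ₗ S.mkQ, ?_⟩
    ext x
    rw [LinearMap.dualMap_apply']
    show (W.liftQ φ hφW) (e.symm (r (S.mkQ (ψ x)))) = φ x
    have h1 : r (S.mkQ (ψ x)) = e (W.mkQ x) := hr (e (W.mkQ x))
    rw [h1, LinearEquiv.symm_apply_apply]
    rfl
  · intro hann c k hk hkc
    obtain ⟨x, hx⟩ := hkc
    have hfree : Module.Free ℤ (F ⧸ W) := lh_free W hW
    obtain ⟨y, hy⟩ := lh_dvd k (W.mkQ x) (by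
      intro l
      have h1 : l ∘ₗ W.mkQ ∈ W.dualAnnihilator := by
        rw [Submodule.mem_dualAnnihilator]
        intro w hw
        rw [LinearMap.comp_apply, Submodule.mkQ_apply, (Submodule.Quotient.mk_eq_zero W).2 hw,
          map_zero]
      obtain ⟨μ, hμ⟩ := hann h1
      have h2 : l (W.mkQ x) = μ (ψ x) := (LinearMap.congr_fun hμ x).symm
      rw [h2, hx, map_smul, smul_eq_mul]
      exact dvd_mul_right _ _)
    obtain ⟨x', rfl⟩ := W.mkQ_surjective y
    have h1 : x - k • x' ∈ W := by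
      rw [← Submodule.Quotient.mk_eq_zero, ← Submodule.mkQ_apply, map_sub, map_smul, hy, sub_self]
    refine ⟨x', k, hk, x - k • x', h1, ?_⟩
    rw [map_sub, map_smul, hx, smul_sub]

theorem lh_alg {W : Submodule ℤ F} (hW : Sat W) (hJ : LinearMap.ker ψ ≤ W)
    (qA : C →ₗ[ℤ] A) (hqA : Function.Surjective qA) (kA : LinearMap.ker qA = LinearMap.range ψ)
    (qB : C →ₗ[ℤ] B) (hqB : Function.Surjective qB) (kB : LinearMap.ker qB = W.map ψ)
    (hfin : Finite (Submodule.torsion ℤ A)) :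
    Nat.card (Submodule.torsion ℤ B) = Nat.card (Submodule.torsion ℤ A) ↔
      W.dualAnnihilator ≤ LinearMap.range ψ.dualMap := by
  rw [← lh_cond ψ hW hJ]
  have hle : LinearMap.ker qB ≤ LinearMap.ker qA := by
    rw [kA, kB]
    exact LinearMap.map_le_range
  obtain ⟨π, hπ⟩ : ∃ π : B →ₗ[ℤ] A, ∀ c, π (qB c) = qA c := by
    refine ⟨((LinearMap.ker qB).liftQ qA hle) ∘ₗ
      (qB.quotKerEquivOfSurjective hqB).symm.toLinearMap, ?_⟩
    intro c
    have h1 : (qB.quotKerEquivOfSurjective hqB).symm (qB c) = (LinearMap.ker qB).mkQ c := by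
      rw [LinearEquiv.symm_apply_eq]
      rfl
    show ((LinearMap.ker qB).liftQ qA hle) ((qB.quotKerEquivOfSurjective hqB).symm (qB c)) = qA c
    rw [h1]
    rfl
  have hmap : ∀ b ∈ Submodule.torsion ℤ B, π b ∈ Submodule.torsion ℤ A := by
    intro b hb
    rw [lh_tors] at hb ⊢
    obtain ⟨k, hk, hkb⟩ := hb
    exact ⟨k, hk, by rw [← map_smul, hkb, map_zero]⟩
  let τ : Submodule.torsion ℤ B → Submodule.torsion ℤ A := fun b => ⟨π b, hmap b b.2⟩
  have hker : ∀ b ∈ Submodule.torsion ℤ B, π b = 0 → b = 0 := by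
    intro b hb hb0
    obtain ⟨c, rfl⟩ := hqB b
    rw [lh_tors] at hb
    obtain ⟨k, hk, hkb⟩ := hb
    rw [hπ] at hb0
    have h1 : c ∈ LinearMap.range ψ := by
      rw [← kA]
      exact hb0
    obtain ⟨x, rfl⟩ := h1
    have h2 : k • ψ x ∈ W.map ψ := by
      rw [← kB, LinearMap.mem_ker, map_smul, hkb]
    have h3 : x ∈ W := lh_ker ψ hW hJ ⟨k, hk, h2⟩
    have h4 : ψ x ∈ LinearMap.ker qB := by
      rw [kB]
      exact Submodule.mem_map_of_mem h3
    exact h4
  have hinj : Function.Injective τ := by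
    intro b b' h
    have h1 : π (b : B) = π b' := congrArg Subtype.val h
    have h2 := hker (b - b') (Submodule.sub_mem _ b.2 b'.2) (by rw [map_sub, h1, sub_self])
    exact Subtype.ext (sub_eq_zero.1 h2)
  have hfinB : Finite (Submodule.torsion ℤ B) := Finite.of_injective τ hinj
  have hcard : Nat.card (Submodule.torsion ℤ B) = Nat.card (Submodule.torsion ℤ A) ↔
      Function.Surjective τ := by
    constructor
    · intro h
      exact (Function.Injective.bijective_of_nat_card_le hinj h.symm.le).2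
    · intro h
      exact Nat.card_eq_of_bijective τ ⟨hinj, h⟩
  rw [hcard]
  constructor
  · intro hs c k hk hkc
    have h1 : qA c ∈ Submodule.torsion ℤ A := by
      rw [lh_tors]
      refine ⟨k, hk, ?_⟩
      rw [← map_smul]
      have : k • c ∈ LinearMap.ker qA := by
        rw [kA]
        exact hkc
      exact this
    obtain ⟨⟨b, hb⟩, hb'⟩ := hs ⟨qA c, h1⟩
    have h2 : π b = qA c := congrArg Subtype.val hb'
    obtain ⟨c', rfl⟩ := hqB b
    rw [hπ] at h2
    have h3 : c - c' ∈ LinearMap.range ψ := by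
      rw [← kA, LinearMap.mem_ker, map_sub, h2, sub_self]
    obtain ⟨x, hx⟩ := h3
    rw [lh_tors] at hb
    obtain ⟨k', hk', hkb⟩ := hb
    refine ⟨x, k', hk', ?_⟩
    rw [hx, sub_sub_cancel, ← kB, LinearMap.mem_ker, map_smul, hkb]
  · rintro hc ⟨a, ha⟩
    obtain ⟨c, rfl⟩ := hqA a
    rw [lh_tors] at ha
    obtain ⟨k, hk, hka⟩ := ha
    have h1 : k • c ∈ LinearMap.range ψ := by
      rw [← kA, LinearMap.mem_ker, map_smul, hka]
    obtain ⟨x, k', hk', h2⟩ := hc c k hk h1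
    have h3 : qB (c - ψ x) ∈ Submodule.torsion ℤ B := by
      rw [lh_tors]
      refine ⟨k', hk', ?_⟩
      rw [← map_smul]
      have : k' • (c - ψ x) ∈ LinearMap.ker qB := by
        rw [kB]
        exact h2
      exact this
    refine ⟨⟨qB (c - ψ x), h3⟩, ?_⟩
    apply Subtype.ext
    show π (qB (c - ψ x)) = qA c
    have h4 : qA (ψ x) = 0 := by
      have : ψ x ∈ LinearMap.ker qA := by
        rw [kA]
        exact ⟨x, rfl⟩
      exact this
    rw [hπ, map_sub, h4, sub_zero]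

end alg

/-! ### lattices -/

section lat

variable {n : ℕ}

theorem lh_TT (j k : ℤ) (x : E n) : (LaurentPolynomial.T j : LaurentPolynomial ℤ) •
    ((LaurentPolynomial.T k : LaurentPolynomial ℤ) • x) =
    (LaurentPolynomial.T (j + k) : LaurentPolynomial ℤ) • x := by
  rw [← mul_smul, ← LaurentPolynomial.T_add]

theorem lh_T0 (x : E n) : (LaurentPolynomial.T 0 : LaurentPolynomial ℤ) • x = x := by
  rw [LaurentPolynomial.T_zero, one_smul]

theorem lh_mem (k : ℤ) (L : Submodule ℤ (E n)) (x : E n) :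
    x ∈ tw (-k) L ↔ (LaurentPolynomial.T k : LaurentPolynomial ℤ) • x ∈ L := by
  have h : x ∈ tw (-k) L ↔ (LaurentPolynomial.T (- -k) : LaurentPolynomial ℤ) • x ∈ L := Iff.rfl
  rw [h, neg_neg]

theorem lh_lw (L : Submodule ℤ (E n)) (W : Submodule ℤ (Fq L)) (x : E n) :
    x ∈ lw L W ↔ ∃ hx : x ∈ L, (Submodule.Quotient.mk (⟨x, hx⟩ : ↥L) : Fq L) ∈ W := by
  constructor
  · rintro ⟨y, hy, rfl⟩
    exact ⟨y.2, hy⟩
  · rintro ⟨hx, h⟩
    exact ⟨⟨x, hx⟩, h, rfl⟩

theorem lh_psi (j : ℕ) (L : Submodule ℤ (E n)) (y : ↥L) :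
    psi j L (Submodule.Quotient.mk y) =
      Submodule.Quotient.mk ((LaurentPolynomial.T (-(j : ℤ)) : LaurentPolynomial ℤ) • (y : E n)) :=
  rfl

/-- the rank of `V ∩ s ^ a X` -/
theorem lh_T0eq (L : Submodule ℤ (E n)) (hL : tw (-1) L ≤ L) (a : ℕ) (W : Submodule ℤ (Fq L))
    (h0 : V n ⊓ tw (-((a + 1 : ℕ) : ℤ)) L = ⊥) :
    T0 a (lw L W) = Module.finrank ℤ ↥(LinearMap.ker (psi a L) ⊓ W) := by
  have hmemL : ∀ x : ↥(V n ⊓ tw (-(a : ℤ)) (lw L W)),
      ((sh n a).toLinearMap ∘ₗ (V n ⊓ tw (-(a : ℤ)) (lw L W)).subtype) x ∈ L := by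
    intro x
    have h1 := (Submodule.mem_inf.1 x.2).2
    rw [lh_mem, lh_lw] at h1
    exact h1.1
  let g0 : ↥(V n ⊓ tw (-(a : ℤ)) (lw L W)) →ₗ[ℤ] ↥L :=
    LinearMap.codRestrict L ((sh n a).toLinearMap ∘ₗ (V n ⊓ tw (-(a : ℤ)) (lw L W)).subtype) hmemL
  have hg0 : ∀ x, ((g0 x : ↥L) : E n) =
      (LaurentPolynomial.T (a : ℤ) : LaurentPolynomial ℤ) • (x : E n) := fun x => rfl
  let g : ↥(V n ⊓ tw (-(a : ℤ)) (lw L W)) →ₗ[ℤ] Fq L :=
    (Submodule.mkQ ((tw (-1) L).submoduleOf L)) ∘ₗ g0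
  have hg : ∀ x, g x = Submodule.Quotient.mk (g0 x) := fun x => rfl
  have hcast : ((a + 1 : ℕ) : ℤ) = 1 + a := by push_cast; ring
  have hinj : Function.Injective g := by
    rw [injective_iff_map_eq_zero]
    intro x hx
    rw [hg, Submodule.Quotient.mk_eq_zero] at hx
    have h1 : ((g0 x : ↥L) : E n) ∈ tw (-1) L := hx
    rw [hg0, lh_mem, lh_TT, ← hcast, ← lh_mem] at h1
    have h2 : (x : E n) ∈ V n ⊓ tw (-((a + 1 : ℕ) : ℤ)) L :=
      Submodule.mem_inf.2 ⟨(Submodule.mem_inf.1 x.2).1, h1⟩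
    rw [h0, Submodule.mem_bot] at h2
    exact Subtype.ext h2
  have hrange : LinearMap.range g = LinearMap.ker (psi a L) ⊓ W := by
    ext y
    constructor
    · rintro ⟨x, rfl⟩
      have h1 := (Submodule.mem_inf.1 x.2).2
      rw [lh_mem, lh_lw] at h1
      obtain ⟨h2, h3⟩ := h1
      rw [Submodule.mem_inf]
      refine ⟨?_, h3⟩
      rw [LinearMap.mem_ker, hg, lh_psi, hg0, lh_TT, neg_add_cancel, lh_T0,
        Submodule.Quotient.mk_eq_zero]
      exact Submodule.mem_sup_left (Submodule.mem_inf.1 x.2).1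
    · intro hy
      rw [Submodule.mem_inf] at hy
      obtain ⟨h1, h2⟩ := hy
      obtain ⟨y, rfl⟩ := Submodule.Quotient.mk_surjective _ y
      rw [LinearMap.mem_ker, lh_psi, Submodule.Quotient.mk_eq_zero] at h1
      obtain ⟨v, hv, z, hz, hvz⟩ := Submodule.mem_sup.1 h1
      have e1 : v = (LaurentPolynomial.T (-(a : ℤ)) : LaurentPolynomial ℤ) • (y : E n) - z :=
        eq_sub_of_add_eq hvz
      have e2 : (LaurentPolynomial.T (a : ℤ) : LaurentPolynomial ℤ) • v =
          (y : E n) - (LaurentPolynomial.T (a : ℤ) : LaurentPolynomial ℤ) • z := by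
        rw [e1, smul_sub, lh_TT, add_neg_cancel, lh_T0]
      have hz1 : (LaurentPolynomial.T (a : ℤ) : LaurentPolynomial ℤ) • z ∈ tw (-1) L := by
        rw [lh_mem, lh_TT, ← hcast, ← lh_mem]
        exact hz
      have hvL : (LaurentPolynomial.T (a : ℤ) : LaurentPolynomial ℤ) • v ∈ L := by
        rw [e2]
        exact L.sub_mem y.2 (hL hz1)
      have hq : (Submodule.Quotient.mk (⟨_, hvL⟩ : ↥L) : Fq L) = Submodule.Quotient.mk y := by
        rw [Submodule.Quotient.eq]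
        show (LaurentPolynomial.T (a : ℤ) : LaurentPolynomial ℤ) • v - (y : E n) ∈ tw (-1) L
        rw [e2]
        have : (y : E n) - (LaurentPolynomial.T (a : ℤ) : LaurentPolynomial ℤ) • z - y =
            -((LaurentPolynomial.T (a : ℤ) : LaurentPolynomial ℤ) • z) := by abel
        rw [this]
        exact Submodule.neg_mem _ hz1
      have hvX : v ∈ V n ⊓ tw (-(a : ℤ)) (lw L W) := by
        rw [Submodule.mem_inf]
        refine ⟨hv, ?_⟩
        rw [lh_mem, lh_lw]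
        exact ⟨hvL, by rw [hq]; exact h2⟩
      exact ⟨⟨v, hvX⟩, hq⟩
  have h1 := (LinearEquiv.ofInjective g hinj).finrank_eq
  rw [hrange] at h1
  exact h1

end lat

theorem lh_one (hLF : St_LF) (hLT : St_LT) {n : ℕ} {L : Submodule ℤ (E n)} (hL : IsLat L) {a : ℕ}
    (ha : LeA a L) : V n ⊓ tw (-((a + 1 : ℕ) : ℤ)) L = ⊥ ∧ Module.Free ℤ (Cq (a + 1) L) ∧
      (∀ (c : Cq (a + 1) L) (k : ℤ), k ≠ 0 → k • c = 0 → c = 0) := by
  obtain ⟨hF1, hF2, hF3, hF4⟩ := hLF n L hL
  have h1 := (hLT n L hL (a + 1) (Nat.succ_pos a)).1 ha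
  obtain ⟨h2, h3⟩ := h1
  obtain ⟨hf1, hf2⟩ := hF3 (-((a + 1 : ℕ) : ℤ))
  obtain ⟨hc1, hc2, hc3, hc4⟩ := hF2 (a + 1)
  have hbot : V n ⊓ tw (-((a + 1 : ℕ) : ℤ)) L = ⊥ := by
    have h4 : Module.finrank ℤ ↥(V n ⊓ tw (-((a + 1 : ℕ) : ℤ)) L) = 0 := h2
    rw [Module.finrank_zero_iff] at h4
    exact Submodule.subsingleton_iff_eq_bot.1 h4
  have htors : ∀ (c : Cq (a + 1) L) (k : ℤ), k ≠ 0 → k • c = 0 → c = 0 := by
    intro c k hk hkc
    have h5 : Nat.card ↥(Submodule.torsion ℤ (Cq (a + 1) L)) = 1 := h3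
    rw [Nat.card_eq_one_iff_unique] at h5
    obtain ⟨h6, -⟩ := h5
    have h7 : c ∈ Submodule.torsion ℤ (Cq (a + 1) L) := (lh_tors c).2 ⟨k, hk, hkc⟩
    have h8 : (⟨c, h7⟩ : ↥(Submodule.torsion ℤ (Cq (a + 1) L))) = 0 := Subsingleton.elim _ _
    exact congrArg Subtype.val h8
  refine ⟨hbot, ?_, htors⟩
  have htf : Module.IsTorsionFree ℤ (Cq (a + 1) L) := by
    refine Module.IsTorsionFree.of_smul_eq_zero ?_
    intro r m h
    by_cases hr : r = 0
    · exact Or.inl hr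
    · exact Or.inr (htors m r hr h)
  exact Module.free_of_finite_type_torsion_free'

theorem thm_LH (hLA : St_LA) (hLF : St_LF) (hLW : St_LW) (hLG : St_LG) (hLT : St_LT)
    (hLR : St_LR) : St_LH := by
  intro n L hL
  obtain ⟨hF1, hF2, hF3, hF4⟩ := hLF n L hL
  obtain ⟨hFq1, hFq2, -⟩ := hF1
  refine ⟨?_, ?_, ?_⟩
  · intro a W hW ha
    obtain ⟨h0, hfree, htors⟩ := lh_one hLF hLT hL ha
    obtain ⟨hc1, hc2, hc3, hc4⟩ := hF2 (a + 1)
    obtain ⟨hd1, hd2, hd3, hd4⟩ := hF2 a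
    obtain ⟨-, -, -, hlwtop, -, -⟩ := hLW n L hL
    obtain ⟨qA, hqA, hqA', kA⟩ := (hLR n L hL).2.1 a
    have hTX := lh_T0eq L hL.sub a W h0
    have hTL := lh_T0eq L hL.sub a ⊤ h0
    rw [hlwtop, inf_top_eq] at hTL
    -- the map to `Cq a (lw L W)`
    have hlwsub : tw (-1) L ≤ lw L W := by
      intro x hx
      rw [lh_lw]
      refine ⟨hL.sub hx, ?_⟩
      have e : (Submodule.Quotient.mk (⟨x, hL.sub hx⟩ : ↥L) : Fq L) = 0 := by
        rw [Submodule.Quotient.mk_eq_zero]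
        exact hx
      rw [e]
      exact W.zero_mem
    have hcast : ((a + 1 : ℕ) : ℤ) = 1 + a := by push_cast; ring
    have hle : V n ⊔ tw (-((a + 1 : ℕ) : ℤ)) L ≤ V n ⊔ tw (-(a : ℤ)) (lw L W) := by
      refine sup_le_sup_left ?_ _
      intro x hx
      rw [lh_mem, hcast, ← lh_TT, ← lh_mem] at hx
      rw [lh_mem]
      exact hlwsub hx
    let qB : Cq (a + 1) L →ₗ[ℤ] Cq a (lw L W) :=
      (V n ⊔ tw (-((a + 1 : ℕ) : ℤ)) L).liftQ (V n ⊔ tw (-(a : ℤ)) (lw L W)).mkQ (by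
        rw [Submodule.ker_mkQ]
        exact hle)
    have hqB' : ∀ x : E n, qB (Submodule.Quotient.mk x) = Submodule.Quotient.mk x := fun x => rfl
    have hqB : Function.Surjective qB := by
      intro y
      obtain ⟨x, rfl⟩ := Submodule.Quotient.mk_surjective _ y
      exact ⟨Submodule.Quotient.mk x, rfl⟩
    have kB : LinearMap.ker qB = W.map (psi a L) := by
      ext y
      constructor
      · intro hy
        obtain ⟨z, rfl⟩ := Submodule.Quotient.mk_surjective _ y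
        rw [LinearMap.mem_ker, hqB', Submodule.Quotient.mk_eq_zero] at hy
        obtain ⟨v, hv, x, hx, rfl⟩ := Submodule.mem_sup.1 hy
        rw [lh_mem, lh_lw] at hx
        obtain ⟨hx1, hx2⟩ := hx
        refine ⟨_, hx2, ?_⟩
        rw [lh_psi, Submodule.Quotient.eq]
        show (LaurentPolynomial.T (-(a : ℤ)) : LaurentPolynomial ℤ) •
          ((LaurentPolynomial.T (a : ℤ) : LaurentPolynomial ℤ) • x) - (v + x) ∈ _
        rw [lh_TT, neg_add_cancel, lh_T0]
        have : x - (v + x) = -v := by abel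
        rw [this]
        exact Submodule.mem_sup_left (Submodule.neg_mem _ hv)
      · rintro ⟨w, hw, rfl⟩
        obtain ⟨x, rfl⟩ := Submodule.Quotient.mk_surjective _ w
        rw [LinearMap.mem_ker, lh_psi, hqB', Submodule.Quotient.mk_eq_zero]
        refine Submodule.mem_sup_right ?_
        rw [lh_mem, lh_TT, add_neg_cancel, lh_T0, lh_lw]
        exact ⟨x.2, hw⟩
    have hJsat : Sat (LinearMap.ker (psi a L)) := by
      intro k x hk hx
      rw [LinearMap.mem_ker, map_smul] at hx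
      rw [LinearMap.mem_ker]
      exact htors _ k hk hx
    have hJWsat : Sat (LinearMap.ker (psi a L) ⊓ W) := by
      intro k x hk hx
      rw [Submodule.mem_inf] at hx ⊢
      exact ⟨hJsat k x hk hx.1, hW k x hk hx.2⟩
    have hkey : LinearMap.ker (psi a L) ≤ W → (ta a (lw L W) = ta a L ↔
        W.dualAnnihilator ≤ N0 a L) := fun hJ =>
      lh_alg (psi a L) hW hJ qA hqA kA qB hqB kB hd4
    constructor
    · rintro ⟨hT, hta⟩
      rw [hTX, hTL] at hT
      have hJW := lh_rank hJWsat inf_le_left hT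
      exact (hkey (inf_eq_left.1 hJW)).1 hta
    · intro hann
      have hJ : LinearMap.ker (psi a L) ≤ W := by
        intro x hx
        have hfreeW : Module.Free ℤ (Fq L ⧸ W) := lh_free W hW
        obtain ⟨w, hw⟩ := lh_dvd 0 (W.mkQ x) (by
          intro l
          have h1 : l ∘ₗ W.mkQ ∈ W.dualAnnihilator := by
            rw [Submodule.mem_dualAnnihilator]
            intro w hw
            rw [LinearMap.comp_apply, Submodule.mkQ_apply, (Submodule.Quotient.mk_eq_zero W).2 hw,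
              map_zero]
          obtain ⟨μ, hμ⟩ := hann h1
          have h2 : l (W.mkQ x) = μ (psi a L x) := (LinearMap.congr_fun hμ x).symm
          rw [h2, LinearMap.mem_ker.1 hx, map_zero])
        rw [zero_smul, Submodule.mkQ_apply, Submodule.Quotient.mk_eq_zero] at hw
        exact hw
      refine ⟨?_, (hkey hJ).2 hann⟩
      rw [hTX, hTL, inf_eq_left.2 hJ]
  · intro a ha1 hN ha
    obtain ⟨h0, hfree, htors⟩ := lh_one hLF hLT hL ha
    obtain ⟨hc1, hc2, hc3, hc4⟩ := hF2 (a + 1)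
    obtain ⟨hd1, hd2, hd3, hd4⟩ := hF2 a
    obtain ⟨-, -, -, hlwtop, -, -⟩ := hLW n L hL
    obtain ⟨qA, hqA, hqA', kA⟩ := (hLR n L hL).2.1 a
    have hTL := lh_T0eq L hL.sub a ⊤ h0
    rw [hlwtop, inf_top_eq] at hTL
    have hsurj : ∀ φ : Module.Dual ℤ (Fq L), ∃ μ : Module.Dual ℤ (Cq (a + 1) L),
        ∀ x, φ x = μ (psi a L x) := by
      intro φ
      have h1 : φ ∈ N0 a L := by rw [hN]; trivial
      obtain ⟨μ, hμ⟩ := h1
      exact ⟨μ, fun x => (LinearMap.congr_fun hμ x).symm⟩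
    have hker : LinearMap.ker (psi a L) = ⊥ := by
      rw [eq_bot_iff]
      intro x hx
      obtain ⟨w, hw⟩ := lh_dvd 0 x (by
        intro l
        obtain ⟨μ, hμ⟩ := hsurj l
        rw [hμ, LinearMap.mem_ker.1 hx, map_zero])
      rw [zero_smul] at hw
      rw [hw]
      exact Submodule.zero_mem _
    rw [hLT n L hL a ha1]
    refine ⟨?_, ?_⟩
    · rw [hTL, hker]
      exact finrank_bot ℤ _
    · have htriv : ∀ c ∈ Submodule.torsion ℤ (Cq a L), c = 0 := by
        intro c hc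
        obtain ⟨z, rfl⟩ := hqA c
        rw [lh_tors] at hc
        obtain ⟨k, hk, hkc⟩ := hc
        have h1 : k • z ∈ LinearMap.range (psi a L) := by
          rw [← kA, LinearMap.mem_ker, map_smul, hkc]
        obtain ⟨x, hx⟩ := h1
        obtain ⟨w, hw⟩ := lh_dvd k x (by
          intro l
          obtain ⟨μ, hμ⟩ := hsurj l
          rw [hμ, hx, map_smul, smul_eq_mul]
          exact dvd_mul_right _ _)
        have h2 : k • (z - psi a L w) = 0 := by
          rw [smul_sub, ← hx, hw, map_smul, sub_self]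
        have h3 := htors _ k hk h2
        have h4 : z ∈ LinearMap.ker qA := by
          rw [kA]
          exact ⟨w, (sub_eq_zero.1 h3).symm⟩
        exact h4
      show Nat.card ↥(Submodule.torsion ℤ (Cq a L)) = 1
      rw [Nat.card_eq_one_iff_unique]
      refine ⟨⟨?_⟩, ⟨0⟩⟩
      rintro ⟨c, hc⟩ ⟨c', hc'⟩
      apply Subtype.ext
      show c = c'
      rw [htriv c hc, htriv c' hc']
  · intro j l
    obtain ⟨m, hm⟩ := (hLR n L hL).2.2.1 j
    refine ⟨l ∘ₗ (Submodule.mkQ (Submodule.torsion ℤ (Cq (j + 1) L))) ∘ₗ m, ?_⟩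
    refine LinearMap.ext fun x => ?_
    have h1 : m (psi (j + 1) L x) = psi j L x := LinearMap.congr_fun hm x
    show l (Submodule.mkQ _ (m (psi (j + 1) L x))) = l (Submodule.mkQ _ (psi j L x))
    rw [h1]

end Pool.Agent.SLR
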