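import Pool.Agent.SLR.StL
import Pool.Agent.SLR.StK

/-!
# SLR, part L: the descending link (helper63)
-/

set_option autoImplicit false
set_option linter.unusedVariables false

noncomputable section

namespace Pool.Agent.SLR

open Pool.Agent.SLZ

/-- the map from the link to the lattices -/
def LL_g {n : ℕ} (L : Submodule ℤ (E n)) :
    Submodule ℤ (Fq L) ⊕ Submodule ℤ (Fq L) → Submodule ℤ (E n)
  | .inl W => tw 1 (lw L W)
  | .inr W => lw L W

theorem thm_LL (hLA : St_LA) (hLF : St_LF) (hLW : St_LW) (hLD : St_LD) (hLM : St_LM) (hKA : St_KA)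
    (hMA : St_MA) (hMB : St_MB) (hMC : St_MC) : St_LL := by
  intro n L c hL hG hS
  obtain ⟨hLat, hPos⟩ := hL
  have hL : L ∈ Lam n := ⟨hLat, hPos⟩
  obtain ⟨a1, a2, a3, -, -, a6, -, -, -, a10, -, -⟩ := hLA n
  obtain ⟨w1, w2, w3, w4, w5, -⟩ := hLW n L hLat
  obtain ⟨-, m2, m3, -⟩ := hLM n L hL hG
  -- twists
  have tt : ∀ M : Submodule ℤ (E n), tw 1 (tw (-1) M) = M := fun M => by
    rw [(a1 M 1 (-1)).1, add_neg_cancel, (a1 M 0 0).2]
  have tt' : ∀ M : Submodule ℤ (E n), tw (-1) (tw 1 M) = M := fun M => by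
    rw [(a1 M (-1) 1).1, neg_add_cancel, (a1 M 0 0).2]
  have tle : ∀ M M' : Submodule ℤ (E n), tw 1 M ≤ tw 1 M' ↔ M ≤ M' := fun M M' => (a2 M M' 1).1
  have tle' : ∀ M M' : Submodule ℤ (E n), tw (-1) M ≤ tw (-1) M' ↔ M ≤ M' :=
    fun M M' => (a2 M M' (-1)).1
  have tinj : ∀ M M' : Submodule ℤ (E n), tw 1 M = tw 1 M' → M = M' := fun M M' h =>
    le_antisymm ((tle _ _).1 h.le) ((tle _ _).1 h.ge)
  have winj : ∀ W W' : Submodule ℤ (Fq L), lw L W = lw L W' → W = W' := fun W W' h =>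
    le_antisymm ((w3 _ _).1 h.le) ((w3 _ _).1 h.ge)
  have up : ∀ W : Submodule ℤ (Fq L), L ≤ tw 1 (lw L W) := fun W => by
    have h1 : lw L ⊥ ≤ lw L W := (w3 _ _).2 bot_le
    rw [w5] at h1
    have h2 := (tle _ _).2 h1
    rwa [tt] at h2
  have dn : ∀ W : Submodule ℤ (Fq L), lw L W ≤ L := fun W => by
    have h1 : lw L W ≤ lw L ⊤ := (w3 _ _).2 le_top
    rwa [w4] at h1
  have lelift : ∀ W W' : Submodule ℤ (Fq L), lw L W ≤ tw 1 (lw L W') := fun W W' =>
    (dn W).trans (up W')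
  -- the top
  have hBtop : ∀ W ∈ Bs (I1 L) (N0 (aL L) L), W ≠ ⊤ := by
    rintro W ⟨-, -, h3⟩ rfl
    exact h3 (by rw [Submodule.dualAnnihilator_top]; exact bot_le)
  have hne : ∀ W W' : Submodule ℤ (Fq L), W' ∈ Bs (I1 L) (N0 (aL L) L) →
      ¬ tw 1 (lw L W) ≤ lw L W' := by
    intro W W' hW' h
    have h1 : lw L W' = L := le_antisymm (dn W') ((up W).trans h)
    exact hBtop W' hW' (winj _ _ (h1.trans w4.symm))
  have hFqF : Module.Finite ℤ (Fq L) := (hLF n L hLat).1.1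
  have hFqR : Module.Free ℤ (Fq L) := (hLF n L hLat).1.2.1
  have hUsat : ∀ W ∈ Us (rhoU (aL L - 1) L), Sat W := by
    rintro W ⟨-, h2⟩
    have hC1 : Module.Finite ℤ (Ct (aL L - 1 + 1) L) := ((hLF n L hLat).2.1 (aL L - 1 + 1)).2.1
    have hC2 : Module.Free ℤ (Ct (aL L - 1 + 1) L) := ((hLF n L hLat).2.1 (aL L - 1 + 1)).2.2.1
    exact (hKA (Fq L) (Ct (aL L - 1 + 1) L) (rhoU (aL L - 1) L)).1 W h2
  set S : Set (Submodule ℤ (Fq L) ⊕ Submodule ℤ (Fq L)) :=
    Sum.inl '' Us (rhoU (aL L - 1) L) ∪ Sum.inr '' Bs (I1 L) (N0 (aL L) L) with hSdef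
  have hinj : Set.InjOn (LL_g L) S := by
    rintro x hx y hy hxy
    rcases hx with ⟨W, hW, rfl⟩ | ⟨W, hW, rfl⟩ <;> rcases hy with ⟨W', hW', rfl⟩ | ⟨W', hW', rfl⟩
    · exact congrArg Sum.inl (winj _ _ (tinj _ _ hxy))
    · exact absurd (le_of_eq (show tw 1 (lw L W) = lw L W' from hxy)) (hne W W' hW')
    · exact absurd (le_of_eq (show tw 1 (lw L W') = lw L W from hxy.symm)) (hne W' W hW)
    · exact congrArg Sum.inr (winj _ _ hxy)
  have hadj : ∀ x ∈ S, ∀ y ∈ S, lkr x y ↔ adj (LL_g L x) (LL_g L y) := by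
    rintro x hx y hy
    rcases hx with ⟨W, hW, rfl⟩ | ⟨W, hW, rfl⟩ <;> rcases hy with ⟨W', hW', rfl⟩ | ⟨W', hW', rfl⟩
    · constructor
      · rintro (h | h)
        · exact Or.inr (Or.inl ⟨(tle _ _).2 ((w3 _ _).2 h), (tle _ _).2 (lelift W' W)⟩)
        · exact Or.inr (Or.inr ⟨(tle _ _).2 ((w3 _ _).2 h), (tle _ _).2 (lelift W W')⟩)
      · rintro (h | h | h)
        · exact Or.inl (le_of_eq (winj _ _ (tinj _ _ h)))
        · exact Or.inl ((w3 _ _).1 ((tle _ _).1 h.1))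
        · exact Or.inr ((w3 _ _).1 ((tle _ _).1 h.1))
    · constructor
      · intro h
        exact Or.inr (Or.inr ⟨lelift W' W, (tle _ _).2 ((w3 _ _).2 h)⟩)
      · rintro (h | h | h)
        · exact absurd (le_of_eq h) (hne W W' hW')
        · exact absurd h.1 (hne W W' hW')
        · exact (w3 _ _).1 ((tle _ _).1 h.2)
    · constructor
      · intro h
        exact Or.inr (Or.inl ⟨lelift W W', (tle _ _).2 ((w3 _ _).2 h)⟩)
      · rintro (h | h | h)
        · exact absurd (le_of_eq h.symm) (hne W' W hW)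
        · exact (w3 _ _).1 ((tle _ _).1 h.2)
        · exact absurd h.1 (hne W' W hW)
    · constructor
      · rintro (h | h)
        · exact Or.inr (Or.inl ⟨(w3 _ _).2 h, lelift W' W⟩)
        · exact Or.inr (Or.inr ⟨(w3 _ _).2 h, lelift W W'⟩)
      · rintro (h | h | h)
        · exact Or.inl (le_of_eq (winj _ _ h))
        · exact Or.inl ((w3 _ _).1 h.1)
        · exact Or.inr ((w3 _ _).1 h.1)
  have himg : LL_g L '' S = dlk adj mu (Good n) (Lam n) L := by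
    ext M
    constructor
    · rintro ⟨x, hx, rfl⟩
      rcases hx with ⟨W, hW, rfl⟩ | ⟨W, hW, rfl⟩
      · obtain ⟨b1, b2, b3⟩ := m2 W (hUsat W hW) hW.1
        refine ⟨b1, ?_, Or.inr (Or.inl ⟨up W, (tle _ _).2 (dn W)⟩), Or.inr (b3.2 hW.2)⟩
        intro h
        have h1 : tw 1 (lw L W) = tw 1 (lw L ⊥) := by
          rw [w5, tt]; exact h
        exact hW.1 (winj _ _ (tinj _ _ h1))
      · have hp : Pos (lw L W) := (hLD n L W hLat hPos hW.1).2 hW.2.1
        have ht := hBtop W hW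
        refine ⟨⟨(w2 W hW.1).1, hp⟩, ?_, Or.inr (Or.inr ⟨dn W, up W⟩),
          (m3 W hW.1 ht hp).2 hW.2.2⟩
        intro h
        have h1 : lw L W = lw L ⊤ := by
          rw [w4]; exact h
        exact ht (winj _ _ h1)
    · rintro ⟨hM, hML, h, hGM⟩
      rcases h with h | ⟨h1, h2⟩ | ⟨h1, h2⟩
      · exact absurd h.symm hML
      · obtain ⟨W, hW, hX⟩ := w1 (tw (-1) M) ((a6 M M hM.1 hM.1).1 (-1)) ((tle' _ _).2 h1)
          (by rw [← tt' L]; exact (tle' _ _).2 h2)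
        have hMe : M = tw 1 (lw L W) := by rw [← hX, tt]
        have hWb : W ≠ ⊥ := by
          rintro rfl
          rw [w5, tt] at hMe
          exact hML hMe
        obtain ⟨b1, b2, b3⟩ := m2 W hW hWb
        subst hMe
        exact ⟨Sum.inl W, Or.inl ⟨W, ⟨hWb, b3.1 (hGM.resolve_left b2)⟩, rfl⟩, rfl⟩
      · obtain ⟨W, hW, hX⟩ := w1 M hM.1 (by rw [← tt' M]; exact (tle' _ _).2 h2) h1
        subst hX
        have hWt : W ≠ ⊤ := by
          rintro rfl
          exact hML w4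
        exact ⟨Sum.inr W, Or.inr ⟨W, ⟨hW, (hLD n L W hLat hPos hW).1 hM.2,
          (m3 W hW hWt hM.2).1 hGM⟩, rfl⟩, rfl⟩
  have hlr : ∀ x : Submodule ℤ (Fq L) ⊕ Submodule ℤ (Fq L), lkr x x := by
    rintro (x | x) <;> exact Or.inl le_rfl
  have hls : ∀ x y : Submodule ℤ (Fq L) ⊕ Submodule ℤ (Fq L), lkr x y → lkr y x := by
    rintro (x | x) (y | y) h
    · exact Or.symm h
    · exact h
    · exact h
    · exact Or.symm h
  have har : ∀ x : Submodule ℤ (E n), adj x x := fun x => Or.inl rfl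
  have has : ∀ x y : Submodule ℤ (E n), adj x y → adj y x := by
    rintro x y (h | h | h)
    · exact Or.inl h.symm
    · exact Or.inr (Or.inr h)
    · exact Or.inr (Or.inl h)
  have key := (hMC hMA hMB (Submodule ℤ (Fq L) ⊕ Submodule ℤ (Fq L)) lkr hlr hls S ∅ c).2.2.2.2.2.1
    (Submodule ℤ (E n)) adj (LL_g L) har has hinj hadj
  rw [← himg]
  exact key.1 hS

end Pool.Agent.SLR
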