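import Pool.Agent.SLR.StL

/-!
# SLR, module LM: the Morse function (helper33)
-/

set_option autoImplicit false
set_option linter.unusedVariables false

noncomputable section

namespace Pool.Agent.SLR

open Pool.Agent.SLZ

lemma lm_lt_iff {n : ℕ} (X Y : Submodule ℤ (E n)) : mu X < mu Y ↔
    aL X < aL Y ∨ (aL X = aL Y ∧ (T0 (aL X) X < T0 (aL Y) Y ∨ (T0 (aL X) X = T0 (aL Y) Y ∧
      (ta (aL X) X < ta (aL Y) Y ∨ (ta (aL X) X = ta (aL Y) Y ∧
        n * aL X - dg X < n * aL Y - dg Y))))) := by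
  unfold mu
  rw [Prod.Lex.toLex_lt_toLex, Prod.Lex.toLex_lt_toLex, Prod.Lex.toLex_lt_toLex]

lemma lm_eq {n : ℕ} {X Y : Submodule ℤ (E n)} (h : mu X = mu Y) :
    aL X = aL Y ∧ n * aL X - dg X = n * aL Y - dg Y := by
  have h1 : ∀ {a b : ℕ ×ₗ (ℕ ×ₗ (ℕ ×ₗ ℕ))}, a = b → (ofLex a).1 = (ofLex b).1 := fun h => by rw [h]
  have h2 : ∀ {a b : ℕ ×ₗ (ℕ ×ₗ (ℕ ×ₗ ℕ))}, a = b →
      (ofLex (ofLex (ofLex a).2).2).2 = (ofLex (ofLex (ofLex b).2).2).2 := fun h => by rw [h]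
  exact ⟨h1 h, h2 h⟩

/-- **LM** -/
theorem thm_LM (hLA : St_LA) (hLW : St_LW) (hLC : St_LC) (hLT : St_LT) (hLN : St_LN)
    (hLG : St_LG) (hLH : St_LH) : St_LM := by
  intro n L hL hLg
  obtain ⟨A1, A2, A3, A4, A5, A6, A7, A8, A9, A10, A11, A12⟩ := hLA n
  obtain ⟨hLat, hPos⟩ := hL
  -- the invariant `aL`
  have aLe : ∀ (X : Submodule ℤ (E n)), IsLat X → ∀ a : ℕ, LeA a X ↔ aL X ≤ a := by
    intro X hX a
    constructor
    · intro h
      exact Nat.sInf_le h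
    · intro h
      have h1 : LeA (aL X) X := Nat.sInf_mem (A7 X hX)
      exact A8 X X (aL X) a hX le_rfl h h1
  have aMono : ∀ X Y : Submodule ℤ (E n), IsLat X → IsLat Y → X ≤ Y → aL X ≤ aL Y := by
    intro X Y hX hY h
    rw [← aLe X hX]
    exact A8 X Y (aL Y) (aL Y) hY h le_rfl ((aLe Y hY (aL Y)).2 le_rfl)
  have hN : ∀ X : Submodule ℤ (E n), IsLat X → Pos X → dg X ≤ n * aL X := fun X hX hP =>
    (hLN n (aL X) X hX hP ((aLe X hX (aL X)).2 le_rfl)).1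
  have hnot1 : ¬ LeA 1 L := fun h => hLg ⟨hLat, hPos, h⟩
  have ha2 : 2 ≤ aL L := by
    by_contra h
    exact hnot1 ((aLe L hLat 1).2 (by omega))
  have haL : LeA (aL L) L := (aLe L hLat (aL L)).2 le_rfl
  have haL' : ¬ LeA (aL L - 1) L := by
    rw [aLe L hLat]
    omega
  obtain ⟨G1, G2⟩ := hLG n L hLat
  obtain ⟨W1, W2, W3, W4, W5, _⟩ := hLW n L hLat
  refine ⟨⟨ha2, haL, haL'⟩, ?_, ?_, ?_⟩
  · intro W hW hW0
    obtain ⟨w1, w2, w3⟩ := W2 W hW
    have hX : IsLat (tw 1 (lw L W)) := (A6 _ _ w1 w1).1 1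
    have hLX : L ≤ tw 1 (lw L W) := by
      have h1 := (A2 (tw (-1) L) (lw L W) 1).1.2 w2
      rw [(A1 L 1 (-1)).1, show (1 : ℤ) + -1 = 0 by norm_num, (A1 L 0 0).2] at h1
      exact h1
    have hXp : Pos (tw 1 (lw L W)) := A10 _ _ hLX hPos
    have hne : L ≠ tw 1 (lw L W) := by
      intro h
      apply hW0
      have h1 : tw (-1) L = lw L W := by
        conv_lhs => rw [h]
        rw [(A1 (lw L W) (-1) 1).1, show (-1 : ℤ) + 1 = 0 by norm_num, (A1 (lw L W) 0 0).2]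
      rw [← W5] at h1
      exact le_bot_iff.1 ((W3 W ⊥).1 h1.ge)
    have hdg : dg L < dg (tw 1 (lw L W)) := (hLC n L _ hLat hX hPos hLX).2 hne
    have hXN := hN _ hX hXp
    have ham := aMono L _ hLat hX hLX
    have hXg : tw 1 (lw L W) ∉ Good n := fun h => hnot1 (A8 L _ 1 1 hX hLX le_rfl h.2.2)
    refine ⟨⟨hX, hXp⟩, hXg, ?_⟩
    obtain ⟨g1, g2⟩ := G2 (aL L - 1) W hW
    generalize SpI (rhoU (aL L - 1) L) W = Q at g1 g2 ⊢
    rw [show aL L - 1 + 1 = aL L by omega] at g1 g2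
    obtain ⟨t1, t2⟩ := G1 (aL L) _ hX hLX
    rw [← g1, lm_lt_iff]
    constructor
    · rintro (h | ⟨h1, h | ⟨h2, h | ⟨h3, h4⟩⟩⟩)
      · omega
      · rw [h1] at h
        omega
      · rw [h1] at h h2
        have := t2 h2.symm
        omega
      · rw [h1] at h2 h3
        exact ⟨h2, h3⟩
    · rintro ⟨h1, h2⟩
      have h3 := g2 (g1.1 ⟨h1, h2⟩) haL
      rw [aLe _ hX] at h3
      have h4 : aL (tw 1 (lw L W)) = aL L := le_antisymm h3 ham
      refine Or.inr ⟨h4, Or.inr ⟨by rw [h4, h1], Or.inr ⟨by rw [h4, h2], ?_⟩⟩⟩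
      rw [h4] at hXN ⊢
      omega
  · intro W hW hW1 hXp
    obtain ⟨w1, w2, w3⟩ := W2 W hW
    have hne : lw L W ≠ L := by
      intro h
      apply hW1
      have h1 : lw L ⊤ ≤ lw L W := by rw [W4, h]
      exact top_le_iff.1 ((W3 ⊤ W).1 h1)
    have hdg : dg (lw L W) < dg L := (hLC n _ L w1 hLat hXp w3).2 hne
    have ham := aMono _ L w1 hLat w3
    have hLN' := hN L hLat hPos
    rw [← (hLH n L hLat).1 (aL L) W hW haL]
    obtain ⟨t1, t2⟩ := (hLG n _ w1).1 (aL L) L hLat w3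
    constructor
    · rintro h ⟨h1, h2⟩
      have h3 : ¬ LeA (aL L - 1) (lw L W) := by
        rw [hLT n _ w1 (aL L) (by omega), h1, h2, ← hLT n _ hLat (aL L) (by omega)]
        exact haL'
      have h4 : aL (lw L W) = aL L := by
        rw [aLe _ w1] at h3
        omega
      rcases h with h | h
      · exact h3 ((aLe _ w1 _).2 (((aLe _ w1 1).1 h.2.2).trans (by omega)))
      · rw [lm_lt_iff, h4] at h
        rcases h with h | ⟨_, h | ⟨_, h | ⟨_, h⟩⟩⟩
        · omega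
        · omega
        · omega
        · omega
    · intro h
      right
      rw [lm_lt_iff]
      rcases lt_or_eq_of_le ham with h1 | h1
      · exact Or.inl h1
      · refine Or.inr ⟨h1, ?_⟩
        rw [h1]
        rcases lt_or_eq_of_le t1 with h2 | h2
        · exact Or.inl h2
        · refine Or.inr ⟨h2, Or.inl ?_⟩
          rcases lt_or_eq_of_le (t2 h2) with h3 | h3
          · exact h3
          · exact absurd ⟨h2, h3⟩ h
  · intro L' hL' hL'g hne hadj hmu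
    obtain ⟨e1, e2⟩ := lm_eq hmu
    have n1 := hN L hLat hPos
    have n2 := hN L' hL'.1 hL'.2
    rw [← e1] at n2 e2
    rcases hadj with h | ⟨h, _⟩ | ⟨h, _⟩
    · exact hne h
    · have := (hLC n L L' hLat hL'.1 hPos h).2 hne
      omega
    · have := (hLC n L' L hL'.1 hLat hL'.2 h).2 hne.symm
      omega

end Pool.Agent.SLR
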