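import Pool.Agent.SLR.StL

/-!
# SLR, LN: numbers (helper24)
-/

set_option autoImplicit false
set_option linter.unusedVariables false

noncomputable section

namespace Pool.Agent.SLR

open Pool.Agent.SLZ

/-- bound by the first difference -/
theorem LN_first (d : ℕ → ℕ) (X : ℕ) (hc : ∀ j, 1 ≤ j → 2 * d (j + 1) ≤ d j + d (j + 2))
    (h1 : d 1 ≤ d 2 + X) (m : ℕ) : d 1 ≤ d (m + 1) + m * X := by
  have hB : ∀ m, d (m + 1) ≤ d (m + 2) + X := by
    intro m
    induction m with
    | zero => exact h1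
    | succ m ih =>
      have h2 : 2 * d (m + 2) ≤ d (m + 1) + d (m + 3) := hc (m + 1) (by omega)
      have h3 : d (m + 1) ≤ d (m + 2) + X := ih
      change d (m + 2) ≤ d (m + 3) + X
      omega
  induction m with
  | zero => simp
  | succ m ih =>
    have h2 := hB m
    change d 1 ≤ d (m + 2) + (m + 1) * X
    rw [add_mul, one_mul]
    omega

/-- convex sequences which vanish at the beginning -/
theorem LN_conv (e : ℕ → ℤ) (a : ℕ) (h0 : e 0 = 0)
    (hc : ∀ i, i + 2 ≤ a → 2 * e (i + 1) ≤ e i + e (i + 2)) (ha : 2 ≤ a) :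
    (a : ℤ) * e 2 ≤ 2 * e a := by
  have h1 : ∀ i, i + 1 ≤ a → ((i : ℤ) + 1) * e i ≤ i * e (i + 1) := by
    intro i
    induction i with
    | zero =>
      intro _
      simp [h0]
    | succ i ih =>
      intro hi
      have h2 := ih (by omega)
      have h3 := hc i (by omega)
      have h4 : ((i : ℤ) + 1) * (2 * e (i + 1)) ≤ ((i : ℤ) + 1) * (e i + e (i + 2)) :=
        mul_le_mul_of_nonneg_left h3 (by positivity)
      push_cast
      nlinarith
  obtain ⟨k, rfl⟩ : ∃ k, a = k + 2 := ⟨a - 2, by omega⟩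
  have h2 : ∀ i, i ≤ k → ((i : ℤ) + 2) * e 2 ≤ 2 * e (i + 2) := by
    intro i
    induction i with
    | zero =>
      intro _
      simp
    | succ i ih =>
      intro hi
      have h3 := ih (by omega)
      have h4 := h1 (i + 2) (by omega)
      push_cast at h4 ⊢
      have h5 : ((i : ℤ) + 2) * (((i : ℤ) + 1 + 2) * e 2) ≤ ((i : ℤ) + 2) * (2 * e (i + 1 + 2)) := by
        have h6 : ((i : ℤ) + 3) * (((i : ℤ) + 2) * e 2) ≤ ((i : ℤ) + 3) * (2 * e (i + 2)) :=
          mul_le_mul_of_nonneg_left h3 (by positivity)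
        have h7 : e (i + 1 + 2) = e (i + 2 + 1) := by congr 1
        rw [h7]
        nlinarith
      exact le_of_mul_le_mul_left h5 (by positivity)
  have h3 := h2 k le_rfl
  push_cast
  exact h3

theorem thm_LN (hLE : St_LE) : St_LN := by
  intro n a L hL hP ha
  refine ⟨?_, ?_⟩
  · obtain ⟨d, h1, h2, -, h4, -, h6, -⟩ := hLE n L hL hP 2 Nat.prime_two
    have h7 := LN_first d n h4 h6 a
    rw [h2 a ha, h1, zero_add, mul_comm] at h7
    exact h7
  · intro ha2 p q hp hq
    obtain ⟨d, h1, h2, -, h4, h5, -, -⟩ := hLE n L hL hP q hq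
    have h7 := LN_first d _ h4 h5 a
    rw [h2 a ha, h1, zero_add] at h7
    obtain ⟨e, g1, g2, -, g4, -, -, g7⟩ := hLE n L hL hP p hp
    have g8 := g7 (a - 1) (by omega)
    have g9 := LN_conv (fun i => (e (a + 1 - i) : ℤ)) a (by simp [g2 a ha]) (by
      intro i hi
      have h := g4 (a + 1 - (i + 2)) (by omega)
      have e1 : a + 1 - (i + 2) + 1 = a + 1 - (i + 1) := by omega
      have e2 : a + 1 - (i + 2) + 2 = a + 1 - i := by omega
      rw [e1, e2] at h
      have h' : 2 * e (a + 1 - (i + 1)) ≤ e (a + 1 - i) + e (a + 1 - (i + 2)) := by omega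
      change (2 : ℤ) * (e (a + 1 - (i + 1)) : ℤ) ≤ (e (a + 1 - i) : ℤ) + (e (a + 1 - (i + 2)) : ℤ)
      exact_mod_cast h') ha2
    have e3 : a + 1 - 2 = a - 1 := by omega
    have e4 : a + 1 - a = 1 := by omega
    simp only [e3, e4] at g9
    rw [g1] at g9
    have g10 : a * e (a - 1) ≤ 2 * dg L := by exact_mod_cast g9
    have g11 : a * n ≤ a * (rkp p (rhoU (a - 1) L) + 2 * rkp q (I1 L).subtype) := by
      have g12 : a * n ≤ a * (rkp p (rhoU (a - 1) L) + e (a - 1)) := Nat.mul_le_mul_left a g8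
      rw [mul_add] at g12 ⊢
      have g13 : a * (2 * rkp q (I1 L).subtype) = 2 * (a * rkp q (I1 L).subtype) := by ring
      omega
    exact Nat.le_of_mul_le_mul_left g11 (by omega)

end Pool.Agent.SLR
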