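import Pool.Agent.SLR.StL

/-!
# SLR LR: the rank of `C_(j+1)` and exact sequences
-/

set_option autoImplicit false
set_option linter.unusedVariables false

noncomputable section

namespace Pool.Agent.SLR

open Pool.Agent.SLZ

variable {n : ℕ}

theorem LR_TT (j k : ℤ) (x : E n) : (LaurentPolynomial.T j : LaurentPolynomial ℤ) •
    ((LaurentPolynomial.T k : LaurentPolynomial ℤ) • x) =
      (LaurentPolynomial.T (j + k) : LaurentPolynomial ℤ) • x := by
  rw [← mul_smul, ← LaurentPolynomial.T_add]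

theorem LR_T0 (x : E n) : (LaurentPolynomial.T 0 : LaurentPolynomial ℤ) • x = x := by
  rw [LaurentPolynomial.T_zero, one_smul]

theorem LR_mem (k : ℤ) (L : Submodule ℤ (E n)) (x : E n) :
    x ∈ tw k L ↔ (LaurentPolynomial.T (-k) : LaurentPolynomial ℤ) • x ∈ L := Iff.rfl

theorem LR_memn (k : ℤ) (L : Submodule ℤ (E n)) (x : E n) :
    x ∈ tw (-k) L ↔ (LaurentPolynomial.T k : LaurentPolynomial ℤ) • x ∈ L := by
  rw [LR_mem, neg_neg]

theorem LR_psi (j : ℕ) (L : Submodule ℤ (E n)) (y : ↥L) :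
    psi j L (Submodule.Quotient.mk y) =
      Submodule.Quotient.mk ((LaurentPolynomial.T (-(j : ℤ)) : LaurentPolynomial ℤ) • (y : E n)) :=
  rfl

/-- multiplication by `t ^ j` from `V ∩ s ^ j L` to `L / s L` -/
def LR_phi (j : ℕ) (L : Submodule ℤ (E n)) : ↥(V n ⊓ tw (-(j : ℤ)) L) →ₗ[ℤ] Fq L :=
  (Submodule.mkQ ((tw (-1) L).submoduleOf L)) ∘ₗ
    (LinearMap.codRestrict L ((sh n (j : ℤ)).toLinearMap ∘ₗ (V n ⊓ tw (-(j : ℤ)) L).subtype)
      (fun x => (LR_memn (j : ℤ) L x).1 x.2.2))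

theorem LR_phi_apply (j : ℕ) (L : Submodule ℤ (E n)) (x : ↥(V n ⊓ tw (-(j : ℤ)) L)) :
    LR_phi j L x = Submodule.Quotient.mk ⟨(LaurentPolynomial.T (j : ℤ) : LaurentPolynomial ℤ) •
      (x : E n), (LR_memn (j : ℤ) L x).1 x.2.2⟩ := rfl

theorem LR_mk_eq (L : Submodule ℤ (E n)) (y y' : ↥L)
    (h : (y : E n) - (y' : E n) ∈ tw (-1) L) :
    (Submodule.Quotient.mk y : Fq L) = Submodule.Quotient.mk y' := by
  rw [Submodule.Quotient.eq]
  exact h

/-- the kernel of `psi` -/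
theorem LR_ker (j : ℕ) (L : Submodule ℤ (E n)) (hL : IsLat L) (y : ↥L) :
    psi j L (Submodule.Quotient.mk y) = 0 ↔ ∃ (v : E n) (hv : v ∈ V n)
      (hv' : (LaurentPolynomial.T (j : ℤ) : LaurentPolynomial ℤ) • v ∈ L),
      (Submodule.Quotient.mk y : Fq L) = Submodule.Quotient.mk ⟨_, hv'⟩ := by
  rw [LR_psi, Submodule.Quotient.mk_eq_zero]
  constructor
  · intro h
    obtain ⟨v, hv, w, hw, hvw⟩ := Submodule.mem_sup.1 h
    rw [LR_memn] at hw
    have h1 : (y : E n) = (LaurentPolynomial.T (j : ℤ) : LaurentPolynomial ℤ) • v +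
        (LaurentPolynomial.T (j : ℤ) : LaurentPolynomial ℤ) • w := by
      rw [← smul_add, hvw, LR_TT, add_neg_cancel, LR_T0]
    have h2 : (LaurentPolynomial.T (j : ℤ) : LaurentPolynomial ℤ) • w ∈ tw (-1) L := by
      rw [LR_memn, LR_TT]
      have h3 : (1 : ℤ) + (j : ℤ) = ((j + 1 : ℕ) : ℤ) := by push_cast; ring
      rw [h3]
      exact hw
    have h3 : (LaurentPolynomial.T (j : ℤ) : LaurentPolynomial ℤ) • v =
        (y : E n) - (LaurentPolynomial.T (j : ℤ) : LaurentPolynomial ℤ) • w := by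
      rw [h1, add_sub_cancel_right]
    have h4 : (LaurentPolynomial.T (j : ℤ) : LaurentPolynomial ℤ) • v ∈ L := by
      rw [h3]
      exact L.sub_mem y.2 (hL.sub h2)
    refine ⟨v, hv, h4, LR_mk_eq L _ _ ?_⟩
    change (y : E n) - (LaurentPolynomial.T (j : ℤ) : LaurentPolynomial ℤ) • v ∈ tw (-1) L
    rw [h3, sub_sub_cancel]
    exact h2
  · rintro ⟨v, hv, hv', h⟩
    have h1 : (y : E n) - (LaurentPolynomial.T (j : ℤ) : LaurentPolynomial ℤ) • v ∈
        tw (-1) L := by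
      rw [Submodule.Quotient.eq] at h
      exact h
    refine Submodule.mem_sup.2 ⟨v, hv, (LaurentPolynomial.T (-(j : ℤ)) : LaurentPolynomial ℤ) •
      ((y : E n) - (LaurentPolynomial.T (j : ℤ) : LaurentPolynomial ℤ) • v), ?_, ?_⟩
    · rw [LR_memn, LR_TT]
      rw [LR_memn] at h1
      have h3 : ((j + 1 : ℕ) : ℤ) + -(j : ℤ) = 1 := by push_cast; ring
      rw [h3]
      exact h1
    · rw [smul_sub, LR_TT, neg_add_cancel, LR_T0]
      abel

theorem LR_range_phi (j : ℕ) (L : Submodule ℤ (E n)) (hL : IsLat L) :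
    LinearMap.range (LR_phi j L) = LinearMap.ker (psi j L) := by
  ext z
  obtain ⟨y, rfl⟩ := Submodule.Quotient.mk_surjective _ z
  rw [LinearMap.mem_ker, LR_ker j L hL, LinearMap.mem_range]
  constructor
  · rintro ⟨⟨x, hx1, hx2⟩, hx⟩
    exact ⟨x, hx1, (LR_memn (j : ℤ) L x).1 hx2, hx.symm⟩
  · rintro ⟨v, hv, hv', h⟩
    exact ⟨⟨v, hv, (LR_memn (j : ℤ) L v).2 hv'⟩, h.symm⟩

theorem LR_le (hLA : St_LA) (L : Submodule ℤ (E n)) (hL : IsLat L) (j : ℕ) :
    tw (-((j + 1 : ℕ) : ℤ)) L ≤ tw (-(j : ℤ)) L :=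
  (hLA n).2.2.1 L hL _ _ (by push_cast; linarith)

theorem LR_ker_phi (hLA : St_LA) (j : ℕ) (L : Submodule ℤ (E n)) (hL : IsLat L) :
    LinearMap.ker (LR_phi j L) =
      (V n ⊓ tw (-((j + 1 : ℕ) : ℤ)) L).submoduleOf (V n ⊓ tw (-(j : ℤ)) L) := by
  ext x
  rw [LinearMap.mem_ker, LR_phi_apply, Submodule.Quotient.mk_eq_zero]
  change (LaurentPolynomial.T (j : ℤ) : LaurentPolynomial ℤ) • (x : E n) ∈ tw (-1) L ↔
    (x : E n) ∈ V n ⊓ tw (-((j + 1 : ℕ) : ℤ)) L
  rw [LR_memn, LR_TT, Submodule.mem_inf, LR_memn]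
  have h3 : (1 : ℤ) + (j : ℤ) = ((j + 1 : ℕ) : ℤ) := by push_cast; ring
  rw [h3]
  exact ⟨fun h => ⟨x.2.1, h⟩, fun h => h.2⟩

theorem LR_rn {M M' : Type} [AddCommGroup M] [AddCommGroup M'] [Module.Finite ℤ M]
    (f : M →ₗ[ℤ] M') : Module.finrank ℤ (LinearMap.range f) + Module.finrank ℤ (LinearMap.ker f) =
      Module.finrank ℤ M := by
  rw [← (LinearMap.ker f).finrank_quotient_add_finrank, f.quotKerEquivRange.finrank_eq]

/-- the quotient map -/
theorem LR_q (hLA : St_LA) (j : ℕ) (L : Submodule ℤ (E n)) (hL : IsLat L) :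
    ∃ q : Cq (j + 1) L →ₗ[ℤ] Cq j L, Function.Surjective q ∧
    (∀ x : E n, q (Submodule.Quotient.mk x) = Submodule.Quotient.mk x) ∧
    LinearMap.ker q = LinearMap.range (psi j L) := by
  have hle : V n ⊔ tw (-((j + 1 : ℕ) : ℤ)) L ≤ V n ⊔ tw (-(j : ℤ)) L :=
    sup_le_sup_left (LR_le hLA L hL j) _
  refine ⟨Submodule.mapQ _ _ LinearMap.id hle, ?_, fun x => rfl, ?_⟩
  · intro z
    obtain ⟨x, rfl⟩ := Submodule.Quotient.mk_surjective _ z
    exact ⟨Submodule.Quotient.mk x, rfl⟩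
  · ext z
    obtain ⟨x, rfl⟩ := Submodule.Quotient.mk_surjective _ z
    rw [LinearMap.mem_ker, Submodule.mapQ_apply, LinearMap.id_apply,
      Submodule.Quotient.mk_eq_zero, LinearMap.mem_range]
    constructor
    · intro h
      obtain ⟨v, hv, w, hw, hvw⟩ := Submodule.mem_sup.1 h
      rw [LR_memn] at hw
      refine ⟨Submodule.Quotient.mk ⟨_, hw⟩, ?_⟩
      rw [LR_psi]
      change Submodule.Quotient.mk ((LaurentPolynomial.T (-(j : ℤ)) : LaurentPolynomial ℤ) •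
        ((LaurentPolynomial.T (j : ℤ) : LaurentPolynomial ℤ) • w)) = _
      rw [LR_TT, neg_add_cancel, LR_T0, Submodule.Quotient.eq, ← hvw]
      have : w - (v + w) = -v := by abel
      rw [this]
      exact Submodule.mem_sup_left ((V n).neg_mem hv)
    · rintro ⟨z, hz⟩
      obtain ⟨y, rfl⟩ := Submodule.Quotient.mk_surjective _ z
      rw [LR_psi, Submodule.Quotient.eq] at hz
      have h1 := hle hz
      have h2 : (LaurentPolynomial.T (-(j : ℤ)) : LaurentPolynomial ℤ) • (y : E n) ∈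
          V n ⊔ tw (-(j : ℤ)) L := by
        refine Submodule.mem_sup_right ?_
        rw [LR_memn, LR_TT, add_neg_cancel, LR_T0]
        exact y.2
      have h3 := Submodule.sub_mem _ h2 h1
      rwa [sub_sub_cancel] at h3

/-- multiplication by `t` -/
theorem LR_m (hLA : St_LA) (j : ℕ) (L : Submodule ℤ (E n)) :
    ∃ m : Cq (j + 2) L →ₗ[ℤ] Cq (j + 1) L, m ∘ₗ psi (j + 1) L = psi j L := by
  have hle : V n ⊔ tw (-((j + 2 : ℕ) : ℤ)) L ≤
      (V n ⊔ tw (-((j + 1 : ℕ) : ℤ)) L).comap (sh n 1).toLinearMap := by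
    refine sup_le (fun v hv => ?_) (fun w hw => ?_)
    · refine Submodule.mem_sup_left ?_
      have h1 : (LaurentPolynomial.T 1 : LaurentPolynomial ℤ) • v ∈ tw 1 (V n) := by
        rw [LR_mem, LR_TT, neg_add_cancel, LR_T0]
        exact hv
      have h2 := (hLA n).2.2.2.1 0 1 (by norm_num) h1
      rwa [((hLA n).1 (V n) 0 0).2] at h2
    · refine Submodule.mem_sup_right ?_
      rw [LR_memn] at hw
      change (LaurentPolynomial.T 1 : LaurentPolynomial ℤ) • w ∈ tw (-((j + 1 : ℕ) : ℤ)) L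
      rw [LR_memn, LR_TT]
      have h3 : ((j + 1 : ℕ) : ℤ) + 1 = ((j + 2 : ℕ) : ℤ) := by push_cast; ring
      rw [h3]
      exact hw
  refine ⟨Submodule.mapQ _ _ (sh n 1).toLinearMap hle, ?_⟩
  ext y
  change Submodule.Quotient.mk ((LaurentPolynomial.T 1 : LaurentPolynomial ℤ) •
    ((LaurentPolynomial.T (-((j + 1 : ℕ) : ℤ)) : LaurentPolynomial ℤ) • (y : E n))) =
      Submodule.Quotient.mk ((LaurentPolynomial.T (-(j : ℤ)) : LaurentPolynomial ℤ) • (y : E n))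
  rw [LR_TT]
  have h3 : (1 : ℤ) + -((j + 1 : ℕ) : ℤ) = -(j : ℤ) := by push_cast; ring
  rw [h3]

theorem LR_I1 (L : Submodule ℤ (E n)) (hL : IsLat L) : LinearMap.ker (psi 1 L) = I1 L := by
  ext z
  obtain ⟨y, rfl⟩ := Submodule.Quotient.mk_surjective _ z
  rw [LinearMap.mem_ker, LR_ker 1 L hL]
  constructor
  · rintro ⟨v, hv, hv', h⟩
    rw [h]
    refine ⟨⟨_, hv'⟩, ?_, rfl⟩
    change (LaurentPolynomial.T ((1 : ℕ) : ℤ) : LaurentPolynomial ℤ) • v ∈ tw 1 (V n)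
    rw [LR_mem, LR_TT]
    have h3 : (-1 : ℤ) + ((1 : ℕ) : ℤ) = 0 := by norm_num
    rw [h3, LR_T0]
    exact hv
  · rintro ⟨x, hx, hxy⟩
    have hx : (x : E n) ∈ tw 1 (V n) := hx
    rw [LR_mem] at hx
    have h4 : (LaurentPolynomial.T ((1 : ℕ) : ℤ) : LaurentPolynomial ℤ) •
        ((LaurentPolynomial.T (-1) : LaurentPolynomial ℤ) • (x : E n)) = (x : E n) := by
      rw [LR_TT]
      have h3 : ((1 : ℕ) : ℤ) + (-1 : ℤ) = 0 := by norm_num
      rw [h3, LR_T0]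
    refine ⟨_, hx, by rw [h4]; exact x.2, ?_⟩
    rw [← hxy]
    change (Submodule.Quotient.mk x : Fq L) = _
    congr 1
    exact Subtype.ext h4.symm

theorem thm_LR (hLA : St_LA) (hLF : St_LF) : St_LR := by
  intro n L hL
  refine ⟨fun hP => ?_, fun j => LR_q hLA j L hL, fun j => LR_m hLA j L, LR_I1 L hL⟩
  obtain ⟨⟨hF1, hF2, hF3⟩, hC, hV, -⟩ := hLF n L hL
  have hsub : Subsingleton (Cq 1 L) := by
    rw [Submodule.Quotient.subsingleton_iff]
    exact hP
  refine ⟨hsub, fun j => ?_⟩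
  have h1 : ∀ j : ℕ, T0 j L = T0 (j + 1) L + Module.finrank ℤ (LinearMap.ker (psi j L)) := by
    intro j
    have hfin := (hV (-(j : ℤ))).1
    have h2 := LR_rn (LR_phi j L)
    rw [LR_range_phi j L hL, LR_ker_phi hLA j L hL] at h2
    have h3 : Module.finrank ℤ
        ((V n ⊓ tw (-((j + 1 : ℕ) : ℤ)) L).submoduleOf (V n ⊓ tw (-(j : ℤ)) L)) =
        T0 (j + 1) L :=
      (Submodule.submoduleOfEquivOfLe (inf_le_inf_left _ (LR_le hLA L hL j))).finrank_eq
    rw [h3] at h2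
    unfold T0 at h2 ⊢
    omega
  have h2 : ∀ j : ℕ, Module.finrank ℤ (Cq (j + 1) L) + Module.finrank ℤ (LinearMap.ker (psi j L)) =
      Module.finrank ℤ (Cq j L) + n := by
    intro j
    obtain ⟨q, hq1, -, hq3⟩ := LR_q hLA j L hL
    have hfin := (hC (j + 1)).1
    have h3 := LR_rn q
    have h4 := LR_rn (psi j L)
    rw [hF3] at h4
    rw [hq3, LinearMap.range_eq_top.2 hq1, finrank_top] at h3
    omega
  induction j with
  | zero =>
    have h3 : Module.finrank ℤ (Cq (0 + 1) L) = 0 := Module.finrank_zero_of_subsingleton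
    rw [h3]
    unfold dg T0
    simp
  | succ j ih =>
    have h3 := h1 (j + 1)
    have h4 := h2 (j + 1)
    have h5 : (j + 1) * n = j * n + n := by ring
    rw [h5]
    omega

end Pool.Agent.SLR
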