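import Pool.Agent.SLR.StL

/-!
# SLR, LT: torsion and `LeA` (helper30)
-/

set_option autoImplicit false
set_option linter.unusedVariables false

noncomputable section

namespace Pool.Agent.SLR

open Pool.Agent.SLZ

/-- divisibility by all primes gives divisibility by all integers -/
theorem LT_primes {M : Type} [AddCommGroup M] (X : Submodule ℤ M)
    (h : ∀ p : ℕ, p.Prime → ∀ z : M, (p : ℤ) • z ∈ X → z ∈ X) :
    ∀ n : ℕ, n ≠ 0 → ∀ z : M, (n : ℤ) • z ∈ X → z ∈ X := by
  intro n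
  induction n using induction_on_primes with
  | zero => intro h0; exact absurd rfl h0
  | one =>
    intro _ z hz
    simpa using hz
  | prime_mul p a hp ih =>
    intro h0 z hz
    have ha : a ≠ 0 := by
      rintro rfl
      exact h0 (mul_zero p)
    apply ih ha
    apply h p hp
    rw [smul_smul]
    rwa [Nat.cast_mul] at hz

/-- a subgroup of `E n` all of whose elements are twice an element of it is zero -/
theorem LT_two {n : ℕ} (N : Submodule ℤ (E n)) (h : ∀ x ∈ N, ∃ z ∈ N, x = (2 : ℤ) • z) :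
    N = ⊥ := by
  have h1 : ∀ j : ℕ, ∀ x ∈ N, ∃ z ∈ N, x = ((2 : ℤ) ^ j) • z := by
    intro j
    induction j with
    | zero => intro x hx; exact ⟨x, hx, by simp⟩
    | succ j ih =>
      intro x hx
      obtain ⟨z, hz, rfl⟩ := ih x hx
      obtain ⟨z', hz', rfl⟩ := h z hz
      exact ⟨z', hz', by rw [smul_smul, pow_succ]⟩
  rw [eq_bot_iff]
  intro x hx
  rw [Submodule.mem_bot]
  funext i
  ext k
  have h2 : ∀ j : ℕ, (2 : ℤ) ^ j ∣ (x i).coeff k := by
    intro j
    obtain ⟨z, -, hz⟩ := h1 j x hx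
    refine ⟨(z i).coeff k, ?_⟩
    have h3 := congrFun hz i
    rw [h3, Pi.smul_apply, AddMonoidAlgebra.coeff_smul, Finsupp.smul_apply, smul_eq_mul]
  have h4 : (x i).coeff k = 0 := by
    by_contra hne
    obtain ⟨j, hj⟩ : ∃ j : ℕ, ((x i).coeff k).natAbs < 2 ^ j :=
      ⟨_, Nat.lt_two_pow_self⟩
    have h5 := Int.natAbs_dvd_natAbs.2 (h2 j)
    have h6 := Nat.le_of_dvd (Int.natAbs_pos.2 hne) h5
    rw [Int.natAbs_pow] at h6
    have h7 : (2 : ℤ).natAbs = 2 := rfl
    rw [h7] at h6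
    omega
  rw [h4]
  simp

/-- **LT** -/
theorem thm_LT (hLA : St_LA) (hLF : St_LF) : St_LT := by
  intro n L hL a ha
  obtain ⟨-, -, -, -, ⟨hSV, -⟩, hlat, -⟩ := hLA n
  have hM : IsLat (tw (-(a : ℤ)) L) := (hlat L L hL hL).1 _
  have hSM := hM.sat
  have ha1 : ((a - 1 : ℕ) : ℤ) + 1 = (a : ℤ) := by
    rw [Nat.cast_sub ha]
    push_cast
    ring
  have hfin : Module.Finite ℤ ↥(V n ⊓ tw (-(a : ℤ)) L) ∧ Module.Free ℤ ↥(V n ⊓ tw (-(a : ℤ)) L) :=
    (hLF n L hL).2.2.1 _
  have hfin1 := hfin.1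
  have hfin2 := hfin.2
  have htfin : Finite (Submodule.torsion ℤ (Cq a L)) := ((hLF n L hL).2.1 a).2.2.2
  unfold LeA T0 ta
  rw [ha1]
  obtain ⟨M, hMdef⟩ : ∃ M : Submodule ℤ (E n), M = tw (-(a : ℤ)) L := ⟨_, rfl⟩
  have hprime0 : ∀ p : ℕ, p.Prime → (p : ℤ) ≠ 0 := fun p hp => Nat.cast_ne_zero.2 hp.ne_zero
  constructor
  · intro hA
    have hbot : V n ⊓ tw (-(a : ℤ)) L = ⊥ := by
      apply LT_two
      rintro x ⟨hxV, hxM⟩
      obtain ⟨z, hz⟩ := hA 2 Nat.prime_two x hxV x hxM 0 (by simp)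
      refine ⟨z, ⟨?_, ?_⟩, by simpa using hz⟩
      · apply hSV ((2 : ℕ) : ℤ) z (by norm_num)
        rw [← hz]
        exact hxV
      · apply hSM ((2 : ℕ) : ℤ) z (by norm_num)
        rw [← hz]
        exact hxM
    refine ⟨?_, ?_⟩
    · rw [hbot]
      exact finrank_bot ℤ (E n)
    · have hX : ∀ p : ℕ, p.Prime → ∀ z : E n, (p : ℤ) • z ∈ V n ⊔ tw (-(a : ℤ)) L →
          z ∈ V n ⊔ tw (-(a : ℤ)) L := by
        intro p hp z hz
        obtain ⟨v, hv, y, hy, hvy⟩ := Submodule.mem_sup.1 hz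
        obtain ⟨v', hv'⟩ := hA p hp v hv (-y) (Submodule.neg_mem _ hy) z (by rw [← hvy]; abel)
        have hv'V : v' ∈ V n := by
          apply hSV (p : ℤ) v' (hprime0 p hp)
          rw [← hv']
          exact hv
        have hzM : z - v' ∈ tw (-(a : ℤ)) L := by
          apply hSM (p : ℤ) _ (hprime0 p hp)
          rw [smul_sub, ← hvy, ← hv', add_sub_cancel_left]
          exact hy
        have hz' : z = v' + (z - v') := by abel
        rw [hz']
        exact Submodule.add_mem_sup hv'V hzM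
      have hall := LT_primes _ hX
      have htor : Submodule.torsion ℤ (Cq a L) = ⊥ := by
        rw [eq_bot_iff]
        intro q hq
        obtain ⟨k, hk⟩ := (Submodule.mem_torsion_iff q).1 hq
        obtain ⟨z, rfl⟩ := Submodule.Quotient.mk_surjective _ q
        rw [Submodule.mem_bot]
        have hk0 : (k : ℤ) ≠ 0 := nonZeroDivisors.ne_zero k.2
        have hk1 : (k : ℤ) • z ∈ V n ⊔ tw (-(a : ℤ)) L := by
          have h2 : ((k : ℤ) • (Submodule.Quotient.mk z : Cq a L)) = 0 := hk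
          rw [← Submodule.Quotient.mk_smul, Submodule.Quotient.mk_eq_zero] at h2
          exact h2
        rw [Submodule.Quotient.mk_eq_zero]
        apply hall (k : ℤ).natAbs (Int.natAbs_ne_zero.2 hk0)
        rcases Int.natAbs_eq (k : ℤ) with h3 | h3
        · rw [← h3]
          exact hk1
        · have h4 : (((k : ℤ).natAbs : ℕ) : ℤ) = -(k : ℤ) := by omega
          rw [h4, neg_smul]
          exact Submodule.neg_mem _ hk1
      rw [htor]
      exact Nat.card_unique
  · rintro ⟨h0, h1⟩ p hp x hx y hy z hxyz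
    have hbot : V n ⊓ tw (-(a : ℤ)) L = ⊥ := by
      have hsub : Subsingleton ↥(V n ⊓ tw (-(a : ℤ)) L) :=
        Module.finrank_zero_iff.1 h0
      exact Submodule.eq_bot_of_subsingleton
    have htor : Submodule.torsion ℤ (Cq a L) = ⊥ := by
      have hsub : Subsingleton (Submodule.torsion ℤ (Cq a L)) :=
        (Nat.card_eq_one_iff_unique.1 h1).1
      exact Submodule.eq_bot_of_subsingleton
    have hz : z ∈ V n ⊔ tw (-(a : ℤ)) L := by
      have h2 : (Submodule.Quotient.mk z : Cq a L) ∈ Submodule.torsion ℤ (Cq a L) := by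
        rw [Submodule.mem_torsion_iff]
        refine ⟨⟨(p : ℤ), mem_nonZeroDivisors_of_ne_zero (hprime0 p hp)⟩, ?_⟩
        change (p : ℤ) • (Submodule.Quotient.mk z : Cq a L) = 0
        rw [← Submodule.Quotient.mk_smul, Submodule.Quotient.mk_eq_zero]
        have h3 : (p : ℤ) • z = x + (-y) := by rw [hxyz]; abel
        rw [h3]
        exact Submodule.add_mem_sup hx (Submodule.neg_mem _ hy)
      rw [htor, Submodule.mem_bot, Submodule.Quotient.mk_eq_zero] at h2
      exact h2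
    obtain ⟨v, hv, y', hy', hvy⟩ := Submodule.mem_sup.1 hz
    refine ⟨v, ?_⟩
    have h4 : x - (p : ℤ) • v ∈ V n ⊓ tw (-(a : ℤ)) L := by
      refine ⟨Submodule.sub_mem _ hx (Submodule.smul_mem _ _ hv), ?_⟩
      have h5 : x - (p : ℤ) • v = y + (p : ℤ) • y' := by
        rw [hxyz, ← hvy, smul_add]
        abel
      rw [h5]
      exact Submodule.add_mem _ hy (Submodule.smul_mem _ _ hy')
    rw [hbot, Submodule.mem_bot] at h4
    exact sub_eq_zero.1 h4

end Pool.Agent.SLR
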