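import Pool.Agent.SLR.StL
import Pool.Agent.SLR.StK
import Pool.Agent.SLZ.MA
import Pool.Agent.SLZ.MB
import Pool.Agent.SLZ.MC

/-!
# SLR, module LZ: the good complex is highly connected (helper45)
-/

set_option autoImplicit false
set_option linter.unusedVariables false

noncomputable section

namespace Pool.Agent.SLR

open Pool.Agent.SLZ

theorem lz_adj_refl {n : ℕ} (L : Submodule ℤ (E n)) : adj L L := Or.inl rfl

theorem lz_adj_symm {n : ℕ} (L L' : Submodule ℤ (E n)) (h : adj L L') : adj L' L := by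
  rcases h with h | h | h
  · exact Or.inl h.symm
  · exact Or.inr (Or.inr h)
  · exact Or.inr (Or.inl h)

theorem thm_LZ (hKQ : St_KQ) (hLB : St_LB) (hLF : St_LF) (hLH : St_LH) (hLL : St_LL) (hLM : St_LM)
    (hLN : St_LN) : St_LZ := by
  intro n k hnk
  have hMB := thm_MB thm_MA (Submodule ℤ (E n)) (ℕ ×ₗ (ℕ ×ₗ (ℕ ×ₗ ℕ))) adj mu (Good n) (Lam n)
    lz_adj_refl lz_adj_symm (fun L hL => ⟨hL.1, hL.2.1⟩)
    (by
      intro u hu v hv hu0 hv0 huv huv2
      exact (hLM n u hu hu0).2.2.2 v hv hv0 huv huv2) (k + 1)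
  refine hMB.2 (hLB n (k + 1)) ?_
  intro L hL hL0
  obtain ⟨⟨ha2, haL, haN⟩, -, -, -⟩ := hLM n L hL hL0
  have hfin := hLF n L hL.1
  obtain ⟨⟨h1, h2, h3⟩, h4, -⟩ := hfin
  have := h1
  have := h2
  have := (h4 (aL L - 1 + 1)).2.1
  have := (h4 (aL L - 1 + 1)).2.2.1
  have h5 : aL L - 1 + 1 = aL L := Nat.sub_add_cancel (le_trans (by norm_num) ha2)
  have h6 : SConn lkr (Sum.inl '' Us (rhoU (aL L - 1) L) ∪ Sum.inr '' Bs (I1 L) (N0 (aL L) L))
      (k + 1) := by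
    refine hKQ (Fq L) (Ct (aL L - 1 + 1) L) (I1 L) (N0 (aL L) L) (rhoU (aL L - 1) L) (k + 1) ?_ ?_ ?_ ?_
    · intro h7
      exact haN ((hLH n L hL.1).2.1 (aL L) (le_trans (by norm_num) ha2) h7 haL)
    · intro l
      have h7 := (hLH n L hL.1).2.2 (aL L - 1) l
      have h8 : N0 (aL L - 1 + 1) L = N0 (aL L) L := by rw [h5]
      rwa [h8] at h7
    · intro p q hp hq
      rw [h3]
      exact (hLN n (aL L) L hL.1 hL.2 haL).2 ha2 p q hp hq
    · rw [h3]
      omega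
  have h7 := hLL n L (k + 1) hL hL0 h6
  exact (thm_MC thm_MA thm_MB (Submodule ℤ (E n)) adj lz_adj_refl lz_adj_symm
    (dlk adj mu (Good n) (Lam n) L) (dlk adj mu (Good n) (Lam n) L) (k + 1)).1 h7

end Pool.Agent.SLR
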