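import Pool.Agent.SLR.StB
import Pool.Agent.SLR.KA
import Pool.Agent.SLR.KB
import Pool.Agent.SLR.KC
import Pool.Agent.SLR.KD
import Pool.Agent.SLR.KT
import Pool.Agent.SLR.KE
import Pool.Agent.SLR.KQ1
import Pool.Agent.SLR.KQ2
import Pool.Agent.SLR.KQ
import Pool.Agent.SLR.PX
import Pool.Agent.SLR.LA
import Pool.Agent.SLR.LF
import Pool.Agent.SLR.LW
import Pool.Agent.SLR.LB
import Pool.Agent.SLR.LC
import Pool.Agent.SLR.LD
import Pool.Agent.SLR.LR
import Pool.Agent.SLR.LT
import Pool.Agent.SLR.LE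
import Pool.Agent.SLR.LN
import Pool.Agent.SLR.LG
import Pool.Agent.SLR.LH
import Pool.Agent.SLR.LM
import Pool.Agent.SLR.LL
import Pool.Agent.SLR.LZ
import Pool.Agent.SLR.BA
import Pool.Agent.SLR.BW
import Pool.Agent.SLR.BB
import Pool.Agent.SLR.BC
import Pool.Agent.SLR.BD
import Pool.Agent.SLR.BE
import Pool.Agent.SLR.BS
import Pool.Agent.SLR.BF
import Pool.Agent.SLR.BG
import Pool.Agent.SLZ.FAll

/-!
# SLR: all statements without hypotheses (helper29)

`all_BF`: `GL_n(ℤ[t])` is of type `FP_k` for `n ≥ 4 k + 1`. `all_BG`: the same for `SL_n`.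
-/

set_option autoImplicit false
set_option linter.unusedVariables false

noncomputable section

namespace Pool.Agent.SLR

open Pool.Agent.SLZ

theorem all_KA : St_KA := thm_KA
theorem all_KB : St_KB := thm_KB
theorem all_KC : St_KC := thm_KC all_KA all_KB
theorem all_KD : St_KD := thm_KD all_KA all_KB all_KC
theorem all_KT : St_KT := thm_KT
theorem all_KE : St_KE := thm_KE all_KB all_KD
theorem all_KQ1 : St_KQ1 := thm_KQ1 all_KA all_KE all_KT thm_PX
theorem all_KQ2 : St_KQ2 := thm_KQ2 all_KA all_KB all_KD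
theorem all_KQ : St_KQ := thm_KQ all_KA all_KB all_KQ1 all_KQ2
theorem all_LA : St_LA := thm_LA
theorem all_LF : St_LF := thm_LF all_LA
theorem all_LW : St_LW := thm_LW all_LA
theorem all_LC : St_LC := thm_LC all_LA all_LF
theorem all_LB : St_LB := thm_LB all_LA all_LC
theorem all_LD : St_LD := thm_LD all_LA all_LW
theorem all_LR : St_LR := thm_LR all_LA all_LF
theorem all_LT : St_LT := thm_LT all_LA all_LF
theorem all_LE : St_LE := thm_LE all_LF all_LR all_LT
theorem all_LN : St_LN := thm_LN all_LE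
theorem all_LG : St_LG := thm_LG all_LA all_LF all_LW
theorem all_LH : St_LH := thm_LH all_LA all_LF all_LW all_LG all_LT all_LR
theorem all_LM : St_LM := thm_LM all_LA all_LW all_LC all_LT all_LN all_LG all_LH
theorem all_LL : St_LL :=
  thm_LL all_LA all_LF all_LW all_LD all_LM all_KA all_MA all_MB all_MC
theorem all_LZ : St_LZ := thm_LZ all_KQ all_LB all_LF all_LH all_LL all_LM all_LN
theorem all_BA : St_BA := thm_BA all_LA
theorem all_BW : St_BW := thm_BW all_LA all_BA
theorem all_BB : St_BB := thm_BB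
theorem all_BE : St_BE := thm_BE
theorem all_BC : St_BC := thm_BC all_BA all_BE
theorem all_BD : St_BD := thm_BD all_LA all_LF all_LW all_BA all_BW all_BB all_BC
theorem all_BS : St_BS := thm_BS
theorem all_BF : St_BF := thm_BF all_LZ all_BD all_BE all_BS
theorem all_BG : St_BG := thm_BG all_BF

end Pool.Agent.SLR
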