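import Pool.Agent.SLR.DefsL
import Pool.Agent.SLZ.DefsP

/-!
# SLR, part B: the action of `GL_n(ℤ[t])` on lattices (definitions; architect helper29)
-/

set_option autoImplicit false
set_option linter.unusedVariables false

noncomputable section

namespace Pool.Agent.SLR

open Pool.Agent.SLZ Polynomial

variable {n : ℕ}

/-- multiplication by a matrix over `ℤ[t]` -/
def gm (g : Matrix (Fin n) (Fin n) ℤ[X]) : E n →ₗ[ℤ] E n where
  toFun x := (g.map Polynomial.toLaurent).mulVec x
  map_add' x y := Matrix.mulVec_add _ x y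
  map_smul' c x := Matrix.mulVec_smul _ c x

theorem gm_one : gm (1 : Matrix (Fin n) (Fin n) ℤ[X]) = LinearMap.id := by
  refine LinearMap.ext fun x => ?_
  show ((1 : Matrix (Fin n) (Fin n) ℤ[X]).map Polynomial.toLaurent).mulVec x = x
  rw [Matrix.map_one _ (map_zero _) (map_one _), Matrix.one_mulVec]

theorem gm_mul (g h : Matrix (Fin n) (Fin n) ℤ[X]) : gm (g * h) = gm g ∘ₗ gm h := by
  refine LinearMap.ext fun x => ?_
  show ((g * h).map Polynomial.toLaurent).mulVec x =
    (g.map Polynomial.toLaurent).mulVec ((h.map Polynomial.toLaurent).mulVec x)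
  rw [Matrix.map_mul, Matrix.mulVec_mulVec]

/-- `GL_n(ℤ[t])` acts on the subgroups of `E n` -/
instance actL : MulAction (GL (Fin n) ℤ[X]) (Submodule ℤ (E n)) where
  smul g L := L.map (gm (g : Matrix (Fin n) (Fin n) ℤ[X]))
  one_smul L := by
    show L.map (gm (1 : Matrix (Fin n) (Fin n) ℤ[X])) = L
    rw [gm_one, Submodule.map_id]
  mul_smul g h L := by
    show L.map (gm ((g * h : GL (Fin n) ℤ[X]) : Matrix (Fin n) (Fin n) ℤ[X])) =
      (L.map (gm (h : Matrix (Fin n) (Fin n) ℤ[X]))).map (gm (g : Matrix (Fin n) (Fin n) ℤ[X]))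
    rw [Units.val_mul, gm_mul, Submodule.map_comp]

/-- the standard lattice with the degrees `w` -/
def Lw (w : Fin n → ℤ) : Submodule ℤ (E n) where
  carrier := {x | ∀ (i : Fin n) (k : ℤ), w i < k → (x i).coeff k = 0}
  zero_mem' := fun i k _ => by simp
  add_mem' := by
    intro x y hx hy i k hk
    simp [hx i k hk, hy i k hk]
  smul_mem' := by
    intro c x hx i k hk
    rw [Pi.smul_apply, AddMonoidAlgebra.coeff_smul, Finsupp.smul_apply, hx i k hk, smul_zero]

/-- degrees `1, .., 1, 0, .., 0` (`d` ones) -/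
def wd (n d : ℕ) : Fin n → ℤ := fun i => if (i : ℕ) < d then 1 else 0

end Pool.Agent.SLR
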