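import Pool.Agent.SLZ.StP

/-!
# SLR (project MP_24791f_al, one variable): definitions for the algebra part (architect helper29)

`SLZ.Sat P`: saturated (pure) subgroups, `SLZ.cmp`: comparability, `SLZ.SConn`: stable connectivity,
`SLZ.lkr`: relation of the link (`inl`: upper, `inr`: lower vertices). Paper: /team-store/HUNT4_24791f_helper29.md.
-/

set_option autoImplicit false
set_option linter.unusedVariables false

noncomputable section

namespace Pool.Agent.SLR

open Pool.Agent.SLZ

/-- the restriction of `f` to `P` is injective with saturated image (split injective) -/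
def SpI {M M' : Type} [AddCommGroup M] [AddCommGroup M'] (f : M →ₗ[ℤ] M') (P : Submodule ℤ M) : Prop :=
  (∀ x ∈ P, f x = 0 → x = 0) ∧ Sat (P.map f)

/-- the rank of a homomorphism modulo `p` -/
def rkp {M M' : Type} [AddCommGroup M] [AddCommGroup M'] (p : ℕ) (f : M →ₗ[ℤ] M') : ℕ :=
  Module.finrank (ZMod p) (LinearMap.range (f.baseChange (ZMod p)))

/-- the poset of the algebra theorem, between `P0` and `M1` -/
def GP {M M' : Type} [AddCommGroup M] [AddCommGroup M'] (f : M →ₗ[ℤ] M')
    (P0 M1 N0 : Submodule ℤ M) : Set (Submodule ℤ M) :=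
  {P | P0 < P ∧ P ≤ M1 ∧ ¬ P ≤ N0 ∧ SpI f P}

/-- the lower vertices of the link (`W + I = F`, `W^⊥ ⊄ N0`; in particular `W ≠ F`) -/
def Bs {F : Type} [AddCommGroup F] (I : Submodule ℤ F)
    (N0 : Submodule ℤ (Module.Dual ℤ F)) : Set (Submodule ℤ F) :=
  {W | Sat W ∧ W ⊔ I = ⊤ ∧ ¬ W.dualAnnihilator ≤ N0}

/-- the upper vertices of the link (`W ≠ 0`, `f` split injective on `W`) -/
def Us {F C : Type} [AddCommGroup F] [AddCommGroup C] (f : F →ₗ[ℤ] C) : Set (Submodule ℤ F) :=
  {W | W ≠ ⊥ ∧ SpI f W}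

end Pool.Agent.SLR
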