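import Pool.Agent.SLR.DefsK

/-!
# SLR, part L: lattices at infinity (definitions; architect helper29)

`E n = ℤ[t, t⁻¹] ^ n`, `V n = ℤ[t] ^ n`, `L0 n = ℤ[s] ^ n` with `s = t⁻¹`. For a subgroup `L` of `E n` let `tw k L = t ^ k L`. A LATTICE
is a subgroup `L` with `s L ≤ L`, `s ^ m L0 ≤ L ≤ t ^ m L0` for some `m`, saturated. Paper: /team-store/HUNT4_24791f_helper29.md, section 4.
-/

set_option autoImplicit false
set_option linter.unusedVariables false

noncomputable section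

namespace Pool.Agent.SLR

open Pool.Agent.SLZ

/-- the ambient module `ℤ[t, t⁻¹] ^ n` -/
abbrev E (n : ℕ) : Type := Fin n → LaurentPolynomial ℤ

/-- multiplication by `t ^ k` -/
def sh (n : ℕ) (k : ℤ) : E n ≃ₗ[ℤ] E n where
  toFun x := (LaurentPolynomial.T k : LaurentPolynomial ℤ) • x
  map_add' x y := smul_add _ x y
  map_smul' m x := smul_comm _ m x
  invFun x := (LaurentPolynomial.T (-k) : LaurentPolynomial ℤ) • x
  left_inv x := by
    show (LaurentPolynomial.T (-k) : LaurentPolynomial ℤ) • ((LaurentPolynomial.T k : LaurentPolynomial ℤ) • x) = x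
    rw [← mul_smul, ← LaurentPolynomial.T_add, neg_add_cancel, LaurentPolynomial.T_zero, one_smul]
  right_inv x := by
    show (LaurentPolynomial.T k : LaurentPolynomial ℤ) • ((LaurentPolynomial.T (-k) : LaurentPolynomial ℤ) • x) = x
    rw [← mul_smul, ← LaurentPolynomial.T_add, add_neg_cancel, LaurentPolynomial.T_zero, one_smul]

/-- `t ^ k L` (so `x ∈ tw k L` unfolds to `t ^ (-k) x ∈ L`) -/
def tw {n : ℕ} (k : ℤ) (L : Submodule ℤ (E n)) : Submodule ℤ (E n) :=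
  L.comap (sh n (-k)).toLinearMap

/-- `ℤ[t] ^ n` -/
def V (n : ℕ) : Submodule ℤ (E n) where
  carrier := {x | ∀ (i : Fin n) (k : ℤ), k < 0 → (x i).coeff k = 0}
  zero_mem' := fun i k _ => by simp
  add_mem' := by
    intro x y hx hy i k hk
    simp [hx i k hk, hy i k hk]
  smul_mem' := by
    intro c x hx i k hk
    rw [Pi.smul_apply, AddMonoidAlgebra.coeff_smul, Finsupp.smul_apply, hx i k hk, smul_zero]

/-- `ℤ[t⁻¹] ^ n` -/
def L0 (n : ℕ) : Submodule ℤ (E n) where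
  carrier := {x | ∀ (i : Fin n) (k : ℤ), 0 < k → (x i).coeff k = 0}
  zero_mem' := fun i k _ => by simp
  add_mem' := by
    intro x y hx hy i k hk
    simp [hx i k hk, hy i k hk]
  smul_mem' := by
    intro c x hx i k hk
    rw [Pi.smul_apply, AddMonoidAlgebra.coeff_smul, Finsupp.smul_apply, hx i k hk, smul_zero]

variable {n : ℕ}

/-- lattices -/
structure IsLat (L : Submodule ℤ (E n)) : Prop where
  sub : tw (-1) L ≤ L
  bdd : ∃ m : ℕ, tw (-(m : ℤ)) (L0 n) ≤ L ∧ L ≤ tw m (L0 n)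
  sat : Sat L

/-- the saturation of a subgroup -/
def stt (X : Submodule ℤ (E n)) : Submodule ℤ (E n) where
  carrier := {x | ∃ k : ℤ, k ≠ 0 ∧ k • x ∈ X}
  zero_mem' := ⟨1, one_ne_zero, by simp⟩
  add_mem' := by
    rintro v w ⟨a, ha, h1⟩ ⟨b, hb, h2⟩
    refine ⟨b * a, mul_ne_zero hb ha, ?_⟩
    rw [smul_add, mul_smul, mul_comm, mul_smul]
    exact X.add_mem (X.smul_mem _ h1) (X.smul_mem _ h2)
  smul_mem' := by
    rintro c w ⟨a, ha, h1⟩
    refine ⟨a, ha, ?_⟩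
    rw [smul_comm]
    exact X.smul_mem _ h1

/-- `L ≥ 0`: globally generated (`V + s L = E`) -/
def Pos (L : Submodule ℤ (E n)) : Prop := V n ⊔ tw (-1) L = ⊤

/-- `L ≤ a`: modulo every prime `p` the intersection of `V` and `s ^ (a + 1) L` is zero -/
def LeA (a : ℕ) (L : Submodule ℤ (E n)) : Prop :=
  ∀ p : ℕ, p.Prime → ∀ x ∈ V n, ∀ y ∈ tw (-((a : ℤ) + 1)) L, ∀ z : E n, x = y + (p : ℤ) • z →
    ∃ z' : E n, x = (p : ℤ) • z'

/-- adjacency of lattices: equal, or `L ≤ L' ≤ t L`, or conversely -/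
def adj (L L' : Submodule ℤ (E n)) : Prop :=
  L = L' ∨ (L ≤ L' ∧ L' ≤ tw 1 L) ∨ (L' ≤ L ∧ L ≤ tw 1 L')

/-- the big complex: all lattices `L ≥ 0` -/
def Lam (n : ℕ) : Set (Submodule ℤ (E n)) := {L | IsLat L ∧ Pos L}

/-- the good lattices: `0 ≤ L ≤ 1` -/
def Good (n : ℕ) : Set (Submodule ℤ (E n)) := {L | IsLat L ∧ Pos L ∧ LeA 1 L}

/-- the degree of a lattice `L ≥ 0`: the rank of `V ∩ s L` -/
def dg (L : Submodule ℤ (E n)) : ℕ := Module.finrank ℤ ↥(V n ⊓ tw (-1) L)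

/-- the fibre at infinity `L / s L` -/
abbrev Fq (L : Submodule ℤ (E n)) : Type := ↥L ⧸ (tw (-1) L).submoduleOf L

/-- `C_j = E / (V + s ^ j L)` -/
abbrev Cq (j : ℕ) (L : Submodule ℤ (E n)) : Type := E n ⧸ (V n ⊔ tw (-(j : ℤ)) L)

/-- `C_j` modulo torsion -/
abbrev Ct (j : ℕ) (L : Submodule ℤ (E n)) : Type := Cq j L ⧸ Submodule.torsion ℤ (Cq j L)

/-- `L / s L → C_(j+1)`, the class of `x` goes to the class of `s ^ j x` -/
def psi (j : ℕ) (L : Submodule ℤ (E n)) : Fq L →ₗ[ℤ] Cq (j + 1) L :=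
  Submodule.liftQ _ ((Submodule.mkQ (V n ⊔ tw (-((j + 1 : ℕ) : ℤ)) L)) ∘ₗ
    (sh n (-(j : ℤ))).toLinearMap ∘ₗ L.subtype) (by
      intro x hx
      have hx1 : (LaurentPolynomial.T 1 : LaurentPolynomial ℤ) • (x : E n) ∈ L := by
        have h2 : (x : E n) ∈ tw (-1) L := hx
        have h3 : (LaurentPolynomial.T (- -1) : LaurentPolynomial ℤ) • (x : E n) ∈ L := h2
        rwa [neg_neg] at h3
      rw [LinearMap.mem_ker]
      show Submodule.Quotient.mk ((LaurentPolynomial.T (-(j : ℤ)) : LaurentPolynomial ℤ) • (x : E n)) = 0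
      rw [Submodule.Quotient.mk_eq_zero]
      refine Submodule.mem_sup_right ?_
      show (LaurentPolynomial.T (- -((j + 1 : ℕ) : ℤ)) : LaurentPolynomial ℤ) •
        ((LaurentPolynomial.T (-(j : ℤ)) : LaurentPolynomial ℤ) • (x : E n)) ∈ L
      rw [← mul_smul, ← LaurentPolynomial.T_add]
      have h4 : (- -((j + 1 : ℕ) : ℤ)) + -(j : ℤ) = 1 := by push_cast; ring
      rw [h4]
      exact hx1)

/-- `L / s L → C_(j+1) / torsion` -/
def rhoU (j : ℕ) (L : Submodule ℤ (E n)) : Fq L →ₗ[ℤ] Ct (j + 1) L :=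
  (Submodule.mkQ (Submodule.torsion ℤ (Cq (j + 1) L))) ∘ₗ psi j L

/-- the functionals on `L / s L` which extend to `C_(j+1)` -/
def N0 (j : ℕ) (L : Submodule ℤ (E n)) : Submodule ℤ (Module.Dual ℤ (Fq L)) :=
  LinearMap.range (psi j L).dualMap

/-- the image of `L ∩ t V` in `L / s L` -/
def I1 (L : Submodule ℤ (E n)) : Submodule ℤ (Fq L) :=
  ((tw 1 (V n)).submoduleOf L).map (Submodule.mkQ ((tw (-1) L).submoduleOf L))

/-- the lattice between `s L` and `L` with image `W` in `L / s L` -/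
def lw (L : Submodule ℤ (E n)) (W : Submodule ℤ (Fq L)) : Submodule ℤ (E n) :=
  (W.comap (Submodule.mkQ ((tw (-1) L).submoduleOf L))).map L.subtype

/-- the rank of `V ∩ s ^ a L` -/
def T0 (a : ℕ) (L : Submodule ℤ (E n)) : ℕ := Module.finrank ℤ ↥(V n ⊓ tw (-(a : ℤ)) L)

/-- the order of the torsion of `C_a` -/
def ta (a : ℕ) (L : Submodule ℤ (E n)) : ℕ := Nat.card ↥(Submodule.torsion ℤ (Cq a L))

/-- the smallest `a` with `L ≤ a` -/
def aL (L : Submodule ℤ (E n)) : ℕ := sInf {a : ℕ | LeA a L}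

/-- the Morse function -/
def mu (L : Submodule ℤ (E n)) : ℕ ×ₗ (ℕ ×ₗ (ℕ ×ₗ ℕ)) :=
  toLex (aL L, toLex (T0 (aL L) L, toLex (ta (aL L) L, n * aL L - dg L)))

end Pool.Agent.SLR
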