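import Pool.Agent.SLR.StL

/-!
# SLR, LE: the dimensions modulo a prime (helper24)
-/

set_option autoImplicit false
set_option linter.unusedVariables false

noncomputable section

namespace Pool.Agent.SLR

open Pool.Agent.SLZ
open scoped TensorProduct

section

variable (p : ℕ) [Fact p.Prime]

/-- the dimension modulo `p` -/
def LE_cc (M : Type) [AddCommGroup M] : ℕ := Module.finrank (ZMod p) (ZMod p ⊗[ℤ] M)

variable {M N Q : Type} [AddCommGroup M] [AddCommGroup N] [AddCommGroup Q]

theorem LE_surj {g : M →ₗ[ℤ] N} (hg : Function.Surjective g) :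
    Function.Surjective (g.baseChange (ZMod p)) := by
  have := LinearMap.lTensor_surjective (ZMod p) hg
  intro y
  obtain ⟨x, hx⟩ := this y
  exact ⟨x, hx⟩

/-- right exactness -/
theorem LE_exact [Module.Finite ℤ N] {f : M →ₗ[ℤ] N} {g : N →ₗ[ℤ] Q}
    (hg : Function.Surjective g) (h : LinearMap.ker g = LinearMap.range f) :
    LE_cc p N = rkp p f + LE_cc p Q := by
  have h1 := LinearMap.finrank_range_add_finrank_ker (g.baseChange (ZMod p))
  have h2 : LinearMap.range (g.baseChange (ZMod p)) = ⊤ := LinearMap.range_eq_top.2 (LE_surj p hg)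
  have h3 : LinearMap.ker (g.baseChange (ZMod p)) = LinearMap.range (f.baseChange (ZMod p)) := by
    have h4 := lTensor_exact (ZMod p) (f := f) (g := g) (LinearMap.exact_iff.2 h) hg
    ext x
    constructor
    · intro hx
      obtain ⟨y, hy⟩ := (h4 x).1 hx
      exact ⟨y, hy⟩
    · rintro ⟨y, hy⟩
      exact (h4 x).2 ⟨y, hy⟩
  rw [h2, h3, finrank_top] at h1
  simp only [LE_cc, rkp]
  omega

theorem LE_free [Module.Free ℤ M] : LE_cc p M = Module.finrank ℤ M := Module.finrank_baseChange

theorem LE_le_of_surj [Module.Finite ℤ M] {g : M →ₗ[ℤ] N} (hg : Function.Surjective g) :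
    LE_cc p N ≤ LE_cc p M := by
  have h := LE_exact p (f := (LinearMap.ker g).subtype) hg (by rw [Submodule.range_subtype])
  omega

theorem LE_rkp_le [Module.Finite ℤ M] (f : M →ₗ[ℤ] N) : rkp p f ≤ LE_cc p M :=
  LinearMap.finrank_range_le (f.baseChange (ZMod p))

theorem LE_rkp_comp [Module.Finite ℤ M] (f : M →ₗ[ℤ] N) (g : N →ₗ[ℤ] Q) :
    rkp p (g ∘ₗ f) ≤ rkp p f := by
  simp only [rkp]
  rw [LinearMap.baseChange_comp, LinearMap.range_comp]
  exact Submodule.finrank_map_le _ _

theorem LE_ge [Module.Finite ℤ M] : Module.finrank ℤ M ≤ LE_cc p M := by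
  have h1 := Submodule.finrank_quotient_add_finrank (Submodule.torsion ℤ M)
  have h2 : Module.finrank ℤ ↥(Submodule.torsion ℤ M) = 0 :=
    Module.finrank_eq_zero_iff_isTorsion.2 (Submodule.torsion_isTorsion)
  have h3 : Module.Free ℤ (M ⧸ Submodule.torsion ℤ M) := inferInstance
  have h4 := LE_free p (M := M ⧸ Submodule.torsion ℤ M)
  have h5 := LE_le_of_surj p (Submodule.mkQ_surjective (Submodule.torsion ℤ M))
  omega

theorem LE_finrank_torsion [Module.Finite ℤ M] :
    Module.finrank ℤ (M ⧸ Submodule.torsion ℤ M) = Module.finrank ℤ M := by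
  have h1 := Submodule.finrank_quotient_add_finrank (Submodule.torsion ℤ M)
  have h2 : Module.finrank ℤ ↥(Submodule.torsion ℤ M) = 0 :=
    Module.finrank_eq_zero_iff_isTorsion.2 (Submodule.torsion_isTorsion)
  omega

theorem LE_subsingleton [Subsingleton M] : LE_cc p M = 0 := by
  have h1 := LE_free p (M := M)
  rw [h1]
  exact Module.finrank_zero_of_subsingleton

end

theorem thm_LE (hLF : St_LF) (hLR : St_LR) (hLT : St_LT) : St_LE := by
  intro n L hL hP p hp
  have : Fact p.Prime := ⟨hp⟩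
  obtain ⟨⟨f1, f2, f3⟩, hC, -, -⟩ := hLF n L hL
  obtain ⟨hR1, hR2, hR3, hR4⟩ := hLR n L hL
  obtain ⟨hs, hrk⟩ := hR1 hP
  have hfC : ∀ j, Module.Finite ℤ (Cq j L) := fun j => (hC j).1
  set c : ℕ → ℕ := fun j => LE_cc p (Cq j L) with hc
  set ρ : ℕ → ℕ := fun j => rkp p (psi j L) with hρ
  have c1 : c 1 = 0 := LE_subsingleton p
  have hF : LE_cc p (Fq L) = n := by rw [LE_free p, f3]
  have hstep : ∀ j, c (j + 1) = ρ j + c j := by
    intro j
    obtain ⟨q, hq, -, hk⟩ := hR2 j
    have := hfC (j + 1)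
    exact LE_exact p hq hk
  have hρn : ∀ j, ρ j ≤ n := fun j => by
    have := LE_rkp_le p (psi j L)
    rw [hF] at this
    exact this
  have hρm : ∀ j, ρ j ≤ ρ (j + 1) := by
    intro j
    obtain ⟨m, hm⟩ := hR3 j
    have := LE_rkp_comp p (psi (j + 1) L) m
    rw [hm] at this
    exact this
  have hge : ∀ j, j * n ≤ dg L + c (j + 1) := by
    intro j
    have := hfC (j + 1)
    have h1 := LE_ge p (M := Cq (j + 1) L)
    have h2 := hrk j
    simp only [hc]
    omega
  -- the kernel of `psi 1`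
  have hc2 : n = rkp p (I1 L).subtype + c 2 := by
    have hsurj : Function.Surjective (psi 1 L) := by
      obtain ⟨q, hq, -, hk⟩ := hR2 1
      have := hs
      rw [← LinearMap.range_eq_top, ← hk]
      ext x
      simp only [LinearMap.mem_ker, Submodule.mem_top, iff_true]
      exact Subsingleton.elim _ _
    have h1 := LE_exact p (f := (I1 L).subtype) hsurj (by rw [hR4, Submodule.range_subtype])
    rw [hF] at h1
    exact h1
  refine ⟨fun j => dg L + c j - (j - 1) * n, ?_, ?_, ?_, ?_, ?_, ?_, ?_⟩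
  · simp [c1]
  · intro a ha
    have h1 := (hLT n L hL (a + 1) (by omega)).1 (by simpa using ha)
    have h2 := hrk a
    rw [h1.1] at h2
    have := hfC (a + 1)
    have h3 : Submodule.torsion ℤ (Cq (a + 1) L) = ⊥ := by
      have h4 : Nat.card ↥(Submodule.torsion ℤ (Cq (a + 1) L)) = 1 := h1.2
      have h5 := (Nat.card_eq_one_iff_unique.1 h4).1
      exact (Submodule.subsingleton_iff_eq_bot).1 h5
    have h6 : Module.IsTorsionFree ℤ (Cq (a + 1) L) :=
      Submodule.isTorsionFree_iff_torsion_eq_bot.2 h3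
    have h7 : Module.Free ℤ (Cq (a + 1) L) := inferInstance
    have h8 := LE_free p (M := Cq (a + 1) L)
    simp only [hc, Nat.add_sub_cancel]
    omega
  · intro j hj
    obtain ⟨i, rfl⟩ : ∃ i, j = i + 1 := ⟨j - 1, by omega⟩
    have h1 := hstep (i + 1)
    have h2 := hρn (i + 1)
    have h3 := hge (i + 1)
    have h4 := hge i
    simp only [Nat.add_sub_cancel]
    rw [add_mul, one_mul] at h3 ⊢
    omega
  · intro j hj
    obtain ⟨i, rfl⟩ : ∃ i, j = i + 1 := ⟨j - 1, by omega⟩
    have h1 : c (i + 2) = ρ (i + 1) + c (i + 1) := hstep (i + 1)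
    have h2 : c (i + 3) = ρ (i + 2) + c (i + 2) := hstep (i + 2)
    have h3 : ρ (i + 1) ≤ ρ (i + 2) := hρm (i + 1)
    have h4 : i * n ≤ dg L + c (i + 1) := hge i
    have h5 : i * n + n ≤ dg L + c (i + 2) := by
      have h : (i + 1) * n ≤ dg L + c (i + 2) := hge (i + 1)
      rwa [add_mul, one_mul] at h
    have h6 : i * n + n + n ≤ dg L + c (i + 3) := by
      have h : (i + 2) * n ≤ dg L + c (i + 3) := hge (i + 2)
      rwa [add_mul, two_mul, ← add_assoc] at h
    have e1 : (i + 1 + 1 - 1) * n = i * n + n := by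
      rw [Nat.add_sub_cancel, add_mul, one_mul]
    have e2 : (i + 1 + 2 - 1) * n = i * n + n + n := by
      have : i + 1 + 2 - 1 = i + 2 := by omega
      rw [this, add_mul, two_mul, ← add_assoc]
    have e3 : (i + 1 - 1) * n = i * n := by rw [Nat.add_sub_cancel]
    simp only [e1, e2, e3]
    change 2 * (dg L + c (i + 2) - (i * n + n)) ≤
      dg L + c (i + 1) - i * n + (dg L + c (i + 3) - (i * n + n + n))
    omega
  · have h3 := hge 1
    simp only [c1]
    omega
  · have h3 := hge 1
    simp only [c1]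
    omega
  · intro j hj
    obtain ⟨i, rfl⟩ : ∃ i, j = i + 1 := ⟨j - 1, by omega⟩
    have := hfC (i + 1 + 1)
    have := hfC (i + 1)
    have : Module.Finite ℤ (Ct (i + 1 + 1) L) := (hC (i + 1 + 1)).2.1
    have : Module.Free ℤ (Ct (i + 1 + 1) L) := (hC (i + 1 + 1)).2.2.1
    have h1 := LE_exact p (f := rhoU (i + 1) L)
      (g := Submodule.mkQ (LinearMap.range (rhoU (i + 1) L))) (Submodule.mkQ_surjective _)
      (Submodule.ker_mkQ _)
    have h2 : LE_cc p (Ct (i + 1 + 1) L) = Module.finrank ℤ (Cq (i + 1 + 1) L) := by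
      rw [LE_free p]
      exact LE_finrank_torsion
    have h3 := hrk (i + 1)
    have h4 : LE_cc p (Ct (i + 1 + 1) L ⧸ LinearMap.range (rhoU (i + 1) L)) ≤ c (i + 1) := by
      obtain ⟨q, hq, -, hk⟩ := hR2 (i + 1)
      -- the quotient map factors through `q`
      let π : Cq (i + 1 + 1) L →ₗ[ℤ] (Ct (i + 1 + 1) L ⧸ LinearMap.range (rhoU (i + 1) L)) :=
        (Submodule.mkQ (LinearMap.range (rhoU (i + 1) L))) ∘ₗ
          (Submodule.mkQ (Submodule.torsion ℤ (Cq (i + 1 + 1) L)))
      have hπ : Function.Surjective π :=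
        (Submodule.mkQ_surjective _).comp (Submodule.mkQ_surjective _)
      have hker : LinearMap.ker q ≤ LinearMap.ker π := by
        rw [hk]
        rintro _ ⟨x, rfl⟩
        rw [LinearMap.mem_ker]
        change Submodule.Quotient.mk (rhoU (i + 1) L x) = 0
        rw [Submodule.Quotient.mk_eq_zero]
        exact ⟨x, rfl⟩
      let e : (Cq (i + 1 + 1) L ⧸ LinearMap.ker q) ≃ₗ[ℤ] Cq (i + 1) L :=
        q.quotKerEquivOfSurjective hq
      let g : Cq (i + 1) L →ₗ[ℤ] (Ct (i + 1 + 1) L ⧸ LinearMap.range (rhoU (i + 1) L)) :=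
        ((LinearMap.ker q).liftQ π hker) ∘ₗ (e.symm : Cq (i + 1) L →ₗ[ℤ] _)
      have hg : Function.Surjective g := by
        intro y
        obtain ⟨x, rfl⟩ := hπ y
        refine ⟨e (Submodule.Quotient.mk x), ?_⟩
        change ((LinearMap.ker q).liftQ π hker) (e.symm (e (Submodule.Quotient.mk x))) = π x
        rw [LinearEquiv.symm_apply_apply]
        rfl
      exact LE_le_of_surj p hg
    have h5 := hge i
    have e1 : (i + 1) * n = i * n + n := by rw [add_mul, one_mul]
    rw [e1] at h3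
    simp only [Nat.add_sub_cancel]
    omega

end Pool.Agent.SLR
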