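import Pool.Agent.SLR.DefsL

/-!
# SLR, part L: lattices and the Morse function (statements; architect helper29)

Module `X` proves `theorem thm_X (h.. : St_..) : St_X` in `Pool/Agent/SLR/X.lean`, namespace `Pool.Agent.SLR`.
-/

set_option autoImplicit false
set_option linter.unusedVariables false

noncomputable section

namespace Pool.Agent.SLR

open Pool.Agent.SLZ

/-- **LA** (1.5 h). Formal properties of lattices.

Proof. `x ∈ tw k L` means `t ^ (-k) x ∈ L`. (7) `L ≤ t ^ m L0`, so `s ^ (m + 1) L ≤ s L0`; if `x ∈ V`, `x = y + p z`, `y ∈ s L0` then the coefficients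
of `x` of negative degree vanish and those of degree `≥ 0` are the ones of `p z`, so divisible by `p`: `LeA m L`. (9) `s ^ m L0 ≤ L`:
`V + s (t ^ (m + 1) L) ⊇ V + L0 = E`. -/
def St_LA : Prop := ∀ n : ℕ,
  (∀ (L : Submodule ℤ (E n)) (j k : ℤ), tw j (tw k L) = tw (j + k) L ∧ tw 0 L = L) ∧
  (∀ (L L' : Submodule ℤ (E n)) (k : ℤ), (tw k L ≤ tw k L' ↔ L ≤ L') ∧
    tw k (L ⊓ L') = tw k L ⊓ tw k L' ∧ tw k (L ⊔ L') = tw k L ⊔ tw k L' ∧ tw k (stt L) = stt (tw k L) ∧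
    (Sat L → Sat (tw k L))) ∧
  (∀ L : Submodule ℤ (E n), IsLat L → ∀ j k : ℤ, j ≤ k → tw j L ≤ tw k L) ∧
  (∀ j k : ℤ, j ≤ k → tw k (V n) ≤ tw j (V n)) ∧
  (Sat (V n) ∧ IsLat (L0 n) ∧ V n ⊔ L0 n = ⊤ ∧ V n ⊓ tw (-1) (L0 n) = ⊥ ∧ V n ⊔ tw (-1) (L0 n) = ⊤) ∧
  (∀ L L' : Submodule ℤ (E n), IsLat L → IsLat L' →
    (∀ k, IsLat (tw k L)) ∧ IsLat (L ⊓ L') ∧ IsLat (stt (L ⊔ L')) ∧ stt L = L ∧
    (∃ m : ℕ, tw (-(m : ℤ)) L ≤ L' ∧ L' ≤ tw m L)) ∧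
  (∀ L : Submodule ℤ (E n), IsLat L → ∃ a, LeA a L) ∧
  (∀ (L L' : Submodule ℤ (E n)) (a b : ℕ), IsLat L' → L ≤ L' → a ≤ b → LeA a L' → LeA b L) ∧
  (∀ L : Submodule ℤ (E n), IsLat L → ∃ m : ℕ, ∀ k : ℤ, m ≤ k → Pos (tw k L)) ∧
  (∀ L L' : Submodule ℤ (E n), L ≤ L' → Pos L → Pos L') ∧
  (∀ X : Submodule ℤ (E n), X ≤ stt X ∧ Sat (stt X)) ∧
  (∀ X Y : Submodule ℤ (E n), X ≤ Y → Sat Y → stt X ≤ Y)

/-- **LF** (2 h). Finiteness.

Proof. `t ^ a L0 ∩ V` (coefficients in degrees `0, .., a`), `t ^ a L0 / s ^ b L0` (degrees `-b < k ≤ a`) and `E / (V + s ^ b L0)` (degrees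
`-b < k < 0`) are finitely generated. (1) `L / s L` is torsion-free: `k x ∈ s L` gives `k (t x) ∈ L`, `t x ∈ L`. Rank: `t ^ m L0 ⊇ L ⊇ s L ⊇ s ^ M L0`; ranks of
`t ^ m L0 / L` and of `s t ^ m L0 / s L` agree (multiplication by `s`), `rank (t ^ m L0 / s L) = rank (t ^ m L0 / L) + rank (L / s L) = n + rank (s t ^ m L0 / s L)`. (4) `L' / L`
is torsion-free because `L` is saturated. -/
def St_LF : Prop := ∀ (n : ℕ) (L : Submodule ℤ (E n)), IsLat L →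
  (Module.Finite ℤ (Fq L) ∧ Module.Free ℤ (Fq L) ∧ Module.finrank ℤ (Fq L) = n) ∧
  (∀ j, Module.Finite ℤ (Cq j L) ∧ Module.Finite ℤ (Ct j L) ∧ Module.Free ℤ (Ct j L) ∧
    Finite (Submodule.torsion ℤ (Cq j L))) ∧
  (∀ k : ℤ, Module.Finite ℤ ↥(V n ⊓ tw k L) ∧ Module.Free ℤ ↥(V n ⊓ tw k L)) ∧
  (∀ L', IsLat L' → L ≤ L' → Module.Finite ℤ (↥L' ⧸ L.submoduleOf L') ∧
    Module.Free ℤ (↥L' ⧸ L.submoduleOf L') ∧
    (Module.finrank ℤ (↥L' ⧸ L.submoduleOf L') = 0 → L = L'))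

/-- **LW** (1.2 h). The lattices between `s L` and `L`.

Proof. Submodules of `L` which contain `s L` and submodules of `L / s L`; `k x ∈ X` implies `x ∈ X` iff the same for `W` (`x ∈ L` automatically,
as `L` is saturated). Bounds: `s ^ (m + 1) L0 ≤ s L ≤ X ≤ L`; `s X ≤ s L ≤ X`. -/
def St_LW : Prop := ∀ (n : ℕ) (L : Submodule ℤ (E n)), IsLat L →
  (∀ X, IsLat X → tw (-1) L ≤ X → X ≤ L → ∃ W, Sat W ∧ X = lw L W) ∧
  (∀ W, Sat W → IsLat (lw L W) ∧ tw (-1) L ≤ lw L W ∧ lw L W ≤ L) ∧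
  (∀ W W', lw L W ≤ lw L W' ↔ W ≤ W') ∧ lw L ⊤ = L ∧ lw L ⊥ = tw (-1) L ∧
  (∀ (W : Submodule ℤ (Fq L)) (x : ↥L), (x : E n) ∈ lw L W ↔ (Submodule.Quotient.mk x : Fq L) ∈ W)

/-- **LB** (1.5 h). The big complex is acyclic.

Proof. CLAIM for `P ∈ Lam n`: `S = {M ∈ Lam n | M ≤ P}` has `Conn (Fl adj S) c` for all `c`. For `M ∈ S` let `i M` be the smallest `i` with
`s ^ i P ≤ M`. `St_MB` (1) with `S0 = {P}` (one vertex: a cone, `St_MA` (6)) and `f M = (i M, rank (M / s ^ (i M) P))`. `i M = 0` only for `M = P`. Let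
`i = i M ≥ 1` and `ρ = stt (M ⊔ s ^ (i-1) P)`, a lattice, `M ≤ ρ ≤ P`, `ρ ≠ M`, `ρ ≤ t M`, `i ρ < i`. The descending link of `M` is a cone with apex `ρ`: (a) `M'` adjacent
to `M`, `i M' < i`: `M' ≤ M` is impossible, so `M ≤ M' ≤ t M`, and `s ^ (i-1) P ≤ M'`, so `ρ ≤ M' ≤ t M ≤ t ρ`. (b) `i M' = i`, `M'` adjacent to `M` and of smaller rank over
`s ^ i P`: `M' ≤ M ≤ t M'`, and `M' ≤ ρ ≤ t M'` because `s ^ (i-1) P = t (s ^ i P) ≤ t M'`. Adjacent different lattices with the same `i` are comparable, so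
their second values are different (`St_LF` (4)). Finally a cycle of `Fl adj (Lam n)` has finite support, and `P = t ^ m L0` with `m` large contains all
its vertices and is in `Lam n`. -/
def St_LB : Prop := ∀ n c : ℕ, Conn (Fl adj (Lam n)) c

/-- **LC** (1 h). Degrees.

Proof. `(V ∩ s L') / (V ∩ s L) → s L' / s L` is injective; surjective: `x ∈ s L'`, `x = v + y`, `v ∈ V`, `y ∈ s L` (`V + s L = E`), so `v ∈ V ∩ s L'`.
`s L' / s L ≅ L' / L`. Ranks are additive. -/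
def St_LC : Prop := ∀ (n : ℕ) (L L' : Submodule ℤ (E n)), IsLat L → IsLat L' → Pos L → L ≤ L' →
  dg L' = dg L + Module.finrank ℤ (↥L' ⧸ L.submoduleOf L') ∧ (L ≠ L' → dg L < dg L')

/-- **LD** (0.7 h). Which lower neighbours are `≥ 0`.

Proof. Let `X = lw L W`. If `V + s X = E` then `t V + X = E`; for `x ∈ L`: `x = v + w`, `v ∈ t V`, `w ∈ X ≤ L`, so `v ∈ L ∩ t V`: `x̄ ∈ I1 + W`.
Conversely let `W + I1 = ⊤`. For `x ∈ L`: `x = w + u + y`, `w ∈ X`, `u ∈ L ∩ t V`, `y ∈ s L ≤ X`; so `L ≤ t V + X`, `s L ≤ V + s X`, `E = V + s L ≤ V + s X`. -/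
def St_LD : Prop := ∀ (n : ℕ) (L : Submodule ℤ (E n)) (W : Submodule ℤ (Fq L)), IsLat L → Pos L →
  Sat W → (Pos (lw L W) ↔ W ⊔ I1 L = ⊤)

/-- **LR** (1 h). The rank of `C_(j+1)`.

Proof. `s L / s ^ (j+1) L` has rank `j n` (`St_LF` (1), multiplication by `s`), `V ∩ s L → s L / s ^ (j+1) L` has kernel `V ∩ s ^ (j+1) L`, and the cokernel is
`s L / (V ∩ s L + s ^ (j+1) L) = (V + s L) / (V + s ^ (j+1) L) = Cq (j+1) L`, because `V + s L = E`. `Cq 1 L = 0`. Exactness of `Fq L → Cq (j+1) L → Cq j L → 0`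
(`psi j L`, then the quotient map by `s ^ (j+1) L ≤ s ^ j L`): `s ^ j L / s ^ (j+1) L`. -/
def St_LR : Prop := ∀ (n : ℕ) (L : Submodule ℤ (E n)), IsLat L →
  (Pos L → Subsingleton (Cq 1 L) ∧
    ∀ j, Module.finrank ℤ (Cq (j + 1) L) + dg L = j * n + T0 (j + 1) L) ∧
  (∀ j : ℕ, ∃ q : Cq (j + 1) L →ₗ[ℤ] Cq j L, Function.Surjective q ∧
    (∀ x : E n, q (Submodule.Quotient.mk x) = Submodule.Quotient.mk x) ∧
    LinearMap.ker q = LinearMap.range (psi j L)) ∧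
  (∀ j : ℕ, ∃ m : Cq (j + 2) L →ₗ[ℤ] Cq (j + 1) L, m ∘ₗ psi (j + 1) L = psi j L) ∧
  LinearMap.ker (psi 1 L) = I1 L

/-- **LT** (1 h). Torsion and `LeA`.

Proof. `LeA (a-1) L`: modulo `p` the intersection of `V` and `s ^ a L` is zero. If `x ∈ V ∩ s ^ a L` is not zero divide by the content (`V`, `s ^ a L` are saturated) to
get a contradiction; if `p z = v + s ^ a y` then `v ∈ p E`, `v = p v'`, `v' ∈ V`, so `z - v' ∈ s ^ a L`: `C_a` has no `p`-torsion. Conversely: `x = s ^ a y + p z`, `x ∈ V`: `p [z] = 0`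
in `C_a`, so `z = v + s ^ a y'`, `x - p v = s ^ a (y + p y') ∈ V ∩ s ^ a L = 0`. (`ta a L = 1` iff the torsion is zero: it is finite, `St_LF`.) -/
def St_LT : Prop := ∀ (n : ℕ) (L : Submodule ℤ (E n)), IsLat L → ∀ a : ℕ, 1 ≤ a →
  (LeA (a - 1) L ↔ T0 a L = 0 ∧ ta a L = 1)

/-- **LE** (1.5 h). The dimensions modulo a prime.

Proof. Let `c j` be the dimension of `ZMod p ⊗ Cq j L` and `d j = dg L + c j - (j - 1) n` (`j ≥ 1`; not negative: `c j ≥ finrank (Cq j L) ≥ (j-1) n - dg L` by `St_LR`). Tensor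
products are right exact. (i) `Cq 1 L = 0`: `c 1 = 0`, `d 1 = dg L`. (ii) `LeA a L`: `Cq (a+1) L` is torsion-free and `T0 (a+1) L = 0` (`St_LT` for `a + 1`), so `c (a+1) = finrank =
a n - dg L`. (iii) `Fq L → Cq (j+1) L → Cq j L → 0`: `c (j+1) = c j + rank of psi j L modulo p`, which is `≤ c j + n`. So `d (j+1) ≤ d j` and `d 1 ≤ d 2 + n` as `c 2 ≥ c 1`. (iv)
`psi j L = m ∘ psi (j+1) L`: the rank of `psi` modulo `p` increases with `j`, convexity. (v) `I1 L → Fq L → Cq 2 L → 0` is exact (`Cq 1 L = 0`): `c 2 = n - rkp p (I1 L).subtype`,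
`d 2 = dg L + c 2 - n`. (vi) the cokernel of `rhoU j L : Fq L → Ct (j+1) L` is a quotient of `Cq j L`, so modulo `p` its dimension is `≤ c j`, and `Ct (j+1) L` is free of rank
`finrank (Cq (j+1) L) ≥ j n - dg L`: `rkp p (rhoU j L) ≥ j n - dg L - c j = n - d j`. -/
def St_LE : Prop := ∀ (n : ℕ) (L : Submodule ℤ (E n)), IsLat L → Pos L → ∀ p : ℕ, p.Prime →
  ∃ d : ℕ → ℕ, d 1 = dg L ∧ (∀ a, LeA a L → d (a + 1) = 0) ∧ (∀ j, 1 ≤ j → d (j + 1) ≤ d j) ∧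
    (∀ j, 1 ≤ j → 2 * d (j + 1) ≤ d j + d (j + 2)) ∧
    d 1 ≤ d 2 + rkp p (I1 L).subtype ∧ d 1 ≤ d 2 + n ∧
    ∀ j, 1 ≤ j → n ≤ rkp p (rhoU j L) + d j

/-- **LN** (0.7 h). Numbers.

Proof. `St_LE` for `p` (and `q`), `x_j = d j - d (j + 1)` is decreasing, `x_1 ≤ rkp q (I1 L).subtype`, `x_1 ≤ n`, `d (a + 1) = 0`: `dg L = x_1 + .. + x_a ≤ a x_1` (so
`dg L ≤ n a` and `dg L ≤ a rkp q (I1 L).subtype`), `a d (a - 1) = a (x_(a-1) + x_a) ≤ 2 dg L` (the average of the last two is at most the average), `n - rkp p (rhoU (a-1) L) ≤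
d (a - 1)`. So `a (n - rkp p ..) ≤ 2 a rkp q ..`, divide by `a`. -/
def St_LN : Prop := ∀ (n a : ℕ) (L : Submodule ℤ (E n)), IsLat L → Pos L → LeA a L →
  dg L ≤ n * a ∧ (2 ≤ a → ∀ p q : ℕ, p.Prime → q.Prime →
    n ≤ rkp p (rhoU (a - 1) L) + 2 * rkp q (I1 L).subtype)

/-- **LG** (2 h). Upper neighbours. `L'' = t (lw L W)`, so `s L'' = lw L W`.

Proof. `a = j + 1`. (1) `V ∩ s ^ a L ≤ V ∩ s ^ a L'` (both f.g.), ranks. If the ranks are equal: `x ∈ V ∩ s ^ a L'`, `k x ∈ s ^ a L` for some `k ≠ 0`, `s ^ a L`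
saturated: `V ∩ s ^ a L = V ∩ s ^ a L'`. Then torsion of `C = E / (V + s ^ a L)` embeds into `C' = E / (V + s ^ a L')`: let `z ∈ V + s ^ a L'`, `k z ∈ V + s ^ a L`, `k ≠ 0`:
`z = v + y`, `y ∈ s ^ a L'`, `k z = v' + y'`, `y' ∈ s ^ a L`, so `k v - v' = y' - k y ∈ V ∩ s ^ a L' = V ∩ s ^ a L`, so `k y ∈ s ^ a L`, `y ∈ s ^ a L`. (2) `s ^ a L'' = s ^ j (lw L W)`. The kernel of
`C → C''` is `(V + s ^ j X) / (V + s ^ a L)`, `X = lw L W`, the image of `psi j L` restricted to `W`. If `T0` is equal: `V ∩ s ^ j X = V ∩ s ^ a L`, so `psi j L` is injective on `W` (`s ^ j x = v +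
s ^ a y` gives `v ∈ V ∩ s ^ j X`, so `s ^ j x ∈ s ^ a L`), the torsion of `C` embeds into the one of `C''`, and it is onto (equal orders) iff `C / (tors + psi W)` is torsion-free:
`SpI`. Conversely if `SpI (rhoU j L) W`: `x ∈ X`, `s ^ j x ∈ V` gives `psi x̄ = 0`, so `x̄ = 0`: `T0` equal, and then the same equivalence. (3) Let `x ∈ V`,
`x = s ^ (a+1) y'' + p z`, `y'' ∈ L''`, `s y'' = y ∈ lw L W`: `x = s ^ (j+1) y + p z`, `t x = s ^ j y + p t z ∈ V`: `psi ȳ = - p [t z]`. `rhoU` split injective on `W`: `ȳ ∈ p W`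
(`Sat` of the image), so `y ∈ s L + p L`, `x ∈ s ^ (j+2) L + p E`, so `x ∈ p E` by `LeA (j+1) L`. -/
def St_LG : Prop := ∀ (n : ℕ) (L : Submodule ℤ (E n)), IsLat L →
  (∀ (a : ℕ) (L' : Submodule ℤ (E n)), IsLat L' → L ≤ L' → T0 a L ≤ T0 a L' ∧
    (T0 a L = T0 a L' → ta a L ≤ ta a L')) ∧
  (∀ (j : ℕ) (W : Submodule ℤ (Fq L)), Sat W →
    ((T0 (j + 1) (tw 1 (lw L W)) = T0 (j + 1) L ∧ ta (j + 1) (tw 1 (lw L W)) = ta (j + 1) L) ↔
      SpI (rhoU j L) W) ∧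
    (SpI (rhoU j L) W → LeA (j + 1) L → LeA (j + 1) (tw 1 (lw L W))))

/-- **LH** (2 h). Lower neighbours. `X = lw L W`.

Proof. (1) Let `Ĉ = Cq (a+1) L`, torsion-free and `V ∩ s ^ (a+1) L = 0` by `St_LT` for `a + 1` (`LeA a L`). `J = ker (psi a L)` =
image of `V ∩ s ^ a L`, isomorphic to `V ∩ s ^ a L`. `Cq a L = Ĉ / psi(F)`, `Cq a X = E / (V + s ^ a X) = Ĉ / psi(W)`. `V ∩ s ^ a X` is `J ∩ W` (again `V ∩ s ^ (a+1) L = 0`), so `T0 a X = T0 a L` iff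
`rank (J ∩ W) = rank J` iff `J ≤ W` (`W` saturated). In this case with `S`, `S_W` = saturations of `psi F`, `psi W` in `Ĉ`: torsion of `Cq a X` is `S_W / psi W`, torsion of `Cq a L` is
`S / psi F`, the map between them is injective (`St_LG` (1)), onto iff `S = S_W + psi F` iff `psi F / psi W → S / S_W` is onto; this map is injective
(`psi x ∈ S_W`: `k psi x = psi w`, `k x - w ∈ J ≤ W`, `x ∈ W`). Both groups are free of the same rank, so this means: every functional on `F` which vanishes on `W` extends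
(through `psi`) to `S`, equivalently to `Ĉ` (`S` is a direct summand): `W.dualAnnihilator ≤ N0 a L`. If `J` is not contained in `W` then some functional vanishes on `W` but not
on `J`, it is not in `N0`. (2) `N0 a L = ⊤`: `psi a L` is split injective: `J = 0`, so `V ∩ s ^ a L = 0`, and `Cq a L = Ĉ / psi F` is torsion-free: `St_LT`. (3) multiplication by `t` induces
`m : Cq (j+2) L → Cq (j+1) L` (`t V ≤ V`) with `m ∘ psi (j+1) L = psi j L`; `l ∘ rhoU j L = (l ∘ mkQ ∘ m) ∘ psi (j+1) L`. -/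
def St_LH : Prop := ∀ (n : ℕ) (L : Submodule ℤ (E n)), IsLat L →
  (∀ (a : ℕ) (W : Submodule ℤ (Fq L)), Sat W → LeA a L →
    ((T0 a (lw L W) = T0 a L ∧ ta a (lw L W) = ta a L) ↔ W.dualAnnihilator ≤ N0 a L)) ∧
  (∀ a : ℕ, 1 ≤ a → N0 a L = ⊤ → LeA a L → LeA (a - 1) L) ∧
  (∀ (j : ℕ) (l : Module.Dual ℤ (Ct (j + 1) L)), l ∘ₗ rhoU j L ∈ N0 (j + 1) L)

/-- **LM** (1.5 h). The Morse function.

Proof. `a = aL L`: `LeA a L` (the set is not empty), `¬ LeA (a-1) L`, `a ≥ 2` as `¬ LeA 1 L` and `LeA 0 L → LeA 1 L`. (2) `L'' = t (lw L W) ⊇ L` (as `s L ≤ lw L W`), so `L'' ∈ Lam n`,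
`L'' ∉ Good n` (`LeA 1` goes down), `dg L < dg L''` (`W ≠ ⊥`), `a ≤ aL L''`. If `(T0 a, ta a)` are equal, then `LeA a L''` (`St_LG` (2), (3)), `aL L'' = a` and `n a - dg L'' < n a - dg L`
(`dg L'' ≤ n a`, `St_LN`): `mu L'' < mu L`. If not: `aL L'' > a` or (`aL L'' = a` and by `St_LG` (1) `T0` or `ta` is bigger): `mu L'' > mu L`. (3) `X = lw L W < L`: `LeA a X`, `aL X ≤ a`. If
`(T0 a, ta a)` are equal: by `St_LT` `¬ LeA (a-1) X`, so `aL X = a`, `X ∉ Good`, `dg X < dg L`: `mu X > mu L`. If not: `aL X < a` or `T0`, `ta` smaller (`St_LG` (1)): `mu X < mu L`.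
(4) adjacent and different: comparable; if `aL`, `T0` and `ta` are equal then `dg` is different and `≤ n a`. -/
def St_LM : Prop := ∀ (n : ℕ) (L : Submodule ℤ (E n)), L ∈ Lam n → L ∉ Good n →
  (2 ≤ aL L ∧ LeA (aL L) L ∧ ¬ LeA (aL L - 1) L) ∧
  (∀ W : Submodule ℤ (Fq L), Sat W → W ≠ ⊥ → tw 1 (lw L W) ∈ Lam n ∧ tw 1 (lw L W) ∉ Good n ∧
    (mu (tw 1 (lw L W)) < mu L ↔ SpI (rhoU (aL L - 1) L) W)) ∧
  (∀ W : Submodule ℤ (Fq L), Sat W → W ≠ ⊤ → Pos (lw L W) →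
    ((lw L W ∈ Good n ∨ mu (lw L W) < mu L) ↔ ¬ W.dualAnnihilator ≤ N0 (aL L) L)) ∧
  (∀ L' ∈ Lam n, L' ∉ Good n → L ≠ L' → adj L L' → mu L ≠ mu L')

/-- **LL** (1.2 h). The descending link.

Proof. `St_MC` (6) for `g : Sum.inl W ↦ tw 1 (lw L W)`, `Sum.inr W ↦ lw L W` on `Sum.inl '' Us .. ∪ Sum.inr '' Bs ..`: injective (`St_LW` (3); `lw L W ≤ L`, `L ≤ tw 1 (lw L W)`, both different
from `L`), adjacency: `tw 1 (lw L W) ≤ tw 1 (lw L W')` iff `W ≤ W'`, and then `≤ tw 1` of the other; `lw L W' ≤ L ≤ tw 1 (lw L W)`, adjacent iff `tw 1 (lw L W) ≤ tw 1 (lw L W')` iff `W ≤ W'` (they are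
different). The image is the descending link `dlk adj mu (Good n) (Lam n) L`: a neighbour `M > L`: `s M` is a lattice with `s L ≤ s M ≤ L` (`M ≤ t L`), `s M = lw L W`; a neighbour
`M < L`: `s L ≤ M ≤ L`, `M = lw L W`. Conditions: `St_LM` (2), (3), `St_LD`. -/
def St_LL : Prop := ∀ (n : ℕ) (L : Submodule ℤ (E n)) (c : ℕ), L ∈ Lam n → L ∉ Good n →
  SConn lkr (Sum.inl '' Us (rhoU (aL L - 1) L) ∪ Sum.inr '' Bs (I1 L) (N0 (aL L) L)) c →
  SConn adj (dlk adj mu (Good n) (Lam n) L) c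

/-- **LZ** (0.7 h). The good complex is highly connected.

Proof. `St_MB` (2) with `S0 = Good n`, `S = Lam n`, `f = mu`, `c = k + 1` (`St_LM` (4), `St_LB`); the descending links: `St_LL`, `St_MC` (1), and `St_KQ` for `F = Fq L`, `C = Ct (aL L) L`
(`(aL L - 1) + 1 = aL L`), `N0 ≠ ⊤` by `St_LH` (2), `l ∘ rhoU ∈ N0` by `St_LH` (3), ranks by `St_LN`, `4 (k + 1) ≤ n + 3`. -/
def St_LZ : Prop := ∀ n k : ℕ, 4 * k + 1 ≤ n → Conn (Fl adj (Good n)) (k + 1)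

end Pool.Agent.SLR
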