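import Pool.Agent.SLR.DefsB
import Pool.Agent.SLR.StL
import Pool.Agent.SLZ.StPS

/-!
# SLR, part B: good lattices modulo `GL_n(ℤ[t])` (statements; architect helper29)

Module `X` proves `theorem thm_X (h.. : St_..) : St_X` in `Pool/Agent/SLR/X.lean`, namespace `Pool.Agent.SLR`.
-/

set_option autoImplicit false
set_option linter.unusedVariables false

noncomputable section

namespace Pool.Agent.SLR

open Pool.Agent.SLZ Polynomial

/-- **BA** (1.2 h). Global sections of a good lattice.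

Proof. (1) `V + s L = E`: for `x ∈ L`: `x = v + y`, `y ∈ s L`, `v ∈ V ∩ L`. (2) Let `S ⊇ V ∩ L`, `t S ≤ S`. Every `v ∈ V` lies in some `t ^ m L`; induction on `m`: `m = 0`: `v ∈ V ∩ L`. `m + 1`:
`t ^ (-m-1) v ∈ L` is `h + y` with `h ∈ V ∩ L`, `y ∈ s L` by (1); `v = t ^ (m+1) h + t ^ (m+1) y`, the second is in `V ∩ t ^ m L`. (3) an element of `I1 L` is the class of some `u ∈ L ∩ t V`,
`h = s u`. (4) `k x̄ ∈ I1 L`, `x ∈ V ∩ L` (by (1)), `k x = t h + y`, `h ∈ V ∩ s L`, `y ∈ s L`, so `y ∈ V ∩ s L`. It suffices: for a prime `p` with `p x = t h + y`, `h, y ∈ V ∩ s L`: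
`h ∈ p E`: `s p x = h + s y`, `h = - s y + p (s x)`, `s y ∈ s ^ 2 L`, `h ∈ V`, so `h = p h'` (`LeA 1`, `-(s y) ∈ tw (-2) L`), `h' ∈ V ∩ s L`, and `x̄` is the class of `t h'`. -/
def St_BA : Prop := ∀ (n : ℕ) (L : Submodule ℤ (E n)), L ∈ Good n →
  (∀ x : ↥L, ∃ h : ↥L, (h : E n) ∈ V n ∧ (Submodule.Quotient.mk h : Fq L) = Submodule.Quotient.mk x) ∧
  (∀ S : Submodule ℤ (E n), V n ⊓ L ≤ S → (∀ x ∈ S, sh n 1 x ∈ S) → V n ≤ S) ∧
  (∀ u ∈ I1 L, ∃ h ∈ V n, h ∈ tw (-1) L ∧ ∃ h1 : ↥L, (h1 : E n) = sh n 1 h ∧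
    (Submodule.Quotient.mk h1 : Fq L) = u) ∧
  Sat (I1 L)

/-- **BW** (0.8 h). Upper neighbours inside the good complex.

Proof. `L'' = t (lw L W)`. (1) `x̄ ∈ I1 L ∩ W`, represented by `t h`, `h ∈ V ∩ s L` (`St_BA`), `t h ∈ lw L W` (`x̄ ∈ W`), so `h ∈ s (lw L W) = s ^ 2 L''`: `h ∈ V ∩ s ^ 2 L''`. It is divisible by every prime
(`LeA 1 L''`), by the same argument infinitely often, so `h = 0`. (2) `p x̄ = u + w`, `u ∈ I1 L`, `w ∈ W`, `u` = class of `t h`: `t h = p x - w' + y` (`w' ∈ lw L W` represents `w`, `y ∈ s L ≤ lw L W`), so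
`h = s (y - w') + p (s x)` with `s (y - w') ∈ s (lw L W) = s ^ 2 L''`; so `h = p h'`, `h' ∈ V ∩ s L`, `u = p u'`, `w = p (x̄ - u')`, `x̄ - u' ∈ W` (`Sat W`). -/
def St_BW : Prop := ∀ (n : ℕ) (L : Submodule ℤ (E n)) (W : Submodule ℤ (Fq L)), L ∈ Good n → Sat W →
  tw 1 (lw L W) ∈ Good n → I1 L ⊓ W = ⊥ ∧ Sat (I1 L ⊔ W)

/-- **BB** (1.2 h). Adapted bases.

Proof. The elements of `l` form a chain (finitely many submodules). Induction on the number of elements: let `W` be the largest, `l'` the others; `I ⊔ W` is saturated, so a direct summand,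
a complement `C` is free. `W` has a basis adapted to `l'` (induction inside the free module `W` with `I = ⊥`, or directly: `W' ∈ l'` is a direct summand of `W`); order the bases: first `I`, then the
basis of `W` with the smaller submodules first, then `C`; the numbers of elements are ranks. (A chain of saturated submodules `W_1 < .. < W_m`: choose complements `W_i = W_(i-1) ⊕ C_i`, bases
of `I, W_1, C_2, .., C_m, C`.) -/
def St_BB : Prop := ∀ (F : Type) [AddCommGroup F] [Module.Free ℤ F] [Module.Finite ℤ F] (n : ℕ)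
  (I : Submodule ℤ F) (l : List (Submodule ℤ F)), Module.finrank ℤ F = n → Sat I →
  (∀ W ∈ l, Sat W ∧ I ⊓ W = ⊥ ∧ Sat (I ⊔ W)) → (∀ W ∈ l, ∀ W' ∈ l, cmp W W') →
  ∃ (b : Module.Basis (Fin n) ℤ F) (d : ℕ), d ≤ n ∧
    I = Submodule.span ℤ (b '' {i | (i : ℕ) < d}) ∧
    ∀ W ∈ l, ∃ e : ℕ, d ≤ e ∧ e ≤ n ∧ W = Submodule.span ℤ (b '' {i | d ≤ (i : ℕ) ∧ (i : ℕ) < e})

/-- **BC** (2 h). From a basis at infinity to a basis of `V`.

Proof. `St_BA`: for `i < d` let `e i ∈ V ∩ s L` with `t (e i)` in the class `b i`, for `i ≥ d` let `e i ∈ V ∩ L` in the class `b i`. The entries of `e i` are polynomials (`Polynomial.toLaurent`), let `g` be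
the matrix with the columns `e i`. The `ℤ[t]`-submodule generated by the `e i` contains `V ∩ L`: for `x ∈ V ∩ L` subtract an integral combination `z` of the `t (e i)` (`i < d`) and `e i` (`i ≥ d`), then `x - z ∈ V ∩ s L`; its
multiple `t (x - z)` is in `L ∩ t V`, with class in `I1 L`, so `t (x - z) = t z' + y`, `z'` a combination of the `e i` (`i < d`), `y ∈ s L`, `x - z - z' = s y ∈ V ∩ s ^ 2 L = 0` (`LeA 1 L` for all primes,
content). So (`St_BA` (2)) it is `V`, `g` is invertible (surjective endomorphisms of `ℤ[t] ^ n` are bijective). Now let `M = g • Lw (wd n d)`: it is generated over `ℤ[s]` by `t (e i)` and `e i`, so `M ≤ L`, and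
`L = M + s L` (classes `b i`), so `L = M + s ^ k L` for all `k`, and `s ^ k L ≤ M` for large `k` (`M` is a lattice too): `M = L`. For `W = span (b i, d ≤ i < e)`: `lw L W = s L +` the span of the `e i`, `d ≤ i < e`;
`t (lw L W) = g • Lw (wd n e)`. -/
def St_BC : Prop := ∀ (n : ℕ) (L : Submodule ℤ (E n)) (b : Module.Basis (Fin n) ℤ (Fq L)) (d : ℕ),
  L ∈ Good n → d ≤ n → I1 L = Submodule.span ℤ (b '' {i | (i : ℕ) < d}) →
  ∃ g : GL (Fin n) ℤ[X], L = g • Lw (wd n d) ∧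
    ∀ e : ℕ, d ≤ e → e ≤ n →
      tw 1 (lw L (Submodule.span ℤ (b '' {i | d ≤ (i : ℕ) ∧ (i : ℕ) < e}))) = g • Lw (wd n e)

/-- **BD** (1 h). Cliques are diagonal in one basis.

Proof. `l = []`: trivial. The entries of `l` form a chain of lattices (`adj`), let `L` be the smallest; every entry `M` satisfies `L ≤ M ≤ t L`, `s M` is between `s L` and `L`: `M = tw 1 (lw L W)` (`St_LW`), `W` saturated,
`W ↦ tw 1 (lw L W)` is monotone in both directions, so the `W` are comparable. `St_BW`, `St_BB` (`finrank (Fq L) = n`, `St_LF`), `St_BC`. -/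
def St_BD : Prop := ∀ (n : ℕ) (l : List (Submodule ℤ (E n))), l ∈ (Fl adj (Good n)).s →
  ∃ g : GL (Fin n) ℤ[X], ∀ L ∈ l, ∃ d : ℕ, d ≤ n ∧ L = g • Lw (wd n d)

/-- **BE** (0.8 h). The action.

Proof. `g` and `g⁻¹` are matrices over `ℤ[t]`, multiplication with them commutes with `t`, maps `V` onto `V`; `g L0 ≤ t ^ m L0` if `m` bounds the degrees of the entries; same for `g⁻¹`. -/
def St_BE : Prop := ∀ (n : ℕ) (g : GL (Fin n) ℤ[X]),
  (∀ (L : Submodule ℤ (E n)) (k : ℤ), g • tw k L = tw k (g • L)) ∧ g • V n = V n ∧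
  (∀ L L' : Submodule ℤ (E n), g • L ≤ g • L' ↔ L ≤ L') ∧
  (∀ L L' : Submodule ℤ (E n), adj (g • L) (g • L') ↔ adj L L') ∧
  (∀ L : Submodule ℤ (E n), (g • L ∈ Good n ↔ L ∈ Good n))

/-- **BS** (1.5 h). Stabilizers.

Proof. `g • Lw w ≤ Lw w` iff all entries satisfy `deg g_ab ≤ w a - w b` (test on `t ^ (w b)` times the standard vector `b`; conversely degrees add). So `{g | g • Lw (w i) = Lw (w i) for all i}` is `PS ℤ w`
(`g • L = L` iff `g • L ≤ L` and `g⁻¹ • L ≤ L`). The stabilizer of `g0 • Lw (w i)` is conjugate to it: isomorphic groups, `St_FSub` (1), `St_PSF`. -/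
def St_BS : Prop := ∀ (n : ℕ) (J : Type) [Finite J] [Nonempty J] (w : J → Fin n → ℤ)
  (g0 : GL (Fin n) ℤ[X]) (k : ℕ),
  FPG k (fixingSubgroup (GL (Fin n) ℤ[X]) (Set.range fun i => g0 • Lw (w i)))

/-- **BF** (1 h). `GL_n(ℤ[t])` is of type `FP_k` for `n ≥ 4 k + 1`.

Proof. Brown's criterion `St_FBL` for `Fl adj (Good n)` (`St_LZ`; `[] ∈ A.s`). The action: `St_BE`. Orbits: `St_BD`: a list of length `j` is `g` times a list of `j` lattices `Lw (wd n d)`, `d ≤ n`: finitely many. The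
stabilizer of a list `l ≠ []`: `{x | x ∈ l}` is the range of `g • Lw (wd n (d i))`, `i : Fin l.length` (nonempty): `St_BS`. -/
def St_BF : Prop := ∀ n k : ℕ, 4 * k + 1 ≤ n → FPG k (GL (Fin n) ℤ[X])

/-- **BG** (1.2 h). The special linear group over the polynomial ring in one variable (and in no variable).

Proof. `MvPolynomial (Fin 1) ℤ` is isomorphic to `ℤ[X]` (`MvPolynomial.finOneEquiv` or `pUnitAlgEquiv`), so the groups `SL` are isomorphic (`St_FSub` (1)). `SL_n(ℤ[X])` is isomorphic to the kernel of `det : GL_n(ℤ[X]) → ℤ[X]ˣ`, and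
`ℤ[X]ˣ = {1, -1}`: index at most two (`St_FSub` (2)). `MvPolynomial (Fin 0) ℤ ≅ ℤ`: the same with `St_FGL`. -/
def St_BG : Prop := ∀ n k : ℕ,
  (4 * k + 1 ≤ n → FPG k (Matrix.SpecialLinearGroup (Fin n) (MvPolynomial (Fin 1) ℤ))) ∧
  FPG k (Matrix.SpecialLinearGroup (Fin n) (MvPolynomial (Fin 0) ℤ))

end Pool.Agent.SLR
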